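import Pool.Agent.Lib.MP_7f88e4_nt.SerEval

set_option autoImplicit false

namespace Pool.Agent.Lib.MP_7f88e4_nt

open PowerSeries Finset Filter Topology Metric

lemma hasFPS {f : ℂ⟦X⟧} {ρ : ℝ} (hρ : 0 < ρ) (h : ∀ z : ℂ, ‖z‖ < ρ → Conv (RingHom.id ℂ) z f) :
    HasFPowerSeriesOnBall (fun z => evS (RingHom.id ℂ) z f)
      (FormalMultilinearSeries.ofScalars ℂ fun n => coeff n f) 0 (ENNReal.ofReal ρ) where
  r_le := by
    refine ENNReal.le_of_forall_nnreal_lt fun r hr => ?_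
    refine FormalMultilinearSeries.le_radius_of_summable _ ?_
    have hr' : (r : ℝ) < ρ := by
      rwa [← ENNReal.ofReal_coe_nnreal, ENNReal.ofReal_lt_ofReal_iff hρ] at hr
    refine (h (r : ℝ) (by simpa using hr')).congr fun n => ?_
    simp
  r_pos := ENNReal.ofReal_pos.mpr hρ
  hasSum := by
    intro y hy
    rw [Metric.eball_ofReal, mem_ball_zero_iff] at hy
    have := (h y hy).of_norm.hasSum
    simpa [evS, mul_comm] using this

lemma eq_zero_of_evS {f : ℂ⟦X⟧} {ρ : ℝ} (hρ : 0 < ρ)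
    (h : ∀ z : ℂ, ‖z‖ < ρ → Conv (RingHom.id ℂ) z f)
    (h0 : ∀ᶠ z in 𝓝 (0 : ℂ), evS (RingHom.id ℂ) z f = 0) : f = 0 := by
  have := (hasFPS hρ h).hasFPowerSeriesAt.eq_zero_of_eventually h0
  ext n
  have h1 := FormalMultilinearSeries.coeff_ofScalars (p := fun n => coeff n f) (n := n)
  rw [this] at h1
  rw [← h1]
  simp [FormalMultilinearSeries.coeff]

lemma removable {A B : ℂ → ℂ} {U : Set ℂ} (hU : IsOpen U) (hA : DifferentiableOn ℂ A U)
    (hB : DifferentiableOn ℂ B U) (hne : ∀ z ∈ U, ∀ᶠ w in 𝓝[≠] z, B w ≠ 0) {M : ℝ}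
    (hM : ∀ z ∈ U, B z ≠ 0 → ‖A z / B z‖ ≤ M) :
    ∃ φ : ℂ → ℂ, DifferentiableOn ℂ φ U ∧ (∀ z ∈ U, ‖φ z‖ ≤ M) ∧ ∀ z ∈ U, B z * φ z = A z := by
  let g : ℂ → ℂ := fun z => A z / B z
  let φ : ℂ → ℂ := fun z => limUnder (𝓝[≠] z) g
  have h1 : ∀ z ∈ U, B z ≠ 0 → φ z = g z := fun z hz hb =>
    (((hA.differentiableAt (hU.mem_nhds hz)).div (hB.differentiableAt (hU.mem_nhds hz))
      hb).continuousAt.tendsto.mono_left nhdsWithin_le_nhds).limUnder_eq
  have h2 : ∀ z ∈ U, DifferentiableAt ℂ φ z := by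
    intro z hz
    obtain ⟨s, hs, hs'⟩ := (eventually_nhdsWithin_iff.mp (hne z hz)).exists_mem
    have hs2 : s ∩ U ∈ 𝓝 z := inter_mem hs (hU.mem_nhds hz)
    have hd := Complex.differentiableOn_update_limUnder_of_bddAbove (f := g) hs2
      (fun w hw => ((hA w hw.1.2).div (hB w hw.1.2) (hs' w hw.1.1 hw.2)).mono
        fun _ h => h.1.2)
      ⟨M, by rintro _ ⟨w, hw, rfl⟩; exact hM w hw.1.2 (hs' w hw.1.1 hw.2)⟩
    refine (hd.differentiableAt hs2).congr_of_eventuallyEq (mem_of_superset hs2 fun w hw => ?_)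
    by_cases e : w = z
    · subst e; simp [φ]
    · exact (h1 w hw.2 (hs' w hw.1 e)).trans (Function.update_of_ne e _ _).symm
  have h3 : ∀ z ∈ U, ∀ᶠ w in 𝓝[≠] z, w ∈ U ∧ B w ≠ 0 := fun z hz =>
    (eventually_nhdsWithin_of_eventually_nhds (hU.mem_nhds hz)).and (hne z hz)
  refine ⟨φ, fun z hz => (h2 z hz).differentiableWithinAt, fun z hz => ?_, fun z hz => ?_⟩
  · refine le_of_tendsto ((h2 z hz).continuousAt.norm.tendsto.mono_left
      (nhdsWithin_le_nhds (s := {z}ᶜ))) ((h3 z hz).mono fun w hw => ?_)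
    rw [h1 w hw.1 hw.2]; exact hM w hw.1 hw.2
  · refine tendsto_nhds_unique_of_eventuallyEq
      (((hB.differentiableAt (hU.mem_nhds hz)).continuousAt.mul
        (h2 z hz).continuousAt).tendsto.mono_left (nhdsWithin_le_nhds (s := {z}ᶜ)))
      ((hA.differentiableAt (hU.mem_nhds hz)).continuousAt.tendsto.mono_left nhdsWithin_le_nhds)
      ((h3 z hz).mono fun w hw => ?_)
    change B w * φ w = A w
    rw [h1 w hw.1 hw.2]; exact mul_div_cancel₀ _ hw.2

/-- A bounded quotient of convergent series has square summable coefficients. -/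
lemma arch {a b w : ℂ⟦X⟧} {ρ M : ℝ} (hρ : 0 < ρ) (hab : a = b * w) (hb : b ≠ 0)
    (ca : ∀ z : ℂ, ‖z‖ < ρ → Conv (RingHom.id ℂ) z a)
    (cb : ∀ z : ℂ, ‖z‖ < ρ → Conv (RingHom.id ℂ) z b)
    (hM : ∀ z : ℂ, ‖z‖ < ρ → evS (RingHom.id ℂ) z b ≠ 0 →
      ‖evS (RingHom.id ℂ) z a / evS (RingHom.id ℂ) z b‖ ≤ M) (n0 : ℕ) :
    ∑ n ∈ range n0, (‖coeff n w‖ * ρ ^ n) ^ 2 ≤ (M + 1) ^ 2 := by
  have hA := (hasFPS hρ ca).differentiableOn
  have hB := (hasFPS hρ cb).analyticOnNhd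
  rw [Metric.eball_ofReal] at hA hB
  obtain ⟨φ, h1, h2, h3⟩ := removable (M := M) isOpen_ball hA hB.differentiableOn
    (fun z hz => (hB z hz).eventually_eq_zero_or_eventually_ne_zero.resolve_left fun h => by
      have := hB.eqOn_zero_of_preconnected_of_eventuallyEq_zero (convex_ball _ _).isPreconnected
        hz h
      exact hb (eq_zero_of_evS hρ cb (mem_of_superset (ball_mem_nhds _ hρ) this)))
    fun z hz => hM z (mem_ball_zero_iff.mp hz)
  have key : ∀ r : ℝ, 0 < r → r < ρ → ∑ n ∈ range n0, (‖coeff n w‖ * r ^ n) ^ 2 ≤ (M + 1) ^ 2 := by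
    intro r hr0 hr
    obtain ⟨r', hr1, hr2⟩ := exists_between hr
    lift r' to NNReal using (hr0.trans hr1).le
    have hr'0 : 0 < r' := by exact_mod_cast hr0.trans hr1
    have hp := (h1.mono (closedBall_subset_ball hr2)).hasFPowerSeriesOnBall hr'0
    set p := cauchyPowerSeries φ 0 r'
    let c : ℂ⟦X⟧ := PowerSeries.mk fun n => p.coeff n
    have cc : ∀ z : ℂ, ‖z‖ < r' → Conv (RingHom.id ℂ) z c := fun z hz => by
      have := p.summable_norm_mul_pow (r := ‖z‖₊)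
        (lt_of_lt_of_le (by exact_mod_cast hz) hp.r_le)
      refine this.congr fun n => ?_
      simp [c]
    have ce : ∀ z : ℂ, ‖z‖ < r' → evS (RingHom.id ℂ) z c = φ z := fun z hz => by
      have := (hp.hasSum (y := z) (by
        rw [Metric.eball_coe, mem_ball_zero_iff]; exact hz)).tsum_eq
      simpa [evS, c, mul_comm] using this
    have hcw : c = w := by
      refine mul_left_cancel₀ hb ?_
      rw [← hab, ← sub_eq_zero, sub_eq_add_neg]
      have hr3 : (0 : ℝ) < r' := hr'0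
      refine eq_zero_of_evS hr3 (fun z hz => ((cb z (hz.trans hr2)).mul (cc z hz)).add
        (ca z (hz.trans hr2)).neg) (mem_of_superset (ball_mem_nhds _ hr3) fun z hz => ?_)
      have hz' := mem_ball_zero_iff.mp hz
      have hz2 := hz'.trans hr2
      change evS _ z _ = 0
      rw [evS_add ((cb z hz2).mul (cc z hz')) (ca z hz2).neg, evS_mul (cb z hz2) (cc z hz'),
        ce z hz', h3 z (mem_ball_zero_iff.mpr hz2)]
      simp [evS, tsum_neg]
    rw [hcw] at cc ce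
    have hs : Summable fun n => ‖coeff n w‖ * r ^ n :=
      (cc (r : ℝ) (by simpa [abs_of_pos hr0] using hr1)).congr fun n => by simp [abs_of_pos hr0]
    obtain ⟨n1, hn1, hn2⟩ := (((tendsto_sum_nat_add fun n => ‖coeff n w‖ * r ^ n).eventually
      (gt_mem_nhds one_pos)).and (eventually_ge_atTop n0)).exists
    obtain ⟨m, hm, ξ, hξ, hpar⟩ := parseval (range n1) id (Set.injOn_id _)
    have h4 := hpar _ subset_rfl fun n => coeff n w * (r : ℂ) ^ n
    have h5 : ∀ j ∈ range m, ‖∑ i ∈ range n1, coeff i w * (r : ℂ) ^ i * (ξ ^ j) ^ id i‖ ^ 2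
        ≤ (M + 1) ^ 2 := by
      intro j _
      have hz : ‖(r : ℂ) * ξ ^ j‖ = r := by simp [hξ, abs_of_pos hr0]
      have c1 := cc ((r : ℂ) * ξ ^ j) (by rw [hz]; exact hr1)
      have c2 := ce ((r : ℂ) * ξ ^ j) (by rw [hz]; exact hr1)
      have c3 := h2 ((r : ℂ) * ξ ^ j) (mem_ball_zero_iff.mpr (by rw [hz]; exact hr))
      rw [← c2, evS, ← c1.of_norm.sum_add_tsum_nat_add n1] at c3
      have c4 : ‖∑' i, (RingHom.id ℂ) (coeff (i + n1) w) * ((r : ℂ) * ξ ^ j) ^ (i + n1)‖ ≤ 1 := by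
        refine (norm_tsum_le_tsum_norm ((summable_nat_add_iff (f := fun i =>
          ‖(RingHom.id ℂ) (coeff i w) * ((r : ℂ) * ξ ^ j) ^ i‖) n1).mpr c1)).trans
          (le_trans (le_of_eq ?_) hn1.le)
        refine tsum_congr fun i => ?_
        rw [norm_mul, norm_pow, hz]; rfl
      refine pow_le_pow_left₀ (norm_nonneg _) ?_ 2
      have c5 := norm_sub_le (∑ i ∈ range n1, (RingHom.id ℂ) (coeff i w) * ((r : ℂ) * ξ ^ j) ^ i +
        ∑' i, (RingHom.id ℂ) (coeff (i + n1) w) * ((r : ℂ) * ξ ^ j) ^ (i + n1))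
        (∑' i, (RingHom.id ℂ) (coeff (i + n1) w) * ((r : ℂ) * ξ ^ j) ^ (i + n1))
      rw [add_sub_cancel_right] at c5
      refine le_trans (le_of_eq ?_) (c5.trans (add_le_add c3 c4))
      simp [mul_pow, mul_assoc]
    have h6 := sum_le_card_nsmul _ _ _ h5
    rw [h4, card_range, nsmul_eq_mul] at h6
    have h7 := le_of_mul_le_mul_left h6 (by exact_mod_cast hm)
    refine le_trans ?_ h7
    refine le_trans (le_of_eq ?_) (sum_le_sum_of_subset_of_nonneg (range_mono hn2)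
      fun _ _ _ => by positivity)
    simp [abs_of_pos hr0]
  have hc : Continuous fun r : ℝ => ∑ n ∈ range n0, (‖coeff n w‖ * r ^ n) ^ 2 := by fun_prop
  exact le_of_tendsto ((hc.tendsto ρ).mono_left (nhdsWithin_le_nhds (s := Set.Iio ρ)))
    (mem_of_superset (Ioo_mem_nhdsLT hρ) fun r hr => key r hr.1 hr.2)

end Pool.Agent.Lib.MP_7f88e4_nt
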