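import Pool.Agent.Lib.MP_7f88e4_nt.Defs

set_option autoImplicit false

namespace Pool.Agent.Lib.MP_7f88e4_nt

/-- A binary sequence is `q`-automatic if the base-`q` expansions (most significant digit first)
of the positions carrying the letter `true` form a regular language. -/
def IsAutomatic (q : ℕ) (v : ℕ → Bool) : Prop :=
  Language.IsRegular {w : List ℕ | ∃ n : ℕ, v n = true ∧ w = (Nat.digits q n).reverse}

end Pool.Agent.Lib.MP_7f88e4_nt
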