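import Mathlib

set_option autoImplicit false

namespace Pool.Agent.Lib.MP_7f88e4_nt

/-- The `3x+k` map on the integers. -/
def T (k x : ℤ) : ℤ := if Odd x then (3 * x + k) / 2 else x / 2

/-- The orbit of `x` is eventually periodic. -/
def EvPeriodic (k x : ℤ) : Prop := ∃ m p : ℕ, 1 ≤ p ∧ (T k)^[m + p] x = (T k)^[m] x

/-- The parity sequence of the orbit of `x` (`true` for odd). -/
def parity (k x : ℤ) (i : ℕ) : Bool := decide (Odd ((T k)^[i] x))

/-- The number of distinct blocks of `n` consecutive letters of an infinite word. -/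
noncomputable def complexityOf (v : ℕ → Bool) (n : ℕ) : ℕ :=
  Set.ncard {w : Fin n → Bool | ∃ i : ℕ, ∀ t : Fin n, w t = v (i + t)}

/-- The proportion of letters `true` in a finite word. -/
noncomputable def density (w : List Bool) : ℝ := (w.count true : ℝ) / w.length

/-- The infinite word `v` is the concatenation `W (ε 0) W (ε 1) W (ε 2) ⋯`. -/
def IsConcat (W : Bool → List Bool) (ε v : ℕ → Bool) : Prop :=
  ∀ (j t : ℕ) (ht : t < (W (ε j)).length),
    v ((∑ i ∈ Finset.range j, (W (ε i)).length) + t) = (W (ε j))[t]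

end Pool.Agent.Lib.MP_7f88e4_nt
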