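import Pool.Agent.Lib.MP_7f88e4_nt.Gap
import Pool.Agent.Lib.MP_7f88e4_nt.Defs

set_option autoImplicit false

namespace Pool.Agent.Lib.MP_7f88e4_nt

open Finset

lemma rec_orbit {k : ℤ} (hk : Odd k) (x : ℤ) : Rec k (fun n => (T k)^[n] x) (parity k x) := by
  intro n
  simp only [parity, decide_eq_true_eq, Function.iterate_succ_apply']
  set y := (T k)^[n] x
  unfold T
  split_ifs with h
  · obtain ⟨a, ha⟩ := h
    obtain ⟨b, hb⟩ := hk
    omega
  · obtain ⟨a, ha⟩ := Int.not_odd_iff_even.mp h
    omega

lemma evPeriodic_of_eq {k x : ℤ} {i j : ℕ} (hij : i < j) (h : (T k)^[i] x = (T k)^[j] x) :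
    EvPeriodic k x :=
  ⟨i, j - i, by omega, by rw [Nat.add_sub_cancel' hij.le, h]⟩

lemma complexityOf_eq (v : ℕ → Bool) (n : ℕ) : complexityOf v n = cxF v n 0 := by
  unfold complexityOf cxF
  congr 1
  ext w
  exact ⟨fun ⟨i, hi⟩ => ⟨i, Nat.zero_le _, (funext hi).symm⟩,
    fun ⟨i, _, hi⟩ => ⟨i, fun t => (congrFun hi t).symm⟩⟩

theorem complexity_main (k x : ℤ) (hk : Odd k) (hx : ¬ EvPeriodic k x) :
    ∃ C : ℕ, ∀ n : ℕ, 2 * n ≤ complexityOf (parity k x) n + C := by
  simp only [complexityOf_eq]
  exact complexity (rec_orbit hk x) fun i j hij h => hx (evPeriodic_of_eq hij h)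

lemma ones_eq_count {v : ℕ → Bool} (w : List Bool) (i : ℕ)
    (h : ∀ t (ht : t < w.length), v (i + t) = w[t]) : ones v i w.length = w.count true := by
  induction w using List.reverseRecOn with
  | nil => simp [ones]
  | append_singleton w a ih =>
    have h1 := h w.length (by simp)
    have h2 := ih fun t ht => by
      rw [h t (by simp; omega), List.getElem_append_left ht]
    simp only [List.length_append, List.length_singleton, ones, h2, List.count_append]
    rw [h1]
    cases a <;> simp

theorem two_block_main (C : ℕ) : ∃ η : ℝ, 0 < η ∧ ∃ L : ℕ, ∀ (k x : ℤ) (W : Bool → List Bool)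
    (ε : ℕ → Bool), Odd k → L ≤ (W true).length → (W true).length ≤ C * (W false).length →
    (W false).length ≤ C * (W true).length → |density (W false) - density (W true)| ≤ η →
    |x| + |k| ≤ 2 ^ (C * (W true).length) → IsConcat W ε (parity k x) → EvPeriodic k x := by
  obtain ⟨η, hη, L, H⟩ := two_block C
  refine ⟨η, hη, L + 1, fun k x W ε hk h1 h2 h3 h4 h5 h6 => ?_⟩
  have u1 : 0 < (W true).length := by omega
  have u0 : 0 < (W false).length := Nat.pos_of_ne_zero fun e => by rw [e] at h2; omega
  obtain ⟨i, j, hij, e⟩ := H k _ _ (rec_orbit hk x) (fun j => ∑ i ∈ range j, (W (ε i)).length) ε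
    (fun b => (W b).length) (fun b => (W b).count true) (fun j => sum_range_succ _ _)
    (fun j j' e t ht => by
      rw [h6 j t ht, h6 j' t (e ▸ ht)]
      simp only [e])
    (fun j => ones_eq_count _ _ (h6 j)) (fun b => List.count_le_length) (by omega) h2 h3
    (by
      have a0 : (0 : ℝ) < (W false).length := by exact_mod_cast u0
      have a1 : (0 : ℝ) < (W true).length := by exact_mod_cast u1
      have : ((W false).count true : ℝ) * (W true).length - (W true).count true * (W false).length
          = (density (W false) - density (W true)) * ((W false).length * (W true).length) := by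
        unfold density; field_simp
      rw [this, abs_mul, abs_of_pos (mul_pos a0 a1)]
      gcongr)
    (by simpa using h5)
  exact evPeriodic_of_eq hij e

end Pool.Agent.Lib.MP_7f88e4_nt
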