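import Mathlib

set_option autoImplicit false

namespace Pool.Agent.Lib.MP_7f88e4_nt

open Finset Filter Topology Matrix

variable {A : Type*} [Fintype A] [DecidableEq A]

/-- row stochastic matrices -/
def Stoch (P : Matrix A A ℚ) : Prop := (∀ a b, 0 ≤ P a b) ∧ ∀ a, ∑ b, P a b = 1

lemma Stoch.pow {P : Matrix A A ℚ} (h : Stoch P) (n : ℕ) : Stoch (P ^ n) := by
  induction n with
  | zero => exact ⟨fun a b => by rw [pow_zero, one_apply]; split_ifs <;> norm_num,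
      fun a => by simp [one_apply]⟩
  | succ n ih =>
    refine ⟨fun a b => ?_, fun a => ?_⟩
    · rw [pow_succ, mul_apply]; exact sum_nonneg fun c _ => mul_nonneg (ih.1 _ _) (h.1 _ _)
    · simp only [pow_succ, mul_apply]
      rw [sum_comm]
      simp only [← mul_sum, h.2, mul_one, ih.2]

lemma Stoch.pos_add {P : Matrix A A ℚ} (h : Stoch P) (n m : ℕ) (a c : A) :
    0 < (P ^ (n + m)) a c ↔ ∃ b, 0 < (P ^ n) a b ∧ 0 < (P ^ m) b c := by
  rw [pow_add, mul_apply, sum_pos_iff_of_nonneg fun b _ =>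
    mul_nonneg ((h.pow n).1 _ _) ((h.pow m).1 _ _)]
  refine exists_congr fun b => ⟨fun e => ?_, fun e => ⟨mem_univ _, mul_pos e.1 e.2⟩⟩
  exact ⟨pos_of_mul_pos_left e.2 ((h.pow m).1 _ _), pos_of_mul_pos_right e.2 ((h.pow n).1 _ _)⟩

lemma Stoch.exists_trans {P : Matrix A A ℚ} (h : Stoch P) : ∃ p, 0 < p ∧
    ∀ a b c, 0 < (P ^ p) a b → 0 < (P ^ p) b c → 0 < (P ^ p) a c := by
  have key : ∀ n d, (fun a b => 0 < (P ^ n) a b) = (fun a b => 0 < (P ^ (n + d)) a b) →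
      ∀ j t a c, 0 < (P ^ (n + t + j * d)) a c ↔ 0 < (P ^ (n + t)) a c := by
    intro n d e j t
    induction j with
    | zero => simp
    | succ j ih =>
      intro a c
      rw [← ih, show n + t + (j + 1) * d = n + d + (t + j * d) by ring, add_assoc n t, h.pos_add,
        h.pos_add n]
      exact exists_congr fun b => and_congr_left' (congrFun (congrFun e a) b).symm.to_iff
  obtain ⟨n, d, hd, e⟩ : ∃ n d, 0 < d ∧
      (fun a b => 0 < (P ^ n) a b) = fun a b => 0 < (P ^ (n + d)) a b := by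
    obtain ⟨n, n', hne, e⟩ := Finite.exists_ne_map_eq_of_infinite
      fun n : ℕ => fun a b => 0 < (P ^ n) a b
    rcases lt_or_gt_of_ne hne with h | h
    · exact ⟨n, n' - n, by omega, by rwa [Nat.add_sub_cancel' h.le]⟩
    · exact ⟨n', n - n', by omega, by rw [Nat.add_sub_cancel' h.le]; exact e.symm⟩
  have hp : n ≤ (n + 1) * d := by nlinarith
  refine ⟨(n + 1) * d, by positivity, fun a b c h1 h2 => ?_⟩
  have := key n d e (n + 1) ((n + 1) * d - n) a c
  rw [Nat.add_sub_cancel' hp] at this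
  exact this.mp ((h.pos_add _ _ _ _).mpr ⟨b, h1, h2⟩)

lemma Stoch.le_of {U : Matrix A A ℚ} (h : Stoch U) {κ hi : ℚ} {f : A → ℚ} {a b : A}
    (hκ : κ ≤ U a b) (hf : ∀ c, 0 < U a c → f c ≤ hi) (hb : f b ≤ hi) (h0 : 0 ≤ κ) :
    (U *ᵥ f) a ≤ κ * f b + (1 - κ) * hi := by
  have h1 : hi - (U *ᵥ f) a = ∑ c, U a c * (hi - f c) := by
    simp only [mul_sub, sum_sub_distrib, ← sum_mul, h.2, one_mul]; rfl
  have h2 := single_le_sum (f := fun c => U a c * (hi - f c)) (fun c _ => by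
    rcases (h.1 a c).eq_or_lt with e | e
    · simp [← e]
    · exact mul_nonneg e.le (sub_nonneg.mpr (hf c e))) (mem_univ b)
  have h3 := mul_le_mul_of_nonneg_right hκ (sub_nonneg.mpr hb)
  linarith

lemma Stoch.ge_of {U : Matrix A A ℚ} (h : Stoch U) {κ lo : ℚ} {f : A → ℚ} {a b : A}
    (hκ : κ ≤ U a b) (hf : ∀ c, 0 < U a c → lo ≤ f c) (hb : lo ≤ f b) (h0 : 0 ≤ κ) :
    κ * f b + (1 - κ) * lo ≤ (U *ᵥ f) a := by
  have := h.le_of (f := -f) (hi := -lo) hκ (fun c hc => neg_le_neg (hf c hc)) (neg_le_neg hb) h0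
  rw [mulVec_neg, Pi.neg_apply, Pi.neg_apply] at this
  linarith

lemma Stoch.tendsto_diff {U : Matrix A A ℚ} (h : Stoch U)
    (ht : ∀ a b c, 0 < U a b → 0 < U b c → 0 < U a c) (g : A → ℚ) (a : A) :
    Tendsto (fun m => ((U ^ m *ᵥ (U *ᵥ g - g)) a : ℝ)) atTop (𝓝 0) := by
  obtain ⟨κ, k0, k1, k2⟩ : ∃ κ : ℚ, 0 < κ ∧ κ ≤ 1 / 2 ∧ ∀ a b, 0 < U a b → κ ≤ U a b := by
    let s := insert (1 / 2) ((univ.image fun p : A × A => U p.1 p.2).filter (0 < ·))
    refine ⟨s.min' (insert_nonempty _ _), ?_, min'_le _ _ (mem_insert_self _ _), fun a b hab =>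
      min'_le _ _ (mem_insert_of_mem (mem_filter.mpr ⟨mem_image_of_mem _ (mem_univ (a, b)), hab⟩))⟩
    rcases mem_insert.mp (s.min'_mem (insert_nonempty _ _)) with e | e
    · rw [e]; norm_num
    · exact (mem_filter.mp e).2
  have hser : ∀ a, ∃ b, 0 < U a b := fun a => by
    obtain ⟨b, -, hb⟩ := (sum_pos_iff_of_nonneg (s := univ) fun b _ => h.1 a b).mp
      (by rw [h.2]; norm_num)
    exact ⟨b, hb⟩
  have hbot : ∀ a, ∃ b, 0 < U a b ∧ 0 < U b b ∧ ∀ c, 0 < U b c → 0 < U c b := fun a => by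
    obtain ⟨b, hb, hmin⟩ := exists_min_image (univ.filter fun b => 0 < U a b)
      (fun b => (univ.filter fun c => 0 < U b c).card)
      (by obtain ⟨b, hb⟩ := hser a; exact ⟨b, by simpa using hb⟩)
    have hb' : 0 < U a b := by simpa using hb
    have key : ∀ c, 0 < U b c → ∀ d, 0 < U b d → 0 < U c d := fun c hc d hd => by
      have := eq_of_subset_of_card_le (s := univ.filter fun d => 0 < U c d)
        (t := univ.filter fun d => 0 < U b d) (fun d hd => by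
          simpa using ht _ _ _ hc (by simpa using hd)) (hmin c (by simpa using ht _ _ _ hb' hc))
      have h1 : d ∈ univ.filter fun d => 0 < U b d := by simpa using hd
      rw [← this] at h1
      simpa using h1
    obtain ⟨b', hb2⟩ := hser b
    exact ⟨b', ht _ _ _ hb' hb2, key _ hb2 _ hb2, fun c hc => key _ (ht _ _ _ hb2 hc) _ hb2⟩
  set B : ℚ := ∑ a, |g a| with hB
  have hgB : ∀ a, |g a| ≤ B := fun a =>
    single_le_sum (f := fun a => |g a|) (fun _ _ => abs_nonneg _) (mem_univ a)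
  have hB0 : 0 ≤ B := sum_nonneg fun _ _ => abs_nonneg _
  have e1 : ∀ m (f : A → ℚ), U ^ (m + 1) *ᵥ f = U *ᵥ (U ^ m *ᵥ f) := fun m f => by
    rw [pow_succ', mulVec_mulVec]
  have e2 : ∀ m, U ^ m *ᵥ (U *ᵥ g - g) = U *ᵥ (U ^ m *ᵥ g) - U ^ m *ᵥ g := fun m => by
    rw [mulVec_sub, mulVec_mulVec, ← pow_succ, e1]
  have h1 : ∀ b, 0 < U b b → (∀ c, 0 < U b c → 0 < U c b) → ∀ m,
      |(U ^ m *ᵥ (U *ᵥ g - g)) b| ≤ 2 * B * (1 - κ) ^ m := by
    intro b b1 b2 m
    obtain ⟨lo, hi, c1, c2⟩ : ∃ lo hi, hi - lo = 2 * B * (1 - κ) ^ m ∧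
        ∀ c, 0 < U b c → lo ≤ (U ^ m *ᵥ g) c ∧ (U ^ m *ᵥ g) c ≤ hi := by
      induction m with
      | zero => exact ⟨-B, B, by ring, fun c _ => by simpa using abs_le.mp (hgB c)⟩
      | succ m ih =>
        obtain ⟨lo, hi, c1, c2⟩ := ih
        refine ⟨κ * (U ^ m *ᵥ g) b + (1 - κ) * lo, κ * (U ^ m *ᵥ g) b + (1 - κ) * hi,
          by rw [pow_succ]; linear_combination (1 - κ) * c1, fun c hc => ?_⟩
        rw [e1]
        exact ⟨h.ge_of (k2 _ _ (b2 c hc)) (fun d hd => (c2 d (ht _ _ _ hc hd)).1) (c2 b b1).1 k0.le,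
          h.le_of (k2 _ _ (b2 c hc)) (fun d hd => (c2 d (ht _ _ _ hc hd)).2) (c2 b b1).2 k0.le⟩
    have c3 := h.ge_of (h.1 b b) (fun d hd => (c2 d hd).1) (c2 b b1).1 le_rfl
    have c4 := h.le_of (h.1 b b) (fun d hd => (c2 d hd).2) (c2 b b1).2 le_rfl
    rw [e2, Pi.sub_apply, abs_le]
    constructor <;> linarith [(c2 b b1).1, (c2 b b1).2]
  have h2 : ∀ (m : ℕ) a, |(U ^ m *ᵥ (U *ᵥ g - g)) a| ≤ 2 * B * ((m + 1) * (1 - κ) ^ m) := by
    intro m
    induction m with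
    | zero =>
      intro a
      have c3 := h.ge_of (h.1 a a) (fun d _ => (abs_le.mp (hgB d)).1) (abs_le.mp (hgB a)).1 le_rfl
      have c4 := h.le_of (h.1 a a) (fun d _ => (abs_le.mp (hgB d)).2) (abs_le.mp (hgB a)).2 le_rfl
      rw [pow_zero, one_mulVec, Pi.sub_apply, abs_le]
      constructor <;> simp <;> linarith [(abs_le.mp (hgB a)).1, (abs_le.mp (hgB a)).2]
    | succ m ih =>
      intro a
      obtain ⟨b, b0, b1, b2⟩ := hbot a
      have c3 := h.ge_of (k2 _ _ b0) (fun d _ => (abs_le.mp (ih d)).1) (abs_le.mp (ih b)).1 k0.le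
      have c4 := h.le_of (k2 _ _ b0) (fun d _ => (abs_le.mp (ih d)).2) (abs_le.mp (ih b)).2 k0.le
      have c5 := abs_le.mp (h1 b b1 b2 m)
      have c6 : 0 ≤ 2 * B * (1 - κ) ^ m := mul_nonneg (by positivity) (pow_nonneg (by linarith) _)
      rw [e1, abs_le, pow_succ]
      push_cast
      constructor <;> nlinarith [mul_le_mul_of_nonneg_left c5.1 k0.le,
        mul_le_mul_of_nonneg_left c5.2 k0.le]
  have k3 : (0 : ℝ) < κ := by exact_mod_cast k0
  have k4 : (κ : ℝ) ≤ 1 / 2 := by simpa using (Rat.cast_le (K := ℝ)).mpr k1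
  have h3 := ((tendsto_self_mul_const_pow_of_lt_one (r := 1 - (κ : ℝ)) (by linarith)
    (by linarith)).add (tendsto_pow_atTop_nhds_zero_of_lt_one (r := 1 - (κ : ℝ)) (by linarith)
      (by linarith))).const_mul (2 * B : ℝ)
  rw [add_zero, mul_zero] at h3
  refine squeeze_zero_norm (fun m => ?_) h3
  have := h2 m a
  rw [add_mul, one_mul] at this
  rw [Real.norm_eq_abs]
  exact_mod_cast this

lemma Stoch.exists_limit {P : Matrix A A ℚ} (h : Stoch P) : ∃ p, 0 < p ∧ ∀ g : A → ℚ,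
    ∃ g1 : A → ℚ, P ^ p *ᵥ g1 = g1 ∧
      ∀ a, Tendsto (fun m => (((P ^ p) ^ m *ᵥ (g - g1)) a : ℝ)) atTop (𝓝 0) := by
  obtain ⟨p, hp, ht⟩ := h.exists_trans
  refine ⟨p, hp, fun g => ?_⟩
  set U := P ^ p
  have hU := (h.pow p).tendsto_diff ht
  let f : (A → ℚ) →ₗ[ℚ] (A → ℚ) := Matrix.toLin' U - LinearMap.id
  have hf : ∀ u, f u = U *ᵥ u - u := fun u => rfl
  have hd : Disjoint (LinearMap.range f) (LinearMap.ker f) := by
    rw [Submodule.disjoint_def]
    rintro _ ⟨u, rfl⟩ h2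
    rw [LinearMap.mem_ker, hf, sub_eq_zero] at h2
    have h3 : ∀ m, U ^ m *ᵥ f u = f u := fun m => by
      induction m with
      | zero => simp
      | succ m ih => rw [pow_succ, ← mulVec_mulVec, h2, ih]
    funext a
    have := hU u a
    rw [← hf] at this
    exact_mod_cast tendsto_nhds_unique tendsto_const_nhds
      (this.congr fun m => congrArg (fun w : A → ℚ => (w a : ℝ)) (h3 m))
  have htop := Submodule.eq_top_of_disjoint _ _ (LinearMap.finrank_range_add_finrank_ker f).ge hd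
  obtain ⟨_, ⟨u, rfl⟩, g1, h1, h2⟩ := Submodule.mem_sup.mp (htop ▸ Submodule.mem_top (x := g))
  rw [LinearMap.mem_ker, hf, sub_eq_zero] at h1
  refine ⟨g1, h1, fun a => ?_⟩
  rw [← h2, add_sub_cancel_right]
  exact hU u a

end Pool.Agent.Lib.MP_7f88e4_nt
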