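import Pool.Agent.Lib.MP_7f88e4_nt.Blocks
import Pool.Agent.Lib.MP_7f88e4_nt.Markov
import Pool.Agent.Lib.MP_7f88e4_nt.DefsAuto
import Pool.Agent.Lib.MP_7f88e4_nt.Final

set_option autoImplicit false

namespace Pool.Agent.Lib.MP_7f88e4_nt

open Finset Filter Topology Matrix

lemma sum_range_blocks {M : Type*} [AddCommMonoid M] (f : ℕ → M) (N Q : ℕ) :
    ∑ t ∈ range (N * Q), f t = ∑ j ∈ range N, ∑ r ∈ range Q, f (j * Q + r) := by
  induction N with
  | zero => simp
  | succ N ih => rw [add_mul, one_mul, sum_range_add, ih, sum_range_succ]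

lemma ones_eq_sum (v : ℕ → Bool) (i L : ℕ) :
    (ones v i L : ℚ) = ∑ t ∈ range L, if v (i + t) = true then (1 : ℚ) else 0 := by
  induction L with
  | zero => simp [ones]
  | succ L ih =>
    rw [sum_range_succ, ← ih]
    simp only [ones]
    split_ifs <;> simp

section kernel

variable {A : Type*} [Fintype A] [DecidableEq A]

/-- the transition matrix of a uniform substitution -/
def trM (q : ℕ) (d : ℕ → A → A) : Matrix A A ℚ :=
  fun a b => (∑ r ∈ range q, if d r a = b then 1 else 0) / q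

lemma trM_mulVec (q : ℕ) (d : ℕ → A → A) (g : A → ℚ) (a : A) :
    (trM q d *ᵥ g) a = (∑ r ∈ range q, g (d r a)) / q := by
  simp only [mulVec, dotProduct, trM, div_mul_eq_mul_div, sum_mul]
  rw [← sum_div, sum_comm]
  simp

lemma trM_stoch {q : ℕ} (hq : 0 < q) (d : ℕ → A → A) : Stoch (trM q d) := by
  refine ⟨fun a b => div_nonneg (sum_nonneg fun r _ => by split_ifs <;> norm_num) (by positivity),
    fun a => ?_⟩
  have := trM_mulVec q d (fun _ => 1) a
  simp only [mulVec, dotProduct, mul_one] at this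
  rw [this]
  have : (q : ℚ) ≠ 0 := by positivity
  simp [this]

lemma block_sum {q : ℕ} (hq : 0 < q) {d : ℕ → A → A} {ε : ℕ → A}
    (hε : ∀ j r, r < q → ε (j * q + r) = d r (ε j)) (n : ℕ) (g : A → ℚ) (j : ℕ) :
    ∑ t ∈ range (q ^ n), g (ε (j * q ^ n + t)) = q ^ n * (trM q d ^ n *ᵥ g) (ε j) := by
  have hq' : (q : ℚ) ≠ 0 := by positivity
  induction n generalizing g with
  | zero => simp
  | succ n ih =>
    rw [pow_succ q, sum_range_blocks, pow_succ (trM q d), ← mulVec_mulVec, pow_succ (q : ℚ),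
      mul_comm _ (q : ℚ), mul_assoc, ← ih, mul_sum]
    refine sum_congr rfl fun t _ => ?_
    rw [trM_mulVec, mul_div_cancel₀ _ hq']
    refine sum_congr rfl fun r hr => ?_
    rw [← hε _ _ (mem_range.mp hr)]
    congr 2
    ring

omit [Fintype A] [DecidableEq A] in
lemma block_same {q : ℕ} (hq : 0 < q) {d : ℕ → A → A} {ε : ℕ → A}
    (hε : ∀ j r, r < q → ε (j * q + r) = d r (ε j)) (n : ℕ) {j j' : ℕ} (e : ε j = ε j') :
    ∀ t < q ^ n, ε (j * q ^ n + t) = ε (j' * q ^ n + t) := by
  induction n with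
  | zero => intro t ht; simpa [show t = 0 by simpa using ht] using e
  | succ n ih =>
    intro t ht
    have h1 : ∀ i, i * q ^ (n + 1) + t = (i * q ^ n + t / q) * q + t % q := fun i => by
      rw [add_mul, add_assoc, Nat.div_add_mod', pow_succ, mul_assoc]
    rw [h1, h1, hε _ _ (Nat.mod_lt _ hq), hε _ _ (Nat.mod_lt _ hq),
      ih _ ((Nat.div_lt_iff_lt_mul hq).mpr (by rwa [← pow_succ]))]

/-- number of marked letters in the `n`-th image of a letter -/
def hN (q : ℕ) (d : ℕ → A → A) (out : A → Bool) : ℕ → A → ℕ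
  | 0, a => if out a = true then 1 else 0
  | n + 1, a => ∑ r ∈ range q, hN q d out n (d r a)

omit [Fintype A] [DecidableEq A] in
lemma hN_le (q : ℕ) (d : ℕ → A → A) (out : A → Bool) (n : ℕ) (a : A) : hN q d out n a ≤ q ^ n := by
  induction n generalizing a with
  | zero => simp only [hN]; split_ifs <;> simp
  | succ n ih =>
    simp only [hN]
    refine (sum_le_sum fun r _ => ih (d r a)).trans ?_
    simp [pow_succ, mul_comm]

lemma hN_cast {q : ℕ} (hq : 0 < q) (d : ℕ → A → A) (out : A → Bool) (n : ℕ) (a : A) :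
    (hN q d out n a : ℚ) =
      q ^ n * (trM q d ^ n *ᵥ fun b => if out b = true then (1 : ℚ) else 0) a := by
  have hq' : (q : ℚ) ≠ 0 := by positivity
  induction n generalizing a with
  | zero => simp [hN]
  | succ n ih =>
    rw [pow_succ' (trM q d), ← mulVec_mulVec, trM_mulVec, pow_succ, mul_assoc,
      mul_div_cancel₀ _ hq', mul_sum]
    simp only [hN, Nat.cast_sum, ih]

lemma average_zero {q : ℕ} (hq : 0 < q) {d : ℕ → A → A} {ε : ℕ → A}
    (hε : ∀ j r, r < q → ε (j * q + r) = d r (ε j)) (p : ℕ) (g : A → ℚ)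
    (hg : ∀ a, Tendsto (fun m => ((((trM q d ^ p) ^ m *ᵥ g) a : ℚ) : ℝ)) atTop (𝓝 0)) :
    Tendsto (fun j : ℕ => (∑ i ∈ range j, (g (ε i) : ℝ)) / j) atTop (𝓝 0) := by
  rw [Metric.tendsto_nhds]
  intro η hη
  obtain ⟨m, hm⟩ : ∃ m, ∀ a, |((((trM q d ^ p) ^ m *ᵥ g) a : ℚ) : ℝ)| < η / 2 := by
    have := eventually_all.mpr fun a => Metric.tendsto_nhds.mp (hg a) (η / 2) (by positivity)
    simpa only [Real.dist_eq, sub_zero] using this.exists
  set Q := q ^ (p * m) with hQ
  have hQ0 : 0 < Q := by positivity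
  set B : ℝ := ∑ a, |(g a : ℝ)|
  have hB : ∀ a, |(g a : ℝ)| ≤ B := fun a =>
    single_le_sum (f := fun a => |(g a : ℝ)|) (fun _ _ => abs_nonneg _) (mem_univ a)
  have key : ∀ j : ℕ, |∑ i ∈ range j, (g (ε i) : ℝ)| ≤ η / 2 * j + Q * B := by
    intro j
    have e : j = j / Q * Q + j % Q := (Nat.div_add_mod' j Q).symm
    have h1 : |∑ i ∈ range (j / Q * Q), (g (ε i) : ℝ)| ≤ η / 2 * j := by
      rw [sum_range_blocks]
      refine (abs_sum_le_sum_abs _ _).trans ((sum_le_sum (g := fun _ => (Q : ℝ) * (η / 2))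
        fun i _ => ?_).trans ?_)
      · have := congrArg (fun z : ℚ => (z : ℝ)) (block_sum hq hε (p * m) g i)
        simp only [Rat.cast_sum, Rat.cast_mul, Rat.cast_pow, Rat.cast_natCast] at this
        rw [hQ, this, abs_mul, pow_mul (trM q d), abs_of_nonneg (by positivity), Nat.cast_pow]
        gcongr
        exact (hm _).le
      · have : ((j / Q * Q : ℕ) : ℝ) ≤ j := by exact_mod_cast Nat.div_mul_le_self j Q
        simp only [sum_const, card_range, nsmul_eq_mul]
        push_cast at this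
        nlinarith
    have h2 : |∑ t ∈ range (j % Q), (g (ε (j / Q * Q + t)) : ℝ)| ≤ Q * B := by
      refine (abs_sum_le_sum_abs _ _).trans ((sum_le_sum fun i _ => hB _).trans ?_)
      simp only [sum_const, card_range, nsmul_eq_mul]
      have : ((j % Q : ℕ) : ℝ) ≤ Q := by exact_mod_cast (Nat.mod_lt j hQ0).le
      have := (abs_nonneg _).trans (hB (ε 0))
      gcongr
    have h3 : ∑ i ∈ range j, (g (ε i) : ℝ) = ∑ i ∈ range (j / Q * Q), (g (ε i) : ℝ) +
        ∑ t ∈ range (j % Q), (g (ε (j / Q * Q + t)) : ℝ) := by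
      rw [← sum_range_add (fun i => (g (ε i) : ℝ)), ← e]
    rw [h3]
    exact (abs_add_le _ _).trans (add_le_add h1 h2)
  have h4 := (tendsto_natCast_atTop_atTop (R := ℝ)).const_div_atTop (Q * B : ℝ)
  filter_upwards [h4.eventually (gt_mem_nhds (show (0 : ℝ) < η / 2 by positivity)),
    eventually_gt_atTop 0] with j h5 h6
  have h7 : (0 : ℝ) < j := by exact_mod_cast h6
  rw [Real.dist_eq, sub_zero, abs_div, abs_of_pos h7, div_lt_iff₀ h7]
  rw [div_lt_iff₀ h7] at h5
  linarith [key j]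

theorem kernel_main {k : ℤ} {x : ℕ → ℤ} {v : ℕ → Bool} (hrec : Rec k x v) {q : ℕ} (hq : 2 ≤ q)
    {d : ℕ → A → A} {ε : ℕ → A} (hε : ∀ j r, r < q → ε (j * q + r) = d r (ε j))
    (out : A → Bool) (hv : ∀ n, v n = out (ε n)) : ∃ i j, i < j ∧ x i = x j := by
  have hq0 : 0 < q := by omega
  obtain ⟨p, hp, H⟩ := (trM_stoch hq0 d).exists_limit
  set g0 : A → ℚ := fun b => if out b = true then (1 : ℚ) else 0 with hg0
  obtain ⟨g1, f1, f2⟩ := H g0
  have f3 : ∀ m, (trM q d ^ p) ^ m *ᵥ g1 = g1 := fun m => by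
    induction m with
    | zero => simp
    | succ m ih => rw [pow_succ, ← mulVec_mulVec, f1, ih]
  have f4 : ∀ κ a, (hN q d out (p * κ) a : ℝ) - g1 a * ((q ^ (p * κ) : ℕ) : ℝ) =
      ((q ^ (p * κ) : ℕ) : ℝ) * (((trM q d ^ p) ^ κ *ᵥ (g0 - g1)) a : ℚ) := fun κ a => by
    have := congrArg (fun z : ℚ => (z : ℝ)) (hN_cast hq0 d out (p * κ) a)
    simp only [Rat.cast_mul, Rat.cast_pow, Rat.cast_natCast] at this
    rw [this, mulVec_sub, f3, pow_mul (trM q d)]
    simp only [Pi.sub_apply, Rat.cast_sub, Nat.cast_pow, hg0]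
    ring
  refine uniform_blocks hrec ε (fun κ => q ^ (p * κ)) (fun a κ => hN q d out (p * κ) a) g1
    (fun κ => by positivity) ?_ (fun κ j j' e t ht => ?_) (fun κ j => ?_)
    (fun a κ => hN_le _ _ _ _ _) (fun a => ?_) (fun κ => ?_)
  · exact (tendsto_pow_atTop_atTop_of_one_lt (by omega : 1 < q)).comp
      (tendsto_id.const_mul_atTop' hp)
  · rw [hv, hv, block_same hq0 hε _ e t ht]
  · have := ones_eq_sum v (j * q ^ (p * κ)) (q ^ (p * κ))
    simp only [hv] at this
    rw [block_sum hq0 hε _ g0, ← hN_cast hq0] at this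
    exact_mod_cast this
  · have := (f2 a).add_const (g1 a : ℝ)
    rw [zero_add] at this
    refine this.congr fun κ => ?_
    have h0 : (0 : ℝ) < ((q ^ (p * κ) : ℕ) : ℝ) := by positivity
    rw [eq_div_iff h0.ne']
    linear_combination - f4 κ a
  · simp only [f4, ← mul_sum, mul_div_assoc]
    have := average_zero hq0 hε p ((trM q d ^ p) ^ κ *ᵥ (g0 - g1)) fun a => by
      simp only [mulVec_mulVec, ← pow_add]
      exact (f2 a).comp (tendsto_add_atTop_nat κ)
    simpa using this.const_mul ((q ^ (p * κ) : ℕ) : ℝ)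

end kernel

theorem automatic_main (q : ℕ) (hq : 2 ≤ q) (k x : ℤ) (hk : Odd k)
    (h : IsAutomatic q (parity k x)) : EvPeriodic k x := by
  classical
  obtain ⟨σ, _, M, hM⟩ := h
  let ε : ℕ → σ × Bool := fun j => (M.eval (Nat.digits q j).reverse, decide (j = 0))
  let d : ℕ → σ × Bool → σ × Bool := fun r a =>
    if a.2 = true then (if r = 0 then (M.start, true) else (M.step M.start r, false))
    else (M.step a.1 r, false)
  have hε : ∀ j r, r < q → ε (j * q + r) = d r (ε j) := by
    intro j r hr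
    by_cases hjr : j ≠ 0 ∨ r ≠ 0
    · have h1 : Nat.digits q (j * q + r) = r :: Nat.digits q j := by
        rw [add_comm, mul_comm]
        exact Nat.digits_add q hq r j hr hjr.symm
      have h2 : j * q + r ≠ 0 := by
        rcases hjr with h | h
        · have := Nat.mul_pos (Nat.pos_of_ne_zero h) (show 0 < q by omega); omega
        · omega
      simp only [ε, d, h1, List.reverse_cons, DFA.eval_append_singleton, h2, decide_false]
      by_cases hj : j = 0
      · have hr0 : r ≠ 0 := by tauto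
        simp [hj, hr0]
      · simp [hj]
    · push Not at hjr
      simp [ε, d, hjr.1, hjr.2]
  obtain ⟨i, j, hij, e⟩ := kernel_main (rec_orbit hk x) hq hε (fun a => decide (a.1 ∈ M.accept))
    fun n => by
      have : (Nat.digits q n).reverse ∈ M.accepts ↔ parity k x n = true := by
        rw [hM]
        refine ⟨fun ⟨m, h1, h2⟩ => ?_, fun h => ⟨n, h, rfl⟩⟩
        rwa [Nat.digits.injective q (List.reverse_injective h2)]
      rw [DFA.mem_accepts] at this
      simp only [ε, this, Bool.decide_eq_true]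
  exact evPeriodic_of_eq hij e

end Pool.Agent.Lib.MP_7f88e4_nt
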