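import Mathlib

set_option autoImplicit false

namespace Pool.Agent.Lib.MP_7f88e4_nt

open Finset Filter Topology

/-- integer sequences that are constant along an ultrafilter -/
def evConst (U : Ultrafilter ℕ) : Submodule ℤ (ℕ → ℤ) where
  carrier := {f | ∃ c, ∀ᶠ κ in U, f κ = c}
  add_mem' := fun ⟨c, h⟩ ⟨c', h'⟩ => ⟨c + c', (h.and h').mono fun κ e => by simp [e.1, e.2]⟩
  zero_mem' := ⟨0, Eventually.of_forall fun _ => rfl⟩
  smul_mem' := fun a _ ⟨c, h⟩ => ⟨a * c, h.mono fun κ e => by simp [e]⟩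

lemma tendsto_of_not_evConst {U : Ultrafilter ℕ} {f : ℕ → ℤ} (h : f ∉ evConst U) :
    Tendsto (fun κ => |f κ|) U atTop := by
  refine tendsto_atTop.mpr fun B => ?_
  by_contra hc
  rw [← Ultrafilter.eventually_not] at hc
  obtain ⟨c, -, h1⟩ := (Ultrafilter.eventually_exists_mem_iff (f := U) (Set.finite_Icc (-B) B)
    (P := fun c κ => f κ = c)).mp (hc.mono fun κ e => ⟨_, abs_le.mp (not_le.mp e).le, rfl⟩)
  exact h ⟨c, h1⟩

lemma exists_lattice (U : Ultrafilter ℕ) {A : Type*} [Fintype A] (H : A → ℕ → ℤ) :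
    ∃ (r : ℕ) (lam : Fin r → ℕ → ℤ) (m : A → Fin r → ℤ) (n : A → ℤ),
      (∀ i, lam i ∈ Submodule.span ℤ (Set.range H)) ∧
      (∀ a, ∀ᶠ κ in U, H a κ = n a + ∑ i, m a i * lam i κ) ∧
      ∀ ν : Fin r → ℤ, ν ≠ 0 → Tendsto (fun κ => |∑ i, ν i * lam i κ|) U atTop := by
  let π := (evConst U).mkQ
  let Λ := (Submodule.span ℤ (Set.range H)).map π
  have : Module.Finite ℤ Λ :=
    Module.Finite.iff_fg.mpr ((Submodule.fg_span (Set.finite_range H)).map π)
  have : Module.IsTorsionFree ℤ ((ℕ → ℤ) ⧸ evConst U) := by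
    refine Module.IsTorsionFree.of_smul_eq_zero fun a x h => ?_
    obtain ⟨f, rfl⟩ := Submodule.Quotient.mk_surjective _ x
    rw [← Submodule.Quotient.mk_smul, Submodule.Quotient.mk_eq_zero] at h
    obtain ⟨c, hc⟩ := h
    refine or_iff_not_imp_left.mpr fun ha => (Submodule.Quotient.mk_eq_zero _).mpr
      ⟨c / a, hc.mono fun κ e => ?_⟩
    rw [← e, Pi.smul_apply, smul_eq_mul, Int.mul_ediv_cancel_left _ ha]
  let b := Module.finBasis ℤ Λ
  choose lam h1 h2 using fun i => Submodule.mem_map.mp (b i).2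
  have key : ∀ ν : Fin (Module.finrank ℤ Λ) → ℤ, π (∑ i, ν i • lam i) = (∑ i, ν i • b i : Λ) :=
    fun ν => by simp only [map_sum, map_zsmul, h2, AddSubmonoidClass.coe_finsetSum, SetLike.val_smul]
  let m : A → Fin (Module.finrank ℤ Λ) → ℤ := fun a i =>
    b.repr ⟨π (H a), Submodule.mem_map_of_mem (Submodule.subset_span ⟨a, rfl⟩)⟩ i
  have h3 : ∀ a, H a - ∑ i, m a i • lam i ∈ evConst U := fun a => by
    rw [← Submodule.Quotient.mk_eq_zero]
    change π _ = 0
    rw [map_sub, key, b.sum_repr, sub_self]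
  choose n hn using h3
  refine ⟨_, lam, m, n, h1, fun a => (hn a).mono fun κ e => ?_, fun ν hν => ?_⟩
  · rw [← e]; simp
  · have := tendsto_of_not_evConst (U := U) (f := ∑ i, ν i • lam i) fun h => hν (by
      rw [← Submodule.Quotient.mk_eq_zero] at h
      change π _ = 0 at h
      rw [key] at h
      exact funext (Fintype.linearIndependent_iff.mp b.linearIndependent ν (Subtype.ext h)))
    simpa using this

lemma span_slope {A : Type*} {H : A → ℕ → ℤ} {l : ℕ → ℕ} {δ : A → ℚ} (h1 : ∀ a κ, |H a κ| ≤ l κ)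
    (h2 : ∀ a, Tendsto (fun κ => (H a κ : ℝ) / l κ) atTop (𝓝 (δ a))) {f : ℕ → ℤ}
    (hf : f ∈ Submodule.span ℤ (Set.range H)) :
    ∃ (C : ℕ) (s : ℚ), (∀ κ, |f κ| ≤ C * l κ) ∧ Tendsto (fun κ => (f κ : ℝ) / l κ) atTop (𝓝 s) := by
  induction hf using Submodule.span_induction with
  | mem x hx => obtain ⟨a, rfl⟩ := hx; exact ⟨1, δ a, by simpa using h1 a, h2 a⟩
  | zero => exact ⟨0, 0, by simp, by simp⟩
  | add x y _ _ hx hy =>
    obtain ⟨C, s, a1, a2⟩ := hx
    obtain ⟨C', s', b1, b2⟩ := hy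
    refine ⟨C + C', s + s', fun κ => ?_, by simpa [add_div] using a2.add b2⟩
    push_cast
    rw [add_mul]
    exact (abs_add_le _ _).trans (add_le_add (a1 κ) (b1 κ))
  | smul c x _ hx =>
    obtain ⟨C, s, a1, a2⟩ := hx
    refine ⟨c.natAbs * C, c * s, fun κ => ?_, by simpa [mul_div_assoc] using a2.const_mul (c : ℝ)⟩
    push_cast
    rw [Pi.smul_apply, smul_eq_mul, abs_mul, mul_assoc]
    exact mul_le_mul_of_nonneg_left (a1 κ) (abs_nonneg _)

lemma log_indep {n : ℤ} (hn : n ≠ 0) (q : ℚ) : n * Real.log 2 + q * Real.log 3 ≠ 0 := by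
  intro h
  have h1 : ((n * q.den : ℤ) : ℝ) * Real.log 2 = ((-q.num : ℤ) : ℝ) * Real.log 3 := by
    have := Rat.mul_den_eq_num q
    have h2 : (q : ℝ) * q.den = q.num := by exact_mod_cast this
    push_cast
    linear_combination (q.den : ℝ) * h - Real.log 3 * h2
  rw [← Real.log_zpow, ← Real.log_zpow] at h1
  have h2 := Real.log_injOn_pos (Set.mem_Ioi.mpr (by positivity))
    (Set.mem_Ioi.mpr (by positivity)) h1
  have h3 : (2 : ℚ) ^ (n * q.den : ℤ) = 3 ^ (-q.num) := by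
    apply Rat.cast_injective (α := ℝ)
    rw [Rat.cast_zpow, Rat.cast_zpow]
    exact h2
  have h4 := congrArg (padicValRat 2) h3
  have h5 : padicValRat 2 3 = 0 := by
    simpa using padicValRat.of_nat (p := 2) (n := 3) |>.trans (by
      rw [padicValNat.eq_zero_of_not_dvd (by norm_num)]; rfl)
  have h6 : padicValRat 2 2 = 1 := by simpa using padicValRat.self (p := 2) (by norm_num)
  rw [padicValRat.zpow, padicValRat.zpow, h5, h6] at h4
  simp [hn] at h4

end Pool.Agent.Lib.MP_7f88e4_nt
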