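import Pool.Agent.Lib.MP_7f88e4_nt.LevLift
import Pool.Agent.Lib.MP_7f88e4_nt.Lattice

set_option autoImplicit false

namespace Pool.Agent.Lib.MP_7f88e4_nt

open PowerSeries Finset Filter Topology

variable {r : ℕ}

lemma formal_end (L : Lev r) {A : Type*} [Fintype A] [DecidableEq A] (ε : ℕ → A) (mm : A → Rr r)
    (hmm : ∀ a, mm a ≠ 0) (Y : ℕ → L.Om) (Dv : A → L.Om)
    (hX : ∀ a, L.ev (C (mm a) * X) ≠ 0)
    (hY : ∀ n, L.ev (C (mm (ε n)) * X) * Y (n + 1) = Y n + Dv (ε n))
    {D : ℕ} (e : Fin D → L.Om) {δ : L.Om} (hδ : δ ≠ 0) (z0 : Fin D → Polynomial (Rr r))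
    (z : A → Fin D → Polynomial (Rr r)) (h0 : δ * Y 0 = ∑ m, L.ev (z0 m) * e m)
    (h1 : ∀ a, δ * Dv a = ∑ m, L.ev (z a m) * e m)
    (h2 : ∀ m, (z0 m : (Rr r)⟦X⟧) + ∑ a, tailF ε mm 0 a * z a m = 0) :
    ∃ n n', n < n' ∧ Y n = Y n' := by
  let w : ℕ → Fin D → (Rr r)⟦X⟧ := fun n m => -∑ a, tailF ε mm n a * z a m
  have hw0 : ∀ m, w 0 m = z0 m := fun m => (eq_neg_of_add_eq_zero_left (h2 m)).symm
  have hw : ∀ n m, C (mm (ε n)) * X * w (n + 1) m = w n m + (z (ε n) m : (Rr r)⟦X⟧) := fun n m => by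
    simp only [w, tailF_succ ε mm n, add_mul, sum_add_distrib, ite_mul, one_mul, zero_mul,
      sum_ite_eq, mem_univ, if_true, mul_assoc, ← mul_sum]
    ring
  have hev : ∀ n, δ * Y n = ∑ m, L.ev (w n m) * e m := fun n => by
    induction n with
    | zero => simpa only [hw0] using h0
    | succ n ih =>
      refine mul_left_cancel₀ (hX (ε n)) ?_
      rw [mul_left_comm, hY, mul_add, ih, h1, mul_sum, ← sum_add_distrib]
      refine sum_congr rfl fun m _ => ?_
      rw [← mul_assoc, ← map_mul, hw, map_add, add_mul]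
  let c : ℕ := univ.sup (fun m => (z0 m).natDegree) +
    univ.sup fun am : A × Fin D => (z am.1 am.2).natDegree
  have hc : ∀ n m j, c < j → coeff j (w n m) = 0 := fun n m => by
    induction n with
    | zero =>
      intro j hj
      rw [hw0, Polynomial.coeff_coe, Polynomial.coeff_eq_zero_of_natDegree_lt]
      have := le_sup (f := fun m => (z0 m).natDegree) (mem_univ m)
      omega
    | succ n ih =>
      intro j hj
      have := congrArg (coeff (j + 1)) (hw n m)
      rw [mul_assoc, coeff_C_mul, coeff_succ_X_mul, map_add, ih _ (by omega), Polynomial.coeff_coe,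
        Polynomial.coeff_eq_zero_of_natDegree_lt, add_zero] at this
      · exact (mul_eq_zero.mp this).resolve_left (hmm _)
      · have := le_sup (f := fun am : A × Fin D => (z am.1 am.2).natDegree) (mem_univ (ε n, m))
        dsimp only at this
        omega
  have key : ∀ n n', (∀ i ≤ c, ε (n + i) = ε (n' + i)) → Y n = Y n' := fun n n' h => by
    refine mul_left_cancel₀ hδ ?_
    rw [hev, hev]
    refine sum_congr rfl fun m _ => ?_
    congr 2
    ext1 j
    rcases le_or_gt j c with hj | hj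
    · simp only [w, map_neg, map_sum, coeff_mul]
      congr 1
      refine sum_congr rfl fun a _ => sum_congr rfl fun p hp => ?_
      have hp' := mem_antidiagonal.mp hp
      simp only [tailF, coeff_mk, h p.1 (by omega)]
      rw [prod_congr rfl fun i hi => by rw [h i (by have := mem_range.mp hi; omega)]]
    · rw [hc _ _ _ hj, hc _ _ _ hj]
  obtain ⟨n, n', hne, he⟩ := Finite.exists_ne_map_eq_of_infinite
    fun n => fun i : Fin (c + 1) => ε (n + i)
  have := key n n' fun i hi => congrFun he ⟨i, by omega⟩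
  rcases lt_or_gt_of_ne hne with h | h
  exacts [⟨n, n', h, this⟩, ⟨n', n, h, this.symm⟩]

lemma tail_relation (L : Lev r) (κ : ℕ) {A : Type*} [Fintype A] [DecidableEq A] (ε : ℕ → A)
    (mm : A → Rr r) (Y : ℕ → ℚ_[2]) (Dv : A → ℚ_[2]) (hY1 : ∀ n, ‖Y n‖ ≤ 1)
    (hY : ∀ n, L.evk κ (C (mm (ε n)) * X) * Y (n + 1) = Y n + Dv (ε n)) :
    Y 0 + ∑ a, L.evk κ (tailF ε mm 0 a) * Dv a = 0 := by
  let Z : ℕ → ℚ_[2] := fun n => Y n + ∑ a, L.evk κ (tailF ε mm n a) * Dv a
  have h1 : ∀ n, Z n = L.evk κ (C (mm (ε n)) * X) * Z (n + 1) := fun n => by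
    simp only [Z, mul_add, hY, tailF_succ ε mm n, map_add, map_mul _ (C _ * X), add_mul,
      sum_add_distrib, apply_ite (L.evk κ), map_one, map_zero, ite_mul, one_mul, zero_mul,
      sum_ite_eq, mem_univ, if_true, mul_assoc _ _ (Dv _), ← mul_sum]
    ring
  have h2 : ∀ a, ‖L.evk κ (C (mm a) * X)‖ ≤ 1 / 2 := fun a => by
    have := L.evk_coe κ (Polynomial.monomial 1 (mm a))
    rw [← Polynomial.C_mul_X_eq_monomial, Polynomial.coe_mul, Polynomial.coe_C,
      Polynomial.coe_X] at this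
    rw [this, Polynomial.eval₂_mul, Polynomial.eval₂_C, Polynomial.eval₂_X, Rat.cast_mul, norm_mul]
    exact (mul_le_of_le_one_left (norm_nonneg _) (L.norm_psi2 κ _)).trans (L.norm_zQ_le κ)
  have h3 : ∀ n, ‖Z n‖ ≤ 1 + ∑ a, 2 * ‖Dv a‖ := fun n =>
    (norm_add_le _ _).trans (add_le_add (hY1 n) ((norm_sum_le _ _).trans (sum_le_sum fun a _ => by
      rw [norm_mul]; exact mul_le_mul_of_nonneg_right (L.norm_evk κ _) (norm_nonneg _))))
  have h4 : ∀ n, ‖Z 0‖ ≤ (1 / 2) ^ n * ‖Z n‖ := fun n => by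
    induction n with
    | zero => simp
    | succ n ih =>
      refine ih.trans ?_
      rw [h1 n, norm_mul, pow_succ, mul_assoc]
      gcongr
      exact h2 _
  have h5 := (tendsto_pow_atTop_nhds_zero_of_lt_one (show (0 : ℝ) ≤ 1 / 2 by norm_num)
    (by norm_num)).mul_const (1 + ∑ a, 2 * ‖Dv a‖)
  rw [zero_mul] at h5
  exact norm_le_zero_iff.mp (ge_of_tendsto' h5 fun n => (h4 n).trans (by gcongr; exact h3 n))

/-- Orbits whose parity word is, at infinitely many scales, a uniform image of a fixed word. -/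
theorem uniform_blocks {k : ℤ} {x : ℕ → ℤ} {v : ℕ → Bool} (hrec : Rec k x v) {A : Type*}
    [Fintype A] (ε : ℕ → A) (l : ℕ → ℕ) (h : A → ℕ → ℕ) (δ : A → ℚ) (hl0 : ∀ κ, 0 < l κ)
    (hl : Tendsto l atTop atTop)
    (b1 : ∀ κ j j', ε j = ε j' → Same v (l κ) (j * l κ) (j' * l κ))
    (b2 : ∀ κ j, ones v (j * l κ) (l κ) = h (ε j) κ) (b3 : ∀ a κ, h a κ ≤ l κ)
    (b4 : ∀ a, Tendsto (fun κ => (h a κ : ℝ) / l κ) atTop (𝓝 (δ a)))
    (b5 : ∀ κ, Tendsto (fun j : ℕ => (∑ i ∈ range j, ((h (ε i) κ : ℝ) - δ (ε i) * l κ)) / j)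
      atTop (𝓝 0)) : ∃ i j, i < j ∧ x i = x j := by
  classical
  let U := hyperfilter ℕ
  have hU : (U : Filter ℕ) ≤ atTop := Nat.hyperfilter_le_atTop
  obtain ⟨r, lam, m, n, l1, l2, l3⟩ := exists_lattice U fun a κ => (h a κ : ℤ)
  choose Cl s s1 s2 using fun i => span_slope (l := l) (δ := δ)
    (fun a κ => by simpa using b3 a κ) (fun a => by simpa using b4 a) (l1 i)
  have hlR : Tendsto (fun κ => (l κ : ℝ)) U atTop :=
    (tendsto_natCast_atTop_atTop.comp hl).mono_left hU
  have hslope : ∀ (c : ℤ) (ν : Fin r → ℤ), Tendsto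
      (fun κ => ((c + ∑ i, ν i * lam i κ : ℤ) : ℝ) / l κ) U (𝓝 (∑ i, ν i * s i : ℚ)) := by
    intro c ν
    have := (hlR.const_div_atTop (c : ℝ)).add (tendsto_finsetSum univ fun i _ =>
      ((s2 i).mono_left hU).const_mul (ν i : ℝ))
    simpa [add_div, sum_div, mul_div_assoc] using this
  have hδ : ∀ a, (δ a : ℝ) = ∑ i, m a i * s i := fun a => by
    have := tendsto_nhds_unique_of_eventuallyEq ((b4 a).mono_left hU) (hslope (n a) (m a))
      ((l2 a).mono fun κ e => by simp only [← e, Int.cast_natCast])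
    simpa using this
  set M0 : ℕ := ∑ a, ∑ i, (m a i).natAbs with hM0
  set n0 : ℕ := ∑ a, (n a).natAbs with hn0
  let μ : A → Fin r →₀ ℕ := fun a => Finsupp.equivFunOnFinite.symm fun i => (M0 - m a i).toNat
  let e : A → ℕ := fun a => (n0 - n a).toNat
  have hμ : ∀ a i, (μ a i : ℤ) = M0 - m a i := fun a i => Int.toNat_of_nonneg (by
    have := (single_le_sum (f := fun i => (m a i).natAbs) (fun _ _ => Nat.zero_le _)
      (mem_univ i)).trans (single_le_sum (f := fun a => ∑ i, (m a i).natAbs)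
        (fun _ _ => Nat.zero_le _) (mem_univ a))
    omega)
  have he : ∀ a, (e a : ℤ) = n0 - n a := fun a => Int.toNat_of_nonneg (by
    have := single_le_sum (f := fun a => (n a).natAbs) (fun _ _ => Nat.zero_le _) (mem_univ a)
    omega)
  have hCl : ∀ κ i, |lam i κ| ≤ (∑ i, Cl i : ℕ) * l κ := fun κ i => (s1 i κ).trans (by
    gcongr
    exact single_le_sum (f := Cl) (fun _ _ => Nat.zero_le _) (mem_univ i))
  let L : Lev r :=
    { U := U, l := l, lam := lam, t0 := fun κ => -n0 + ∑ i, -M0 * lam i κ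
      C0 := n0 + (M0 + 1) * ∑ i, Cl i, l_pos := hl0, l_top := hl.mono_left hU
      lam_le := Eventually.of_forall fun κ i => (hCl κ i).trans (by
        gcongr
        rw [add_mul, one_mul, ← add_assoc]
        exact Nat.le_add_left _ _)
      t0_le := Eventually.of_forall fun κ => by
        have a1 : |∑ i, lam i κ| ≤ (∑ i, Cl i : ℕ) * l κ := by
          push_cast
          rw [sum_mul]
          exact (abs_sum_le_sum_abs _ _).trans (sum_le_sum fun i _ => s1 i κ)
        have a2 : (1 : ℤ) ≤ l κ := by exact_mod_cast hl0 κ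
        rw [← mul_sum]
        refine (abs_add_le _ _).trans ?_
        rw [abs_mul, abs_neg, abs_neg, Nat.abs_cast, Nat.abs_cast]
        push_cast at a1 ⊢
        have a3 : (0 : ℤ) ≤ ∑ i, (Cl i : ℤ) := by positivity
        have a4 : (0 : ℤ) ≤ M0 := by positivity
        have a5 : (0 : ℤ) ≤ n0 := by positivity
        nlinarith [mul_le_mul_of_nonneg_left a1 a4] }
  have hgood : ∀ᶠ κ in U, ∀ a, e a + ∑ i, μ a i * lam i κ + L.t0 κ = -h a κ :=
    (eventually_all.mpr l2).mono fun κ hκ a => by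
      simp only [hκ a, he, hμ, L, sub_mul, sum_sub_distrib, neg_mul, sum_neg_distrib]
      ring
  have hind : ∀ j ν, (j, ν) ≠ 0 → Tendsto (fun κ => |L.sz κ j ν|) L.U atTop := by
    intro j ν hne
    by_cases hj : j = 0
    · subst hj
      have := (tendsto_intCast_atTop_atTop.comp (l3 ν fun e => hne (by simp [e]))).atTop_mul_const
        (Real.log_pos (show (1 : ℝ) < 3 by norm_num))
      refine this.congr fun κ => ?_
      simp [Lev.sz, L, abs_mul, abs_of_pos (Real.log_pos (show (1 : ℝ) < 3 by norm_num))]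
    · have a1 := (((hslope (-n0) fun _ => -M0).const_mul (j : ℝ)).add (hslope 0 ν)).mul_const
        (Real.log 3) |>.const_add (j * Real.log 2) |>.abs
      have a2 := abs_pos.mpr (log_indep hj (j * (∑ i, (-M0 : ℤ) * s i) + ∑ i, ν i * s i))
      rw [Rat.cast_add, Rat.cast_mul, Rat.cast_intCast] at a2
      refine (hlR.atTop_mul_pos a2 a1).congr fun κ => ?_
      have a3 : (0 : ℝ) < l κ := by exact_mod_cast hl0 κ
      rw [← abs_of_pos a3, ← abs_mul, abs_of_pos a3]
      congr 1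
      simp only [Lev.sz, L, zero_add]
      field_simp
      ring
  obtain ⟨κ0, hκ0⟩ := hgood.exists
  let mm : A → Rr r := fun a => MvPolynomial.monomial (μ a) (3 ^ e a)
  have hF := tailF_mem ε μ e (fun i => Real.log 3 * (lam i κ0 - s i * l κ0))
    (Real.log 3 * (L.t0 κ0 + M0 * (∑ i, s i) * l κ0)) (by
      have := (b5 κ0).const_mul (-Real.log 3)
      rw [mul_zero] at this
      refine this.congr fun j => ?_
      rw [← mul_div_assoc, mul_sum]
      congr 1
      refine sum_congr rfl fun i _ => ?_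
      have a1 : (e (ε i) : ℝ) + ∑ t, (μ (ε i) t : ℝ) * lam t κ0 + L.t0 κ0 = -h (ε i) κ0 := by
        exact_mod_cast hκ0 (ε i)
      have a2 : ∀ t, (μ (ε i) t : ℝ) = M0 - m (ε i) t := fun t => by exact_mod_cast hμ (ε i) t
      have a3 : ∑ t, Real.log 3 * (lam t κ0 - s t * l κ0) * μ (ε i) t
          = Real.log 3 * (∑ t, (μ (ε i) t : ℝ) * lam t κ0 - M0 * (∑ t, (s t : ℝ)) * l κ0
            + (∑ t, (m (ε i) t : ℝ) * s t) * l κ0) := by
        rw [mul_sum, sum_mul, sum_mul, ← sum_sub_distrib, ← sum_add_distrib, mul_sum]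
        refine sum_congr rfl fun t _ => ?_
        rw [a2]; ring
      rw [a3, hδ]
      push_cast
      linear_combination (-Real.log 3) * a1)
  obtain ⟨c, hc1, hc2⟩ : ∃ c : A → ℕ → ℤ, (∀ κ j, cst k v (j * l κ) (l κ) = c (ε j) κ) ∧
      ∀ a κ, |c a κ| ≤ 4 ^ l κ * |k| := by
    refine ⟨fun a κ => if hb : ∃ j, ε j = a then cst k v (hb.choose * l κ) (l κ) else 0, ?_, ?_⟩
    · intro κ j
      have hb : ∃ j', ε j' = ε j := ⟨j, rfl⟩
      simp only [dif_pos hb]
      exact (b1 κ j _ hb.choose_spec.symm).cst_eq k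
    · intro a κ
      dsimp only
      split_ifs
      · exact cst_abs _ _ _ _
      · simp only [abs_zero]; positivity
  have hXk : ∀ᶠ κ in U, ∀ a, L.evk κ (C (mm a) * X) = 2 ^ l κ / 3 ^ h a κ :=
    hgood.mono fun κ hκ a => by
      have := L.evk_coe κ (Polynomial.monomial 1 (mm a))
      rw [← Polynomial.C_mul_X_eq_monomial, Polynomial.coe_mul, Polynomial.coe_C,
        Polynomial.coe_X] at this
      rw [this, Polynomial.eval₂_mul, Polynomial.eval₂_C, Polynomial.eval₂_X, Lev.psiQ_monomial,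
        Lev.zQ]
      have a1 : (3 : ℚ_[2]) ^ (e a + ∑ i, μ a i * lam i κ + L.t0 κ) = 3 ^ (-h a κ : ℤ) := by
        rw [hκ a]
      rw [zpow_add₀ (by norm_num), zpow_add₀ (by norm_num), zpow_neg, zpow_natCast,
        zpow_natCast] at a1
      rw [div_eq_mul_inv, ← a1]
      push_cast
      ring
  have hYk : ∀ᶠ κ in U, ∀ j, L.evk κ (C (mm (ε j)) * X) * (x ((j + 1) * l κ) : ℚ_[2])
      = x (j * l κ) + c (ε j) κ / 3 ^ h (ε j) κ := hXk.mono fun κ hκ j => by
    have a1 := hrec.block (j * l κ) (l κ)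
    rw [b2, hc1] at a1
    have a2 : (2 : ℚ_[2]) ^ l κ * x (j * l κ + l κ)
        = 3 ^ h (ε j) κ * x (j * l κ) + c (ε j) κ := by exact_mod_cast a1
    rw [hκ, add_mul, one_mul]
    field_simp
    exact a2.trans (by ring)
  let Y : ℕ → L.Om := fun j => Germ.ofFun fun κ => (x (j * l κ) : ℚ_[2])
  let Dv : A → L.Om := fun a => Germ.ofFun fun κ => (c a κ : ℚ_[2]) / 3 ^ h a κ
  obtain ⟨D, ee, Δ, z, z1, z2, z3⟩ := L.lift hind (A := Option A) (fun o => o.elim (Y 0) Dv)
    (by
      rintro (_ | a)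
      · have : Y 0 = (x 0 : L.Om) := by simp only [Y, zero_mul]; rfl
        exact Lev.ints_le_hts ⟨1, this ▸ Lev.intBd_int _⟩
      · have a1 : Germ.ofFun (fun κ => (c a κ : ℚ_[2])) ∈ L.ints := by
          obtain ⟨f, f1, f2⟩ := Lev.intBd_int (L := L) k
          refine ⟨3, c a, rfl, (f2.and (Germ.coe_eq.mp f1)).mono fun κ hκ => (hc2 a κ).trans ?_⟩
          have : k = f κ := Int.cast_injective (α := ℚ_[2]) hκ.2
          rw [this, show 3 * L.l κ = 2 * l κ + 1 * l κ by simp only [L]; ring, pow_add, pow_mul]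
          exact mul_le_mul (by norm_num) hκ.1 (abs_nonneg _) (by positivity)
        have a2 : Germ.ofFun (fun κ => (3 : ℚ_[2]) ^ h a κ) ∈ L.ints :=
          ⟨2, fun κ => 3 ^ h a κ, by simp, Eventually.of_forall fun κ => by
            rw [abs_pow, pow_mul]
            exact (pow_le_pow_left₀ (abs_nonneg _) (by norm_num) _).trans
              (pow_le_pow_right₀ (by norm_num) (b3 a κ))⟩
        exact div_mem (Lev.ints_le_hts a1) (Lev.ints_le_hts a2))
    (fun o => o.elim 1 fun a => ⟨_, hF a⟩) (by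
      rw [Fintype.sum_option]
      simp only [Option.elim, OneMemClass.coe_one, map_one, one_mul]
      have : ∑ a, L.ev (tailF ε mm 0 a) * Dv a = Germ.coeRingHom _
          (∑ a, fun κ => L.evk κ (tailF ε mm 0 a) * (c a κ / 3 ^ h a κ)) := by
        rw [map_sum]; rfl
      rw [this]
      refine Germ.coe_eq.mpr (hYk.mono fun κ hκ => ?_)
      have := tail_relation L κ ε mm (fun j => x (j * l κ)) (fun a => c a κ / 3 ^ h a κ)
        (fun _ => Padic.norm_int_le_one _) hκ
      simpa using this)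
  obtain ⟨i, j, hij, hY⟩ := formal_end L ε mm (fun a => by simp [mm]) Y Dv
    (fun a e => by
      obtain ⟨κ, k1, k2⟩ := (hXk.and (Germ.coe_eq.mp e)).exists
      change L.evk κ _ = 0 at k2
      rw [k1 a] at k2
      simp at k2)
    (fun j => Germ.coe_eq.mpr (hYk.mono fun κ hκ => hκ j)) ee
    (fun e => z1 (Lev.ev_injective hind Δ e)) (z none) (fun a => z (some a)) (z2 none)
    (fun a => z2 (some a)) (fun m => by simpa [Fintype.sum_option] using z3 m)
  obtain ⟨κ, hκ⟩ := (Germ.coe_eq.mp hY).exists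
  exact ⟨i * l κ, j * l κ, Nat.mul_lt_mul_of_pos_right hij (hl0 κ), Int.cast_injective (α := ℚ_[2]) hκ⟩

end Pool.Agent.Lib.MP_7f88e4_nt
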