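import Pool.Agent.Lib.MP_7f88e4_nt.Path

set_option autoImplicit false

namespace Pool.Agent.Lib.MP_7f88e4_nt

open Finset

/-- the data of the auxiliary construction -/
structure Ctx (ι : Type) where
  θ : ℝ
  l0 : ℕ
  l : ℕ
  h0 : ℕ
  h1 : ℕ
  ε : ℕ → Bool
  z : ℕ → ℤ
  D : ℤ
  μ : ι → ℤ × ℤ
  q : ι → ℤ

namespace Ctx

variable {ι : Type} [Fintype ι] (c : Ctx ι)

/-- the character -/
def X (ν : ℤ × ℤ) : ℚ := chi c.l0 c.l c.h0 c.h1 ν

/-- the lattice vector of a pair -/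
def vec (p : ι × ℕ) : ℤ × ℤ := c.μ p.1 + pth c.ε p.2

/-- the weight of a pair -/
def ww (p : ι × ℕ) : ℝ := wt c.θ (c.vec p)

/-- the term of a pair -/
def av (p : ι × ℕ) : ℚ := if c.ε p.2 then c.q p.1 * c.X (c.vec p) else 0

open Classical in
/-- the pairs of weight below a threshold -/
noncomputable def Pf (τ : ℝ) : Finset (ι × ℕ) :=
  (univ ×ˢ range (⌈τ / min c.θ 1⌉₊ + 1)).filter fun p => c.ww p < τ

/-- the auxiliary number -/
noncomputable def W (τ : ℝ) : ℚ :=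
  (∑ m, c.q m * c.X (c.μ m)) * c.z 0 + (c.D : ℚ) / 3 ^ c.h1 * ∑ p ∈ c.Pf τ, c.av p

open Classical in
/-- the pairs of a given weight -/
noncomputable def Fib (w : ℝ) : Finset (ι × ℕ) := (c.Pf (w + 1)).filter fun p => c.ww p = w

/-- the class sum -/
noncomputable def R (w : ℝ) : ℚ := ∑ p ∈ c.Fib w, c.av p

/-- standing hypotheses -/
structure Ok : Prop where
  hθ : 0 < c.θ
  hμ : ∀ m, 0 ≤ wt c.θ (c.μ m)
  hz0 : ∀ j, c.ε j = false → 2 ^ c.l0 * c.z (j + 1) = 3 ^ c.h0 * c.z j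
  hz1 : ∀ j, c.ε j = true → 2 ^ c.l * c.z (j + 1) = 3 ^ c.h1 * c.z j + c.D

variable {c}

omit [Fintype ι] in
lemma ww_eq (p : ι × ℕ) : c.ww p = wt c.θ (c.μ p.1) + wt c.θ (pth c.ε p.2) := wt_add _ _ _

omit [Fintype ι] in
lemma lt_of_ww_lt (h : c.Ok) {p : ι × ℕ} {τ : ℝ} (hp : c.ww p < τ) :
    p.2 < ⌈τ / min c.θ 1⌉₊ + 1 := by
  have h1 := wt_pth_ge (θ := c.θ) c.ε (Nat.zero_le p.2)
  rw [wt_pth_zero] at h1
  have h2 := h.hμ p.1
  rw [ww_eq] at hp
  have h3 : 0 < min c.θ 1 := lt_min h.hθ one_pos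
  have h4 : (p.2 : ℝ) ≤ τ / min c.θ 1 := by
    rw [le_div_iff₀ h3]; push_cast at h1; linarith
  have h5 : (p.2 : ℝ) ≤ ⌈τ / min c.θ 1⌉₊ := h4.trans (Nat.le_ceil _)
  have : p.2 ≤ ⌈τ / min c.θ 1⌉₊ := by exact_mod_cast h5
  omega

lemma mem_Pf (h : c.Ok) {τ : ℝ} {p : ι × ℕ} : p ∈ c.Pf τ ↔ c.ww p < τ := by
  classical
  unfold Pf
  rw [mem_filter]
  exact ⟨fun hp => hp.2, fun hp => ⟨mem_product.mpr ⟨mem_univ _,
    mem_range.mpr (lt_of_ww_lt h hp)⟩, hp⟩⟩

lemma card_Pf (τ : ℝ) : (c.Pf τ).card ≤ Fintype.card ι * (⌈τ / min c.θ 1⌉₊ + 1) := by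
  classical
  unfold Pf
  exact (card_filter_le _ _).trans (by simp)

lemma mem_Fib (h : c.Ok) {w : ℝ} {p : ι × ℕ} : p ∈ c.Fib w ↔ c.ww p = w := by
  classical
  unfold Fib
  rw [mem_filter, mem_Pf h]
  exact ⟨fun hp => hp.2, fun hp => ⟨by rw [hp]; linarith, hp⟩⟩

lemma card_Fib (h : c.Ok) (w : ℝ) : (c.Fib w).card ≤ Fintype.card ι := by
  rw [← card_univ]
  refine card_le_card_of_injOn Prod.fst (fun _ _ => by simp) ?_
  intro p hp p' hp' he
  have h1 := (mem_Fib h).mp hp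
  have h2 := (mem_Fib h).mp hp'
  rw [ww_eq] at h1 h2
  rw [he] at h1
  exact Prod.ext he ((wt_pth_strictMono h.hθ c.ε).injective (by linarith))

lemma W_repr (h : c.Ok) (τ : ℝ) : ∃ J : ι → ℕ,
    (∀ m, τ ≤ c.ww (m, J m) ∧ ∀ i, i < J m → c.ww (m, i) < τ) ∧
      c.W τ = ∑ m, c.q m * c.X (c.vec (m, J m)) * c.z (J m) := by
  classical
  have hex : ∀ m, ∃ i, τ ≤ c.ww (m, i) := by
    intro m
    by_contra hc
    push Not at hc
    exact absurd (lt_of_ww_lt h (hc (⌈τ / min c.θ 1⌉₊ + 1))) (lt_irrefl _)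
  refine ⟨fun m => Nat.find (hex m), fun m => ⟨Nat.find_spec (hex m),
    fun i hi => not_le.mp (Nat.find_min (hex m) hi)⟩, ?_⟩
  have h1 : ∑ p ∈ c.Pf τ, c.av p = ∑ m, ∑ i ∈ range (Nat.find (hex m)), c.av (m, i) := by
    rw [sum_finset_product (c.Pf τ) univ (fun m => range (Nat.find (hex m)))]
    intro p
    rw [mem_Pf h, mem_range]
    simp only [mem_univ, true_and]
    constructor
    · intro hp
      by_contra hc
      have h2 := Nat.find_spec (hex p.1)
      have h3 := (wt_pth_strictMono h.hθ c.ε).monotone (not_lt.mp hc)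
      rw [ww_eq] at hp h2
      simp only at h2 h3
      linarith
    · intro hp
      exact not_le.mp (Nat.find_min (hex p.1) hp)
  unfold W
  rw [h1, sum_mul, mul_sum, ← sum_add_distrib]
  refine sum_congr rfl fun m _ => ?_
  have h2 := u_eq h.hz0 h.hz1 (Nat.find (hex m))
  have h3 : ∑ i ∈ range (Nat.find (hex m)), c.av (m, i) = c.q m * c.X (c.μ m) *
      ∑ i ∈ range (Nat.find (hex m)),
        if c.ε i then chi c.l0 c.l c.h0 c.h1 (pth c.ε i) else 0 := by
    rw [mul_sum]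
    refine sum_congr rfl fun i _ => ?_
    unfold av vec X
    split_ifs
    · rw [chi_add]; ring
    · ring
  rw [h3]
  unfold vec X
  rw [chi_add]
  simp only
  linear_combination (-(c.q m * chi c.l0 c.l c.h0 c.h1 (c.μ m))) * h2

lemma W_sub (h : c.Ok) {τ1 τ2 : ℝ} (h12 : τ1 ≤ τ2) (S : Finset (ι × ℕ))
    (hS : ∀ p, p ∈ S ↔ τ1 ≤ c.ww p ∧ c.ww p < τ2) :
    c.W τ2 = c.W τ1 + (c.D : ℚ) / 3 ^ c.h1 * ∑ p ∈ S, c.av p := by
  classical
  have h1 : c.Pf τ2 = c.Pf τ1 ∪ S := by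
    ext p
    rw [mem_union, mem_Pf h, mem_Pf h, hS]
    constructor
    · intro hp
      rcases lt_or_ge (c.ww p) τ1 with h2 | h2
      · exact Or.inl h2
      · exact Or.inr ⟨h2, hp⟩
    · rintro (h2 | h2)
      · linarith
      · exact h2.2
  have h2 : Disjoint (c.Pf τ1) S := by
    rw [disjoint_left]
    intro p hp hp'
    rw [mem_Pf h] at hp
    exact absurd ((hS p).mp hp').1 (not_le.mpr hp)
  unfold W
  rw [h1, sum_union h2]; ring

lemma sum_eq_zero_of_R (h : c.Ok) {τ1 τ2 : ℝ} (S : Finset (ι × ℕ))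
    (hS : ∀ p, p ∈ S ↔ τ1 ≤ c.ww p ∧ c.ww p < τ2)
    (hR : ∀ p : ι × ℕ, τ1 ≤ c.ww p → c.ww p < τ2 → c.R (c.ww p) = 0) :
    ∑ p ∈ S, c.av p = 0 := by
  classical
  rw [← sum_fiberwise_of_maps_to (t := S.image c.ww) (g := c.ww)
    (fun p hp => mem_image_of_mem _ hp)]
  refine sum_eq_zero fun w hw => ?_
  obtain ⟨p, hp, rfl⟩ := mem_image.mp hw
  rw [← hR p ((hS p).mp hp).1 ((hS p).mp hp).2]
  unfold R
  refine sum_congr ?_ fun _ _ => rfl
  ext p'
  rw [mem_filter, mem_Fib h, hS]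
  exact ⟨fun hh => hh.2, fun hh => ⟨by rw [hh]; exact (hS p).mp hp, hh⟩⟩

lemma exists_band (h : c.Ok) (τ1 τ2 : ℝ) :
    ∃ S : Finset (ι × ℕ), ∀ p, p ∈ S ↔ τ1 ≤ c.ww p ∧ c.ww p < τ2 := by
  classical
  exact ⟨(c.Pf τ2).filter fun p => τ1 ≤ c.ww p, fun p => by rw [mem_filter, mem_Pf h]; tauto⟩

lemma nv_W (h : c.Ok) (τ : ℝ) (ν0 : ℤ × ℤ) {x : ℝ}
    (hx : ∀ m i, τ ≤ c.ww (m, i) → (∀ i', i' < i → c.ww (m, i') < τ) →
      x ≤ lin c.l0 c.l (c.vec (m, i) - ν0)) :
    nv (c.W τ * c.X (-ν0)) ≤ 2 ^ (-x) := by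
  obtain ⟨J, h1, h2⟩ := W_repr h τ
  rw [h2, sum_mul]
  refine nv_sum_le _ _ (by positivity) fun m _ => ?_
  have e : c.q m * c.X (c.vec (m, J m)) * c.z (J m) * c.X (-ν0)
      = ((c.q m * c.z (J m) : ℤ) : ℚ) * c.X (c.vec (m, J m) - ν0) := by
    unfold X; rw [chi_sub]; push_cast; ring
  rw [e, nv_mul]
  have h3 := nv_int_le (c.q m * c.z (J m))
  have h4 : nv (c.X (c.vec (m, J m) - ν0)) ≤ 2 ^ (-x) := by
    unfold X
    rw [nv_chi]
    exact Real.rpow_le_rpow_of_exponent_le (by norm_num)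
      (neg_le_neg (hx m (J m) (h1 m).1 (h1 m).2))
  calc _ ≤ 1 * 2 ^ (-x) := mul_le_mul h3 h4 (nv_nonneg _) zero_le_one
    _ = _ := one_mul _

/-- Step C: vanishing of all class sums forces periodicity. -/
lemma periodic_of_R (h : c.Ok) {N : ℝ} (hN : ∀ m, wt c.θ (c.μ m) < N)
    (hinj : ∀ m m', wt c.θ (c.μ m) = wt c.θ (c.μ m') → m = m') (hq : c.q ≠ 0)
    (hR : ∀ p : ι × ℕ, N ≤ c.ww p → c.R (c.ww p) = 0) :
    ∃ i j, i < j ∧ ∀ t, c.ε (i + t) = c.ε (j + t) := by
  classical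
  obtain ⟨m0, hm0, hmin⟩ := exists_min_image (univ.filter fun m => c.q m ≠ 0)
    (fun m => wt c.θ (c.μ m)) (by
      obtain ⟨m, hm⟩ := Function.ne_iff.mp hq
      exact ⟨m, by simpa using hm⟩)
  simp only [mem_filter, mem_univ, true_and] at hm0 hmin
  set K := ⌈N / min c.θ 1⌉₊ with hK
  have hθm : 0 < min c.θ 1 := lt_min h.hθ one_pos
  have hKN : N ≤ min c.θ 1 * K := by
    have := Nat.le_ceil (N / min c.θ 1)
    rw [div_le_iff₀ hθm] at this
    linarith
  let Ψ : ℕ → ℕ → ℚ := fun j e => ∑ m,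
    if wt c.θ (c.μ m + (pth c.ε (j + e) - pth c.ε j))
        = wt c.θ (c.μ m0 + (pth c.ε (j + K) - pth c.ε j)) then
      (if c.ε (j + e) then c.q m * c.X (c.μ m + (pth c.ε (j + e) - pth c.ε j)) else 0) else 0
  have hΨ : ∀ j, ∑ e ∈ range (K + 1), Ψ j e = 0 := by
    intro j
    have hw : N ≤ c.ww (m0, j + K) := by
      have h1 := wt_pth_ge (θ := c.θ) c.ε (Nat.zero_le (j + K))
      rw [wt_pth_zero] at h1
      have h2 := h.hμ m0
      rw [ww_eq]
      push_cast at h1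
      have : (0 : ℝ) ≤ min c.θ 1 * j := by positivity
      simp only
      linarith
    have h1 := hR _ hw
    have h2 : c.R (c.ww (m0, j + K)) * c.X (-pth c.ε j) = ∑ e ∈ range (K + 1), Ψ j e := by
      unfold R
      rw [sum_mul, sum_comm, ← sum_product', ← sum_filter]
      symm
      refine sum_bij_ne_zero (fun p _ _ => (p.1, j + p.2)) ?_ ?_ ?_ ?_
      · intro p hp _
        rw [mem_Fib h]
        have := (mem_filter.mp hp).2
        rw [wt_add, wt_add, wt_sub, wt_sub] at this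
        rw [ww_eq, ww_eq]
        simp only
        linarith
      · intro p _ _ p' _ _ he
        simp only [Prod.mk.injEq] at he
        exact Prod.ext he.1 (by omega)
      · intro p hp hne
        have h3 := (mem_Fib h).mp hp
        rw [ww_eq, ww_eq] at h3
        simp only at h3
        have h4 : c.q p.1 ≠ 0 := by
          intro h5
          apply hne
          simp [av, h5]
        have h5 := hmin _ h4
        have h6 : p.2 ≤ j + K :=
          (wt_pth_strictMono h.hθ c.ε).le_iff_le.mp (by linarith)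
        have h7 : j ≤ p.2 := by
          have h8 := wt_pth_ge (θ := c.θ) c.ε (Nat.le_add_right j K)
          push_cast at h8
          have h9 := hN p.1
          have h10 := h.hμ m0
          refine (wt_pth_strictMono h.hθ c.ε).le_iff_le.mp ?_
          have : min c.θ 1 * ((j : ℝ) + K - j) = min c.θ 1 * K := by ring
          linarith
        obtain ⟨e, he⟩ := Nat.exists_eq_add_of_le h7
        have hv : (if c.ε (j + e) then c.q p.1 * c.X (c.μ p.1 + (pth c.ε (j + e) - pth c.ε j))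
            else 0) = c.av p * c.X (-pth c.ε j) := by
          unfold av vec X
          rw [he]
          split_ifs
          · rw [← add_sub_assoc, chi_sub]; ring
          · ring
        refine ⟨(p.1, e), mem_filter.mpr ⟨mem_product.mpr ⟨mem_univ _,
          mem_range.mpr (by simp only; omega)⟩, ?_⟩, ?_, Prod.ext rfl he.symm⟩
        · rw [wt_add, wt_add, wt_sub, wt_sub, ← he]
          simp only
          linarith
        · simp only
          rw [hv]; exact hne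
      · intro p _ _
        unfold av vec X
        simp only
        split_ifs
        · rw [← add_sub_assoc, chi_sub]; ring
        · ring
    rw [← h2, h1, zero_mul]
  have hlast : ∀ j, Ψ j K = if c.ε (j + K) then
      c.q m0 * c.X (c.μ m0 + (pth c.ε (j + K) - pth c.ε j)) else 0 := by
    intro j
    simp only [Ψ]
    rw [sum_eq_single m0]
    · simp
    · intro m _ hm
      rw [if_neg]
      intro he
      rw [wt_add, wt_add] at he
      exact hm (hinj _ _ (by linarith))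
    · simp
  refine periodic_of_window (K := K) (j0 := 0) fun j j' _ _ hw => ?_
  have hp := pth_window c.ε hw
  have h1 := hΨ j
  have h2 := hΨ j'
  rw [sum_range_succ, hlast] at h1 h2
  have h3 : ∑ e ∈ range K, Ψ j e = ∑ e ∈ range K, Ψ j' e := by
    refine sum_congr rfl fun e he => ?_
    have he' := mem_range.mp he
    simp only [Ψ]
    rw [hp e he'.le, hp K le_rfl, hw e he']
  rw [hp K le_rfl, h3] at h1
  have h4 : (c.q m0 : ℚ) * c.X (c.μ m0 + (pth c.ε (j' + K) - pth c.ε j')) ≠ 0 :=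
    mul_ne_zero (by exact_mod_cast hm0) (chi_ne_zero _ _ _ _ _)
  cases e1 : c.ε (j + K) <;> cases e2 : c.ε (j' + K) <;> simp only [e1, e2] at h1 h2 ⊢
  · simp only [Bool.false_eq_true, if_false, if_true, add_zero] at h1 h2
    rw [h1, zero_add] at h2
    exact absurd h2 h4
  · simp only [Bool.false_eq_true, if_false, if_true, add_zero] at h1 h2
    rw [h2, zero_add] at h1
    exact absurd h1 h4

end Ctx

end Pool.Agent.Lib.MP_7f88e4_nt
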