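import Pool.Agent.Lib.MP_7f88e4_nt.Uniform

set_option autoImplicit false

namespace Pool.Agent.Lib.MP_7f88e4_nt

open Finset

/-- the orbit recurrence along a prescribed parity word -/
def Rec (k : ℤ) (x : ℕ → ℤ) (v : ℕ → Bool) : Prop :=
  ∀ n, 2 * x (n + 1) = if v n = true then 3 * x n + k else x n

/-- number of ones in a window -/
def ones (v : ℕ → Bool) (i : ℕ) : ℕ → ℕ
  | 0 => 0
  | L + 1 => if v (i + L) = true then ones v i L + 1 else ones v i L

/-- additive constant of a window -/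
def cst (k : ℤ) (v : ℕ → Bool) (i : ℕ) : ℕ → ℤ
  | 0 => 0
  | L + 1 => if v (i + L) = true then 3 * cst k v i L + 2 ^ L * k else cst k v i L

/-- two windows carry the same word -/
def Same (v : ℕ → Bool) (L i j : ℕ) : Prop := ∀ t < L, v (i + t) = v (j + t)

lemma Same.symm {v : ℕ → Bool} {L i j : ℕ} (h : Same v L i j) : Same v L j i :=
  fun t ht => (h t ht).symm

lemma Same.trans {v : ℕ → Bool} {L i j m : ℕ} (h : Same v L i j) (h' : Same v L j m) :
    Same v L i m := fun t ht => (h t ht).trans (h' t ht)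

lemma Same.refl (v : ℕ → Bool) (L i : ℕ) : Same v L i i := fun _ _ => rfl

lemma Same.mono {v : ℕ → Bool} {L L' i j : ℕ} (h : Same v L i j) (h' : L' ≤ L) :
    Same v L' i j := fun t ht => h t (by omega)

lemma Same.shift {v : ℕ → Bool} {L i j : ℕ} (h : Same v L i j) (s : ℕ) :
    Same v (L - s) (i + s) (j + s) := fun t ht => by
  rw [add_assoc, add_assoc]; exact h _ (by omega)

lemma ones_le (v : ℕ → Bool) (i L : ℕ) : ones v i L ≤ L := by
  induction L with
  | zero => simp [ones]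
  | succ L ih => simp only [ones]; split_ifs <;> omega

lemma ones_add (v : ℕ → Bool) (i L M : ℕ) :
    ones v i (L + M) = ones v i L + ones v (i + L) M := by
  induction M with
  | zero => simp [ones]
  | succ M ih =>
    rw [← add_assoc]
    simp only [ones, add_assoc i L M]
    split_ifs <;> omega

lemma Same.ones_eq {v : ℕ → Bool} {L i j : ℕ} (h : Same v L i j) : ones v i L = ones v j L := by
  induction L with
  | zero => simp [ones]
  | succ L ih => simp only [ones, h L (by omega), ih (h.mono (by omega))]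

lemma Same.cst_eq (k : ℤ) {v : ℕ → Bool} {L i j : ℕ} (h : Same v L i j) :
    cst k v i L = cst k v j L := by
  induction L with
  | zero => simp [cst]
  | succ L ih => simp only [cst, h L (by omega), ih (h.mono (by omega))]

lemma cst_abs (k : ℤ) (v : ℕ → Bool) (i L : ℕ) : |cst k v i L| ≤ 4 ^ L * |k| := by
  induction L with
  | zero => simp [cst]
  | succ L ih =>
    have h1 : (2 : ℤ) ^ L ≤ 4 ^ L := by gcongr; norm_num
    have h2 : (0 : ℤ) ≤ 4 ^ L * |k| := by positivity
    simp only [cst]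
    split_ifs
    · refine (abs_add_le _ _).trans ?_
      rw [abs_mul, abs_mul, abs_pow, pow_succ]
      have : |(2 : ℤ)| ^ L * |k| ≤ 4 ^ L * |k| := by
        rw [abs_two]; gcongr
      have h3 : |(3 : ℤ)| = 3 := by norm_num
      rw [h3]; nlinarith
    · rw [pow_succ]; nlinarith

lemma Rec.block {k : ℤ} {x : ℕ → ℤ} {v : ℕ → Bool} (h : Rec k x v) (i L : ℕ) :
    2 ^ L * x (i + L) = 3 ^ ones v i L * x i + cst k v i L := by
  induction L with
  | zero => simp [ones, cst]
  | succ L ih =>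
    have := h (i + L)
    rw [← add_assoc, pow_succ, mul_assoc, this]
    simp only [ones, cst]
    split_ifs
    · rw [pow_succ]; linear_combination 3 * ih
    · exact ih

lemma Rec.growth {k : ℤ} {x : ℕ → ℤ} {v : ℕ → Bool} (h : Rec k x v) (n : ℕ) :
    2 ^ n * (|x n| + |k|) ≤ 3 ^ n * (|x 0| + |k|) := by
  induction n with
  | zero => simp
  | succ n ih =>
    have h1 : 2 * (|x (n + 1)| + |k|) ≤ 3 * (|x n| + |k|) := by
      have h2 : |2 * x (n + 1)| ≤ 3 * |x n| + |k| := by
        rw [h n]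
        split_ifs
        · refine (abs_add_le _ _).trans ?_
          rw [abs_mul]; norm_num
        · have := abs_nonneg (x n)
          have := abs_nonneg k
          linarith
      rw [abs_mul, abs_two] at h2
      linarith
    have h3 : (0 : ℤ) ≤ 2 ^ n := by positivity
    rw [pow_succ, pow_succ]
    nlinarith

lemma Rec.dvd {k : ℤ} {x : ℕ → ℤ} {v : ℕ → Bool} (h : Rec k x v) {r i j : ℕ}
    (hs : Same v r i j) : 2 ^ r ∣ x j - x i := by
  have h1 := h.block i r
  have h2 := h.block j r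
  rw [hs.ones_eq, hs.cst_eq k] at h1
  have h3 : (2 : ℤ) ^ r ∣ 3 ^ ones v j r * (x j - x i) :=
    ⟨x (j + r) - x (i + r), by linear_combination h1 - h2⟩
  exact (IsCoprime.pow (by norm_num [Int.isCoprime_iff_gcd_eq_one])).dvd_of_dvd_mul_left h3

lemma eq_zero_of_two_pow_dvd {a : ℤ} (h : ∀ r, 2 ^ r ∣ a) : a = 0 := by
  by_contra ha
  have h1 := Int.le_of_dvd (abs_pos.mpr ha) ((dvd_abs _ _).mpr (h a.natAbs))
  have h2 : a.natAbs < 2 ^ a.natAbs := Nat.lt_two_pow_self
  have h3 : ((a.natAbs : ℕ) : ℤ) < 2 ^ a.natAbs := by exact_mod_cast h2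
  rw [Int.natCast_natAbs] at h3
  linarith

lemma Rec.eq_of_same {k : ℤ} {x : ℕ → ℤ} {v : ℕ → Bool} (h : Rec k x v) {i j : ℕ}
    (hs : ∀ t, v (i + t) = v (j + t)) : x i = x j :=
  (sub_eq_zero.mp (eq_zero_of_two_pow_dvd fun _ => h.dvd fun t _ => hs t)).symm

/-- repetitions in the parity word of an injective orbit are short -/
lemma Rec.rep {k : ℤ} {x : ℕ → ℤ} {v : ℕ → Bool} (h : Rec k x v)
    (hx : ∀ i j, i < j → x i ≠ x j) :
    ∃ c : ℕ, ∀ r i j, i < j → Same v r i j → 5 * r ≤ 3 * j + c := by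
  set A : ℤ := |x 0| + |k| with hA
  obtain ⟨c, hc⟩ : ∃ c : ℕ, (2 * A) ^ 5 ≤ 2 ^ c := by
    refine ⟨((2 * A) ^ 5).natAbs, ?_⟩
    have h2 : ((2 * A) ^ 5).natAbs < 2 ^ ((2 * A) ^ 5).natAbs := Nat.lt_two_pow_self
    have h3 : ((((2 * A) ^ 5).natAbs : ℕ) : ℤ) < 2 ^ ((2 * A) ^ 5).natAbs := by exact_mod_cast h2
    rw [Int.natCast_natAbs] at h3
    exact (le_abs_self _).trans h3.le
  refine ⟨c, fun r i j hij hs => ?_⟩
  have h1 := Int.le_of_dvd (abs_pos.mpr (sub_ne_zero.mpr (hx i j hij).symm))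
    ((dvd_abs _ _).mpr (h.dvd hs))
  have h2 := h.growth i
  have h3 := h.growth j
  have hk := abs_nonneg k
  have hA0 : 0 ≤ A := by positivity
  have h4 : 2 ^ j * |x i| ≤ 3 ^ j * A := by
    obtain ⟨d, rfl⟩ := Nat.exists_eq_add_of_le hij.le
    have e1 : (2 : ℤ) ^ d ≤ 3 ^ d := by gcongr; norm_num
    have e2 : 2 ^ i * |x i| ≤ 3 ^ i * A := by
      refine le_trans ?_ h2
      gcongr; linarith
    rw [pow_add, pow_add]
    calc 2 ^ i * 2 ^ d * |x i| = 2 ^ d * (2 ^ i * |x i|) := by ring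
      _ ≤ 3 ^ d * (3 ^ i * A) := by gcongr
      _ = _ := by ring
  have h5 : 2 ^ j * |x j| ≤ 3 ^ j * A := by
    refine le_trans ?_ h3
    gcongr; linarith
  have h6 : (2 : ℤ) ^ j * 2 ^ r ≤ 3 ^ j * (2 * A) := by
    have := abs_sub (x j) (x i)
    calc (2 : ℤ) ^ j * 2 ^ r ≤ 2 ^ j * (|x j| + |x i|) := by gcongr; linarith
      _ ≤ _ := by linarith
  have h7 : (2 : ℤ) ^ (5 * j + 5 * r) ≤ 2 ^ (8 * j + c) := by
    calc (2 : ℤ) ^ (5 * j + 5 * r) = (2 ^ j * 2 ^ r) ^ 5 := by ring
      _ ≤ (3 ^ j * (2 * A)) ^ 5 := by gcongr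
      _ = (3 ^ 5) ^ j * (2 * A) ^ 5 := by rw [mul_pow, ← pow_mul, ← pow_mul, mul_comm j 5]
      _ ≤ (2 ^ 8) ^ j * 2 ^ c := by gcongr; norm_num
      _ = _ := by rw [← pow_mul, ← pow_add]
  have := (pow_le_pow_iff_right₀ (by norm_num : (1 : ℤ) < 2)).mp h7
  omega

lemma abs_pow_sub_le {l h : ℕ} (hh : h ≤ l) : |(2 : ℤ) ^ l - 3 ^ h| ≤ 4 ^ l := by
  have h1 : (2 : ℤ) ^ l ≤ 4 ^ l := by gcongr; norm_num
  have h2 : (3 : ℤ) ^ h ≤ 4 ^ l :=
    (pow_le_pow_left₀ (by norm_num) (by norm_num) h).trans (pow_le_pow_right₀ (by norm_num) hh)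
  have h3 : (0 : ℤ) ≤ 2 ^ l := by positivity
  have h4 : (0 : ℤ) ≤ 3 ^ h := by positivity
  rw [abs_le]; constructor <;> linarith

lemma cast_le_rpow {a : ℤ} {n : ℕ} (C l : ℕ) (h : |a| ≤ 2 ^ n) (hn : n ≤ C * l) :
    |(a : ℝ)| ≤ 2 ^ (C * l : ℝ) := by
  have h1 : |a| ≤ 2 ^ (C * l) := h.trans (pow_le_pow_right₀ (by norm_num) hn)
  have h2 : ((|a| : ℤ) : ℝ) ≤ ((2 ^ (C * l) : ℤ) : ℝ) := by exact_mod_cast h1
  rw [← Nat.cast_mul, Real.rpow_natCast]
  simpa using h2

/-- Two-block rigidity for orbits. -/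
lemma two_block (C : ℕ) : ∃ η : ℝ, 0 < η ∧ ∃ L : ℕ, ∀ (k : ℤ) (x : ℕ → ℤ) (v : ℕ → Bool),
    Rec k x v → ∀ (σ : ℕ → ℕ) (ε : ℕ → Bool) (u h : Bool → ℕ),
    (∀ j, σ (j + 1) = σ j + u (ε j)) →
    (∀ j j', ε j = ε j' → Same v (u (ε j)) (σ j) (σ j')) →
    (∀ j, ones v (σ j) (u (ε j)) = h (ε j)) → (∀ b, h b ≤ u b) →
    L ≤ u true → u true ≤ C * u false → u false ≤ C * u true →
    |(h false : ℝ) * u true - h true * u false| ≤ η * (u false * u true) →
    |x (σ 0)| + |k| ≤ 2 ^ (C * u true) → ∃ i j, i < j ∧ x i = x j := by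
  classical
  obtain ⟨η, hη, L, H⟩ := uniform (3 * C + 3)
  refine ⟨η, hη, L + 1, ?_⟩
  intro k x v hrec σ ε u h hσ hsame hones hhu hL hu1 hu0 hgap hsize
  have hu1pos : 0 < u true := by omega
  have hu0pos : 0 < u false := Nat.pos_of_ne_zero fun e => by rw [e] at hu1; omega
  have hupos : ∀ b, 0 < u b := fun b => by cases b <;> assumption
  have hmono : StrictMono σ := strictMono_nat_of_lt_succ fun j => by
    have := hupos (ε j); rw [hσ]; omega
  obtain ⟨c, hc1, hc2⟩ : ∃ c : Bool → ℤ, (∀ j, cst k v (σ j) (u (ε j)) = c (ε j)) ∧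
      ∀ b, |c b| ≤ 4 ^ u b * |k| := by
    refine ⟨fun b => if hb : ∃ j, ε j = b then cst k v (σ hb.choose) (u b) else 0, ?_, ?_⟩
    · intro j
      have hb : ∃ j', ε j' = ε j := ⟨j, rfl⟩
      simp only [dif_pos hb]
      exact (hsame j _ hb.choose_spec.symm).cst_eq k
    · intro b
      dsimp only
      split_ifs
      · exact cst_abs _ _ _ _
      · simp only [abs_zero]; positivity
  have hy : ∀ j, 2 ^ u (ε j) * x (σ (j + 1)) = 3 ^ h (ε j) * x (σ j) + c (ε j) := fun j => by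
    rw [hσ, hrec.block, hones, hc1]
  set Δ : ℤ := 2 ^ u false - 3 ^ h false with hΔ
  set D : ℤ := Δ * c true - (2 ^ u true - 3 ^ h true) * c false with hD
  set z : ℕ → ℤ := fun j => Δ * x (σ j) - c false with hz
  have hz0 : ∀ j, ε j = false → 2 ^ u false * z (j + 1) = 3 ^ h false * z j := by
    intro j hj
    have := hy j
    rw [hj] at this
    simp only [hz, hΔ]
    linear_combination (2 ^ u false - 3 ^ h false) * this
  have hz1 : ∀ j, ε j = true → 2 ^ u true * z (j + 1) = 3 ^ h true * z j + D := by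
    intro j hj
    have := hy j
    rw [hj] at this
    simp only [hz, hD]
    linear_combination Δ * this
  have hΔ0 : Δ ≠ 0 := by
    intro e
    have e1 : (2 : ℤ) ∣ 3 ^ h false := by
      rw [← sub_eq_zero.mp e]; exact dvd_pow_self _ hu0pos.ne'
    have := Int.prime_two.dvd_of_dvd_pow e1
    omega
  by_cases hD0 : D = 0
  · have key : ∀ r j, 2 ^ r ∣ z j := by
      intro r
      induction r with
      | zero => simp
      | succ r ih =>
        intro j
        have e : 2 ^ u (ε j) * z (j + 1) = 3 ^ h (ε j) * z j := by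
          cases hj : ε j
          · exact hz0 j hj
          · rw [hz1 j hj, hD0, add_zero]
        have e2 : (2 : ℤ) ^ (r + 1) ∣ 3 ^ h (ε j) * z j := by
          rw [← e, pow_succ']
          exact mul_dvd_mul (dvd_pow_self _ (hupos _).ne') (ih _)
        exact (IsCoprime.pow (by norm_num [Int.isCoprime_iff_gcd_eq_one])).dvd_of_dvd_mul_left e2
    have e0 : z 0 = 0 := eq_zero_of_two_pow_dvd fun r => key r 0
    have e1 : z 1 = 0 := eq_zero_of_two_pow_dvd fun r => key r 1
    refine ⟨σ 0, σ 1, hmono zero_lt_one, mul_left_cancel₀ hΔ0 ?_⟩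
    simp only [hz] at e0 e1
    linarith
  · have hk := abs_nonneg k
    have hx := abs_nonneg (x (σ 0))
    have a0 : |Δ| ≤ 4 ^ u false := abs_pow_sub_le (hhu _)
    have a1 := abs_pow_sub_le (hhu true)
    have e4 : ∀ n : ℕ, (4 : ℤ) ^ n = 2 ^ (2 * n) := fun n => by rw [pow_mul]; norm_num
    obtain ⟨i, j, hij, hper⟩ := H (u false) (u true) (h false) (h true) (by omega)
      (by nlinarith) (by nlinarith) (hhu _) hgap ε z D hz0 hz1
      (cast_le_rpow (n := 2 * u false + C * u true) _ _ (by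
        simp only [hz]
        refine (abs_sub _ _).trans ?_
        rw [abs_mul, pow_add, ← e4]
        calc _ ≤ 4 ^ u false * |x (σ 0)| + 4 ^ u false * |k| := by
              gcongr; exact hc2 _
          _ = 4 ^ u false * (|x (σ 0)| + |k|) := by ring
          _ ≤ _ := by gcongr) (by nlinarith))
      (cast_le_rpow (n := 1 + 2 * u false + 2 * u true + C * u true) _ _ (by
        rw [hD]
        refine (abs_sub _ _).trans ?_
        rw [abs_mul, abs_mul, pow_add, pow_add, pow_add, ← e4, ← e4]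
        calc _ ≤ 4 ^ u false * (4 ^ u true * |k|) + 4 ^ u true * (4 ^ u false * |k|) := by
              gcongr <;> exact hc2 _
          _ = 2 ^ 1 * 4 ^ u false * 4 ^ u true * |k| := by ring
          _ ≤ _ := by gcongr; linarith) (by nlinarith)) hD0
    refine ⟨σ i, σ j, hmono hij, hrec.eq_of_same ?_⟩
    have key : ∀ t, ∃ s, t ≤ s ∧ σ (i + t) = σ i + s ∧ σ (j + t) = σ j + s ∧
        Same v s (σ i) (σ j) := by
      intro t
      induction t with
      | zero => exact ⟨0, le_rfl, rfl, rfl, fun t ht => absurd ht (by omega)⟩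
      | succ t ih =>
        obtain ⟨s, s1, s2, s3, s4⟩ := ih
        have := hupos (ε (i + t))
        refine ⟨s + u (ε (i + t)), by omega, by rw [← add_assoc, hσ, s2, add_assoc],
          by rw [← add_assoc, hσ, s3, add_assoc, hper], fun w hw => ?_⟩
        by_cases hws : w < s
        · exact s4 w hws
        · have := hsame _ _ (hper t) (w - s) (by omega)
          rw [s2, s3] at this
          rwa [show σ i + w = σ i + s + (w - s) by omega, show σ j + w = σ j + s + (w - s) by omega]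
    intro t
    obtain ⟨s, s1, -, -, s4⟩ := key (t + 1)
    exact s4 t (by omega)

end Pool.Agent.Lib.MP_7f88e4_nt
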