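import Mathlib
import Pool.Agent.Shared.TwoLogs
import Pool.Agent.Lib.MP_7f88e4_nt.Orbit

set_option autoImplicit false

namespace Pool.Agent.Lib.MP_7f88e4_nt

theorem abs_log_one_add_le {y : ℝ} (hy : |y| ≤ 1 / 2) : |Real.log (1 + y)| ≤ 2 * |y| := by
  have h1 := abs_le.1 hy
  have h2 : 0 < 1 + y := by linarith
  have h3 := Real.log_le_sub_one_of_pos h2
  have h4 := Real.one_sub_inv_le_log_of_pos h2
  have h5 := le_abs_self y
  have h6 := neg_abs_le y
  have h7 : (1 + y)⁻¹ ≤ 1 + 2 * |y| := by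
    rw [inv_le_iff_one_le_mul₀ h2]
    rcases abs_cases y with ⟨h, _⟩ | ⟨h, _⟩ <;> rw [h] <;> nlinarith
  rw [abs_le]
  constructor <;> linarith

theorem Rec.log_drift {k : ℤ} {x : ℕ → ℤ} {v : ℕ → Bool} (h : Rec k x v) {L : ℕ} {m : ℝ}
    (hm0 : 0 < m) (hkm : |(k : ℝ)| ≤ m) (hm : ∀ i < L, m ≤ |(x i : ℝ)|) : ∀ i ≤ L,
    |Real.log (x i : ℝ) + i * Real.log 2 - ones v 0 i * Real.log 3 - Real.log (x 0 : ℝ)| ≤
      i * (|(k : ℝ)| / m) := by
  intro i
  induction i with
  | zero => intro _; simp [ones]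
  | succ i ih =>
    intro hi
    have a1 := ih (by omega)
    have a2 := hm i (by omega)
    have a3 : (x i : ℝ) ≠ 0 := by
      intro e; rw [e, abs_zero] at a2; linarith
    have a4 := h i
    have hk0 : (0 : ℝ) ≤ |(k : ℝ)| / m := by positivity
    simp only [ones, zero_add]
    split_ifs at a4 ⊢
    · have a5 : |(k : ℝ) / (3 * x i)| ≤ |(k : ℝ)| / m / 3 := by
        rw [abs_div, abs_mul, div_div, mul_comm m, abs_of_pos (by norm_num : (0 : ℝ) < 3)]
        gcongr
      have a6 : |(k : ℝ)| / m ≤ 1 := (div_le_one hm0).2 hkm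
      have a7 := abs_log_one_add_le (y := (k : ℝ) / (3 * x i)) (by linarith)
      have a8 : 0 < 1 + (k : ℝ) / (3 * x i) := by
        have := neg_abs_le ((k : ℝ) / (3 * x i))
        linarith
      have a9 : (x (i + 1) : ℝ) = 3 * x i * (1 + k / (3 * x i)) / 2 := by
        have : (2 : ℝ) * x (i + 1) = 3 * x i + k := by exact_mod_cast a4
        field_simp
        linarith
      have a10 : Real.log (x (i + 1) : ℝ) = Real.log 3 + Real.log (x i : ℝ) +
          Real.log (1 + k / (3 * x i)) - Real.log 2 := by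
        rw [a9, Real.log_div (by positivity) (by norm_num),
          Real.log_mul (by positivity) a8.ne', Real.log_mul (by norm_num) a3]
      rw [a10]
      rw [abs_le] at a1 a7 ⊢
      push_cast
      constructor <;> linarith [a1.1, a1.2, a7.1, a7.2]
    · have a9 : (x (i + 1) : ℝ) = x i / 2 := by
        have : (2 : ℝ) * x (i + 1) = x i := by exact_mod_cast a4
        linarith
      have a10 : Real.log (x (i + 1) : ℝ) = Real.log (x i : ℝ) - Real.log 2 := by
        rw [a9, Real.log_div a3 (by norm_num)]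
      rw [a10]
      rw [abs_le] at a1 ⊢
      push_cast
      constructor <;> linarith [a1.1, a1.2]

/-- Every cycle contains a small element. -/
theorem Rec.cycle_min {k : ℤ} {x : ℕ → ℤ} {v : ℕ → Bool} (h : Rec k x v) {L n : ℕ}
    (hL : 1 ≤ L) (hn : 1 ≤ n) (hLn : L ≤ 2 ^ n) (hp : x L = x 0) :
    ∃ i < L, |x i| ≤ 2 ^ (2 ^ 78 * n ^ 5) * L * |k| := by
  by_contra hcon
  push Not at hcon
  set B : ℤ := 2 ^ (2 ^ 78 * n ^ 5) * L * |k| with hB
  have hL' : (1 : ℝ) ≤ L := by exact_mod_cast hL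
  have hB' : (B : ℝ) = 2 ^ (2 ^ 78 * n ^ 5) * L * |(k : ℝ)| := by rw [hB]; push_cast; ring
  have hE : (1 : ℝ) ≤ 2 ^ (2 ^ 78 * n ^ 5) := one_le_pow₀ (by norm_num)
  have hk0 := abs_nonneg (k : ℝ)
  have hkB : |(k : ℝ)| ≤ B := by
    rw [hB']
    exact le_mul_of_one_le_left hk0 (one_le_mul_of_one_le_of_one_le hE hL')
  have key := h.log_drift (L := L) (m := B + 1) (by linarith) (by linarith)
    (fun i hi => by have := hcon i hi; exact_mod_cast this) L le_rfl
  rw [hp, show ∀ a b c : ℝ, a + b - c - a = b - c by intros; ring] at key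
  have a1 : 2 ^ (2 ^ 78 * n ^ 5) * (L * (|(k : ℝ)| / (B + 1))) < 1 := by
    rw [← mul_assoc, ← mul_div_assoc, ← hB', div_lt_one (by linarith)]
    linarith
  rcases Nat.eq_zero_or_pos (ones v 0 L) with h0 | h0
  · rw [h0, Nat.cast_zero, zero_mul, sub_zero] at key
    have a2 := Real.log_two_gt_d9
    have a3 : (2 : ℝ) ^ 1 ≤ 2 ^ (2 ^ 78 * n ^ 5) :=
      pow_le_pow_right₀ (by norm_num) (Nat.mul_pos (by norm_num) (Nat.pow_pos hn))
    have a4 := (le_abs_self ((L : ℝ) * Real.log 2)).trans key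
    have a5 : (1 : ℝ) / 2 ≤ L * Real.log 2 := by nlinarith
    generalize (L : ℝ) * (|(k : ℝ)| / (B + 1)) = y at a1 a4
    generalize (2 : ℝ) ^ (2 ^ 78 * n ^ 5) = E at a1 a3
    nlinarith
  · have a2 := Pool.Agent.Shared.TwoLogs.two_logs (a := L) hn h0 ((ones_le v 0 L).trans hLn)
    have a3 : (2 : ℝ) ^ (2 ^ 78 * n ^ 5) * |L * Real.log 2 - ones v 0 L * Real.log 3| ≤
      2 ^ (2 ^ 78 * n ^ 5) * (L * (|(k : ℝ)| / (B + 1))) := by gcongr
    exact absurd (a2.trans a3) (not_le.2 a1)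

end Pool.Agent.Lib.MP_7f88e4_nt
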