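import Mathlib

set_option autoImplicit false

namespace Pool.Agent.Lib.MP_7f88e4_nt

open Finset

/-- the 2-adic absolute value of a rational number -/
noncomputable def nv (q : ℚ) : ℝ := ‖(q : ℚ_[2])‖

lemma nv_nonneg (q : ℚ) : 0 ≤ nv q := norm_nonneg _

lemma nv_zero : nv 0 = 0 := by simp [nv]

lemma nv_mul (a b : ℚ) : nv (a * b) = nv a * nv b := by simp [nv]

lemma nv_neg (a : ℚ) : nv (-a) = nv a := by simp [nv]

lemma nv_add_le (a b : ℚ) : nv (a + b) ≤ max (nv a) (nv b) := by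
  unfold nv
  rw [Rat.cast_add]
  exact Padic.nonarchimedean _ _

lemma nv_sum_le {α : Type*} (s : Finset α) (f : α → ℚ) {B : ℝ} (hB : 0 ≤ B)
    (h : ∀ x ∈ s, nv (f x) ≤ B) : nv (∑ x ∈ s, f x) ≤ B := by
  classical
  induction s using Finset.induction_on with
  | empty => simpa [nv_zero] using hB
  | insert a s ha ih =>
    rw [sum_insert ha]
    exact (nv_add_le _ _).trans (max_le (h a (mem_insert_self _ _))
      (ih fun x hx => h x (mem_insert_of_mem hx)))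

lemma nv_int_le (a : ℤ) : nv a ≤ 1 := by
  unfold nv
  rw [Rat.cast_intCast]
  exact Padic.norm_int_le_one a

lemma nv_two_zpow (e : ℤ) : nv ((2 : ℚ) ^ e) = (2 : ℝ) ^ (-(e : ℝ)) := by
  unfold nv
  have := @Padic.norm_p_zpow 2 _ e
  simp only [Nat.cast_ofNat] at this
  rw [Rat.cast_zpow, Rat.cast_ofNat, this, ← Real.rpow_intCast]
  simp

lemma nv_three_zpow (e : ℤ) : nv ((3 : ℚ) ^ e) = 1 := by
  unfold nv
  have : ‖((3 : ℕ) : ℚ_[2])‖ = 1 := Padic.norm_natCast_eq_one_iff.mpr (by norm_num)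
  simp only [Nat.cast_ofNat] at this
  rw [Rat.cast_zpow, Rat.cast_ofNat, norm_zpow, this, one_zpow]

lemma one_le_abs_mul_nv {a : ℤ} (ha : a ≠ 0) : 1 ≤ |(a : ℝ)| * nv a := by
  obtain ⟨e, b, hb, rfl⟩ : ∃ (e : ℕ) (b : ℤ), ¬ (2 : ℤ) ∣ b ∧ a = 2 ^ e * b := by
    obtain ⟨e, b, h1, h2⟩ := Nat.exists_eq_pow_mul_and_not_dvd (Int.natAbs_ne_zero.mpr ha) 2
      (by norm_num)
    refine ⟨e, a.sign * b, ?_, ?_⟩
    · intro h
      apply h1
      have h3 := Int.natAbs_dvd_natAbs.mpr h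
      rw [Int.natAbs_mul, Int.natAbs_sign_of_ne_zero ha] at h3
      simpa using h3
    · have h3 := Int.sign_mul_natAbs a
      rw [h2] at h3
      push_cast at h3
      linear_combination -h3
  have h1 : nv (b : ℚ) = 1 := by
    unfold nv
    rw [Rat.cast_intCast]
    refine le_antisymm (Padic.norm_int_le_one b) ?_
    by_contra h
    exact hb (by exact_mod_cast (Padic.norm_intCast_lt_one_iff (p := 2)).mp (not_le.mp h))
  have h2 : (1 : ℝ) ≤ |(b : ℝ)| := by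
    have : b ≠ 0 := by rintro rfl; exact hb (dvd_zero _)
    exact_mod_cast Int.one_le_abs this
  have h3 := nv_two_zpow (e : ℤ)
  rw [zpow_natCast] at h3
  push_cast
  rw [nv_mul, h1, h3, abs_mul, abs_of_pos (by positivity : (0 : ℝ) < 2 ^ e), mul_one,
    mul_right_comm]
  have h4 : (2 : ℝ) ^ e * 2 ^ (-((e : ℤ) : ℝ)) = 1 := by
    rw [Int.cast_natCast, Real.rpow_neg (by norm_num), Real.rpow_natCast]
    exact mul_inv_cancel₀ (by positivity)
  rw [h4, one_mul]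
  exact h2

/-- Liouville's inequality in the form used below. -/
lemma nv_ge_of_int {q : ℚ} (hq : q ≠ 0) {e f : ℕ} {a : ℤ} (h : q * 2 ^ e * 3 ^ f = a) {x : ℝ}
    (hx : |(a : ℝ)| ≤ 2 ^ x) : (2 : ℝ) ^ (-x) ≤ nv q := by
  have ha : a ≠ 0 := by
    rintro rfl
    simp [hq] at h
  have h1 := one_le_abs_mul_nv ha
  have h2 : nv a ≤ nv q := by
    rw [← h, nv_mul, nv_mul]
    have e1 : nv ((2 : ℚ) ^ e) ≤ 1 := by exact_mod_cast nv_int_le (2 ^ e)
    have e2 : nv ((3 : ℚ) ^ f) ≤ 1 := by exact_mod_cast nv_int_le (3 ^ f)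
    have := nv_nonneg q
    have := nv_nonneg ((2 : ℚ) ^ e)
    have := nv_nonneg ((3 : ℚ) ^ f)
    calc nv q * nv (2 ^ e) * nv (3 ^ f) ≤ nv q * 1 * 1 := by gcongr
      _ = nv q := by ring
  rw [Real.rpow_neg (by norm_num), inv_le_iff_one_le_mul₀ (by positivity)]
  calc (1 : ℝ) ≤ |(a : ℝ)| * nv a := h1
    _ ≤ 2 ^ x * nv q := by
      have := nv_nonneg (a : ℚ)
      gcongr
    _ = nv q * 2 ^ x := mul_comm _ _

attribute [local instance] Matrix.seminormedAddCommGroup in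
/-- Siegel's lemma in a crude form. -/
lemma siegel {α β : Type*} [Fintype α] [Fintype β] (A : α → β → ℤ)
    (hn : Fintype.card α < Fintype.card β) (hm : 0 < Fintype.card α) {H : ℝ} (hH : 1 ≤ H)
    (hA : ∀ i j, |(A i j : ℝ)| ≤ H) :
    ∃ t : β → ℤ, t ≠ 0 ∧ (∀ i, ∑ j, A i j * t j = 0) ∧
      ∀ j, |(t j : ℝ)| ≤ (Fintype.card β * H) ^ (Fintype.card α) := by
  obtain ⟨t, h0, h1, h2⟩ := Int.Matrix.exists_ne_zero_int_vec_norm_le (Matrix.of A) hn hm
  refine ⟨t, h0, fun i => congrFun h1 i, fun j => ?_⟩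
  have h3 : ‖Matrix.of A‖ ≤ H := by
    rw [Matrix.norm_le_iff (by linarith)]
    intro i j
    rw [Matrix.of_apply, Int.norm_eq_abs]
    exact hA i j
  have h4 : (1 : ℝ) ≤ Fintype.card β := by exact_mod_cast (by omega : 1 ≤ Fintype.card β)
  have h5 : (1 : ℝ) ≤ Fintype.card β * max 1 ‖Matrix.of A‖ :=
    one_le_mul_of_one_le_of_one_le h4 (le_max_left _ _)
  have h6 : (Fintype.card α : ℝ) / (Fintype.card β - Fintype.card α) ≤ Fintype.card α := by
    have : (Fintype.card α : ℝ) + 1 ≤ Fintype.card β := by exact_mod_cast hn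
    exact div_le_self (by positivity) (by linarith)
  calc |(t j : ℝ)| = ‖t j‖ := (Int.norm_eq_abs _).symm
    _ ≤ ‖t‖ := norm_le_pi_norm t j
    _ ≤ _ := h2
    _ ≤ (Fintype.card β * max 1 ‖Matrix.of A‖) ^ (Fintype.card α : ℝ) :=
      Real.rpow_le_rpow_of_exponent_le h5 h6
    _ = (Fintype.card β * max 1 ‖Matrix.of A‖) ^ (Fintype.card α) := Real.rpow_natCast _ _
    _ ≤ _ := by gcongr; exact max_le hH h3

lemma exists_pos_lb {α : Type*} (s : Finset α) (f : α → ℝ) (h : ∀ x ∈ s, 0 < f x) :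
    ∃ γ : ℝ, 0 < γ ∧ γ ≤ 1 ∧ ∀ x ∈ s, γ ≤ f x := by
  classical
  induction s using Finset.induction_on with
  | empty => exact ⟨1, one_pos, le_rfl, by simp⟩
  | insert a s _ ih =>
    obtain ⟨γ, h1, h2, h3⟩ := ih fun x hx => h x (mem_insert_of_mem hx)
    refine ⟨min γ (f a), lt_min h1 (h a (mem_insert_self _ _)), (min_le_left _ _).trans h2, ?_⟩
    intro x hx
    rcases mem_insert.mp hx with rfl | hx
    · exact min_le_right _ _
    · exact (min_le_left _ _).trans (h3 x hx)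

/-- the gap between distinct weights in a strip -/
lemma exists_gap (θ : ℝ) (K : ℕ) : ∃ γ : ℝ, 0 < γ ∧ γ ≤ 1 ∧ ∀ s t : ℤ, |s| ≤ K →
    0 < s * θ + t → γ ≤ s * θ + t := by
  classical
  obtain ⟨γ, h1, h2, h3⟩ := exists_pos_lb
    ((Finset.Icc (-(K : ℤ)) K).filter fun s : ℤ => 0 < Int.fract (s * θ))
    (fun s : ℤ => Int.fract (s * θ)) (fun x hx => (mem_filter.mp hx).2)
  refine ⟨γ, h1, h2, fun s t hs h => ?_⟩
  have e : s * θ + t = Int.fract (s * θ) + ((⌊s * θ⌋ + t : ℤ) : ℝ) := by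
    push_cast
    have := Int.fract_add_floor (s * θ)
    linarith
  have f0 := Int.fract_nonneg (s * θ)
  have f1 := Int.fract_lt_one (s * θ)
  rcases le_or_gt 1 (⌊s * θ⌋ + t) with h4 | h4
  · have : (1 : ℝ) ≤ ((⌊s * θ⌋ + t : ℤ) : ℝ) := by exact_mod_cast h4
    linarith
  · have h5 : 0 ≤ ⌊s * θ⌋ + t := by
      by_contra h6
      have : ((⌊s * θ⌋ + t : ℤ) : ℝ) ≤ -1 := by exact_mod_cast (by omega : ⌊s * θ⌋ + t ≤ -1)
      linarith
    have h6 : ⌊s * θ⌋ + t = 0 := by omega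
    rw [h6] at e
    simp only [Int.cast_zero, add_zero] at e
    rw [e] at h ⊢
    exact h3 s (mem_filter.mpr ⟨Finset.mem_Icc.mpr (abs_le.mp hs), h⟩)

/-- fractional parts of the first multiples of `θ` -/
noncomputable def Gam (θ : ℝ) (S : ℕ) : Finset ℝ := by
  classical exact (range (S + 1)).image fun s : ℕ => Int.fract (s * θ)

lemma mem_Gam {θ : ℝ} {S : ℕ} {φ : ℝ} : φ ∈ Gam θ S ↔ ∃ s : ℕ, s ≤ S ∧ Int.fract (s * θ) = φ := by
  classical
  simp [Gam]

lemma card_Gam_le (θ : ℝ) (S : ℕ) : (Gam θ S).card ≤ S + 1 := by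
  classical
  exact card_image_le.trans (by simp)

lemma card_Gam_pos (θ : ℝ) (S : ℕ) : 0 < (Gam θ S).card :=
  card_pos.mpr ⟨_, mem_Gam.mpr ⟨0, Nat.zero_le _, rfl⟩⟩

lemma exists_slow_growth (θ : ℝ) (S0 : ℕ) :
    ∃ S : ℕ, 8 * (Gam θ (S + S0)).card < 10 * (Gam θ S).card := by
  by_contra h
  push Not at h
  have h1 : ∀ j : ℕ, (5 / 4 : ℝ) ^ j ≤ (Gam θ (j * S0)).card := by
    intro j
    induction j with
    | zero => simpa using card_Gam_pos θ 0
    | succ j ih =>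
      have h2 : (10 : ℝ) * (Gam θ (j * S0)).card ≤ 8 * (Gam θ (j * S0 + S0)).card := by
        exact_mod_cast h (j * S0)
      rw [pow_succ, Nat.succ_mul]
      linarith
  have h2 : ∀ j : ℕ, (5 / 4 : ℝ) ^ j ≤ j * S0 + 1 := fun j =>
    (h1 j).trans (by exact_mod_cast card_Gam_le θ (j * S0))
  have h3 := tendsto_pow_const_div_const_pow_of_one_lt 1 (by norm_num : (1 : ℝ) < 5 / 4)
  have h4 := (h3.eventually (gt_mem_nhds (by positivity : (0 : ℝ) < 1 / (S0 + 1)))).and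
    (Filter.eventually_ge_atTop 1)
  obtain ⟨j, h5, h6⟩ := h4.exists
  rw [pow_one, div_lt_div_iff₀ (by positivity) (by positivity)] at h5
  have h7 : (1 : ℝ) ≤ j := by exact_mod_cast h6
  have := h2 j
  nlinarith

end Pool.Agent.Lib.MP_7f88e4_nt
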