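import Pool.Agent.Lib.MP_7f88e4_nt.Sieg
import Pool.Agent.Lib.MP_7f88e4_nt.Norm

set_option autoImplicit false

namespace Pool.Agent.Lib.MP_7f88e4_nt

open PowerSeries Finset Filter Topology

/-- the data of the evaluation points -/
structure Lev (r : ℕ) where
  U : Ultrafilter ℕ
  l : ℕ → ℕ
  lam : Fin r → ℕ → ℤ
  t0 : ℕ → ℤ
  C0 : ℕ
  l_pos : ∀ κ, 0 < l κ
  l_top : Tendsto l U atTop
  lam_le : ∀ᶠ κ in U, ∀ i, |lam i κ| ≤ C0 * l κ
  t0_le : ∀ᶠ κ in U, |t0 κ| ≤ C0 * l κ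

namespace Lev

variable {r : ℕ} (L : Lev r)

/-- the ultrapower of the 2-adic numbers -/
abbrev Om : Type := Germ (L.U : Filter ℕ) ℚ_[2]

/-- specialisation of the coefficients at a level -/
noncomputable def psiQ (κ : ℕ) : Rr r →+* ℚ :=
  MvPolynomial.eval₂Hom (Int.castRingHom ℚ) fun i => 3 ^ L.lam i κ

/-- value of the main variable at a level -/
noncomputable def zQ (κ : ℕ) : ℚ := 2 ^ L.l κ * 3 ^ L.t0 κ

/-- specialisation into the 2-adic numbers -/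
noncomputable def psi2 (κ : ℕ) : Rr r →+* ℚ_[2] := (Rat.castHom ℚ_[2]).comp (L.psiQ κ)

lemma norm_psi2 (κ : ℕ) (q : Rr r) : ‖L.psi2 κ q‖ ≤ 1 := by
  induction q using MvPolynomial.induction_on with
  | C a => simpa [psi2, psiQ] using Padic.norm_int_le_one a
  | add p q hp hq => rw [map_add]; exact (Padic.nonarchimedean _ _).trans (max_le hp hq)
  | mul_X p i hp =>
    rw [map_mul, norm_mul]
    have : ‖L.psi2 κ (MvPolynomial.X i)‖ = 1 := by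
      simpa [psi2, psiQ, nv] using nv_three_zpow (L.lam i κ)
    rwa [this, mul_one]

lemma norm_zQ (κ : ℕ) : ‖(L.zQ κ : ℚ_[2])‖ = (1 / 2) ^ L.l κ := by
  have h1 := nv_three_zpow (L.t0 κ)
  have h2 : ‖((2 : ℕ) : ℚ_[2])‖ = _ := Padic.norm_p
  simp only [nv, Rat.cast_zpow, Rat.cast_ofNat] at h1
  simp only [Nat.cast_ofNat] at h2
  simp [zQ, h1, h2, -norm_zpow]

lemma norm_zQ_le (κ : ℕ) : ‖(L.zQ κ : ℚ_[2])‖ ≤ 1 / 2 := by
  rw [norm_zQ]
  exact pow_le_of_le_one (by norm_num) (by norm_num) (L.l_pos κ).ne'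

lemma term_le (κ : ℕ) (f : (Rr r)⟦X⟧) (n : ℕ) :
    ‖L.psi2 κ (coeff n f) * (L.zQ κ : ℚ_[2]) ^ n‖ ≤ (1 / 2) ^ n := by
  rw [norm_mul, norm_pow]
  exact (mul_le_of_le_one_left (by positivity) (L.norm_psi2 κ _)).trans
    (pow_le_pow_left₀ (norm_nonneg _) (L.norm_zQ_le κ) n)

lemma conv2 (κ : ℕ) (f : (Rr r)⟦X⟧) : Conv (L.psi2 κ) (L.zQ κ : ℚ_[2]) f :=
  Summable.of_nonneg_of_le (fun _ => norm_nonneg _) (L.term_le κ f) summable_geometric_two

/-- evaluation of a series at a level -/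
noncomputable def evk (κ : ℕ) : (Rr r)⟦X⟧ →+* ℚ_[2] :=
  evHom (L.psi2 κ) (L.zQ κ : ℚ_[2]) (RingHom.id _) (L.conv2 κ)

lemma norm_evk (κ : ℕ) (f : (Rr r)⟦X⟧) : ‖L.evk κ f‖ ≤ 2 :=
  tsum_of_norm_bounded hasSum_geometric_two (L.term_le κ f)

lemma evk_coe (κ : ℕ) (p : Polynomial (Rr r)) :
    L.evk κ p = (p.eval₂ (L.psiQ κ) (L.zQ κ) : ℚ) := by
  change evS _ _ _ = Rat.castHom ℚ_[2] _
  rw [RingHom.id_apply, evS_coe, Polynomial.hom_eval₂]; rfl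

lemma norm_evk_of_dvd (κ : ℕ) {f : (Rr r)⟦X⟧} {n : ℕ} (h : X ^ n ∣ f) :
    ‖L.evk κ f‖ ≤ 2 * (1 / 2) ^ (n * L.l κ) := by
  obtain ⟨g, rfl⟩ := h
  have : L.evk κ X = L.zQ κ := by simpa using L.evk_coe κ Polynomial.X
  rw [map_mul, map_pow, norm_mul, norm_pow, this, norm_zQ, ← pow_mul, mul_comm, mul_comm n]
  exact mul_le_mul_of_nonneg_right (L.norm_evk κ g) (by positivity)

/-- evaluation in the ultrapower -/
noncomputable def ev : (Rr r)⟦X⟧ →+* L.Om :=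
  (Germ.coeRingHom _).comp (RingHom.pi L.evk)

lemma ev_apply (f : (Rr r)⟦X⟧) : L.ev f = Germ.ofFun fun κ => L.evk κ f := rfl

/-- an integer of controlled size -/
def IntBd (ξ : L.Om) (C : ℕ) : Prop :=
  ∃ a : ℕ → ℤ, ξ = Germ.ofFun (fun κ => (a κ : ℚ_[2])) ∧ ∀ᶠ κ in L.U, |a κ| ≤ 2 ^ (C * L.l κ)

variable {L}

lemma IntBd.mono {ξ : L.Om} {C C' : ℕ} (h : L.IntBd ξ C) (h' : C ≤ C') : L.IntBd ξ C' := by
  obtain ⟨a, h1, h2⟩ := h
  exact ⟨a, h1, h2.mono fun κ h => h.trans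
    (pow_le_pow_right₀ (by norm_num) (Nat.mul_le_mul_right _ h'))⟩

lemma IntBd.mul {ξ ξ' : L.Om} {C C' : ℕ} (h : L.IntBd ξ C) (h' : L.IntBd ξ' C') :
    L.IntBd (ξ * ξ') (C + C') := by
  obtain ⟨a, rfl, h2⟩ := h
  obtain ⟨b, rfl, h3⟩ := h'
  refine ⟨fun κ => a κ * b κ, by simp only [Int.cast_mul]; rfl, (h2.and h3).mono fun κ h => ?_⟩
  rw [abs_mul, add_mul, pow_add]
  exact mul_le_mul h.1 h.2 (abs_nonneg _) (by positivity)

lemma IntBd.add {ξ ξ' : L.Om} {C : ℕ} (h : L.IntBd ξ C) (h' : L.IntBd ξ' C) :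
    L.IntBd (ξ + ξ') (C + 1) := by
  obtain ⟨a, rfl, h2⟩ := h
  obtain ⟨b, rfl, h3⟩ := h'
  refine ⟨fun κ => a κ + b κ, by simp only [Int.cast_add]; rfl, (h2.and h3).mono fun κ h => ?_⟩
  have h1 : (2 : ℤ) ^ 1 ≤ 2 ^ L.l κ := pow_le_pow_right₀ (by norm_num) (L.l_pos κ)
  have h4 : (0 : ℤ) ≤ 2 ^ (C * L.l κ) := by positivity
  rw [add_mul, pow_add, one_mul]
  nlinarith [abs_add_le (a κ) (b κ), h.1, h.2]

lemma intBd_int (a : ℤ) : L.IntBd (a : L.Om) 1 := by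
  refine ⟨fun _ => a, rfl, (L.l_top.eventually (eventually_ge_atTop a.natAbs)).mono fun κ h => ?_⟩
  have h2 : a.natAbs < 2 ^ a.natAbs := Nat.lt_two_pow_self
  have h3 : ((a.natAbs : ℕ) : ℤ) < 2 ^ a.natAbs := by exact_mod_cast h2
  rw [Int.natCast_natAbs] at h3
  exact h3.le.trans (pow_le_pow_right₀ (by norm_num) (by omega))

lemma intBd_sum {ι : Type*} (s : Finset ι) {ξ : ι → L.Om} {C : ℕ} (h : ∀ i ∈ s, L.IntBd (ξ i) C) :
    L.IntBd (∑ i ∈ s, ξ i) (C + 1) := by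
  choose! a ha1 ha2 using h
  refine ⟨fun κ => ∑ i ∈ s, a i κ, ?_, (((eventually_all_finset s).mpr ha2).and
    (L.l_top.eventually (eventually_ge_atTop s.card))).mono fun κ h => ?_⟩
  · rw [sum_congr rfl ha1]
    refine (map_sum (Germ.coeRingHom _) _ _).symm.trans ?_
    refine congrArg Germ.ofFun (funext fun κ => ?_)
    simp
  · refine (abs_sum_le_sum_abs _ _).trans ((sum_le_card_nsmul _ _ _ h.1).trans ?_)
    have h2 : s.card < 2 ^ s.card := Nat.lt_two_pow_self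
    have h3 : s.card ≤ 2 ^ L.l κ := h2.le.trans (Nat.pow_le_pow_right (by norm_num) h.2)
    rw [nsmul_eq_mul, add_mul, pow_add, one_mul, mul_comm]
    gcongr
    exact_mod_cast h3

variable (L) in
/-- a power of three clearing denominators -/
noncomputable def den (N : ℕ) : L.Om :=
  Germ.ofFun fun κ => (3 : ℚ_[2]) ^ (L.C0 * (r + 1) * N * L.l κ)

lemma den_ne_zero (N : ℕ) : L.den N ≠ 0 := fun e => by
  obtain ⟨κ, h⟩ := (Germ.coe_eq.mp e).exists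
  simp at h

lemma intBd_den (N : ℕ) : L.IntBd (L.den N) (2 * (L.C0 * (r + 1) * N)) :=
  ⟨fun κ => 3 ^ (L.C0 * (r + 1) * N * L.l κ), by simp [den], Eventually.of_forall fun κ => by
    rw [mul_assoc 2, pow_mul 2, abs_pow]
    exact pow_le_pow_left₀ (abs_nonneg _) (by norm_num) _⟩

lemma three_zpow_sum {ι : Type*} (s : Finset ι) (f : ι → ℤ) :
    (3 : ℚ) ^ (∑ i ∈ s, f i) = ∏ i ∈ s, 3 ^ f i := by
  classical
  induction s using Finset.induction_on with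
  | empty => simp
  | insert a s ha ih => rw [sum_insert ha, prod_insert ha, zpow_add₀ (by norm_num), ih]

lemma psiQ_monomial (κ : ℕ) (ν : Fin r →₀ ℕ) (c : ℤ) :
    L.psiQ κ (MvPolynomial.monomial ν c) = c * 3 ^ (∑ i, ν i * L.lam i κ) := by
  rw [psiQ, MvPolynomial.eval₂Hom_monomial, Finsupp.prod_fintype _ _ (by simp),
    three_zpow_sum]
  simp [← zpow_natCast, ← zpow_mul, mul_comm]

lemma intBd_mon {N : ℕ} (b : Box2 r N) :
    L.IntBd (L.den N * L.ev (mon b : (Rr r)⟦X⟧)) ((4 * (L.C0 * (r + 1)) + 1) * N) := by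
  let e : ℕ → ℤ := fun κ =>
    (L.C0 * (r + 1) * N * L.l κ : ℕ) + ∑ i, (b.2 i : ℕ) * L.lam i κ + (b.1 : ℕ) * L.t0 κ
  have he : ∀ᶠ κ in L.U, 0 ≤ e κ ∧ e κ ≤ 2 * (L.C0 * (r + 1) * N * L.l κ : ℕ) :=
    (L.lam_le.and L.t0_le).mono fun κ h => by
      have h0 : (0 : ℤ) ≤ L.C0 * L.l κ := by positivity
      have h1 : |∑ i, (b.2 i : ℕ) * L.lam i κ| ≤ r * (N * (L.C0 * L.l κ)) := by
        refine (abs_sum_le_sum_abs _ _).trans ((sum_le_card_nsmul univ _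
          ((N : ℤ) * (L.C0 * L.l κ)) fun i _ => ?_).trans (by simp))
        rw [abs_mul, Nat.abs_cast]
        exact mul_le_mul (by exact_mod_cast (b.2 i).2.le) (h.1 i) (abs_nonneg _) (by positivity)
      have h2 : |(b.1 : ℕ) * L.t0 κ| ≤ N * (L.C0 * L.l κ) := by
        rw [abs_mul, Nat.abs_cast]
        exact mul_le_mul (by exact_mod_cast b.1.2.le) h.2 (abs_nonneg _) (by positivity)
      rw [abs_le] at h1 h2
      simp only [e]
      push_cast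
      constructor <;> nlinarith [h1.1, h1.2, h2.1, h2.2]
  refine ⟨fun κ => 3 ^ (e κ).toNat * 2 ^ (b.1 * L.l κ), Germ.coe_eq.mpr (he.mono fun κ h => ?_),
    he.mono fun κ h => ?_⟩
  · change (3 : ℚ_[2]) ^ _ * L.evk κ _ = _
    rw [evk_coe, mon, Polynomial.eval₂_monomial, psiQ_monomial, zQ]
    push_cast
    rw [← zpow_natCast 3 (e κ).toNat, Int.toNat_of_nonneg h.1]
    simp only [e, zpow_add₀ (show (3 : ℚ_[2]) ≠ 0 by norm_num), zpow_natCast, expo_apply, mul_pow,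
      ← pow_mul, mul_comm (L.l κ), mul_comm _ (L.t0 κ), zpow_mul]
    ring
  · rw [abs_mul, abs_pow, abs_pow, add_mul, add_mul, pow_add, abs_two]
    have h1 : (e κ).toNat ≤ 2 * (L.C0 * (r + 1) * N * L.l κ) := by
      have := h.2; omega
    refine mul_le_mul ?_ (pow_le_pow_right₀ (by norm_num) ?_) (by positivity) (by positivity)
    · calc |(3 : ℤ)| ^ (e κ).toNat ≤ (2 ^ 2) ^ (2 * (L.C0 * (r + 1) * N * L.l κ)) :=
            (pow_le_pow_left₀ (abs_nonneg _) (by norm_num) _).trans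
              (pow_le_pow_right₀ (by norm_num) h1)
        _ = _ := by rw [← pow_mul]; congr 1; ring
    · rw [one_mul]; exact Nat.mul_le_mul_right _ b.1.2.le

lemma intBd_deg {N : ℕ} {p : Polynomial (Rr r)} (hp : p ∈ Deg r N) :
    L.IntBd (L.den N * L.ev (p : (Rr r)⟦X⟧)) ((4 * (L.C0 * (r + 1)) + 1) * N + 2) := by
  obtain ⟨c, rfl⟩ := hp
  rw [← alg_coe, map_sum, map_sum, mul_sum]
  refine intBd_sum _ fun b _ => ?_
  rw [map_zsmul, map_zsmul, alg_coe, zsmul_eq_mul, mul_left_comm, add_comm]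
  exact (intBd_int _).mul (intBd_mon b)

lemma eq_zero_of_small {ξ : L.Om} {C : ℕ} (h : L.IntBd ξ C) {f : ℕ → ℚ_[2]}
    (hf : ξ = Germ.ofFun f) (hs : ∀ᶠ κ in L.U, ‖f κ‖ < (1 / 2) ^ (C * L.l κ)) : ξ = 0 := by
  obtain ⟨a, rfl, h2⟩ := h
  refine Germ.coe_eq.mpr ((h2.and (hs.and (Germ.coe_eq.mp hf))).mono fun κ ⟨a1, a2, a3⟩ => ?_)
  by_contra hne
  have h3 := one_le_abs_mul_nv (a := a κ) fun e => hne (by simp [e])
  have h4 : |(a κ : ℝ)| ≤ 2 ^ (C * L.l κ) := by exact_mod_cast a1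
  have h5 : nv (a κ) < (1 / 2) ^ (C * L.l κ) := by
    rw [← a3] at a2
    simpa [nv] using a2
  have h6 := mul_lt_mul' h4 h5 (nv_nonneg _) (by positivity)
  rw [← mul_pow] at h6
  norm_num at h6
  linarith

end Lev

end Pool.Agent.Lib.MP_7f88e4_nt
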