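import Mathlib

/-!
Cauchy-Schwarz for counting: a four-term equation has at most as many solutions as the
geometric mean of the four additive energies.
-/

set_option autoImplicit false

namespace Pool.Agent.Lib.MP_7f88e4_nt

open Finset

section CS

variable {α β H : Type*} [DecidableEq H]

lemma card_pairs_eq (A : Finset α) (B : Finset β) (f : α → H) (g : β → H) (U : Finset H)
    (hU : ∀ a ∈ A, f a ∈ U) :
    #((A ×ˢ B).filter fun p => f p.1 = g p.2) =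
      ∑ h ∈ U, #(A.filter fun a => f a = h) * #(B.filter fun b => g b = h) := by
  rw [card_eq_sum_card_fiberwise (f := fun p : α × β => f p.1) (t := U)
    (fun p hp => hU _ (mem_product.1 (mem_filter.1 hp).1).1)]
  refine sum_congr rfl fun h _ => ?_
  rw [← card_product]
  congr 1
  ext p
  simp only [mem_filter, mem_product]
  constructor
  · rintro ⟨⟨⟨h1, h2⟩, h3⟩, h4⟩
    exact ⟨⟨h1, h4⟩, h2, h3 ▸ h4⟩
  · rintro ⟨⟨h1, h4⟩, h2, h3⟩
    exact ⟨⟨⟨h1, h2⟩, h4.trans h3.symm⟩, h4⟩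

lemma cs_pairs (A : Finset α) (B : Finset β) (f : α → H) (g : β → H) :
    #((A ×ˢ B).filter fun p => f p.1 = g p.2) ^ 2 ≤
      #((A ×ˢ A).filter fun p => f p.1 = f p.2) * #((B ×ˢ B).filter fun p => g p.1 = g p.2) := by
  have h1 : ∀ a ∈ A, f a ∈ A.image f ∪ B.image g := fun a ha =>
    mem_union_left _ (mem_image_of_mem _ ha)
  have h2 : ∀ b ∈ B, g b ∈ A.image f ∪ B.image g := fun a ha =>
    mem_union_right _ (mem_image_of_mem _ ha)
  rw [card_pairs_eq A B f g _ h1, card_pairs_eq A A f f _ h1, card_pairs_eq B B g g _ h2]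
  simpa only [sq] using sum_mul_sq_le_sq_mul_sq (A.image f ∪ B.image g)
    (fun h => #(A.filter fun a => f a = h)) (fun h => #(B.filter fun b => g b = h))

end CS

variable {α : Type*}

/-- the additive energy of the family `p` on `S` -/
def energy (S : Finset α) (p : α → ℤ) : ℕ :=
  #(((S ×ˢ S) ×ˢ (S ×ˢ S)).filter fun q => p q.1.1 - p q.1.2 = p q.2.1 - p q.2.2)

lemma cs_two (S S' : Finset α) (p p' : α → ℤ) :
    #(((S ×ˢ S') ×ˢ (S ×ˢ S')).filter fun q => p q.1.1 + p' q.1.2 = p q.2.1 + p' q.2.2) ^ 2 ≤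
      energy S p * energy S' p' := by
  refine le_trans (le_of_eq ?_) (cs_pairs (S ×ˢ S) (S' ×ˢ S') (fun q => p q.1 - p q.2)
    (fun q => p' q.1 - p' q.2))
  congr 1
  refine card_nbij' (fun q => ((q.1.1, q.2.1), (q.2.2, q.1.2)))
    (fun q => ((q.1.1, q.2.2), (q.1.2, q.2.1))) ?_ ?_ (fun _ _ => rfl) (fun _ _ => rfl)
  · intro q hq
    simp only [coe_filter, mem_product, Set.mem_ofPred_eq] at hq ⊢
    exact ⟨⟨⟨hq.1.1.1, hq.1.2.1⟩, hq.1.2.2, hq.1.1.2⟩, by linarith [hq.2]⟩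
  · intro q hq
    simp only [coe_filter, mem_product, Set.mem_ofPred_eq] at hq ⊢
    exact ⟨⟨⟨hq.1.1.1, hq.1.2.2⟩, hq.1.1.2, hq.1.2.1⟩, by linarith [hq.2]⟩

/-- the number of solutions of a four-term equation -/
lemma cs_four (S1 S2 S3 S4 : Finset α) (p1 p2 p3 p4 : α → ℤ) (h : ℤ) :
    #(((S1 ×ˢ S2) ×ˢ (S3 ×ˢ S4)).filter
      fun q => p1 q.1.1 + p2 q.1.2 + p3 q.2.1 + p4 q.2.2 = h) ^ 4 ≤
      energy S1 p1 * energy S2 p2 * (energy S3 p3 * energy S4 p4) := by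
  have h1 := cs_pairs (S1 ×ˢ S2) (S3 ×ˢ S4) (fun q => p1 q.1 + p2 q.2)
    (fun q => h - (p3 q.1 + p4 q.2))
  have h2 := cs_two S1 S2 p1 p2
  have h3 := cs_two S3 S4 p3 p4
  have e1 : (((S1 ×ˢ S2) ×ˢ (S3 ×ˢ S4)).filter
      fun q => p1 q.1.1 + p2 q.1.2 + p3 q.2.1 + p4 q.2.2 = h) =
      (((S1 ×ˢ S2) ×ˢ (S3 ×ˢ S4)).filter
      fun q => p1 q.1.1 + p2 q.1.2 = h - (p3 q.2.1 + p4 q.2.2)) :=
    filter_congr fun q _ => ⟨fun h => by linarith, fun h => by linarith⟩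
  have e2 : (((S3 ×ˢ S4) ×ˢ (S3 ×ˢ S4)).filter
      fun q => h - (p3 q.1.1 + p4 q.1.2) = h - (p3 q.2.1 + p4 q.2.2)) =
      (((S3 ×ˢ S4) ×ˢ (S3 ×ˢ S4)).filter
      fun q => p3 q.1.1 + p4 q.1.2 = p3 q.2.1 + p4 q.2.2) :=
    filter_congr fun q _ => ⟨fun h => by linarith, fun h => by linarith⟩
  rw [e2] at h1
  rw [e1, show (4 : ℕ) = 2 * 2 from rfl, pow_mul]
  refine (Nat.pow_le_pow_left h1 2).trans ?_
  rw [mul_pow]
  exact Nat.mul_le_mul h2 h3

end Pool.Agent.Lib.MP_7f88e4_nt
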