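import Pool.Agent.Lib.MP_7f88e4_nt.ExEnergy

/-!
Counting integers in a window of size `2 ^ (3 m)` whose first `4 m` steps contain many odd steps.
-/

set_option autoImplicit false

namespace Pool.Agent.Lib.MP_7f88e4_nt

open Finset

variable {k : ℤ}

/-- the residue modulo `2 ^ m` -/
def res (m : ℕ) (x : ℤ) : ℕ := (x % 2 ^ m).toNat

lemma res_cast (m : ℕ) (x : ℤ) : (res m x : ℤ) = x % 2 ^ m :=
  Int.toNat_of_nonneg (Int.emod_nonneg _ (by positivity))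

lemma res_lt (m : ℕ) (x : ℤ) : res m x < 2 ^ m := by
  have := Int.emod_lt_of_pos x (show (0 : ℤ) < 2 ^ m by positivity)
  rw [← res_cast] at this
  exact_mod_cast this

lemma cnt_res (hk : Odd k) (m : ℕ) (x : ℤ) : cnt k (res m x) m = cnt k x m := by
  rw [← (lift_iter hk (res m x) m (x / 2 ^ m)).1, res_cast, Int.emod_add_mul_ediv]

lemma off_res (hk : Odd k) (m : ℕ) (x : ℤ) : off k (res m x) m = off k x m := by
  rw [← off_lift hk (res m x) (x / 2 ^ m), res_cast, Int.emod_add_mul_ediv]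

lemma exists_pos (m A : ℕ) (f : ℕ → ℤ) : ∃ y : ℕ → ℤ, ∀ z, 0 ≤ y z ∧ y z < 2 ^ (4 * m) ∧
    2 ^ (4 * m) ∣ f z - 3 ^ A * y z := by
  obtain ⟨u, v, h⟩ : IsCoprime ((3 : ℤ) ^ A) (2 ^ (4 * m)) :=
    IsCoprime.pow (by norm_num [Int.isCoprime_iff_gcd_eq_one])
  refine ⟨fun z => u * f z % 2 ^ (4 * m), fun z => ⟨Int.emod_nonneg _ (by positivity),
    Int.emod_lt_of_pos _ (by positivity), v * f z + 3 ^ A * (u * f z / 2 ^ (4 * m)), ?_⟩⟩
  linear_combination -f z * h - 3 ^ A * Int.emod_add_mul_ediv (u * f z) (2 ^ (4 * m))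

/-- the four block residues of `n` -/
def blk (k : ℤ) (m : ℕ) (n : ℤ) : (ℕ × ℕ) × (ℕ × ℕ) :=
  ((res m n, res m ((T k)^[m] n)), (res m ((T k)^[m + m] n), res m ((T k)^[m + m + m] n)))

lemma cnt_four (hk : Odd k) (m : ℕ) (n : ℤ) : cnt k n (4 * m) =
    cnt k (blk k m n).1.1 m + cnt k (blk k m n).1.2 m + cnt k (blk k m n).2.1 m +
      cnt k (blk k m n).2.2 m := by
  simp only [blk, cnt_res hk, show 4 * m = m + m + m + m by ring, cnt_add]

lemma off_four (hk : Odd k) (m : ℕ) (n : ℤ) : off k n (4 * m) =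
    3 ^ (cnt k (blk k m n).1.2 m + cnt k (blk k m n).2.1 m + cnt k (blk k m n).2.2 m) *
      off k (blk k m n).1.1 m +
    3 ^ (cnt k (blk k m n).2.1 m + cnt k (blk k m n).2.2 m) * (2 ^ m * off k (blk k m n).1.2 m) +
    3 ^ cnt k (blk k m n).2.2 m * (2 ^ (2 * m) * off k (blk k m n).2.1 m) +
    2 ^ (3 * m) * off k (blk k m n).2.2 m := by
  simp only [blk, cnt_res hk, off_res hk, show 4 * m = m + m + m + m by ring, off_add]
  ring

theorem core_class (hk : Odd k) {m : ℕ} (hm : 2 ≤ m) {G l τ M : ℝ} (hG : 0 < G) (hG' : G ≤ 2 ^ m)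
    (hgap : Gap m G) (hl : 0 < l) (hτ : 0 < τ) (hτ3 : 3 ≤ τ ^ 4) (h1 : rho l ≤ M)
    (h2 : rho (l * τ) ≤ 2 * M) (c1 c2 c3 c4 : ℕ × ℕ × ℕ) (hGA : G ≤ 3 ^ c1.1) (a0 : ℤ)
    (S : Finset ℤ) (hS : ∀ n ∈ S, |n - a0| ≤ 2 ^ (3 * m) ∧
      blk k m n ∈ (cls k m c1 ×ˢ cls k m c2) ×ˢ (cls k m c3 ×ˢ cls k m c4)) :
    (#S : ℝ) ≤ 30 * ((8 * |(k : ℝ)| * m + 1) * 2 ^ m / G * M ^ m /
      l ^ (c1.1 + c2.1 + c3.1 + c4.1)) := by
  have hM : 0 < M := (rho_pos l).trans_le h1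
  set K := (8 * |(k : ℝ)| * m + 1) * 2 ^ m / G * M ^ m with hK
  have hK0 : 0 < K := by positivity
  rcases S.eq_empty_or_nonempty with rfl | ⟨n0, hn0⟩
  · simp only [card_empty, Nat.cast_zero]
    positivity
  have hcnt : ∀ c, ∀ z ∈ cls k m c, cnt k z m = c.1 := fun c z hz => (mem_filter.1 hz).2.1
  have hle : ∀ c, ∀ z ∈ cls k m c, c.1 ≤ m := fun c z hz => hcnt c z hz ▸ cnt_le _ _
  have hm0 := (hS n0 hn0).2
  simp only [mem_product] at hm0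
  have a1 := hle _ _ hm0.1.1
  have a2 := hle _ _ hm0.1.2
  have a3 := hle _ _ hm0.2.1
  have a4 := hle _ _ hm0.2.2
  have hG3 : ∀ e, G ≤ 3 ^ (c1.1 + e) := fun e =>
    hGA.trans (pow_le_pow_right₀ (by norm_num) (by omega))
  obtain ⟨y1, hy1⟩ := exists_pos m c1.1 fun z => 2 ^ 0 * off k z m + 3 ^ c1.1 * a0
  obtain ⟨y2, hy2⟩ := exists_pos m (c1.1 + c2.1) fun z => 2 ^ m * off k z m + 0
  obtain ⟨y3, hy3⟩ := exists_pos m (c1.1 + (c2.1 + c3.1))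
    fun z => 2 ^ (2 * m) * off k z m + 0
  obtain ⟨y4, hy4⟩ := exists_pos m (c1.1 + (c2.1 + c3.1 + c4.1))
    fun z => 2 ^ (3 * m) * off k z m + 0
  have e1 := energy_cls hk hG hG' hgap hl hτ hτ3 h1 h2 c1 (by omega) (by omega) hGA _ y1
    fun z => (hy1 z).2.2
  have e2 := energy_cls hk hG hG' hgap hl hτ hτ3 h1 h2 c2 (by omega) (by omega) (hG3 _) _ y2
    fun z => (hy2 z).2.2
  have e3 := energy_cls hk hG hG' hgap hl hτ hτ3 h1 h2 c3 (by omega) (by omega) (hG3 _) _ y3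
    fun z => (hy3 z).2.2
  have e4 := energy_cls hk hG hG' hgap hl hτ hτ3 h1 h2 c4 (by omega) (by omega) (hG3 _) _ y4
    fun z => (hy4 z).2.2
  rw [← hK] at e1 e2 e3 e4
  set Q := (cls k m c1 ×ˢ cls k m c2) ×ˢ (cls k m c3 ×ˢ cls k m c4) with hQ
  set P : (ℕ × ℕ) × (ℕ × ℕ) → ℤ := fun q => y1 q.1.1 / 2 ^ (3 * m) + y2 q.1.2 / 2 ^ (3 * m) +
    y3 q.2.1 / 2 ^ (3 * m) + y4 q.2.2 / 2 ^ (3 * m) with hP
  have hfib : ∀ h : ℤ, (#(Q.filter fun q => P q = h) : ℝ) ≤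
      K / l ^ (c1.1 + c2.1 + c3.1 + c4.1) := fun h => by
    refine le_of_pow_le_pow_left₀ (n := 4) (by norm_num) (by positivity) ?_
    have := cs_four (cls k m c1) (cls k m c2) (cls k m c3) (cls k m c4)
      (fun z => y1 z / 2 ^ (3 * m)) (fun z => y2 z / 2 ^ (3 * m)) (fun z => y3 z / 2 ^ (3 * m))
      (fun z => y4 z / 2 ^ (3 * m)) h
    refine le_trans (by exact_mod_cast this) ((mul_le_mul (mul_le_mul e1 e2 (by positivity)
      (by positivity)) (mul_le_mul e3 e4 (by positivity) (by positivity)) (by positivity)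
      (by positivity)).trans (le_of_eq ?_))
    simp only [pow_add]
    field_simp
  have hdvd : ∀ n ∈ S, (2 : ℤ) ^ (4 * m) ∣ n - a0 + (y1 (blk k m n).1.1 + y2 (blk k m n).1.2 +
      y3 (blk k m n).2.1 + y4 (blk k m n).2.2) := fun n hn => by
    have hq := (hS n hn).2
    simp only [hQ, mem_product] at hq
    have b1 := off_four hk m n
    have b2 := cnt_four hk m n
    rw [hcnt _ _ hq.1.2, hcnt _ _ hq.2.1, hcnt _ _ hq.2.2] at b1 b2
    rw [hcnt _ _ hq.1.1] at b2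
    rw [off, b2] at b1
    obtain ⟨u1, d1⟩ := (hy1 (blk k m n).1.1).2.2
    obtain ⟨u2, d2⟩ := (hy2 (blk k m n).1.2).2.2
    obtain ⟨u3, d3⟩ := (hy3 (blk k m n).2.1).2.2
    obtain ⟨u4, d4⟩ := (hy4 (blk k m n).2.2).2.2
    refine (IsCoprime.pow (m := 4 * m) (n := c1.1 + c2.1 + c3.1 + c4.1)
      (show IsCoprime (2 : ℤ) 3 by norm_num [Int.isCoprime_iff_gcd_eq_one])).dvd_of_dvd_mul_left
      ⟨(T k)^[4 * m] n - 3 ^ (c2.1 + c3.1 + c4.1) * u1 - 3 ^ (c3.1 + c4.1) * u2 - 3 ^ c4.1 * u3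
        - u4, ?_⟩
    linear_combination -b1 - 3 ^ (c2.1 + c3.1 + c4.1) * d1 - 3 ^ (c3.1 + c4.1) * d2 -
      3 ^ c4.1 * d3 - d4
  have hp : (0 : ℤ) < 2 ^ (3 * m) := by positivity
  have h4m : (2 : ℤ) ^ (4 * m) = 2 ^ (3 * m) * 2 ^ m := by ring
  have h2m : (4 : ℤ) ≤ 2 ^ m := by
    calc (4 : ℤ) = 2 ^ 2 := by norm_num
      _ ≤ 2 ^ m := pow_le_pow_right₀ (by norm_num) hm
  have hinj : #S ≤ #((Icc (0 : ℤ) 4 ×ˢ Icc (-1 : ℤ) 4).biUnion
      fun w => Q.filter fun q => P q = 2 ^ m * w.1 - w.2) := by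
    refine card_le_card_of_injOn (blk k m) (fun n hn => ?_) (fun n hn n' hn' h => ?_)
    · obtain ⟨u, hu⟩ := hdvd n hn
      have b := abs_le.1 (hS n hn).1
      have f := fun x => Int.emod_add_mul_ediv x (2 ^ (3 * m))
      have g := fun x => Int.emod_nonneg x hp.ne'
      have g' := fun x => Int.emod_lt_of_pos x hp
      set q := blk k m n
      have b1 : 2 ^ (3 * m) * (2 ^ m * u - P q) = n - a0 + (y1 q.1.1 % 2 ^ (3 * m) +
          y2 q.1.2 % 2 ^ (3 * m) + y3 q.2.1 % 2 ^ (3 * m) + y4 q.2.2 % 2 ^ (3 * m)) := by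
        simp only [hP]
        linear_combination -hu - f (y1 q.1.1) - f (y2 q.1.2) - f (y3 q.2.1) - f (y4 q.2.2)
          - u * h4m
      simp only [coe_biUnion, Set.mem_iUnion, mem_coe, mem_filter, mem_product, mem_Icc]
      refine ⟨(u, 2 ^ m * u - P q), ⟨⟨?_, ?_⟩, ?_, ?_⟩, (hS n hn).2, by ring⟩
      · have : 2 ^ (4 * m) * (-1) < 2 ^ (4 * m) * u := by
          nlinarith [(hy1 q.1.1).1, (hy2 q.1.2).1, (hy3 q.2.1).1, (hy4 q.2.2).1]
        exact Int.lt_add_one_iff.1 (by linarith [lt_of_mul_lt_mul_left this (by positivity)])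
      · have : 2 ^ (4 * m) * u < 2 ^ (4 * m) * 5 := by
          nlinarith [(hy1 q.1.1).2.1, (hy2 q.1.2).2.1, (hy3 q.2.1).2.1, (hy4 q.2.2).2.1]
        exact Int.lt_add_one_iff.1 (by linarith [lt_of_mul_lt_mul_left this (by positivity)])
      · refine le_of_mul_le_mul_left ?_ hp
        linarith [g (y1 q.1.1), g (y2 q.1.2), g (y3 q.2.1), g (y4 q.2.2)]
      · refine Int.lt_add_one_iff.1 (lt_of_mul_lt_mul_left ?_ hp.le)
        linarith [g' (y1 q.1.1), g' (y2 q.1.2), g' (y3 q.2.1), g' (y4 q.2.2)]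
    · have b := dvd_sub (hdvd n hn) (hdvd n' hn')
      rw [h, add_sub_add_right_eq_sub] at b
      refine sub_left_inj.1 (sub_eq_zero.1 (Int.eq_zero_of_abs_lt_dvd b ?_))
      have := abs_sub (n - a0) (n' - a0)
      nlinarith [(hS n hn).1, (hS n' hn').1]
  have h5 : (#S : ℝ) ≤ ∑ w ∈ Icc (0 : ℤ) 4 ×ˢ Icc (-1 : ℤ) 4,
      (#(Q.filter fun q => P q = 2 ^ m * w.1 - w.2) : ℝ) := by
    exact_mod_cast hinj.trans card_biUnion_le
  refine h5.trans ((sum_le_card_nsmul _ _ _ fun w _ => hfib _).trans (le_of_eq ?_))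
  simp

theorem core_count (hk : Odd k) {m : ℕ} (hm : 2 ≤ m) {G l τ M P : ℝ} (hG : 0 < G)
    (hG' : G ≤ 2 ^ m) (hgap : Gap m G) (hl : 0 < l) (hτ : 0 < τ) (hτ3 : 3 ≤ τ ^ 4)
    (h1 : rho l ≤ M) (h2 : rho (l * τ) ≤ 2 * M) (hP : 0 < P) (a0 : ℤ) (S : Finset ℤ)
    (hS : ∀ n ∈ S, |n - a0| ≤ 2 ^ (3 * m) ∧ G ≤ 3 ^ cnt k n m ∧ P ≤ l ^ cnt k n (4 * m)) :
    (#S : ℝ) ≤ (m + 1) ^ 12 * (30 * ((8 * |(k : ℝ)| * m + 1) * 2 ^ m / G * M ^ m / P)) := by
  have hM : 0 < M := (rho_pos l).trans_le h1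
  set I := range (m + 1) ×ˢ range (m + 1) ×ˢ range (m + 1) with hI
  have hex : ∀ x : ℤ, ∃ c ∈ I, res m x ∈ cls k m c := fun x => by
    obtain ⟨s, hs, b1, b2⟩ := off_size hk (res m x) m
    refine ⟨(cnt k (res m x) m, s, cnt k ((T k)^[s] (res m x)) (m - s)), ?_,
      mem_filter.2 ⟨mem_range.2 (res_lt m x), rfl, hs, rfl, b1, b2⟩⟩
    have := cnt_le (k := k) (res m x) m
    have := cnt_le (k := k) ((T k)^[s] (res m x)) (m - s)
    simp only [hI, mem_product, mem_range]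
    omega
  choose cl hcl hcl' using hex
  rw [card_eq_sum_card_fiberwise (t := (I ×ˢ I) ×ˢ (I ×ˢ I)) (f := fun n =>
    ((cl n, cl ((T k)^[m] n)), (cl ((T k)^[m + m] n), cl ((T k)^[m + m + m] n))))
    (fun n _ => by simp [hcl])]
  push_cast
  refine (sum_le_card_nsmul _ _ (30 * ((8 * |(k : ℝ)| * m + 1) * 2 ^ m / G * M ^ m / P))
    fun c _ => ?_).trans (le_of_eq ?_)
  · set S' := S.filter fun n => ((cl n, cl ((T k)^[m] n)), (cl ((T k)^[m + m] n),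
      cl ((T k)^[m + m + m] n))) = c with hS'
    have hb : ∀ n ∈ S', blk k m n ∈ (cls k m c.1.1 ×ˢ cls k m c.1.2) ×ˢ
        (cls k m c.2.1 ×ˢ cls k m c.2.2) := fun n hn => by
      rw [← (mem_filter.1 hn).2]
      simp only [blk, mem_product, hcl', and_self]
    rcases S'.eq_empty_or_nonempty with he | ⟨n0, hn0⟩
    · rw [he, card_empty, Nat.cast_zero]
      positivity
    have hcnt : ∀ c, ∀ z ∈ cls k m c, cnt k z m = c.1 := fun c z hz => (mem_filter.1 hz).2.1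
    have hq := hb n0 hn0
    simp only [mem_product] at hq
    obtain ⟨-, b1, b2⟩ := hS n0 (mem_filter.1 hn0).1
    rw [cnt_four hk, hcnt _ _ hq.1.1, hcnt _ _ hq.1.2, hcnt _ _ hq.2.1, hcnt _ _ hq.2.2] at b2
    rw [← cnt_res hk, show cnt k (res m n0) m = c.1.1.1 from hcnt _ _ hq.1.1] at b1
    refine (core_class hk hm hG hG' hgap hl hτ hτ3 h1 h2 _ _ _ _ b1 a0 S'
      fun n hn => ⟨(hS n (mem_filter.1 hn).1).1, hb n hn⟩).trans ?_
    gcongr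
  · simp only [hI, card_product, card_range, nsmul_eq_mul]
    push_cast
    ring

end Pool.Agent.Lib.MP_7f88e4_nt
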