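import Pool.Agent.Lib.MP_7f88e4_nt.ExXor
import Pool.Agent.Lib.MP_7f88e4_nt.ExCS

/-!
The additive energy, at the real scale `2 ^ (-m)`, of a class of parity words of length `m`.
-/

set_option autoImplicit false

namespace Pool.Agent.Lib.MP_7f88e4_nt

open Finset

variable {k : ℤ}

/-- residues whose parity word has `a` odd steps, `b` of them after time `s`, where the largest
terminal rise starts -/
def cls (k : ℤ) (m : ℕ) (c : ℕ × ℕ × ℕ) : Finset ℕ :=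
  (range (2 ^ m)).filter fun z => cnt k z m = c.1 ∧ c.2.1 ≤ m ∧
    cnt k ((T k)^[c.2.1] z) (m - c.2.1) = c.2.2 ∧ (2 : ℤ) ^ m ≤ 2 ^ c.2.1 * 3 ^ c.2.2 ∧
    |off k z m| ≤ |k| * m * (2 ^ c.2.1 * 3 ^ c.2.2)

/-- the gap property supplied by Ridout's theorem -/
def Gap (m : ℕ) (G : ℝ) : Prop := ∀ (A s : ℕ) (D r : ℤ),
  A ≤ 4 * m → s ≤ 3 * m → G ≤ 3 ^ A → D ≠ 0 → |r| ≤ 2 ^ (3 * m + 2) →
    2 ^ (4 * m) ∣ 2 ^ s * D - 3 ^ A * r → G ≤ |(D : ℝ)|

lemma card_sep (S : Finset ℤ) {G R : ℝ} (hG : 0 < G) (hR : 0 ≤ R)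
    (h1 : ∀ D ∈ S, |(D : ℝ)| ≤ R) (h2 : ∀ D ∈ S, ∀ D' ∈ S, D ≠ D' → G ≤ |(D : ℝ) - D'|) :
    (#S : ℝ) ≤ 2 * R / G + 1 := by
  have h3 : #S ≤ #(range (⌊2 * R / G⌋₊ + 1)) := by
    refine card_le_card_of_injOn (fun D : ℤ => ⌊((D : ℝ) + R) / G⌋₊) (fun D hD => ?_)
      (fun D hD D' hD' h => by_contra fun hne => ?_)
    · simp only [coe_range, Set.mem_Iio, Nat.lt_succ_iff]
      exact Nat.floor_le_floor (div_le_div_of_nonneg_right
        (by linarith [(abs_le.1 (h1 D hD)).2]) hG.le)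
    · have a1 := Nat.floor_le (div_nonneg (show 0 ≤ (D : ℝ) + R by
        linarith [(abs_le.1 (h1 D hD)).1]) hG.le)
      have a2 := Nat.floor_le (div_nonneg (show 0 ≤ (D' : ℝ) + R by
        linarith [(abs_le.1 (h1 D' hD')).1]) hG.le)
      have a3 := Nat.lt_floor_add_one (((D : ℝ) + R) / G)
      have a4 := Nat.lt_floor_add_one (((D' : ℝ) + R) / G)
      simp only at h
      rw [h] at a1 a3
      rw [le_div_iff₀ hG] at a1 a2
      rw [div_lt_iff₀ hG] at a3 a4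
      refine absurd (h2 D hD D' hD' hne) (not_le.2 (abs_lt.2 ⟨?_, ?_⟩)) <;> nlinarith
  rw [card_range] at h3
  have h4 : (#S : ℝ) ≤ ⌊2 * R / G⌋₊ + 1 := by exact_mod_cast h3
  linarith [Nat.floor_le (show 0 ≤ 2 * R / G by positivity)]

lemma prod_odd_const (l : ℝ) (x : ℤ) (L : ℕ) :
    ∏ t ∈ range L, (if Odd ((T k)^[t] x) then l else 1) = l ^ cnt k x L := by
  induction L with
  | zero => simp [cnt]
  | succ L ih =>
    rw [prod_range_succ, ih]
    simp only [cnt]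
    split_ifs <;> ring

lemma wt_cls {m : ℕ} {c : ℕ × ℕ × ℕ} {z : ℕ} (hz : z ∈ cls k m c) (l τ : ℝ) :
    wtX (fun t => if t < c.2.1 then l else l * τ) k z m = l ^ c.1 * τ ^ c.2.2 := by
  obtain ⟨-, h1, h2, h3, -⟩ := mem_filter.1 hz
  obtain ⟨e, rfl⟩ := Nat.exists_eq_add_of_le h2
  rw [Nat.add_sub_cancel_left] at h3
  rw [wtX, prod_range_add, ← h1, cnt_add, h3, pow_add, mul_assoc, ← mul_pow,
    ← prod_odd_const, ← h3, ← prod_odd_const]
  congr 1
  · exact prod_congr rfl fun t ht => by rw [if_pos (mem_range.1 ht)]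
  · exact prod_congr rfl fun t _ => by
      rw [if_neg (show ¬ c.2.1 + t < c.2.1 by omega), add_comm, Function.iterate_add_apply]

lemma prod_rho {m s : ℕ} (h : s ≤ m) (l l' : ℝ) :
    ∏ t ∈ range m, rho (if t < s then l else l') = rho l ^ s * rho l' ^ (m - s) := by
  obtain ⟨e, rfl⟩ := Nat.exists_eq_add_of_le h
  rw [prod_range_add, prod_congr rfl fun t ht => by rw [if_pos (mem_range.1 ht)],
    prod_congr rfl (s₁ := range e) fun t _ => by rw [if_neg (show ¬ s + t < s by omega)]]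
  simp

/-- the alternating sum of offsets -/
def alt (f : ℕ → ℤ) (q : (ℕ × ℕ) × (ℕ × ℕ)) : ℤ := f q.1.1 - f q.1.2 - f q.2.1 + f q.2.2

lemma fiber_le (hk : Odd k) {m : ℕ} {c : ℕ × ℕ × ℕ} (hs : c.2.1 ≤ m) {l τ : ℝ} (hl : 0 < l)
    (hτ : 0 < τ) (F : Finset ((ℕ × ℕ) × (ℕ × ℕ)))
    (hF : F ⊆ (cls k m c ×ˢ cls k m c) ×ˢ (cls k m c ×ˢ cls k m c)) (D : ℤ)
    (hD : ∀ q ∈ F, alt (fun z => off k z m) q = D) :
    (#F : ℝ) ≤ rho l ^ c.2.1 * rho (l * τ) ^ (m - c.2.1) / (l ^ c.1 * τ ^ c.2.2) ^ 4 := by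
  rcases F.eq_empty_or_nonempty with rfl | ⟨q0, hq0⟩
  · have := rho_pos l
    have := rho_pos (l * τ)
    simp only [card_empty, Nat.cast_zero]
    positivity
  set lam : ℕ → ℝ := fun t => if t < c.2.1 then l else l * τ with hlam
  have hl0 : ∀ t, 0 ≤ lam t := fun t => by
    simp only [hlam]; split_ifs <;> positivity
  have hx := xor_sum hk hl0 (alt (fun z => z) q0) m
  rw [prod_rho hs] at hx
  rw [le_div_iff₀ (by positivity)]
  refine le_trans ?_ hx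
  have hmem : ∀ q ∈ F, (q.1.1 ∈ cls k m c ∧ q.1.2 ∈ cls k m c) ∧ q.2.1 ∈ cls k m c ∧
      q.2.2 ∈ cls k m c := fun q hq => by simpa only [mem_product] using hF hq
  have hcnt : ∀ z ∈ cls k m c, cnt k z m = c.1 := fun z hz => (mem_filter.1 hz).2.1
  have hmod : ∀ q ∈ F, (2 : ℤ) ^ m ∣ 3 ^ c.1 * alt (fun z => z) q + D := fun q hq => by
    obtain ⟨⟨h1, h2⟩, h3, h4⟩ := hmem q hq
    refine ⟨alt (fun z => (T k)^[m] z) q, ?_⟩
    rw [← hD q hq]
    simp only [alt, off, hcnt _ h1, hcnt _ h2, hcnt _ h3, hcnt _ h4]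
    ring
  calc (#F : ℝ) * (l ^ c.1 * τ ^ c.2.2) ^ 4
      = ∑ q ∈ F, trm lam k (alt (fun z => z) q0) m q.1.1 q.1.2 q.2.1 q.2.2 := by
        rw [← nsmul_eq_mul, ← sum_const]
        refine sum_congr rfl fun q hq => ?_
        obtain ⟨⟨h1, h2⟩, h3, h4⟩ := hmem q hq
        have h5 : (2 : ℤ) ^ m ∣ 3 ^ c.1 * (alt (fun z => z) q - alt (fun z => z) q0) := by
          have := dvd_sub (hmod q hq) (hmod q0 hq0)
          rwa [add_sub_add_right_eq_sub, ← mul_sub] at this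
        have h6 : (2 : ℤ) ^ m ∣ alt (fun z => z) q - alt (fun z => z) q0 :=
          (IsCoprime.pow (by norm_num [Int.isCoprime_iff_gcd_eq_one])).dvd_of_dvd_mul_left h5
        rw [trm, if_pos (show (2 : ℤ) ^ m ∣ q.1.1 - q.1.2 - q.2.1 + q.2.2 - alt (fun z => z) q0
          from h6), wt_cls h1, wt_cls h2, wt_cls h3, wt_cls h4]
        ring
    _ ≤ ∑ q ∈ (range (2 ^ m) ×ˢ range (2 ^ m)) ×ˢ (range (2 ^ m) ×ˢ range (2 ^ m)),
          trm lam k (alt (fun z => z) q0) m q.1.1 q.1.2 q.2.1 q.2.2 := by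
        refine sum_le_sum_of_subset_of_nonneg (hF.trans ?_) fun q _ _ => ?_
        · have : cls k m c ⊆ range (2 ^ m) := filter_subset _ _
          gcongr
        · unfold trm
          split_ifs
          · exact mul_nonneg (mul_nonneg (mul_nonneg (wt_nonneg hl0 _ _) (wt_nonneg hl0 _ _))
              (wt_nonneg hl0 _ _)) (wt_nonneg hl0 _ _)
          · exact le_rfl
    _ = _ := by simp only [sum_product]

theorem energy_cls (hk : Odd k) {m : ℕ} {G l τ M : ℝ} (hG : 0 < G) (hG' : G ≤ 2 ^ m)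
    (hgap : Gap m G) (hl : 0 < l) (hτ : 0 < τ) (hτ3 : 3 ≤ τ ^ 4) (h1 : rho l ≤ M)
    (h2 : rho (l * τ) ≤ 2 * M) (c : ℕ × ℕ × ℕ) {A s : ℕ} (hA : A ≤ 4 * m) (hs : s ≤ 3 * m)
    (hGA : G ≤ 3 ^ A) (c0 : ℤ) (y : ℕ → ℤ)
    (hy : ∀ z : ℕ, 2 ^ (4 * m) ∣ 2 ^ s * off k z m + c0 - 3 ^ A * y z) :
    (energy (cls k m c) (fun z => y z / 2 ^ (3 * m)) : ℝ) ≤
      (8 * |(k : ℝ)| * m + 1) * 2 ^ m / G * M ^ m / (l ^ c.1) ^ 4 := by
  have hM : 0 < M := (rho_pos l).trans_le h1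
  rcases (cls k m c).eq_empty_or_nonempty with he | ⟨z0, hz0⟩
  · simp only [energy, he, empty_product, filter_empty, card_empty, Nat.cast_zero]
    positivity
  obtain ⟨-, -, hcs, -, hB, -⟩ := mem_filter.1 hz0
  set E := ((cls k m c ×ˢ cls k m c) ×ˢ (cls k m c ×ˢ cls k m c)).filter fun q =>
    y q.1.1 / 2 ^ (3 * m) - y q.1.2 / 2 ^ (3 * m) = y q.2.1 / 2 ^ (3 * m) - y q.2.2 / 2 ^ (3 * m)
    with hE
  set B : ℝ := 2 ^ c.2.1 * 3 ^ c.2.2 with hBdef
  have hB' : (2 : ℝ) ^ m ≤ B := by rw [hBdef]; exact_mod_cast hB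
  have hB0 : 0 < B := by positivity
  have hr : ∀ q ∈ E, |alt y q| ≤ 2 * 2 ^ (3 * m) := fun q hq => by
    have h := (mem_filter.1 hq).2
    have hp : (0 : ℤ) < 2 ^ (3 * m) := by positivity
    have e := fun z => Int.emod_add_mul_ediv (y z) (2 ^ (3 * m))
    have a := fun z => Int.emod_nonneg (y z) hp.ne'
    have b := fun z => Int.emod_lt_of_pos (y z) hp
    have e' : alt y q = y q.1.1 % 2 ^ (3 * m) - y q.1.2 % 2 ^ (3 * m) - y q.2.1 % 2 ^ (3 * m) +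
        y q.2.2 % 2 ^ (3 * m) := by
      unfold alt
      linear_combination -e q.1.1 + e q.1.2 + e q.2.1 - e q.2.2 + 2 ^ (3 * m) * h
    rw [e', abs_le]
    constructor <;> linarith [a q.1.1, a q.1.2, a q.2.1, a q.2.2, b q.1.1, b q.1.2, b q.2.1, b q.2.2]
  have hd : ∀ q, (2 : ℤ) ^ (4 * m) ∣ 2 ^ s * alt (fun z => off k z m) q - 3 ^ A * alt y q :=
    fun q => by
      have := dvd_add (dvd_sub (dvd_sub (hy q.1.1) (hy q.1.2)) (hy q.2.1)) (hy q.2.2)
      refine this.trans (dvd_of_eq ?_)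
      unfold alt; ring
  have hcard : (#(E.image (alt fun z => off k z m)) : ℝ) ≤ 2 * (4 * (|(k : ℝ)| * m * B)) / G + 1 := by
    refine card_sep _ hG (by positivity) (fun D hD => ?_) (fun D hD D' hD' hne => ?_)
    · obtain ⟨q, hq, rfl⟩ := mem_image.1 hD
      have h := (mem_filter.1 hq).1
      simp only [mem_product] at h
      have b : ∀ z ∈ cls k m c, |(off k z m : ℝ)| ≤ |(k : ℝ)| * m * B := fun z hz => by
        rw [hBdef]; exact_mod_cast (mem_filter.1 hz).2.2.2.2.2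
      have b1 := abs_le.1 (b _ h.1.1)
      have b2 := abs_le.1 (b _ h.1.2)
      have b3 := abs_le.1 (b _ h.2.1)
      have b4 := abs_le.1 (b _ h.2.2)
      simp only [alt]
      push_cast
      rw [abs_le]
      constructor <;> linarith [b1.1, b1.2, b2.1, b2.2, b3.1, b3.2, b4.1, b4.2]
    · obtain ⟨q, hq, rfl⟩ := mem_image.1 hD
      obtain ⟨q', hq', rfl⟩ := mem_image.1 hD'
      have := hgap A s _ (alt y q - alt y q') hA hs hGA (sub_ne_zero.2 hne) (by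
        have := abs_sub (alt y q) (alt y q')
        rw [pow_add]
        linarith [hr q hq, hr q' hq']) ((dvd_sub (hd q) (hd q')).trans (dvd_of_eq (by ring)))
      exact_mod_cast this
  set W := rho l ^ c.2.1 * rho (l * τ) ^ (m - c.2.1) / (l ^ c.1 * τ ^ c.2.2) ^ 4 with hW
  have hW0 : 0 ≤ W := by
    have := rho_pos l
    have := rho_pos (l * τ)
    positivity
  have hsum : (#E : ℝ) ≤ #(E.image (alt fun z => off k z m)) * W := by
    rw [card_eq_sum_card_image (alt fun z => off k z m) E, ← nsmul_eq_mul]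
    push_cast
    exact sum_le_card_nsmul _ _ _ fun D _ => fiber_le hk hcs hl hτ _
      ((filter_subset _ _).trans (filter_subset _ _)) D fun q hq => (mem_filter.1 hq).2
  refine hsum.trans ((mul_le_mul_of_nonneg_right hcard hW0).trans ?_)
  have a1 : 2 * (4 * (|(k : ℝ)| * m * B)) / G + 1 ≤ (8 * |(k : ℝ)| * m + 1) * B / G := by
    rw [div_add_one hG.ne']
    exact div_le_div_of_nonneg_right (by nlinarith) hG.le
  have a2 : B * W ≤ 2 ^ m * M ^ m / (l ^ c.1) ^ 4 := by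
    obtain ⟨e, he⟩ := Nat.exists_eq_add_of_le hcs
    have b1 : rho l ^ c.2.1 ≤ M ^ c.2.1 := pow_le_pow_left₀ (rho_pos _).le h1 _
    have b2 : rho (l * τ) ^ e ≤ (2 * M) ^ e := pow_le_pow_left₀ (rho_pos _).le h2 _
    have b3 : (3 : ℝ) ^ c.2.2 ≤ (τ ^ c.2.2) ^ 4 := by
      rw [← pow_mul, mul_comm, pow_mul]; exact pow_le_pow_left₀ (by norm_num) hτ3 _
    have := rho_pos l
    have := rho_pos (l * τ)
    rw [hW, hBdef, show m - c.2.1 = e by omega, mul_pow (l ^ c.1), ← mul_div_assoc,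
      div_le_div_iff₀ (by positivity) (by positivity)]
    calc _ ≤ 2 ^ c.2.1 * (τ ^ c.2.2) ^ 4 * (M ^ c.2.1 * (2 * M) ^ e) * (l ^ c.1) ^ 4 := by gcongr
      _ = _ := by rw [he]; simp only [pow_add, mul_pow]; ring
  calc _ ≤ (8 * |(k : ℝ)| * m + 1) * B / G * W := mul_le_mul_of_nonneg_right a1 hW0
    _ = (8 * |(k : ℝ)| * m + 1) / G * (B * W) := by ring
    _ ≤ (8 * |(k : ℝ)| * m + 1) / G * (2 ^ m * M ^ m / (l ^ c.1) ^ 4) := by gcongr
    _ = _ := by ring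

end Pool.Agent.Lib.MP_7f88e4_nt
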