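import Pool.Agent.Shared.SubspaceMain

/-!
A consequence of Ridout's theorem: the fractions `2 ^ s / 3 ^ A` modulo `2 ^ (4 m)` have no good
approximations with small denominator.
-/

set_option autoImplicit false

namespace Pool.Agent.Lib.MP_7f88e4_nt

open Finset Filter Topology Pool.Agent.Shared.Subspace

/-- the primes two and three -/
def G23 : PrimeFam Bool where
  pr := fun b => cond b 3 2
  prime := fun b => by cases b <;> simp [Nat.prime_two, Nat.prime_three]
  inj := fun a b => by cases a <;> cases b <;> simp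

lemma av_pow_mul (b : Bool) (n : ℕ) (z : ℤ) :
    G23.av (some b) (((G23.pr b : ℕ) : ℚ) ^ n * z) ≤ (((G23.pr b : ℕ) : ℝ) ^ n)⁻¹ := by
  rw [map_mul, map_pow, G23.av_self, inv_pow]
  exact mul_le_of_le_one_right (by positivity) (G23.av_le_one b (intCast_mem_Zr z))

lemma SB_pow_lin {U : Filter ℕ} {m : ℕ → ℕ} (hl : Tendsto (fun j => (m j : ℝ)) U atTop)
    {b : ℝ} (hb : 0 < b) (c : ℝ) :
    SB U (fun j => (m j : ℝ)) (fun j => b ^ (c * m j)) (c * Real.log b) := by
  refine (SB_exp hl _).of_le (Eventually.of_forall fun j => le_of_eq ?_)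
  rw [Real.rpow_def_of_pos hb]; congr 1; ring

lemma exists_exp {U : Ultrafilter ℕ} {m : ℕ → ℕ} (hl : Tendsto (fun j => (m j : ℝ)) U atTop)
    {b : ℝ} (hb : 1 ≤ b) {A : ℕ → ℕ} (hA : ∀ j, A j ≤ 4 * m j) :
    ∃ μ : ℝ, SB U (fun j => (m j : ℝ)) (fun j => b ^ A j) μ ∧
      SB U (fun j => (m j : ℝ)) (fun j => (b ^ A j)⁻¹) (-μ) := by
  refine exists_exponent U hl (fun j => by positivity) (A := 4 * Real.log b) (B := 0)
    ((SB_pow_lin hl (by linarith) 4).of_le (Eventually.of_forall fun j => ?_))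
    ((SB_const hl 1).of_le (Eventually.of_forall fun j => inv_le_one_of_one_le₀ (one_le_pow₀ hb)))
  rw [← Real.rpow_natCast]
  exact Real.rpow_le_rpow_of_exponent_le hb (by exact_mod_cast hA j)

theorem ridout_gap {ε : ℝ} (hε : 0 < ε) : ∃ m0 : ℕ, ∀ m, m0 ≤ m → ∀ (A s : ℕ) (D r : ℤ),
    A ≤ 4 * m → s ≤ 3 * m → (2 : ℝ) ^ ((1 - ε) * m) ≤ 3 ^ A → D ≠ 0 → |r| ≤ 2 ^ (3 * m + 2) →
    2 ^ (4 * m) ∣ 2 ^ s * D - 3 ^ A * r → (2 : ℝ) ^ ((1 - ε) * m) ≤ |(D : ℝ)| := by
  by_contra hcon
  push Not at hcon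
  choose m hm A s D r hA hs h3 hD hr hu hlt using hcon
  choose u hu using hu
  let U : Ultrafilter ℕ := hyperfilter ℕ
  have hl : Tendsto (fun j => (m j : ℝ)) U atTop :=
    (tendsto_natCast_atTop_atTop.comp (tendsto_atTop_mono hm tendsto_id)).mono_left
      Nat.hyperfilter_le_atTop
  obtain ⟨μ3, p3, q3⟩ := exists_exp hl (show (1 : ℝ) ≤ 3 by norm_num) hA
  obtain ⟨μ2, p2, q2⟩ := exists_exp hl (show (1 : ℝ) ≤ 2 by norm_num)
    (fun j => (hs j).trans (by omega))
  have hlog := Real.log_pos (show (1 : ℝ) < 2 by norm_num)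
  obtain ⟨a, ha, hx⟩ := subspace_ultra U hl G23 (κ := Fin 2)
    (fun v => match v with
      | some false => !![-1, 1; 0, 1]
      | _ => 1)
    (by rintro (_ | _ | _) <;> simp [Matrix.det_fin_two])
    (fun v => match v with
      | none => ![μ3 + 3 * Real.log 2, μ2 + (1 - ε) * Real.log 2]
      | some false => ![-4 * Real.log 2, -μ2]
      | some true => ![-μ3, 0])
    (by simp [Fintype.sum_option, Fin.sum_univ_two]; nlinarith)
    (fun j => ![((3 ^ A j * r j : ℤ) : ℚ), ((2 ^ s j * D j : ℤ) : ℚ)])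
    (Eventually.of_forall fun j k => G23.mem_OS_of_Zr (by fin_cases k <;> exact intCast_mem_Zr _))
    (by
      rintro (_ | _ | _) i <;> fin_cases i
      · refine ((p3.mul (SB_pow_lin hl two_pos 3) (Eventually.of_forall fun j => by
          positivity)).const_mul hl (Eventually.of_forall fun j => by positivity) 4).of_le
          (Eventually.of_forall fun j => ?_)
        have h1 : |(r j : ℝ)| ≤ 2 ^ (3 * m j + 2) := by exact_mod_cast hr j
        have h2 : (2 : ℝ) ^ ((3 : ℝ) * m j) = 2 ^ (3 * m j) := by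
          rw [← Real.rpow_natCast]; push_cast; rfl
        simp only [Matrix.one_mulVec, G23.av_none, vinf_apply, h2]
        simp only [Fin.zero_eta, Matrix.cons_val_zero]
        push_cast
        rw [abs_mul, abs_of_pos (show (0 : ℝ) < 3 ^ A j by positivity), mul_left_comm]
        refine mul_le_mul_of_nonneg_left (h1.trans (le_of_eq ?_)) (by positivity)
        ring
      · refine (p2.mul (SB_pow_lin hl two_pos (1 - ε)) (Eventually.of_forall fun j => by
          positivity)).of_le (Eventually.of_forall fun j => ?_)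
        simp only [Matrix.one_mulVec, G23.av_none, vinf_apply]
        simp only [Fin.mk_one, Matrix.cons_val_one, Matrix.cons_val_zero]
        push_cast
        rw [abs_mul, abs_of_pos (show (0 : ℝ) < 2 ^ s j by positivity)]
        exact mul_le_mul_of_nonneg_left (hlt j).le (by positivity)
      · refine (SB_pow_lin hl two_pos (-4)).of_le (Eventually.of_forall fun j => ?_)
        have h1 := av_pow_mul false (4 * m j) (u j)
        have h2 : (2 : ℝ) ^ ((-4 : ℝ) * m j) = (2 ^ (4 * m j))⁻¹ := by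
          rw [neg_mul, Real.rpow_neg (by norm_num), ← Real.rpow_natCast]; push_cast; rfl
        have h3 := congrArg (Int.cast : ℤ → ℚ) (hu j)
        push_cast at h3
        rw [h2]
        refine le_trans (le_of_eq ?_) h1
        congr 1
        simp [Matrix.mulVec, dotProduct, Fin.sum_univ_two, G23]
        linarith
      · refine q2.of_le (Eventually.of_forall fun j => ?_)
        refine le_trans (le_of_eq ?_) (av_pow_mul false (s j) (D j))
        congr 1
        simp [Matrix.mulVec, dotProduct, Fin.sum_univ_two, G23]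
      · refine q3.of_le (Eventually.of_forall fun j => ?_)
        refine le_trans (le_of_eq ?_) (av_pow_mul true (A j) (r j))
        congr 1
        simp [G23]
      · refine (SB_const hl 1).of_le (Eventually.of_forall fun j => ?_)
        rw [Matrix.one_mulVec]
        exact G23.av_le_one true (intCast_mem_Zr _))
  simp only [Fin.sum_univ_two, Matrix.cons_val_zero, Matrix.cons_val_one] at hx
  have hbig : ∀ j (n : ℕ) (b : ℤ), 0 < b → b ^ n ∣ D j → (2 : ℝ) ^ ((1 - ε) * m j) ≤ b ^ n →
      False := fun j n b hb h h' => by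
    have h1 := Int.le_of_dvd (abs_pos.2 (hD j)) ((dvd_abs _ _).2 h)
    have h2 : (b : ℝ) ^ n ≤ |(D j : ℝ)| := by exact_mod_cast h1
    linarith [hlt j]
  by_cases h0 : a 0 + a 1 = 0
  · obtain ⟨j, hj⟩ := hx.exists
    have h1 : a 0 ≠ 0 := fun h => ha (by
      ext i; fin_cases i
      · exact h
      · simpa [h] using h0)
    rw [show a 1 = -a 0 by linarith, neg_mul, ← sub_eq_add_neg, ← mul_sub, mul_eq_zero,
      sub_eq_zero] at hj
    have h2 : 3 ^ A j * r j = 2 ^ s j * D j := by exact_mod_cast hj.resolve_left h1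
    refine hbig j (A j) 3 (by norm_num) ?_ (by exact_mod_cast h3 j)
    exact (IsCoprime.pow (by norm_num [Int.isCoprime_iff_gcd_eq_one])).dvd_of_dvd_mul_left
      (⟨r j, h2.symm⟩ : (3 : ℤ) ^ A j ∣ 2 ^ s j * D j)
  · set b := a 1 / (a 0 + a 1) with hb
    obtain ⟨j, hj, hj'⟩ := (hx.and (hl.eventually_ge_atTop (4 * b.den))).exists
    have h1 := congrArg (Int.cast : ℤ → ℚ) (hu j)
    have h2 : ((b.den * (3 ^ A j * r j) + b.num * (2 ^ (4 * m j) * u j) : ℤ) : ℚ) = 0 := by
      have h4 : (b.num : ℚ) = b * b.den := (Rat.mul_den_eq_num b).symm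
      push_cast at h1 hj ⊢
      rw [h4, ← h1, hb]
      field_simp
      linear_combination (b.den : ℚ) * hj
    have h4 : (2 : ℤ) ^ (4 * m j) ∣ 3 ^ A j * (b.den * r j) :=
      ⟨-(b.num * u j), by linear_combination (Int.cast_eq_zero.1 h2)⟩
    have h5 : (2 : ℤ) ^ (4 * m j) ∣ b.den * r j :=
      (IsCoprime.pow (by norm_num [Int.isCoprime_iff_gcd_eq_one])).dvd_of_dvd_mul_left h4
    have h6 : (b.den : ℤ) * r j = 0 := by
      refine Int.eq_zero_of_abs_lt_dvd h5 ?_
      have h7 : (4 * b.den : ℤ) ≤ m j := by exact_mod_cast hj'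
      have h8 : (m j : ℤ) < 2 ^ m j := by exact_mod_cast Nat.lt_two_pow_self
      have h9 : (0 : ℤ) < 2 ^ (3 * m j) := by positivity
      rw [abs_mul, Nat.abs_cast, show 4 * m j = m j + 3 * m j by ring, pow_add]
      have := mul_le_mul_of_nonneg_left (hr j) (Nat.cast_nonneg b.den)
      rw [pow_add] at this
      nlinarith
    have h7 : r j = 0 := (mul_eq_zero.1 h6).resolve_left (by exact_mod_cast b.den_ne_zero)
    refine hbig j (m j) 2 (by norm_num) ?_ ?_
    · have h8 := hu j
      obtain ⟨e, he⟩ := Nat.exists_eq_add_of_le (hs j)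
      rw [h7, mul_zero, sub_zero, show 4 * m j = s j + (m j + e) by omega, pow_add, mul_assoc,
        mul_right_inj' (by positivity), pow_add, mul_assoc] at h8
      exact ⟨_, h8⟩
    · rw [← Real.rpow_natCast]
      push_cast
      exact Real.rpow_le_rpow_of_exponent_le (by norm_num)
        (by nlinarith [(Nat.cast_nonneg (m j) : (0 : ℝ) ≤ m j)])

end Pool.Agent.Lib.MP_7f88e4_nt
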