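import Pool.Agent.Lib.MP_7f88e4_nt.ExCore
import Pool.Agent.Lib.MP_7f88e4_nt.ExRidout

/-!
The number of integers whose orbit does not descend within `4/3 log_2 |n|` steps.
-/

set_option autoImplicit false

namespace Pool.Agent.Lib.MP_7f88e4_nt

open Finset Filter

variable {k : ℤ}

lemma drift_le (hk : Odd k) (n : ℤ) {η : ℝ} (hη : 0 ≤ η) (j : ℕ)
    (h : ∀ i < j, |(k : ℝ)| ≤ η * |(((T k)^[i] n : ℤ) : ℝ)|) :
    2 ^ j * |(((T k)^[j] n : ℤ) : ℝ)| ≤ (1 + η) ^ j * 3 ^ cnt k n j * |(n : ℝ)| := by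
  induction j with
  | zero => simp [cnt]
  | succ j ih =>
    have h1 := ih fun i hi => h i (by omega)
    have h2 := h j (by omega)
    have h3 := two_mul_T hk ((T k)^[j] n)
    have hp : (0 : ℝ) < 2 ^ j := by positivity
    have h0 : 0 ≤ η * (2 ^ j * |(((T k)^[j] n : ℤ) : ℝ)|) := by positivity
    have h6 := mul_le_mul_of_nonneg_left h1 hη
    simp only [cnt, Function.iterate_succ_apply']
    set y := (T k)^[j] n
    split_ifs at h3 ⊢
    · have h4 : (2 : ℝ) * T k y = 3 * y + k := by exact_mod_cast h3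
      have h5 : 2 * |(T k y : ℝ)| ≤ 3 * |(y : ℝ)| + η * |(y : ℝ)| := by
        have := abs_add_le (3 * (y : ℝ)) k
        rw [← h4, abs_mul, abs_mul, abs_two, abs_of_pos (show (0 : ℝ) < 3 by norm_num)] at this
        linarith
      rw [pow_succ, pow_succ, pow_succ]
      nlinarith [mul_le_mul_of_nonneg_left h5 hp.le]
    · have h4 : (2 : ℝ) * T k y = y := by exact_mod_cast h3
      have h5 : 2 * |(T k y : ℝ)| = |(y : ℝ)| := by
        rw [← abs_two, ← abs_mul, h4]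
      rw [pow_succ, pow_succ, mul_assoc, h5]
      nlinarith

lemma ev_poly (C : ℝ) (d : ℕ) {r : ℝ} (hr : 1 < r) :
    ∀ᶠ m : ℕ in atTop, C * ((m : ℝ) + 1) ^ d ≤ r ^ m := by
  have h := (tendsto_pow_const_div_const_pow_of_one_lt d hr).comp (tendsto_add_atTop_nat 1)
  have h2 := (h.const_mul (C * r)).eventually_le_const (show C * r * 0 < 1 by simp)
  filter_upwards [h2] with m hm
  simp only [Function.comp, pow_succ r] at hm
  push_cast at hm
  rw [← div_le_one (by positivity)]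
  refine le_trans (le_of_eq ?_) hm
  field_simp

lemma M_le : (17.8073 : ℝ) ≤ 2 ^ (4.1545 : ℝ) := by
  refine le_of_pow_le_pow_left₀ (n := 2000) (by norm_num) (by positivity) ?_
  have h : 178073 ^ 2000 ≤ 2 ^ 8309 * 10000 ^ 2000 := by decide +kernel
  rw [← Real.rpow_natCast (_ ^ _), ← Real.rpow_mul (by norm_num),
    show (4.1545 : ℝ) * (2000 : ℕ) = (8309 : ℕ) by norm_num, Real.rpow_natCast,
    show (17.8073 : ℝ) = 178073 / 10000 by norm_num, div_pow, div_le_iff₀ (by positivity)]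
  exact_mod_cast h

lemma one_le_abs (hk : Odd k) : 1 ≤ |(k : ℝ)| := by
  have : k ≠ 0 := by rintro rfl; exact absurd hk (by decide)
  exact_mod_cast Int.one_le_abs this

lemma two_rpow_le {a b : ℝ} (h : a ≤ b) : (2 : ℝ) ^ a ≤ 2 ^ b :=
  Real.rpow_le_rpow_of_exponent_le (by norm_num) h

/-- the growth factor of the final bound -/
noncomputable def bet : ℝ := 8 ^ (0.9404 : ℝ)

lemma bet_eq : bet = 2 ^ (2.8212 : ℝ) := by
  rw [bet, show (8 : ℝ) = 2 ^ (3 : ℝ) by norm_num, ← Real.rpow_mul (by norm_num)]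
  norm_num

lemma five_le_bet : 5 ≤ bet := by
  refine le_of_pow_le_pow_left₀ (n := 2) (by norm_num) (by rw [bet]; positivity) ?_
  rw [bet_eq, ← Real.rpow_natCast (_ ^ _), ← Real.rpow_mul (by norm_num)]
  refine le_trans ?_ (two_rpow_le (a := (5 : ℕ)) (by norm_num))
  rw [Real.rpow_natCast]; norm_num

/-- integers in a window of size `8 ^ m` with many odd steps up to time `4 m` -/
theorem high_count : ∀ᶠ m : ℕ in atTop, ∀ k : ℤ, Odd k → ∀ (a0 : ℤ) (S : Finset ℤ),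
    (∀ n ∈ S, |n - a0| ≤ 8 ^ m ∧
      ∀ j ≤ 4 * m, (2 : ℝ) ^ ((j : ℝ) - 0.00001 * m) ≤ 3 ^ cnt k n j) →
    (#S : ℝ) ≤ |(k : ℝ)| * bet ^ m / 2 := by
  obtain ⟨m0, hm0⟩ := ridout_gap (show (0 : ℝ) < 0.00001 by norm_num)
  filter_upwards [eventually_ge_atTop m0, eventually_ge_atTop 2, ev_poly 540 13
      (Real.one_lt_rpow (show (1 : ℝ) < 2 by norm_num) (show (0 : ℝ) < 0.00001 by norm_num))]
    with m b0 b1 b3 k hk a0 S hS
  have hm : (0 : ℝ) ≤ m := Nat.cast_nonneg m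
  have hk1 := one_le_abs hk
  have key := core_count hk (m := m) b1 (G := 2 ^ ((1 - 0.00001) * (m : ℝ)))
    (l := 1.44225) (τ := 1.316075) (M := 17.8073) (P := 2 ^ ((4 - 0.00001) / 3 * (m : ℝ)))
    (by positivity) (by rw [← Real.rpow_natCast]; exact two_rpow_le (by linarith)) (hm0 m b0)
    (by norm_num) (by norm_num) (by norm_num) (by norm_num [rho]) (by norm_num [rho])
    (by positivity) a0 S fun n hn => ⟨by rw [pow_mul]; exact (hS n hn).1,
      (two_rpow_le (by linarith)).trans ((hS n hn).2 m (by omega)), by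
      refine le_of_pow_le_pow_left₀ (n := 3) (by norm_num) (by positivity) ?_
      rw [← pow_mul, mul_comm (cnt _ _ _), pow_mul, ← Real.rpow_natCast (_ ^ _),
        ← Real.rpow_mul (by norm_num)]
      refine ((two_rpow_le ?_).trans ((hS n hn).2 _ le_rfl)).trans
        (pow_le_pow_left₀ (by norm_num) (by norm_num) _)
      push_cast; linarith⟩
  refine key.trans ?_
  have c1 : (17.8073 : ℝ) ^ m ≤ 2 ^ (4.1545 * (m : ℝ)) := by
    rw [Real.rpow_mul (by norm_num), Real.rpow_natCast]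
    exact pow_le_pow_left₀ (by norm_num) M_le _
  have c2 : 8 * |(k : ℝ)| * m + 1 ≤ 9 * |(k : ℝ)| * (m + 1) := by nlinarith
  rw [← Real.rpow_natCast (2 ^ _), ← Real.rpow_mul (by norm_num)] at b3
  rw [bet_eq, ← Real.rpow_natCast (2 ^ _), ← Real.rpow_mul (by norm_num), ← Real.rpow_natCast 2 m]
  calc _ ≤ (m + 1) ^ 12 * (30 * (9 * |(k : ℝ)| * (m + 1) * 2 ^ (m : ℝ) /
        2 ^ ((1 - 0.00001) * (m : ℝ)) * 2 ^ (4.1545 * (m : ℝ)) /
        2 ^ ((4 - 0.00001) / 3 * (m : ℝ)))) := by gcongr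
    _ = |(k : ℝ)| * (540 * (m + 1) ^ 13 * (2 ^ (m : ℝ) /
        2 ^ ((1 - 0.00001) * (m : ℝ)) * 2 ^ (4.1545 * (m : ℝ)) /
        2 ^ ((4 - 0.00001) / 3 * (m : ℝ)))) / 2 := by ring
    _ ≤ |(k : ℝ)| * (2 ^ (0.00001 * (m : ℝ)) * (2 ^ (m : ℝ) /
        2 ^ ((1 - 0.00001) * (m : ℝ)) * 2 ^ (4.1545 * (m : ℝ)) /
        2 ^ ((4 - 0.00001) / 3 * (m : ℝ)))) / 2 := by gcongr
    _ ≤ _ := by
      rw [← Real.rpow_sub two_pos, ← Real.rpow_add two_pos, ← Real.rpow_sub two_pos,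
        ← Real.rpow_add two_pos]
      exact div_le_div_of_nonneg_right (mul_le_mul_of_nonneg_left (two_rpow_le (by linarith))
        (abs_nonneg _)) (by norm_num)

lemma four_mul_le {m : ℕ} (hm : 800000 ≤ m) :
    4 * (8 : ℝ) ^ (m / 400000) ≤ 2 ^ (0.00001 * (m : ℝ)) := by
  have hm' : (800000 : ℝ) ≤ m := by exact_mod_cast hm
  have c1 : ((m / 400000 : ℕ) : ℝ) ≤ m / 400000 := by exact_mod_cast Nat.cast_div_le
  refine le_trans (le_of_eq ?_)
    (two_rpow_le (a := ((2 + 3 * (m / 400000) : ℕ) : ℝ)) (by push_cast; linarith))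
  rw [Real.rpow_natCast, pow_add, pow_mul]; norm_num

lemma two_pow_le_eight (m : ℕ) : (2 : ℝ) ^ m ≤ 8 ^ (m - m / 400000) := by
  rw [show (8 : ℝ) = 2 ^ 3 by norm_num, ← pow_mul]
  exact pow_le_pow_right₀ (by norm_num) (by omega)

lemma eight_split (m : ℕ) : (8 : ℝ) ^ m = 8 ^ (m - m / 400000) * 8 ^ (m / 400000) := by
  rw [← pow_add, Nat.sub_add_cancel (Nat.div_le_self _ _)]

/-- an orbit that stays high has many odd steps -/
lemma odd_of_high (hk : Odd k) {m : ℕ} (hm : 800000 ≤ m) (hkm : 8 * |(k : ℝ)| * (m + 1) ≤ 2 ^ m)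
    {n : ℤ} (a0 : |(n : ℝ)| ≤ 8 ^ m)
    (a : ∀ i ≤ 4 * m, (8 : ℝ) ^ (m - m / 400000) ≤ |(((T k)^[i] n : ℤ) : ℝ)|) {j : ℕ}
    (hj : j ≤ 4 * m) : (2 : ℝ) ^ ((j : ℝ) - 0.00001 * m) ≤ 3 ^ cnt k n j := by
  have hm' : (800000 : ℝ) ≤ m := by exact_mod_cast hm
  have a1 := drift_le hk n (η := 1 / (4 * m)) (by positivity) j fun i hi => by
    rw [one_div, inv_mul_eq_div, le_div_iff₀ (by positivity)]
    have := a i (by omega)
    nlinarith [abs_nonneg (k : ℝ), two_pow_le_eight m]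
  have a2 : (1 + 1 / (4 * (m : ℝ))) ^ j ≤ 4 := by
    have c1 : (j : ℝ) ≤ 4 * m := by exact_mod_cast hj
    calc _ ≤ Real.exp (1 / (4 * (m : ℝ))) ^ j :=
          pow_le_pow_left₀ (by positivity) (by linarith [Real.add_one_le_exp (1 / (4 * (m : ℝ)))]) _
      _ = Real.exp (j * (1 / (4 * (m : ℝ)))) := (Real.exp_nat_mul _ _).symm
      _ ≤ Real.exp 1 := Real.exp_le_exp.2 (by
          rw [mul_one_div, div_le_one (by positivity)]; exact c1)
      _ ≤ 4 := by linarith [Real.exp_one_lt_d9]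
  have a4 := four_mul_le hm
  rw [Real.rpow_sub two_pos, Real.rpow_natCast, div_le_iff₀ (by positivity)]
  refine le_of_mul_le_mul_right ?_ (show (0 : ℝ) < 8 ^ (m - m / 400000) by positivity)
  calc _ ≤ 2 ^ j * |(((T k)^[j] n : ℤ) : ℝ)| := by gcongr; exact a j hj
    _ ≤ _ := a1
    _ ≤ 4 * 3 ^ cnt k n j * 8 ^ m := by gcongr
    _ = 3 ^ cnt k n j * (4 * 8 ^ (m / 400000)) * 8 ^ (m - m / 400000) := by
      rw [eight_split m]; ring
    _ ≤ _ := by gcongr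

lemma big_k : ∀ᶠ m : ℕ in atTop, ∀ κ : ℝ, 2 ^ m < 8 * κ * (m + 1) →
    2 * 8 ^ m + 1 ≤ κ * bet ^ m / 2 := by
  filter_upwards [ev_poly 48 1 (show (1 : ℝ) < 5 / 4 by norm_num)] with m h κ hκ
  have h1 : (1 : ℝ) ≤ 8 ^ m := one_le_pow₀ (by norm_num)
  have h2 : (5 : ℝ) ^ m ≤ bet ^ m := pow_le_pow_left₀ (by norm_num) five_le_bet _
  have h3 : (0 : ℝ) < m + 1 := by positivity
  have h4 : 0 < κ := by
    have : (0 : ℝ) < 8 * κ * (m + 1) := lt_trans (by positivity) hκ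
    nlinarith
  have h5 : (8 : ℝ) ^ m * (5 / 4) ^ m = 2 ^ m * 5 ^ m := by rw [← mul_pow, ← mul_pow]; norm_num
  have h6 : 6 * 8 ^ m ≤ κ * 5 ^ m := by
    refine le_of_mul_le_mul_right ?_ (show 0 < 8 * ((m : ℝ) + 1) by positivity)
    calc _ = 8 ^ m * (48 * ((m : ℝ) + 1) ^ 1) := by ring
      _ ≤ 8 ^ m * (5 / 4) ^ m := by gcongr
      _ ≤ 8 * κ * (m + 1) * 5 ^ m := by rw [h5]; gcongr
      _ = _ := by ring
  nlinarith

lemma rec_bound {ι : Type*} {β κ : ℝ} (hβ : 1 ≤ β) (hκ : 1 ≤ κ) (m1 : ℕ) (h : ι → ℕ → ℝ)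
    (hb : ∀ i m, h i m ≤ 2 * 8 ^ m + 1)
    (hr : ∀ m, m1 ≤ m → ∃ m' < m, ∃ w : ℝ, 0 ≤ w ∧ w * β ^ m' ≤ β ^ m / 2 ∧
      ∀ B : ℝ, (∀ i, h i m' ≤ B) → ∀ i, h i m ≤ κ * β ^ m / 2 + w * B) (m : ℕ) :
    ∀ i, h i m ≤ (2 * 8 ^ m1 + 1) * κ * β ^ m := by
  induction m using Nat.strong_induction_on with
  | _ m ih =>
    intro i
    have h1 : 1 ≤ κ * β ^ m := one_le_mul_of_one_le_of_one_le hκ (one_le_pow₀ hβ)
    have h0 : (0 : ℝ) < 8 ^ m1 := by positivity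
    by_cases hm : m1 ≤ m
    · obtain ⟨m', hm', w, hw, h2, h3⟩ := hr m hm
      have h4 := h3 _ (ih m' hm') i
      have h5 := mul_le_mul_of_nonneg_left h2 (show 0 ≤ (2 * 8 ^ m1 + 1) * κ by positivity)
      nlinarith
    · have h2 : (8 : ℝ) ^ m ≤ 8 ^ m1 := pow_le_pow_right₀ (by norm_num) (by omega)
      nlinarith [hb i m]

open Classical in
/-- the part of `A` in the window of radius `8 ^ m` around `a` -/
noncomputable def box (A : Set ℤ) (a : ℤ) (m : ℕ) : Finset ℤ :=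
  (Icc (a - 8 ^ m) (a + 8 ^ m)).filter (· ∈ A)

lemma mem_box {A : Set ℤ} {a : ℤ} {m : ℕ} {n : ℤ} : n ∈ box A a m ↔ |n - a| ≤ 8 ^ m ∧ n ∈ A := by
  simp only [box, mem_filter, mem_Icc, abs_le]
  exact and_congr_left' ⟨fun h => ⟨by linarith [h.1], by linarith [h.2]⟩,
    fun h => ⟨by linarith [h.1], by linarith [h.2]⟩⟩

lemma card_box (A : Set ℤ) (a : ℤ) (m : ℕ) : (#(box A a m) : ℝ) ≤ 2 * 8 ^ m + 1 := by
  have h1 : #(box A a m) ≤ #(Icc (a - 8 ^ m : ℤ) (a + 8 ^ m)) := by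
    classical exact card_filter_le _ _
  have h0 : (0 : ℤ) < 8 ^ m := by positivity
  have h2 : (#(Icc (a - 8 ^ m : ℤ) (a + 8 ^ m)) : ℤ) = 2 * 8 ^ m + 1 := by
    rw [Int.card_Icc_of_le _ _ (by linarith)]
    ring
  have h3 : (#(box A a m) : ℤ) ≤ 2 * 8 ^ m + 1 := by rw [← h2]; exact_mod_cast h1
  exact_mod_cast h3

lemma scale_bound {C X : ℝ} (hC : 0 ≤ C) (h1 : 1 ≤ X) (A : Set ℤ) (a : ℤ)
    (hA : ∀ m, (#(box A a m) : ℝ) ≤ C * bet ^ m) :
    (Set.ncard {n : ℤ | |(n : ℝ) - a| ≤ X ∧ n ∈ A} : ℝ) ≤ 8 * C * X ^ (0.9404 : ℝ) := by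
  obtain ⟨n, a1, a2⟩ := exists_nat_pow_near h1 (show (1 : ℝ) < 8 by norm_num)
  have b1 : Set.ncard {n : ℤ | |(n : ℝ) - a| ≤ X ∧ n ∈ A} ≤ #(box A a (n + 1)) := by
    rw [← Set.ncard_coe_finset]
    refine Set.ncard_le_ncard (fun x hx => mem_coe.2 (mem_box.2 ⟨?_, hx.2⟩)) (finite_toSet _)
    exact_mod_cast hx.1.trans a2.le
  have b2 : bet ^ (n + 1) ≤ 8 * X ^ (0.9404 : ℝ) := by
    rw [bet, pow_succ, mul_comm, ← Real.rpow_natCast, ← Real.rpow_mul (by norm_num),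
      mul_comm _ (n : ℝ), Real.rpow_mul (by norm_num), Real.rpow_natCast]
    refine mul_le_mul ?_ (Real.rpow_le_rpow (by positivity) a1 (by norm_num)) (by positivity)
      (by norm_num)
    simpa using Real.rpow_le_rpow_of_exponent_le (show (1 : ℝ) ≤ 8 by norm_num)
      (show (0.9404 : ℝ) ≤ 1 by norm_num)
  calc _ ≤ (#(box A a (n + 1)) : ℝ) := by exact_mod_cast b1
    _ ≤ C * (8 * X ^ (0.9404 : ℝ)) := (hA _).trans (mul_le_mul_of_nonneg_left b2 hC)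
    _ = _ := by ring

/-- few integers fail to descend -/
theorem descent_count : ∃ C : ℝ, 0 ≤ C ∧ ∀ k : ℤ, Odd k → ∀ X : ℝ, 1 ≤ X →
    (Set.ncard {n : ℤ | |(n : ℝ)| ≤ X ∧ ∀ j : ℕ, (j : ℝ) ≤ 4 / 3 * Real.logb 2 |(n : ℝ)| + 4 →
      |(n : ℝ)| ^ (0.999999 : ℝ) ≤ |(((T k)^[j] n : ℤ) : ℝ)|} : ℝ) ≤
      C * |(k : ℝ)| * X ^ (0.9404 : ℝ) := by
  obtain ⟨m1, hm1⟩ := eventually_atTop.1 (high_count.and (big_k.and (eventually_ge_atTop 2000000)))
  refine ⟨8 * (2 * 8 ^ m1 + 1), by positivity, fun k hk X hX => ?_⟩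
  set A := {n : ℤ | ∀ j : ℕ, (j : ℝ) ≤ 4 / 3 * Real.logb 2 |(n : ℝ)| + 4 →
      |(n : ℝ)| ^ (0.999999 : ℝ) ≤ |(((T k)^[j] n : ℤ) : ℝ)|} with hA
  have key := scale_bound (C := (2 * 8 ^ m1 + 1) * |(k : ℝ)|) (by positivity) hX A 0 fun m =>
    rec_bound (ι := Unit) (by linarith [five_le_bet]) (one_le_abs hk) m1
      (fun _ m => #(box A 0 m)) (fun _ => card_box A 0) (fun m hm => ?_) m ()
  · simp only [Int.cast_zero, sub_zero] at key
    exact key.trans (le_of_eq (by ring))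
  obtain ⟨h1, h0, h2⟩ := hm1 m hm
  have hb : 0 < bet := by linarith [five_le_bet]
  rcases lt_or_ge ((2 : ℝ) ^ m) (8 * |(k : ℝ)| * (m + 1)) with hkm | hkm
  · exact ⟨0, by omega, 0, le_rfl, by rw [zero_mul]; positivity, fun B _ _ => by
      linarith [card_box A 0 m, h0 _ hkm]⟩
  obtain ⟨e, rfl⟩ : ∃ e, m = e + 1 := ⟨m - 1, by omega⟩
  refine ⟨e, by omega, 1, zero_le_one, ?_, fun B hB _ => ?_⟩
  · have := mul_le_mul_of_nonneg_left five_le_bet (pow_pos hb e).le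
    rw [pow_succ]
    linarith [pow_pos hb e]
  · have h3 := h1 k hk 0 (box A 0 (e + 1) \ box A 0 e) fun n hn => by
      obtain ⟨a1, a2⟩ := mem_sdiff.1 hn
      obtain ⟨a1, a3⟩ := mem_box.1 a1
      refine ⟨a1, fun j hj => odd_of_high hk (by omega) hkm ?_ (fun j hj => ?_) hj⟩
      · rw [sub_zero] at a1; exact_mod_cast a1
      have a4 : (8 : ℝ) ^ e ≤ |(n : ℝ)| := by
        have := (not_le.1 fun h => a2 (mem_box.2 ⟨h, a3⟩)).le
        rw [sub_zero] at this; exact_mod_cast this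
      have a5 : (3 * e : ℝ) ≤ Real.logb 2 |(n : ℝ)| := by
        rw [Real.le_logb_iff_rpow_le (by norm_num) (lt_of_lt_of_le (by positivity) a4),
          Real.rpow_mul (by norm_num), Real.rpow_natCast]
        norm_num [a4]
      have a6 : (j : ℝ) ≤ 4 * (e + 1) := by exact_mod_cast hj
      refine le_trans ?_
        ((Real.rpow_le_rpow (by positivity) a4 (by norm_num)).trans (a3 j (by linarith)))
      rw [← Real.rpow_natCast, ← Real.rpow_natCast, ← Real.rpow_mul (by norm_num)]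
      refine Real.rpow_le_rpow_of_exponent_le (by norm_num) ?_
      have : (e + 1 - (e + 1) / 400000) * 1000000 ≤ e * 999999 := by omega
      have : (((e + 1 - (e + 1) / 400000 : ℕ) : ℝ)) * 1000000 ≤ e * 999999 := by
        exact_mod_cast this
      linarith
    have h4 : (#(box A 0 (e + 1)) : ℝ) ≤ #(box A 0 (e + 1) \ box A 0 e) + #(box A 0 e) := by
      exact_mod_cast card_le_card_sdiff_add_card
    linarith [hB ()]

/-- at the first time with few odd steps the window has shrunk -/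
lemma shrink (hk : Odd k) {m : ℕ} (hm : 800000 ≤ m) (hkm : 8 * |(k : ℝ)| * (m + 1) ≤ 2 ^ m)
    {n a : ℤ} (hn : |n - a| ≤ 8 ^ m)
    (h : ¬ ∀ j ≤ 4 * m, (2 : ℝ) ^ ((j : ℝ) - 0.00001 * m) ≤ 3 ^ cnt k n j) :
    ∃ j ≤ 4 * m, |(T k)^[j] n - 3 ^ cnt k n j * a / 2 ^ j| ≤ 8 ^ (m - m / 400000) := by
  classical
  push Not at h
  obtain ⟨hj, h1⟩ := Nat.find_spec h
  set j := Nat.find h with hjdef
  refine ⟨j, hj, ?_⟩
  set Z : ℝ := 2 ^ (0.00001 * (m : ℝ)) with hZ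
  have hZ0 : 0 < Z := by positivity
  have hp : (0 : ℝ) < 2 ^ j := by positivity
  rw [Real.rpow_sub two_pos, Real.rpow_natCast, ← hZ, lt_div_iff₀ hZ0] at h1
  obtain ⟨s, hs, -, h2⟩ := off_size hk n j
  have h3 : (2 : ℝ) ^ s * 3 ^ cnt k ((T k)^[s] n) (j - s) ≤ 2 ^ j := by
    rcases hs.eq_or_lt with rfl | hs'
    · simp [cnt]
    · have h4 := Nat.find_min h hs'
      push Not at h4
      have h5 := h4 (by omega)
      rw [Real.rpow_sub two_pos, Real.rpow_natCast, ← hZ, div_le_iff₀ hZ0] at h5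
      have h6 := cnt_add (k := k) n s (j - s)
      rw [Nat.add_sub_cancel' hs] at h6
      rw [h6, pow_add] at h1
      calc _ ≤ 3 ^ cnt k n s * Z * 3 ^ cnt k ((T k)^[s] n) (j - s) := by gcongr
        _ ≤ _ := by linarith
  have h4 : |(off k n j : ℝ)| ≤ |(k : ℝ)| * (4 * m) * 2 ^ j := by
    have c1 : (j : ℝ) ≤ 4 * m := by exact_mod_cast hj
    have c2 : |(off k n j : ℝ)| ≤ |(k : ℝ)| * j * (2 ^ s * 3 ^ cnt k ((T k)^[s] n) (j - s)) := by
      exact_mod_cast h2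
    exact c2.trans (by gcongr)
  have h5 : 2 ^ j * ((T k)^[j] n - 3 ^ cnt k n j * a / 2 ^ j) =
      3 ^ cnt k n j * (n - a) + off k n j + 3 ^ cnt k n j * a % 2 ^ j := by
    rw [off]
    linear_combination -Int.emod_add_mul_ediv (3 ^ cnt k n j * a) (2 ^ j)
  have h6 : |((3 ^ cnt k n j * a % 2 ^ j : ℤ) : ℝ)| ≤ 2 ^ j := by
    have c1 := Int.emod_nonneg (3 ^ cnt k n j * a) (show (2 : ℤ) ^ j ≠ 0 by positivity)
    have c2 := Int.emod_lt_of_pos (3 ^ cnt k n j * a) (show (0 : ℤ) < 2 ^ j by positivity)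
    exact_mod_cast (abs_of_nonneg c1).trans_le c2.le
  have h7 : |(3 : ℝ) ^ cnt k n j * ((n - a : ℤ) : ℝ)| ≤ 2 ^ j * (8 ^ (m - m / 400000) / 4) := by
    have c1 : |((n - a : ℤ) : ℝ)| ≤ 8 ^ m := by exact_mod_cast hn
    rw [abs_mul, abs_of_pos (show (0 : ℝ) < 3 ^ cnt k n j by positivity)]
    calc _ ≤ (3 : ℝ) ^ cnt k n j * 8 ^ m := by gcongr
      _ = 3 ^ cnt k n j * (4 * 8 ^ (m / 400000)) * (8 ^ (m - m / 400000) / 4) := by
        rw [eight_split m]; ring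
      _ ≤ 3 ^ cnt k n j * Z * (8 ^ (m - m / 400000) / 4) := by gcongr; exact four_mul_le hm
      _ ≤ _ := by gcongr
  generalize (T k)^[j] n - 3 ^ cnt k n j * a / 2 ^ j = d at h5 ⊢
  generalize 3 ^ cnt k n j * a % 2 ^ j = r at h5 h6
  have h8 : (2 : ℝ) ^ j * d = 3 ^ cnt k n j * ((n - a : ℤ) : ℝ) + off k n j + r := by
    exact_mod_cast h5
  have h9 : |(d : ℝ)| ≤ 8 ^ (m - m / 400000) := by
    refine le_of_mul_le_mul_left ?_ hp
    have c1 := abs_add_three ((3 : ℝ) ^ cnt k n j * ((n - a : ℤ) : ℝ)) (off k n j) r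
    rw [← h8, abs_mul, abs_of_pos hp] at c1
    have c2 : |(k : ℝ)| * (4 * m) + 1 ≤ 8 ^ (m - m / 400000) / 2 := by
      nlinarith [one_le_abs hk, two_pow_le_eight m]
    have c3 := mul_le_mul_of_nonneg_left c2 hp.le
    have c4 : (0 : ℝ) ≤ 2 ^ j * 8 ^ (m - m / 400000) := by positivity
    linarith
  exact_mod_cast h9

/-- invariant sets on which the map is injective are sparse in every window -/
theorem injective_count : ∃ C : ℝ, 0 ≤ C ∧ ∀ k : ℤ, Odd k → ∀ X : ℝ, 1 ≤ X → ∀ (a : ℤ) (A : Set ℤ),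
    Set.MapsTo (T k) A A → Set.InjOn (T k) A →
    (Set.ncard {n : ℤ | |(n : ℝ) - a| ≤ X ∧ n ∈ A} : ℝ) ≤ C * |(k : ℝ)| * X ^ (0.9404 : ℝ) := by
  obtain ⟨m1, hm1⟩ := eventually_atTop.1 (high_count.and (big_k.and
    ((eventually_ge_atTop 800000).and
    ((Nat.tendsto_div_const_atTop (show 400000 ≠ 0 by norm_num)).eventually
      (ev_poly (2 * 2000000 ^ 2) 2 (show (1 : ℝ) < 2 by norm_num))))))
  refine ⟨8 * (2 * 8 ^ m1 + 1), by positivity, fun k hk X hX a A hA hA' => ?_⟩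
  refine (scale_bound (C := (2 * 8 ^ m1 + 1) * |(k : ℝ)|) (by positivity) hX A a fun m =>
    rec_bound (by linarith [five_le_bet]) (one_le_abs hk) m1
      (fun a m => #(box A a m)) (card_box A) (fun m hm => ?_) m a).trans (le_of_eq (by ring))
  obtain ⟨h1, h0, h2, h3⟩ := hm1 m hm
  have hb : 0 < bet := by linarith [five_le_bet]
  rcases lt_or_ge ((2 : ℝ) ^ m) (8 * |(k : ℝ)| * (m + 1)) with hkm | hkm
  · exact ⟨0, by omega, 0, le_rfl, by rw [zero_mul]; positivity, fun B _ a => by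
      linarith [card_box A a m, h0 _ hkm]⟩
  classical
  refine ⟨m - m / 400000, by omega, (4 * m + 1) ^ 2, by positivity, ?_, fun B hB a => ?_⟩
  · have a1 : 4 * m + 1 ≤ 2000000 * (m / 400000 + 1) := by omega
    have a2 : 4 * (m : ℝ) + 1 ≤ 2000000 * (((m / 400000 : ℕ) : ℝ) + 1) := by exact_mod_cast a1
    have a3 : (2 : ℝ) ^ (m / 400000) ≤ bet ^ (m / 400000) :=
      pow_le_pow_left₀ (by norm_num) (by linarith [five_le_bet]) _
    have a4 : bet ^ m = bet ^ (m / 400000) * bet ^ (m - m / 400000) := by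
      rw [← pow_add, Nat.add_sub_cancel' (Nat.div_le_self _ _)]
    have a5 := pow_le_pow_left₀ (by positivity) a2 2
    rw [a4, mul_div_right_comm]
    rw [mul_pow] at a5
    exact mul_le_mul_of_nonneg_right (by linarith) (by positivity)
  · set U := (range (4 * m + 1) ×ˢ range (4 * m + 1)).biUnion fun w => (box A a m).filter
      fun n => (T k)^[w.1] n ∈ box A (3 ^ w.2 * a / 2 ^ w.1) (m - m / 400000) with hU
    have h4 := h1 k hk a (box A a m \ U) fun n hn => by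
      obtain ⟨a1, a2⟩ := mem_sdiff.1 hn
      refine ⟨(mem_box.1 a1).1, by_contra fun h => a2 ?_⟩
      obtain ⟨j, hj, b⟩ := shrink hk h2 hkm (mem_box.1 a1).1 h
      have := cnt_le (k := k) n j
      exact mem_biUnion.2 ⟨(j, cnt k n j), mem_product.2 ⟨mem_range.2 (by omega),
        mem_range.2 (by omega)⟩, mem_filter.2
        ⟨a1, mem_box.2 ⟨b, hA.iterate j (mem_box.1 a1).2⟩⟩⟩
    have h5 : (#U : ℝ) ≤ (4 * m + 1) ^ 2 * B := by
      refine le_trans (by exact_mod_cast card_biUnion_le) ((sum_le_card_nsmul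
        (range (4 * m + 1) ×ˢ range (4 * m + 1)) (fun w => (#((box A a m).filter
        fun n => (T k)^[w.1] n ∈ box A (3 ^ w.2 * a / 2 ^ w.1) (m - m / 400000)) : ℝ)) B
        fun w _ => le_trans ?_ (hB (3 ^ w.2 * a / 2 ^ w.1))).trans (le_of_eq ?_))
      · exact_mod_cast card_le_card_of_injOn ((T k)^[w.1]) (fun n hn => (mem_filter.1 hn).2)
          ((hA'.iterate hA w.1).mono fun n hn => (mem_box.1 (mem_filter.1 hn).1).2)
      · simp [sq]
    have h6 : (#(box A a m) : ℝ) ≤ #(box A a m \ U) + #U := by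
      exact_mod_cast card_le_card_sdiff_add_card
    linarith

end Pool.Agent.Lib.MP_7f88e4_nt
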