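import Pool.Agent.Lib.MP_7f88e4_nt.ExFinal

/-!
One counting bound for the union of the non-descending integers and an injective invariant set.
-/

set_option autoImplicit false

namespace Pool.Agent.Lib.MP_7f88e4_nt

open Finset Filter

variable {k : ℤ}

theorem descent_box (hk : Odd k) : ∃ C : ℝ, 0 ≤ C ∧ ∀ m : ℕ,
    (#(box {n : ℤ | ∀ j : ℕ, (j : ℝ) ≤ 4 / 3 * Real.logb 2 |(n : ℝ)| + 4 →
      |(n : ℝ)| ^ (0.999999 : ℝ) ≤ |(((T k)^[j] n : ℤ) : ℝ)|} m) : ℝ) ≤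
      C * ((8 : ℝ) ^ (0.940397 : ℝ)) ^ m := by
  obtain ⟨m1, hm1⟩ := eventually_atTop.1 ((high_count hk).and (eventually_ge_atTop 2000000))
  set A := {n : ℤ | ∀ j : ℕ, (j : ℝ) ≤ 4 / 3 * Real.logb 2 |(n : ℝ)| + 4 →
      |(n : ℝ)| ^ (0.999999 : ℝ) ≤ |(((T k)^[j] n : ℤ) : ℝ)|} with hA
  refine ⟨2 * 8 ^ m1 + 1, by positivity,
    rec_bound (by linarith [two_le_beta]) m1 _ (card_box A) fun m hm => ?_⟩
  obtain ⟨h1, h2⟩ := hm1 m hm
  obtain ⟨e, rfl⟩ : ∃ e, m = e + 1 := ⟨m - 1, by omega⟩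
  refine ⟨e, by omega, 1, zero_le_one, ?_, ?_⟩
  · have h3 := h1 (box A (e + 1) \ box A e) fun n hn => by
      obtain ⟨a1, a2⟩ := mem_sdiff.1 hn
      obtain ⟨a1, a3⟩ := mem_box.1 a1
      refine ⟨a1, fun j hj => ?_⟩
      have a4 : (8 : ℝ) ^ e ≤ |(n : ℝ)| := by
        exact_mod_cast (not_le.1 fun h => a2 (mem_box.2 ⟨h, a3⟩)).le
      have a5 : (3 * e : ℝ) ≤ Real.logb 2 |(n : ℝ)| := by
        rw [Real.le_logb_iff_rpow_le (by norm_num) (lt_of_lt_of_le (by positivity) a4),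
          Real.rpow_mul (by norm_num), Real.rpow_natCast]
        norm_num [a4]
      have a6 : (j : ℝ) ≤ 4 * (e + 1) := by exact_mod_cast hj
      have a7 := (Real.rpow_le_rpow (by positivity) a4 (by norm_num)).trans (a3 j (by linarith))
      have a8 : (8 : ℝ) ^ (e + 1 - (e + 1) / 400000) ≤ (8 ^ e) ^ (0.999999 : ℝ) := by
        rw [← Real.rpow_natCast, ← Real.rpow_natCast, ← Real.rpow_mul (by norm_num)]
        refine Real.rpow_le_rpow_of_exponent_le (by norm_num) ?_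
        have : (e + 1 - (e + 1) / 400000) * 1000000 ≤ e * 999999 := by omega
        have : (((e + 1 - (e + 1) / 400000 : ℕ) : ℝ)) * 1000000 ≤ e * 999999 := by
          exact_mod_cast this
        linarith
      exact_mod_cast a8.trans a7
    have h4 : (#(box A (e + 1)) : ℝ) ≤ #(box A (e + 1) \ box A e) + #(box A e) := by
      exact_mod_cast card_le_card_sdiff_add_card
    linarith
  · have := mul_le_mul_of_nonneg_left two_le_beta
      (show (0 : ℝ) ≤ ((8 : ℝ) ^ (0.940397 : ℝ)) ^ e by positivity)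
    rw [pow_succ]
    generalize (8 : ℝ) ^ (0.940397 : ℝ) = b at this ⊢
    linarith


theorem injective_box (hk : Odd k) : ∃ C : ℝ, 0 ≤ C ∧ ∀ A : Set ℤ,
    Set.MapsTo (T k) A A → Set.InjOn (T k) A → ∀ m : ℕ,
    (#(box A m) : ℝ) ≤ C * ((8 : ℝ) ^ (0.940397 : ℝ)) ^ m := by
  obtain ⟨m1, hm1⟩ := eventually_atTop.1 ((high_count hk).and ((eventually_ge_atTop 400000).and
    ((Nat.tendsto_div_const_atTop (show 400000 ≠ 0 by norm_num)).eventually
      (ev_poly 4000000 1 (show (1 : ℝ) < 2 by norm_num)))))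
  refine ⟨2 * 8 ^ m1 + 1, by positivity, fun A hA hA' =>
    rec_bound (by linarith [two_le_beta]) m1 _ (card_box A) fun m hm => ?_⟩
  obtain ⟨h1, h2, h3⟩ := hm1 m hm
  classical
  refine ⟨m - m / 400000, by omega, 4 * m + 1, by positivity, ?_, ?_⟩
  · set B := (range (4 * m + 1)).biUnion fun j =>
      (box A m).filter fun n => (T k)^[j] n ∈ box A (m - m / 400000) with hB
    have h4 := h1 (box A m \ B) fun n hn => by
      obtain ⟨a1, a2⟩ := mem_sdiff.1 hn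
      refine ⟨(mem_box.1 a1).1, fun j hj => (not_le.1 fun h => a2 ?_).le⟩
      exact mem_biUnion.2 ⟨j, mem_range.2 (by omega), mem_filter.2
        ⟨a1, mem_box.2 ⟨h, hA.iterate j (mem_box.1 a1).2⟩⟩⟩
    have h5 : #B ≤ (4 * m + 1) * #(box A (m - m / 400000)) := by
      refine (card_biUnion_le_card_mul _ _ _ fun j _ => ?_).trans (by rw [card_range])
      exact card_le_card_of_injOn ((T k)^[j]) (fun n hn => (mem_filter.1 hn).2)
        ((hA'.iterate hA j).mono fun n hn => (mem_box.1 (mem_filter.1 hn).1).2)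
    have h6 : (#(box A m) : ℝ) ≤ #(box A m \ B) + (4 * m + 1) * #(box A (m - m / 400000)) := by
      exact_mod_cast card_le_card_sdiff_add_card.trans (Nat.add_le_add_left h5 _)
    linarith
  · have a1 : 2 * (4 * m + 1) ≤ 4000000 * (m / 400000 + 1) := by omega
    have a2 : 2 * (4 * (m : ℝ) + 1) ≤ 4000000 * (((m / 400000 : ℕ) : ℝ) + 1) := by exact_mod_cast a1
    have a3 : (2 : ℝ) ^ (m / 400000) ≤ ((8 : ℝ) ^ (0.940397 : ℝ)) ^ (m / 400000) :=
      pow_le_pow_left₀ (by norm_num) two_le_beta _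
    have a4 : ((8 : ℝ) ^ (0.940397 : ℝ)) ^ m = ((8 : ℝ) ^ (0.940397 : ℝ)) ^ (m / 400000) *
        ((8 : ℝ) ^ (0.940397 : ℝ)) ^ (m - m / 400000) := by
      rw [← pow_add, Nat.add_sub_cancel' (Nat.div_le_self _ _)]
    rw [a4, mul_div_right_comm]
    exact mul_le_mul_of_nonneg_right (by linarith) (by positivity)


/-- the integers that lie in an injective invariant set or fail to descend are sparse -/
theorem union_count (hk : Odd k) : ∀ᶠ X : ℝ in atTop, ∀ A : Set ℤ,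
    Set.MapsTo (T k) A A → Set.InjOn (T k) A →
    (Set.ncard {n : ℤ | |(n : ℝ)| ≤ X ∧ (n ∈ A ∨ ∀ j : ℕ,
      (j : ℝ) ≤ 4 / 3 * Real.logb 2 |(n : ℝ)| + 4 →
      |(n : ℝ)| ^ (0.999999 : ℝ) ≤ |(((T k)^[j] n : ℤ) : ℝ)|)} : ℝ) ≤ X ^ (0.9404 : ℝ) := by
  obtain ⟨C₁, hC₁, h₁⟩ := descent_box hk
  obtain ⟨C₂, hC₂, h₂⟩ := injective_box hk
  filter_upwards [scale_bound (add_nonneg hC₂ hC₁)] with X hX A hA hA'
  set B := {n : ℤ | ∀ j : ℕ, (j : ℝ) ≤ 4 / 3 * Real.logb 2 |(n : ℝ)| + 4 →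
      |(n : ℝ)| ^ (0.999999 : ℝ) ≤ |(((T k)^[j] n : ℤ) : ℝ)|} with hB
  refine hX (A ∪ B) fun m => ?_
  classical
  have h3 : #(box (A ∪ B) m) ≤ #(box A m) + #(box B m) := by
    refine le_trans (card_le_card fun n hn => ?_) (card_union_le _ _)
    obtain ⟨a1, a2 | a2⟩ := mem_box.1 hn
    · exact mem_union_left _ (mem_box.2 ⟨a1, a2⟩)
    · exact mem_union_right _ (mem_box.2 ⟨a1, a2⟩)
  have h4 : (#(box (A ∪ B) m) : ℝ) ≤ #(box A m) + #(box B m) := by exact_mod_cast h3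
  have h5 := h₁ m
  have h6 := h₂ A hA hA' m
  rw [add_mul]
  linarith

end Pool.Agent.Lib.MP_7f88e4_nt
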