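import Pool.Agent.Lib.MP_7f88e4_nt.Defs

/-!
Parity words of the `3x+k` map: lifting, the size of the offset, and the weighted count of
quadruples of residues with a prescribed alternating sum.
-/

set_option autoImplicit false

namespace Pool.Agent.Lib.MP_7f88e4_nt

open Finset

/-- number of odd terms among the first `L` iterates -/
def cnt (k x : ℤ) : ℕ → ℕ
  | 0 => 0
  | L + 1 => if Odd ((T k)^[L] x) then cnt k x L + 1 else cnt k x L

/-- the additive offset after `L` steps -/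
def off (k x : ℤ) (L : ℕ) : ℤ := 2 ^ L * (T k)^[L] x - 3 ^ cnt k x L * x

variable {k : ℤ}

lemma two_mul_T (hk : Odd k) (x : ℤ) : 2 * T k x = if Odd x then 3 * x + k else x := by
  unfold T
  obtain ⟨c, rfl⟩ := hk
  split_ifs with h
  · obtain ⟨y, rfl⟩ := h
    omega
  · obtain ⟨y, rfl⟩ := Int.not_odd_iff_even.1 h
    omega

lemma cnt_le (x : ℤ) (L : ℕ) : cnt k x L ≤ L := by
  induction L with
  | zero => simp [cnt]
  | succ L ih => simp only [cnt]; split_ifs <;> omega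

lemma cnt_add (x : ℤ) (L M : ℕ) : cnt k x (L + M) = cnt k x L + cnt k ((T k)^[L] x) M := by
  induction M with
  | zero => simp [cnt]
  | succ M ih =>
    rw [← add_assoc]
    simp only [cnt, ← Function.iterate_add_apply, add_comm M L]
    split_ifs <;> omega

lemma off_succ (hk : Odd k) (x : ℤ) (L : ℕ) :
    off k x (L + 1) = if Odd ((T k)^[L] x) then 3 * off k x L + 2 ^ L * k else off k x L := by
  have h := two_mul_T hk ((T k)^[L] x)
  simp only [off, cnt, Function.iterate_succ_apply', pow_succ, mul_assoc, h]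
  split_ifs
  · ring
  · rfl

lemma odd_add_two_mul (y w : ℤ) : Odd (y + 2 * w) ↔ Odd y := by
  simp [Int.odd_add]

lemma T_add_two (hk : Odd k) (y w : ℤ) :
    T k (y + 2 * w) = T k y + if Odd y then 3 * w else w := by
  have h1 := two_mul_T hk y
  have h2 := two_mul_T hk (y + 2 * w)
  simp only [odd_add_two_mul] at h2
  split_ifs at h1 h2 ⊢ <;> omega

lemma lift_iter (hk : Odd k) (x : ℤ) (t : ℕ) : ∀ u : ℤ, cnt k (x + 2 ^ t * u) t = cnt k x t ∧
    (T k)^[t] (x + 2 ^ t * u) = (T k)^[t] x + 3 ^ cnt k x t * u := by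
  induction t with
  | zero => intro u; simp [cnt]
  | succ t ih =>
    intro u
    obtain ⟨h1, h2⟩ := ih (2 * u)
    have e : x + 2 ^ (t + 1) * u = x + 2 ^ t * (2 * u) := by ring
    have e2 : (T k)^[t] x + 3 ^ cnt k x t * (2 * u) =
      (T k)^[t] x + 2 * (3 ^ cnt k x t * u) := by ring
    rw [e]
    simp only [cnt, Function.iterate_succ_apply', h1, h2, e2, odd_add_two_mul, T_add_two hk]
    refine ⟨trivial, ?_⟩
    split_ifs <;> ring

lemma odd_lift (hk : Odd k) (x u : ℤ) {t L : ℕ} (h : t < L) :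
    Odd ((T k)^[t] (x + 2 ^ L * u)) ↔ Odd ((T k)^[t] x) := by
  obtain ⟨M, rfl⟩ := Nat.exists_eq_add_of_lt h
  have e : x + 2 ^ (t + M + 1) * u = x + 2 ^ t * (2 * (2 ^ M * u)) := by ring
  rw [e, (lift_iter hk x t _).2, mul_left_comm, odd_add_two_mul]

lemma off_lift (hk : Odd k) (x u : ℤ) (L : ℕ) : off k (x + 2 ^ L * u) L = off k x L := by
  simp only [off, lift_iter hk x L u]
  ring

lemma off_add (x : ℤ) (L M : ℕ) : off k x (L + M) =
    3 ^ cnt k ((T k)^[L] x) M * off k x L + 2 ^ L * off k ((T k)^[L] x) M := by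
  simp only [off, cnt_add, ← Function.iterate_add_apply, add_comm M L]
  ring

/-- the size of the offset is governed by the largest terminal rise -/
lemma off_size (hk : Odd k) (x : ℤ) (L : ℕ) : ∃ s ≤ L,
    (2 : ℤ) ^ L ≤ 2 ^ s * 3 ^ cnt k ((T k)^[s] x) (L - s) ∧
    |off k x L| ≤ |k| * L * (2 ^ s * 3 ^ cnt k ((T k)^[s] x) (L - s)) := by
  induction L with
  | zero => exact ⟨0, le_rfl, by simp [cnt], by simp [off, cnt]⟩
  | succ L ih =>
    obtain ⟨s, hs, h1, h2⟩ := ih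
    have hk0 := abs_nonneg k
    set B : ℤ := 2 ^ s * 3 ^ cnt k ((T k)^[s] x) (L - s) with hB
    set B' : ℤ := 2 ^ s * 3 ^ cnt k ((T k)^[s] x) (L + 1 - s) with hB'
    have hp : (0 : ℤ) < 2 ^ L := by positivity
    have h3 : B' = if Odd ((T k)^[L] x) then 3 * B else B := by
      rw [hB', hB, Nat.succ_sub hs]
      simp only [cnt, ← Function.iterate_add_apply, Nat.sub_add_cancel hs]
      split_ifs <;> ring
    have h4 : |off k x (L + 1)| ≤ |k| * (L + 1) * B' := by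
      rw [off_succ hk, h3]
      split_ifs
      · refine (abs_add_le _ _).trans ?_
        rw [abs_mul, abs_mul, abs_of_pos hp, abs_of_pos (show (0 : ℤ) < 3 by norm_num)]
        nlinarith [mul_nonneg hk0 (show 0 ≤ 3 * B - 2 ^ L by linarith)]
      · nlinarith [mul_nonneg hk0 (show 0 ≤ B by linarith)]
    by_cases h5 : (2 : ℤ) ^ (L + 1) ≤ B'
    · exact ⟨s, by omega, h5, by exact_mod_cast h4⟩
    · refine ⟨L + 1, le_rfl, by simp [cnt], ?_⟩
      simp only [Nat.sub_self, cnt, pow_zero, mul_one]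
      push_cast
      exact h4.trans (mul_le_mul_of_nonneg_left (not_le.1 h5).le (by positivity))

/-- the weight of the parity word of `x` -/
def wtX (lam : ℕ → ℝ) (k x : ℤ) (L : ℕ) : ℝ :=
  ∏ t ∈ range L, if Odd ((T k)^[t] x) then lam t else 1

/-- the growth factor of the weighted count -/
def rho (l : ℝ) : ℝ := 1 + 6 * l ^ 2 + l ^ 4

lemma rho_pos (l : ℝ) : 0 < rho l := by unfold rho; positivity

lemma wt_nonneg {lam : ℕ → ℝ} (h : ∀ t, 0 ≤ lam t) (x : ℤ) (L : ℕ) : 0 ≤ wtX lam k x L :=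
  prod_nonneg fun t _ => by split_ifs; exacts [h t, zero_le_one]

lemma wt_lift (hk : Odd k) (lam : ℕ → ℝ) (x : ℤ) (j : ℕ) : ∃ a b : ℝ,
    (a = lam j ∧ b = 1 ∨ a = 1 ∧ b = lam j) ∧
    wtX lam k (x + 2 ^ j * 0) (j + 1) = wtX lam k x j * a ∧
    wtX lam k (x + 2 ^ j * 1) (j + 1) = wtX lam k x j * b := by
  have h1 : ∀ u, wtX lam k (x + 2 ^ j * u) j = wtX lam k x j := fun u =>
    prod_congr rfl fun t ht => by simp only [odd_lift hk x u (mem_range.1 ht)]
  have h2 : ∀ y, wtX lam k y (j + 1) =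
      wtX lam k y j * if Odd ((T k)^[j] y) then lam j else 1 := fun y => prod_range_succ _ _
  have h3 : Odd ((3 : ℤ) ^ cnt k x j) := Odd.pow (by decide)
  rw [h2, h2, h1, h1, (lift_iter hk x j 0).2, (lift_iter hk x j 1).2, mul_zero, add_zero, mul_one]
  by_cases h : Odd ((T k)^[j] x)
  · exact ⟨_, _, Or.inl ⟨rfl, rfl⟩, by rw [if_pos h],
      by rw [if_neg (Int.not_odd_iff_even.2 (h.add_odd h3))]⟩
  · exact ⟨_, _, Or.inr ⟨rfl, rfl⟩, by rw [if_neg h],
      by rw [if_pos ((Int.not_odd_iff_even.1 h).add_odd h3)]⟩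

lemma sum_split (f : ℤ → ℝ) (j : ℕ) : ∑ z ∈ range (2 ^ (j + 1)), f z =
    ∑ z ∈ range (2 ^ j), (f (z + 2 ^ j * 0) + f (z + 2 ^ j * 1)) := by
  rw [pow_succ, mul_two, sum_range_add, sum_add_distrib]
  simp [add_comm]

/-- one term of the weighted count -/
noncomputable def trm (lam : ℕ → ℝ) (k d : ℤ) (j : ℕ) (x1 x2 x3 x4 : ℤ) : ℝ :=
  if 2 ^ j ∣ x1 - x2 - x3 + x4 - d then wtX lam k x1 j * wtX lam k x2 j * wtX lam k x3 j * wtX lam k x4 j
  else 0

lemma xor_sum (hk : Odd k) {lam : ℕ → ℝ} (hl : ∀ t, 0 ≤ lam t) (d : ℤ) (j : ℕ) :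
    ∑ z1 ∈ range (2 ^ j), ∑ z2 ∈ range (2 ^ j), ∑ z3 ∈ range (2 ^ j), ∑ z4 ∈ range (2 ^ j),
      trm lam k d j z1 z2 z3 z4 ≤ ∏ t ∈ range j, rho (lam t) := by
  induction j with
  | zero => simp [trm, wtX]
  | succ j ih =>
    rw [prod_range_succ]
    refine le_trans ?_ (mul_le_mul_of_nonneg_right ih (rho_pos _).le)
    rw [sum_split (fun x1 => ∑ z2 ∈ range (2 ^ (j + 1)), ∑ z3 ∈ range (2 ^ (j + 1)),
      ∑ z4 ∈ range (2 ^ (j + 1)), trm lam k d (j + 1) x1 z2 z3 z4)]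
    simp only [fun x1 => sum_split (fun x2 => ∑ z3 ∈ range (2 ^ (j + 1)),
      ∑ z4 ∈ range (2 ^ (j + 1)), trm lam k d (j + 1) x1 x2 z3 z4)]
    simp only [fun x1 x2 => sum_split (fun x3 =>
      ∑ z4 ∈ range (2 ^ (j + 1)), trm lam k d (j + 1) x1 x2 x3 z4)]
    simp only [fun x1 x2 x3 => sum_split (fun x4 => trm lam k d (j + 1) x1 x2 x3 x4)]
    simp only [← sum_add_distrib, sum_mul]
    refine sum_le_sum fun z1 _ => sum_le_sum fun z2 _ => sum_le_sum fun z3 _ =>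
      sum_le_sum fun z4 _ => ?_
    obtain ⟨a1, b1, h1, p1, q1⟩ := wt_lift hk lam z1 j
    obtain ⟨a2, b2, h2, p2, q2⟩ := wt_lift hk lam z2 j
    obtain ⟨a3, b3, h3, p3, q3⟩ := wt_lift hk lam z3 j
    obtain ⟨a4, b4, h4, p4, q4⟩ := wt_lift hk lam z4 j
    by_cases hd : (2 : ℤ) ^ j ∣ z1 - z2 - z3 + z4 - d
    · obtain ⟨q, hq⟩ := hd
      have hc : ∀ e1 e2 e3 e4 : ℤ, (2 : ℤ) ^ (j + 1) ∣ (z1 + 2 ^ j * e1) - (z2 + 2 ^ j * e2) -
          (z3 + 2 ^ j * e3) + (z4 + 2 ^ j * e4) - d ↔ (q + (e1 + e2 + e3 + e4)) % 2 = 0 := by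
        intro e1 e2 e3 e4
        have e : (z1 + 2 ^ j * e1) - (z2 + 2 ^ j * e2) - (z3 + 2 ^ j * e3) + (z4 + 2 ^ j * e4) - d
            = 2 ^ j * (q + e1 - e2 - e3 + e4) := by linear_combination hq
        rw [e, pow_succ, mul_dvd_mul_iff_left (by positivity)]
        omega
      have hW : 0 ≤ wtX lam k z1 j * wtX lam k z2 j * wtX lam k z3 j * wtX lam k z4 j :=
        mul_nonneg (mul_nonneg (mul_nonneg (wt_nonneg hl _ _) (wt_nonneg hl _ _))
          (wt_nonneg hl _ _)) (wt_nonneg hl _ _)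
      have hW2 := mul_nonneg hW (show 0 ≤ (lam j - 1) ^ 4 by positivity)
      simp only [trm, hc, p1, p2, p3, p4, q1, q2, q3, q4, hq, dvd_mul_right, if_true, rho]
      have r0 : (q + 2) % 2 = q % 2 := by omega
      have r1 : (q + 3) % 2 = (q + 1) % 2 := by omega
      have r2 : (q + 4) % 2 = q % 2 := by omega
      norm_num only [add_zero, r0, r1, r2]
      rcases Int.emod_two_eq_zero_or_one q with h | h
      · have h' : ¬ (q + 1) % 2 = 0 := by omega
        simp only [h, h', if_true, if_false]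
        rcases h1 with ⟨rfl, rfl⟩ | ⟨rfl, rfl⟩ <;> rcases h2 with ⟨rfl, rfl⟩ | ⟨rfl, rfl⟩ <;>
          rcases h3 with ⟨rfl, rfl⟩ | ⟨rfl, rfl⟩ <;> rcases h4 with ⟨rfl, rfl⟩ | ⟨rfl, rfl⟩ <;>
          linarith
      · have h' : (q + 1) % 2 = 0 := by omega
        simp only [h, h', if_true, if_false, one_ne_zero]
        rcases h1 with ⟨rfl, rfl⟩ | ⟨rfl, rfl⟩ <;> rcases h2 with ⟨rfl, rfl⟩ | ⟨rfl, rfl⟩ <;>
          rcases h3 with ⟨rfl, rfl⟩ | ⟨rfl, rfl⟩ <;> rcases h4 with ⟨rfl, rfl⟩ | ⟨rfl, rfl⟩ <;>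
          linarith
    · have hc : ∀ e1 e2 e3 e4 : ℤ, ¬ (2 : ℤ) ^ (j + 1) ∣ (z1 + 2 ^ j * e1) - (z2 + 2 ^ j * e2) -
          (z3 + 2 ^ j * e3) + (z4 + 2 ^ j * e4) - d := by
        rintro e1 e2 e3 e4 ⟨w, hw⟩
        exact hd ⟨2 * w - (e1 - e2 - e3 + e4), by linear_combination hw⟩
      simp only [trm, hc, hd, if_false, add_zero, zero_mul, le_refl]

end Pool.Agent.Lib.MP_7f88e4_nt
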