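import Pool.Agent.Lib.MP_7f88e4_nt.Words

set_option autoImplicit false

namespace Pool.Agent.Lib.MP_7f88e4_nt

open Finset

variable {v : ℕ → Bool}

lemma potential {Φ : ℕ → ℝ} {σ : ℕ → ℕ} {m : ℕ} (hΦ : ∀ i, |Φ (i + 1) - Φ i| ≤ 1)
    (h0 : σ 0 ≤ m) (h1 : ∀ j, σ j < σ (j + 1)) (h2 : ∀ j, σ (j + 1) ≤ σ j + m)
    (h3 : ∀ j, Φ (σ j) ≤ Φ (σ (j + 1))) {i i' : ℕ} (hi : i ≤ i') : Φ i - 2 * m ≤ Φ i' := by
  classical
  have hm : StrictMono σ := strictMono_nat_of_lt_succ h1
  have hm' : Monotone fun j => Φ (σ j) := monotone_nat_of_le_succ h3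
  have hex : ∀ i, ∃ j, i ≤ σ j := fun i => ⟨i, hm.id_le i⟩
  have hd : ∀ i d, |Φ (i + d) - Φ i| ≤ d := by
    intro i d
    induction d with
    | zero => simp
    | succ d ih =>
      have := abs_sub_le (Φ (i + d + 1)) (Φ (i + d)) (Φ i)
      have := hΦ (i + d)
      rw [← add_assoc]; push_cast; linarith
  have hc : ∀ i, |Φ (σ (Nat.find (hex i))) - Φ i| ≤ m := by
    intro i
    have a1 := Nat.find_spec (hex i)
    have a2 : σ (Nat.find (hex i)) ≤ i + m := by
      rcases Nat.eq_zero_or_pos (Nat.find (hex i)) with e | e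
      · rw [e]; omega
      · have b1 := Nat.find_min (hex i) (m := Nat.find (hex i) - 1) (by omega)
        have b2 := h2 (Nat.find (hex i) - 1)
        rw [Nat.sub_add_cancel e] at b2
        omega
    have a3 := hd i (σ (Nat.find (hex i)) - i)
    rw [Nat.add_sub_cancel' a1] at a3
    refine a3.trans ?_
    exact_mod_cast (by omega : σ (Nat.find (hex i)) - i ≤ m)
  have a1 := abs_le.mp (hc i)
  have a2 := abs_le.mp (hc i')
  have a3 := hm' (Nat.find_min' (hex i) (hi.trans (Nat.find_spec (hex i'))))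
  dsimp only at a3
  linarith [a1.1, a2.2]

lemma ones_succ_real (i : ℕ) : ∃ e : ℝ, 0 ≤ e ∧ e ≤ 1 ∧ (ones v 0 (i + 1) : ℝ) = ones v 0 i + e := by
  simp only [ones]
  split_ifs
  · exact ⟨1, by norm_num, le_rfl, by push_cast; ring⟩
  · exact ⟨0, le_rfl, by norm_num, by ring⟩

lemma Blk.h_le {n : ℕ} {u h : Bool → ℕ} (B : Blk v n u h) (b : Bool) : h b ≤ u b := by
  obtain ⟨σ, ε, p, -, -, -, -, a, -⟩ := B
  rw [← a b]; exact ones_le _ _ _

lemma Blk.window {m : ℕ} {u h : Bool → ℕ} (B : Blk v m u h) (hm : 0 < m) {lo hi : ℝ}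
    (l0 : 0 ≤ lo) (l1 : lo ≤ 1) (h0 : 0 ≤ hi) (h1 : hi ≤ 1)
    (hlo : ∀ b, lo * u b ≤ h b) (hhi : ∀ b, h b ≤ hi * u b) (i L : ℕ) :
    lo * L - 4 * m ≤ ones v i L ∧ ones v i L ≤ hi * L + 4 * m := by
  obtain ⟨σ, ε, p, a0, a1, -, a3, -, -, a6⟩ := B
  have b1 : ∀ j, σ j < σ (j + 1) := fun j => by have := (a6 (ε j)).1; rw [a1]; omega
  have b2 : ∀ j, σ (j + 1) ≤ σ j + 2 * m := fun j => by have := (a6 (ε j)).2; rw [a1]; omega
  have b3 : ∀ j, (ones v 0 (σ (j + 1)) : ℝ) = ones v 0 (σ j) + h (ε j) := fun j => by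
    rw [a1, ones_add, zero_add, a3]; push_cast; ring
  have b4 : ∀ j, (σ (j + 1) : ℝ) = σ j + u (ε j) := fun j => by rw [a1]; push_cast; ring
  have b5 : (ones v 0 (i + L) : ℝ) = ones v 0 i + ones v i L := by
    rw [ones_add, zero_add]; push_cast; ring
  have c1 := potential (Φ := fun i => (ones v 0 i : ℝ) - lo * i) (σ := σ) (m := 2 * m)
    (fun i => by
      obtain ⟨e, e0, e1, e2⟩ := ones_succ_real (v := v) i
      rw [e2, abs_le]; push_cast; constructor <;> linarith) a0 b1 b2
    (fun j => by have := hlo (ε j); rw [b3, b4]; linarith) (Nat.le_add_right i L)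
  have c2 := potential (Φ := fun i => hi * i - (ones v 0 i : ℝ)) (σ := σ) (m := 2 * m)
    (fun i => by
      obtain ⟨e, e0, e1, e2⟩ := ones_succ_real (v := v) i
      rw [e2, abs_le]; push_cast; constructor <;> linarith) a0 b1 b2
    (fun j => by have := hhi (ε j); rw [b3, b4]; linarith) (Nat.le_add_right i L)
  rw [b5] at c1 c2
  push_cast at c1 c2
  constructor <;> linarith

/-- difference of the two block densities -/
noncomputable def gap (u h : Bool → ℕ) : ℝ := |(h false : ℝ) / u false - (h true : ℝ) / u true|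

lemma contract_aux {lo hi E n r P u u' h h' : ℝ} (hn : 0 < n) (hE : 0 ≤ E) (hr : 0 < r)
    (a1 : n ≤ 100 * u) (a2 : n ≤ 100 * u') (a3 : u ≤ 200 * r) (a4 : u' ≤ 200 * r)
    (p1 : lo * r - E ≤ P) (p2 : P ≤ hi * r + E)
    (b1 : h ≤ P + (hi * (u - r) + E)) (b2 : P + (lo * (u' - r) - E) ≤ h') :
    h / u - h' / u' ≤ (hi - lo) * (199 / 200) + 400 * E / n := by
  have hu : 0 < u := by linarith
  have hu' : 0 < u' := by linarith
  have c1 : h / u ≤ hi - (hi * r - P + E) / u + 2 * E / u := by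
    rw [div_le_iff₀ hu]; field_simp; linarith
  have c2 : lo + (P - lo * r + E) / u' - 2 * E / u' ≤ h' / u' := by
    rw [le_div_iff₀ hu']; field_simp; linarith
  have d1 : (hi * r - P + E) / (200 * r) ≤ (hi * r - P + E) / u := by
    gcongr; linarith
  have d2 : (P - lo * r + E) / (200 * r) ≤ (P - lo * r + E) / u' := by
    gcongr; linarith
  have e1 : 2 * E / u ≤ 200 * E / n := by
    rw [div_le_div_iff₀ hu hn]; nlinarith
  have e2 : 2 * E / u' ≤ 200 * E / n := by
    rw [div_le_div_iff₀ hu' hn]; nlinarith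
  have f1 : (hi * r - P + E) / (200 * r) + (P - lo * r + E) / (200 * r)
      = (hi - lo) / 200 + E / (100 * r) := by field_simp; ring
  have f2 : 0 ≤ E / (100 * r) := by positivity
  have f3 : 400 * E / n = 200 * E / n + 200 * E / n := by ring
  linarith

lemma Blk.contract {m n : ℕ} {u h u' h' : Bool → ℕ} (B : Blk v m u h) (B' : Blk v n u' h')
    (hm : 0 < m) (hn : 0 < n) : gap u' h' ≤ gap u h * (199 / 200) + 400 * (4 * m) / n := by
  have hle := B.h_le
  have hpos : ∀ b, (0 : ℝ) < u b := fun b => by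
    obtain ⟨σ, ε, p, -, -, -, -, -, -, a6⟩ := B
    have := (a6 b).1
    exact_mod_cast (by omega : 0 < u b)
  have hd1 : ∀ b, (h b : ℝ) / u b ≤ 1 := fun b => (div_le_one (hpos b)).mpr (by exact_mod_cast hle b)
  have hd0 : ∀ b, 0 ≤ (h b : ℝ) / u b := fun b => by positivity
  set lo := min ((h false : ℝ) / u false) ((h true : ℝ) / u true) with hlo
  set hi := max ((h false : ℝ) / u false) ((h true : ℝ) / u true) with hhi
  have hg : gap u h = hi - lo := by rw [gap, hhi, hlo, max_sub_min_eq_abs, abs_sub_comm]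
  have W := B.window hm (lo := lo) (hi := hi) (le_min (hd0 _) (hd0 _))
    ((min_le_left _ _).trans (hd1 _)) ((hd0 _).trans (le_max_left _ _)) (max_le (hd1 _) (hd1 _))
    (fun b => (le_div_iff₀ (hpos b)).mp (by cases b; exacts [min_le_left _ _, min_le_right _ _]))
    (fun b => (div_le_iff₀ (hpos b)).mp (by cases b; exacts [le_max_left _ _, le_max_right _ _]))
  obtain ⟨σ, ε, p, -, -, -, -, a4, a5, a6⟩ := B'
  set r := min n (min (u' false) (u' true)) with hr
  have r1 : ∀ b, r ≤ u' b := fun b => by cases b <;> omega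
  have r2 : ∀ b, u' b ≤ 200 * r := fun b => by
    have := a6 false; have := a6 true; have := a6 b; omega
  have r3 : 0 < r := by have := a6 false; have := a6 true; omega
  have r4 : ∀ b, ones v (p b) r = ones v (p false) r := fun b => by
    cases b
    · rfl
    · exact ((a5.mono (by omega)).ones_eq).symm
  have r5 : ∀ b, (h' b : ℝ) = ones v (p false) r + ones v (p b + r) (u' b - r) := fun b => by
    rw [← a4 b, ← r4 b, ← Nat.cast_add, ← ones_add, Nat.add_sub_cancel' (r1 b)]
  have key : ∀ b b', (h' b : ℝ) / u' b - h' b' / u' b'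
      ≤ (hi - lo) * (199 / 200) + 400 * (4 * m) / n := by
    intro b b'
    have w1 := W (p false) r
    have w2 := (W (p b + r) (u' b - r)).2
    have w3 := (W (p b' + r) (u' b' - r)).1
    rw [Nat.cast_sub (r1 _)] at w2 w3
    refine contract_aux (r := r) (P := ones v (p false) r) (by exact_mod_cast hn) (by positivity)
      (by exact_mod_cast r3) (by exact_mod_cast (a6 b).1) (by exact_mod_cast (a6 b').1)
      (by exact_mod_cast r2 b) (by exact_mod_cast r2 b') w1.1 w1.2 ?_ ?_
    · rw [r5]; linarith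
    · rw [r5]; linarith
  rw [hg, gap, abs_sub_le_iff]
  exact ⟨key _ _, key _ _⟩

lemma exists_small_gap (H : ∀ N, ∃ n, N ≤ n ∧ ∃ u h, Blk v n u h) (j : ℕ) :
    ∀ N, ∃ n, N ≤ n ∧ ∃ u h, Blk v n u h ∧ gap u h ≤ (399 / 400) ^ j := by
  induction j with
  | zero =>
    intro N
    obtain ⟨n, hn, u, h, B⟩ := H N
    refine ⟨n, hn, u, h, B, ?_⟩
    have hd1 : ∀ b, (h b : ℝ) / u b ≤ 1 := fun b =>
      div_le_one_of_le₀ (by exact_mod_cast B.h_le b) (by positivity)
    have hd0 : ∀ b, 0 ≤ (h b : ℝ) / u b := fun b => by positivity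
    rw [gap, pow_zero, abs_le]
    constructor <;> linarith [hd1 false, hd1 true, hd0 false, hd0 true]
  | succ j ih =>
    intro N
    obtain ⟨m, hm, u, h, B, hg⟩ := ih 1
    set G : ℝ := (399 / 400) ^ j with hG
    have hGpos : 0 < G := by positivity
    obtain ⟨n, hn, u', h', B'⟩ := H (N + 1 + ⌈400 * (400 * (4 * m)) / G⌉₊)
    refine ⟨n, by omega, u', h', B', (B.contract B' (by omega) (by omega)).trans ?_⟩
    have hn0 : (0 : ℝ) < n := by exact_mod_cast (by omega : 0 < n)
    have a1 : 400 * (400 * (4 * m)) / G ≤ n :=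
      (Nat.le_ceil _).trans (Nat.cast_le.mpr (by omega))
    have a2 : 400 * (4 * (m : ℝ)) / n ≤ G / 400 := by
      rw [div_le_iff₀ hGpos] at a1
      rw [div_le_div_iff₀ hn0 (by norm_num)]
      linarith
    rw [pow_succ]
    linarith

/-- The factor complexity of the parity word of an injective orbit. -/
theorem complexity {k : ℤ} {x : ℕ → ℤ} (hrec : Rec k x v) (hx : ∀ i j, i < j → x i ≠ x j) :
    ∃ C : ℕ, ∀ n, 2 * n ≤ cxF v n 0 + C := by
  classical
  by_contra hcon
  push Not at hcon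
  have hv : Aper v := fun i j hij h => hx i j hij (hrec.eq_of_same h)
  obtain ⟨c, hrep⟩ := hrec.rep hx
  have good : ∀ N, ∃ n, N ≤ n ∧ ∃ u h, Blk v n u h := by
    intro N
    have hex := hcon (2 * (N + 30 * c) + 2)
    have a1 := Nat.find_spec hex
    have a2 := Nat.find_min hex (m := Nat.find hex - 1) (by omega)
    have a3 := cxF_lt_succ hv (Nat.find hex - 1) 0
    have a4 : Nat.find hex - 1 + 1 = Nat.find hex := by omega
    refine ⟨Nat.find hex - 1, by omega, exists_blk hv hrep (by omega) ?_ ?_⟩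
    · rw [a4]; omega
    · rw [a4] at a3; omega
  obtain ⟨η, hη, L, H⟩ := two_block 300
  obtain ⟨j, hj⟩ := exists_pow_lt_of_lt_one hη (by norm_num : (399 / 400 : ℝ) < 1)
  set A : ℤ := |x 0| + |k| with hA
  obtain ⟨n, hn, u, h, B, hg⟩ := exists_small_gap good j (100 * L + A.natAbs + 1)
  have hle := B.h_le
  obtain ⟨σ, ε, p, a0, a1, a2, a3, -, -, a6⟩ := B
  have b0 := a6 false
  have b1 := a6 true
  obtain ⟨i, i', hi, e⟩ := H k x v hrec σ ε u h a1 a2 a3 hle (by omega) (by omega) (by omega)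
    (by
      have u0 : (0 : ℝ) < u false := by exact_mod_cast (by omega : 0 < u false)
      have u1 : (0 : ℝ) < u true := by exact_mod_cast (by omega : 0 < u true)
      have : (h false : ℝ) * u true - h true * u false
          = ((h false : ℝ) / u false - (h true : ℝ) / u true) * (u false * u true) := by
        field_simp
      rw [this, abs_mul, abs_of_pos (mul_pos u0 u1)]
      gcongr
      exact hg.trans hj.le)
    (by
      have g := hrec.growth (σ 0)
      have hA0 : 0 ≤ A := by positivity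
      have c1 : A ≤ 2 ^ n := by
        have h2 : A.natAbs < 2 ^ A.natAbs := Nat.lt_two_pow_self
        have h3 : ((A.natAbs : ℕ) : ℤ) < 2 ^ A.natAbs := by exact_mod_cast h2
        rw [Int.natCast_natAbs] at h3
        exact (le_abs_self _).trans (h3.le.trans (pow_le_pow_right₀ (by norm_num) (by omega)))
      have c2 : (3 : ℤ) ^ σ 0 ≤ 2 ^ σ 0 * 2 ^ σ 0 := by
        rw [← mul_pow]; gcongr; norm_num
      have c3 : 2 ^ σ 0 * (|x (σ 0)| + |k|) ≤ 2 ^ σ 0 * (2 ^ σ 0 * 2 ^ n) := by
        refine g.trans ?_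
        rw [← mul_assoc]; gcongr
      refine (le_of_mul_le_mul_left c3 (by positivity)).trans ?_
      rw [← pow_add]
      exact pow_le_pow_right₀ (by norm_num) (by omega))
  exact hx i i' hi e

end Pool.Agent.Lib.MP_7f88e4_nt
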