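import Pool.Agent.Lib.MP_7f88e4_nt.Normal

set_option autoImplicit false

namespace Pool.Agent.Lib.MP_7f88e4_nt

open PowerSeries Finset Filter Topology

/-- the coefficient ring -/
abbrev Rr (r : ℕ) : Type := MvPolynomial (Fin r) ℤ

variable {r : ℕ}

/-- weight of a monomial -/
noncomputable def mw (θ : Fin r → ℝ) (τ : ℝ) (n : ℕ) (ν : Fin r →₀ ℕ) : ℝ :=
  Real.exp (τ * n + ∑ i, θ i * ν i)

/-- 3-adic absolute value of an integer -/
noncomputable def n3 (c : ℤ) : ℝ := ‖(c : ℚ_[3])‖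

variable {θ : Fin r → ℝ} {τ : ℝ}

lemma mw_pos (n : ℕ) (ν : Fin r →₀ ℕ) : 0 < mw θ τ n ν := Real.exp_pos _

lemma mw_add (n n' : ℕ) (ν ν' : Fin r →₀ ℕ) :
    mw θ τ (n + n') (ν + ν') = mw θ τ n ν * mw θ τ n' ν' := by
  simp only [mw, ← Real.exp_add, Finsupp.add_apply, Nat.cast_add, mul_add, sum_add_distrib]
  congr 1; ring

lemma mw_smul (j n : ℕ) (ν : Fin r →₀ ℕ) : mw θ τ (n * j) (j • ν) = mw θ τ n ν ^ j := by
  induction j with
  | zero => simp [mw]
  | succ j ih => rw [mul_add, mul_one, succ_nsmul, mw_add, ih, pow_succ]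

lemma mw_mono {τ' : ℝ} (h : τ ≤ τ') (n : ℕ) (ν : Fin r →₀ ℕ) : mw θ τ n ν ≤ mw θ τ' n ν := by
  unfold mw; gcongr

lemma n3_nonneg (c : ℤ) : 0 ≤ n3 c := norm_nonneg _

lemma n3_mul (a b : ℤ) : n3 (a * b) = n3 a * n3 b := by simp [n3]

lemma n3_pow (a : ℤ) (j : ℕ) : n3 (a ^ j) = n3 a ^ j := by simp [n3]

lemma n3_le_one (a : ℤ) : n3 a ≤ 1 := Padic.norm_int_le_one a

lemma n3_pos {a : ℤ} (h : a ≠ 0) : 0 < n3 a := by simpa [n3] using h

lemma n3_sum_le {ι : Type*} (s : Finset ι) (f : ι → ℤ) {C : ℝ} (hC : 0 ≤ C)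
    (h : ∀ i ∈ s, n3 (f i) ≤ C) : n3 (∑ i ∈ s, f i) ≤ C := by
  simp only [n3, Int.cast_sum]
  exact IsUltrametricDist.norm_sum_le_of_forall_le_of_nonneg hC h

lemma one_le_abs_mul_n3 {a : ℤ} (h : a ≠ 0) : 1 ≤ |(a : ℝ)| * n3 a := by
  obtain ⟨e, b, hb, rfl⟩ := WfDvdMonoid.max_power_factor h Int.prime_three.irreducible
  have h1 : n3 b = 1 := le_antisymm (n3_le_one b) (not_lt.mp fun hh =>
    hb (by exact_mod_cast (Padic.norm_intCast_lt_one_iff (p := 3)).mp hh))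
  have h2 : n3 3 = 3⁻¹ := by simpa [n3] using Padic.norm_p (p := 3)
  have h3 : (1 : ℝ) ≤ |(b : ℝ)| := by
    exact_mod_cast Int.one_le_abs (right_ne_zero_of_mul h)
  rw [n3_mul, n3_pow, h1, h2]
  push_cast
  rw [abs_mul, abs_pow, abs_of_pos (by norm_num : (0 : ℝ) < 3), inv_pow]
  field_simp
  exact h3

variable (θ τ) in
/-- weighted 3-adic bound on all coefficients -/
def Bd (f : (Rr r)⟦X⟧) (M : ℝ) : Prop :=
  ∀ n ν, n3 (MvPolynomial.coeff ν (coeff n f)) ≤ M * mw θ τ n ν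

lemma Bd.mono {f : (Rr r)⟦X⟧} {M M' : ℝ} (h : Bd θ τ f M) (h' : M ≤ M') : Bd θ τ f M' :=
  fun n ν => (h n ν).trans (mul_le_mul_of_nonneg_right h' (mw_pos n ν).le)

lemma Bd.nonneg {f : (Rr r)⟦X⟧} {M : ℝ} (h : Bd θ τ f M) : 0 ≤ M :=
  nonneg_of_mul_nonneg_left ((n3_nonneg _).trans (h 0 0)) (mw_pos 0 0)

lemma Bd.mono_tau {f : (Rr r)⟦X⟧} {M τ' : ℝ} (h : Bd θ τ f M) (h' : τ ≤ τ') : Bd θ τ' f M :=
  fun n ν => (h n ν).trans (mul_le_mul_of_nonneg_left (mw_mono h' n ν) h.nonneg)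

lemma Bd.sum {ι : Type*} (s : Finset ι) {f : ι → (Rr r)⟦X⟧} {M : ℝ} (hM : 0 ≤ M)
    (h : ∀ i ∈ s, Bd θ τ (f i) M) : Bd θ τ (∑ i ∈ s, f i) M := fun n ν => by
  rw [map_sum, MvPolynomial.coeff_sum]
  exact n3_sum_le _ _ (mul_nonneg hM (mw_pos n ν).le) fun i hi => h i hi n ν

lemma Bd.add {f g : (Rr r)⟦X⟧} {M : ℝ} (hf : Bd θ τ f M) (hg : Bd θ τ g M) :
    Bd θ τ (f + g) M := by
  have := Bd.sum (θ := θ) (τ := τ) univ (f := ![f, g]) hf.nonneg
    (fun i _ => by fin_cases i <;> assumption)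
  simpa using this

lemma Bd.neg {f : (Rr r)⟦X⟧} {M : ℝ} (hf : Bd θ τ f M) : Bd θ τ (-f) M := fun n ν => by
  simpa [n3] using hf n ν

lemma Bd.mul {f g : (Rr r)⟦X⟧} {M M' : ℝ} (hf : Bd θ τ f M) (hg : Bd θ τ g M') :
    Bd θ τ (f * g) (M * M') := fun n ν => by
  classical
  have h0 := mul_nonneg (mul_nonneg hf.nonneg hg.nonneg) (mw_pos (θ := θ) (τ := τ) n ν).le
  rw [coeff_mul, MvPolynomial.coeff_sum]
  refine n3_sum_le _ _ h0 fun p hp => ?_
  rw [MvPolynomial.coeff_mul]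
  refine n3_sum_le _ _ h0 fun q hq => ?_
  rw [n3_mul, ← mem_antidiagonal.mp hp, ← mem_antidiagonal.mp hq, mw_add, mul_mul_mul_comm]
  exact mul_le_mul (hf _ _) (hg _ _) (n3_nonneg _) (mul_nonneg hf.nonneg (mw_pos _ _).le)

lemma bd_natCast (a : ℕ) : Bd θ τ (a : (Rr r)⟦X⟧) 1 := fun n ν => by
  classical
  rw [← map_natCast C, coeff_C, one_mul]
  split_ifs with h
  · rw [← map_natCast MvPolynomial.C, MvPolynomial.coeff_C]
    split_ifs with h'
    · subst h h'; simpa [mw] using n3_le_one a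
    · simpa [n3] using (mw_pos n ν).le
  · simpa [n3] using (mw_pos n ν).le

lemma Bd.pow {f : (Rr r)⟦X⟧} {M : ℝ} (hf : Bd θ τ f M) (j : ℕ) : Bd θ τ (f ^ j) (M ^ j) := by
  induction j with
  | zero => simpa using bd_natCast (θ := θ) (τ := τ) 1
  | succ j ih => rw [pow_succ, pow_succ]; exact ih.mul hf

lemma bd_coe (p : Polynomial (Rr r)) : ∃ M, Bd θ τ (p : (Rr r)⟦X⟧) M := by
  refine ⟨∑ n ∈ p.support, ∑ ν ∈ (p.coeff n).support, (mw θ τ n ν)⁻¹, fun n ν => ?_⟩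
  have hp : ∀ n ν, 0 ≤ (mw θ τ n ν)⁻¹ := fun n ν => (inv_pos.mpr (mw_pos n ν)).le
  rw [Polynomial.coeff_coe]
  by_cases h : MvPolynomial.coeff ν (p.coeff n) = 0
  · rw [h]
    simp only [n3, Int.cast_zero, norm_zero]
    exact mul_nonneg (sum_nonneg fun _ _ => sum_nonneg fun _ _ => hp _ _) (mw_pos n ν).le
  · refine (n3_le_one _).trans ?_
    rw [← div_le_iff₀ (mw_pos n ν), one_div]
    refine (single_le_sum (f := fun ν => (mw θ τ n ν)⁻¹) (fun _ _ => hp _ _)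
      (MvPolynomial.mem_support_iff.mpr h)).trans
      (single_le_sum (f := fun n => ∑ ν ∈ (p.coeff n).support, (mw θ τ n ν)⁻¹)
        (fun _ _ => sum_nonneg fun _ _ => hp _ _) (Polynomial.mem_support_iff.mpr ?_))
    intro e; rw [e] at h; simp at h

lemma bd_of_powers {d w : (Rr r)⟦X⟧} {C M : ℝ} (hd : d ≠ 0) (hM : 0 < M)
    (h : ∀ j, Bd θ τ (d * w ^ j) (C * M ^ j)) : Bd θ τ w M := by
  classical
  by_contra hc
  have hex : ∃ n, ∃ ν, ¬ n3 (MvPolynomial.coeff ν (coeff n w)) ≤ M * mw θ τ n ν := by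
    simpa [Bd] using hc
  set n := Nat.find hex with hn
  let V := (coeff n w).support.filter
    fun ν => ¬ n3 (MvPolynomial.coeff ν (coeff n w)) ≤ M * mw θ τ n ν
  let q : Rr r := ∑ ν ∈ V, MvPolynomial.monomial ν (MvPolynomial.coeff ν (coeff n w))
  have hq : ∀ ν, MvPolynomial.coeff ν q =
      if ν ∈ V then MvPolynomial.coeff ν (coeff n w) else 0 := fun ν => by
    simp [q, MvPolynomial.coeff_sum, MvPolynomial.coeff_monomial]
  have hV : ∀ ν, ν ∈ V ↔ ¬ n3 (MvPolynomial.coeff ν (coeff n w)) ≤ M * mw θ τ n ν := fun ν => by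
    refine ⟨fun h => (mem_filter.mp h).2, fun h => mem_filter.mpr ⟨?_, h⟩⟩
    refine MvPolynomial.mem_support_iff.mpr fun e => h ?_
    rw [e]; simpa [n3] using (mul_pos hM (mw_pos n ν)).le
  have hq0 : q ≠ 0 := by
    obtain ⟨ν, hν⟩ := Nat.find_spec hex
    intro e
    have := hq ν
    rw [e, if_pos ((hV ν).mpr hν)] at this
    refine hν ?_
    rw [← hn, ← this]; simpa [n3] using (mul_pos hM (mw_pos n ν)).le
  let P : (Rr r)⟦X⟧ := PowerSeries.mk fun i =>
    if i < n then -coeff i w else if i = n then q - coeff n w else 0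
  have hP : Bd θ τ P M := fun i ν => by
    simp only [P, coeff_mk]
    split_ifs with h1 h2
    · have := Nat.find_min hex h1
      push Not at this
      simpa [n3] using this ν
    · subst h2
      rw [MvPolynomial.coeff_sub, hq]
      split_ifs with h3
      · simpa [n3] using (mul_pos hM (mw_pos _ ν)).le
      · simpa [n3] using not_not.mp ((hV ν).not.mp h3)
    · simpa [n3] using (mul_pos hM (mw_pos i ν)).le
  obtain ⟨w', hw'⟩ : X ^ n ∣ w + P := X_pow_dvd_iff.mpr fun i hi => by simp [P, hi]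
  have hw0 : constantCoeff w' = q := by
    have := congrArg (coeff (0 + n)) hw'
    rw [coeff_X_pow_mul] at this
    simpa [P] using this.symm
  obtain ⟨e, d1, rfl, hd1⟩ := exists_X_pow_mul hd
  have h1 : ∀ j, Bd θ τ (X ^ e * d1 * (w + P) ^ j) (C * M ^ j) := fun j => by
    rw [add_pow, mul_sum]
    refine Bd.sum _ (h j).nonneg fun i hi => ?_
    have hi' : i ≤ j := Nat.lt_succ_iff.mp (mem_range.mp hi)
    have := ((h i).mul (hP.pow (j - i))).mul (bd_natCast (j.choose i))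
    rw [mul_one, mul_assoc C, ← pow_add, Nat.add_sub_cancel' hi'] at this
    simpa only [mul_assoc] using this
  let m : MonomialOrder (Fin r) := MonomialOrder.degLex
  have h2 : ∀ j, n3 (m.leadingCoeff (constantCoeff d1)) * n3 (m.leadingCoeff q) ^ j
      ≤ C * mw θ τ e (m.degree (constantCoeff d1)) * (M * mw θ τ n (m.degree q)) ^ j := fun j => by
    have a1 := h1 j (0 + (e + n * j)) (m.degree (constantCoeff d1 * q ^ j))
    have a2 : X ^ e * d1 * (w + P) ^ j = X ^ (e + n * j) * (d1 * w' ^ j) := by rw [hw']; ring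
    rw [a2, coeff_X_pow_mul, coeff_zero_eq_constantCoeff, map_mul, map_pow, hw0] at a1
    change n3 (m.leadingCoeff _) ≤ _ at a1
    rw [m.leadingCoeff_mul, m.leadingCoeff_pow, n3_mul, n3_pow,
      m.degree_mul hd1 (pow_ne_zero _ hq0), m.degree_pow, zero_add, mw_add, mw_smul] at a1
    refine a1.trans (le_of_eq ?_)
    ring
  have h3 : M * mw θ τ n (m.degree q) < n3 (m.leadingCoeff q) := by
    have a1 := hq (m.degree q)
    have a2 : MvPolynomial.coeff (m.degree q) q ≠ 0 := m.coeff_degree_ne_zero_iff.mpr hq0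
    have a3 : m.degree q ∈ V := by by_contra a; rw [if_neg a] at a1; exact a2 a1
    rw [if_pos a3] at a1
    have := not_le.mp ((hV _).mp a3)
    rwa [← a1] at this
  have h4 : 0 < M * mw θ τ n (m.degree q) := mul_pos hM (mw_pos _ _)
  have h5 := n3_pos (m.leadingCoeff_ne_zero_iff.mpr hd1)
  obtain ⟨j, hj⟩ := pow_unbounded_of_one_lt
    (C * mw θ τ e (m.degree (constantCoeff d1)) / n3 (m.leadingCoeff (constantCoeff d1)))
    ((one_lt_div h4).mpr h3)
  rw [div_pow, div_lt_div_iff₀ h5 (pow_pos h4 j)] at hj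
  have := h2 j
  linarith

/-- a series integral over the polynomial ring is bounded by the coefficients of its equation -/
lemma bd_of_integral {d w : (Rr r)⟦X⟧} {M : ℝ} (hd : d ≠ 0) (hM : 1 ≤ M) {g : ℕ}
    (a : ℕ → (Rr r)⟦X⟧) (ha : ∀ i < g, Bd θ τ (a i) M) (hw : w ^ g = ∑ i ∈ range g, a i * w ^ i)
    (h : ∀ i < g, ∃ C, Bd θ τ (d * w ^ i) C) : Bd θ τ w M := by
  choose! c hc using h
  have h0 : 0 ≤ ∑ i ∈ range g, c i := sum_nonneg fun i hi => (hc i (mem_range.mp hi)).nonneg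
  refine bd_of_powers (C := ∑ i ∈ range g, c i) hd (by linarith) fun j => ?_
  induction j using Nat.strong_induction_on with
  | _ j ih =>
    rcases lt_or_ge j g with hj | hj
    · refine (hc j hj).mono ((single_le_sum (fun i hi => (hc i (mem_range.mp hi)).nonneg)
        (mem_range.mpr hj)).trans (le_mul_of_one_le_right h0 (one_le_pow₀ hM)))
    · obtain ⟨s, rfl⟩ := Nat.exists_eq_add_of_le hj
      rw [pow_add, hw, sum_mul, mul_sum]
      refine Bd.sum _ (by positivity) fun i hi => ?_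
      have hi' := mem_range.mp hi
      have := (ha i hi').mul (ih (i + s) (by omega))
      rw [show d * (a i * w ^ i * w ^ s) = a i * (d * w ^ (i + s)) by ring]
      refine this.mono ?_
      rw [mul_left_comm, ← pow_succ']
      exact mul_le_mul_of_nonneg_left (pow_le_pow_right₀ hM (by omega)) h0

end Pool.Agent.Lib.MP_7f88e4_nt
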