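import Pool.Agent.Lib.MP_7f88e4_nt.Liou
import Pool.Agent.Lib.MP_7f88e4_nt.Orbit

set_option autoImplicit false

namespace Pool.Agent.Lib.MP_7f88e4_nt

open PowerSeries Finset Filter Topology

variable {r : ℕ}

theorem Lev.lift (L : Lev r) {θ : Fin r → ℝ} {τ : ℝ} {c0 : ℕ}
    (hind : ∀ n ν, (n, ν) ≠ 0 → Tendsto (fun κ => |L.sz κ n ν|) L.U atTop)
    {A : Type*} [Fintype A] (y : A → L.Om) (hy : ∀ a, y a ∈ L.hts) (F : A → nice θ τ c0)
    (hrel : ∑ a, L.ev (F a) * y a = 0) :
    ∃ (D : ℕ) (e : Fin D → L.Om) (Δ : Polynomial (Rr r)) (z : A → Fin D → Polynomial (Rr r)),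
      Δ ≠ 0 ∧ (∀ a, L.ev Δ * y a = ∑ m, L.ev (z a m) * e m) ∧
      ∀ m, ∑ a, (F a : (Rr r)⟦X⟧) * z a m = 0 := by
  let ev : nice θ τ c0 →+* L.Om := L.ev.comp (nice θ τ c0).val.toRingHom
  have hev : ∀ p : Polynomial (Rr r), ev (algebraMap _ _ p) = L.ev p := fun p => by
    rw [← alg_coe]; rfl
  have hinj : Function.Injective (ev.comp (algebraMap (Polynomial (Rr r)) (nice θ τ c0))) :=
    (injective_iff_map_eq_zero _).mpr fun p hp => Lev.ev_injective hind p ((hev p).symm.trans hp)
  let k := FractionRing (Polynomial (Rr r))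
  let M := FractionRing (nice θ τ c0)
  let _ : Algebra k L.Om := (IsFractionRing.lift hinj).toAlgebra
  have hk : ∀ s, ev (algebraMap _ _ s) = algebraMap k L.Om (algebraMap (Polynomial (Rr r)) k s) :=
    fun s => (IsFractionRing.lift_algebraMap hinj s).symm
  have hinj2 : Function.Injective (algebraMap (Polynomial (Rr r)) M) := by
    rw [IsScalarTower.algebraMap_eq _ (nice θ τ c0) M]
    exact (IsFractionRing.injective (nice θ τ c0) M).comp
      (Function.Injective.of_comp (f := ev) hinj)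
  have : FaithfulSMul (Polynomial (Rr r)) M := (faithfulSMul_iff_algebraMap_injective _ _).mpr hinj2
  let _ : Algebra k M := FractionRing.liftAlgebra _ _
  have : IsScalarTower (Polynomial (Rr r)) k M := FractionRing.isScalarTower_liftAlgebra _ _
  have hsub : ∀ ξ ∈ Algebra.adjoin k (Set.range y), ξ ∈ L.hts := by
    intro ξ hξ
    induction hξ using Algebra.adjoin_induction with
    | mem x hx => obtain ⟨a, rfl⟩ := hx; exact hy a
    | algebraMap c =>
      obtain ⟨a, b, -, rfl⟩ := IsFractionRing.div_surjective (Polynomial (Rr r)) c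
      rw [map_div₀, ← hk, ← hk, hev, hev]
      exact div_mem (Lev.ev_coe_mem a) (Lev.ev_coe_mem b)
    | add x z _ _ hx hz => exact add_mem hx hz
    | mul x z _ _ hx hz => exact mul_mem hx hz
  obtain ⟨D, e, Δ, z, h1, h2, h3⟩ := lifting (S0 := Polynomial (Rr r)) (k := k)
    (S := nice θ τ c0) (M := M) ev hk (nice_regular (r := r) (θ := θ) (τ := τ) (c0 := c0)) y F hrel (Deg r) (ordI θ τ c0) ordI_div
    ordI_siegel (by
      obtain ⟨κ, hκ⟩ := Lev.liouville (L := L) (θ := θ) (τ := τ) (c0 := c0)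
      refine ⟨κ, fun D D' b e hb he c => ?_⟩
      simp only [hev]
      exact hκ D D' b e (fun i => hsub _ (hb i)) (fun m => hsub _ (he m)) c)
  refine ⟨D, e, Δ, z, h1, fun a => by simpa only [hev] using h2 a, fun m => ?_⟩
  have := congrArg Subtype.val (h3 m)
  simpa only [AddSubmonoidClass.coe_finsetSum, Subalgebra.coe_mul, Subalgebra.coe_algebraMap,
    alg_coe, ZeroMemClass.coe_zero] using this

/-- generating series of the occurrences of a letter -/
noncomputable def tailF {A : Type*} [DecidableEq A] (ε : ℕ → A) (mm : A → Rr r) (n : ℕ) (a : A) :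
    (Rr r)⟦X⟧ :=
  PowerSeries.mk fun j => if ε (n + j) = a then ∏ i ∈ range j, mm (ε (n + i)) else 0

lemma tailF_succ {A : Type*} [DecidableEq A] (ε : ℕ → A) (mm : A → Rr r) (n : ℕ) (a : A) :
    tailF ε mm n a = (if ε n = a then 1 else 0) + C (mm (ε n)) * X * tailF ε mm (n + 1) a := by
  ext1 j
  cases j with
  | zero => split_ifs with h <;> simp [tailF, h, mul_assoc]
  | succ j =>
    rw [map_add, mul_assoc, coeff_C_mul, coeff_succ_X_mul]
    simp only [tailF, coeff_mk, prod_range_succ', add_assoc, add_comm 1]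
    split_ifs <;> simp [coeff_one, mul_comm]

lemma lin_bound {E : ℕ → ℝ} (h : Tendsto (fun j => E j / j) atTop (𝓝 0)) {η : ℝ} (hη : 0 < η) :
    ∃ M, ∀ j, |E j| ≤ M + η * j := by
  obtain ⟨N, hN⟩ := eventually_atTop.mp (h.abs.eventually (gt_mem_nhds (by simpa using hη)))
  refine ⟨∑ j ∈ range (N + 1), |E j|, fun j => ?_⟩
  have h0 : 0 ≤ ∑ j ∈ range (N + 1), |E j| := sum_nonneg fun _ _ => abs_nonneg _
  rcases le_or_gt j N with hj | hj
  · have := single_le_sum (f := fun j => |E j|) (fun _ _ => abs_nonneg _)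
      (mem_range.mpr (Nat.lt_succ_of_le hj))
    have : 0 ≤ η * j := by positivity
    linarith
  · have h1 := hN j hj.le
    have h2 : (0 : ℝ) < j := by exact_mod_cast (by omega : 0 < j)
    rw [abs_div, abs_of_pos h2, div_lt_iff₀ h2] at h1
    linarith

lemma prod_monomial {A : Type*} (μ : A → Fin r →₀ ℕ) (e : A → ℕ) (s : Finset ℕ) (f : ℕ → A) :
    ∏ i ∈ s, (MvPolynomial.monomial (μ (f i)) (3 ^ e (f i)) : Rr r)
      = MvPolynomial.monomial (∑ i ∈ s, μ (f i)) (3 ^ ∑ i ∈ s, e (f i)) := by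
  classical
  induction s using Finset.induction_on with
  | empty => simp
  | insert a s ha ih =>
    rw [prod_insert ha, sum_insert ha, sum_insert ha, ih, MvPolynomial.monomial_mul, pow_add]

lemma tailF_mem {A : Type*} [Fintype A] [DecidableEq A] (ε : ℕ → A) (μ : A → Fin r →₀ ℕ)
    (e : A → ℕ) (θ : Fin r → ℝ) (τ : ℝ)
    (h : Tendsto (fun j : ℕ => (∑ i ∈ range j,
      (e (ε i) * Real.log 3 + ∑ t, θ t * μ (ε i) t + τ)) / j) atTop (𝓝 0)) (a : A) :
    tailF ε (fun a => MvPolynomial.monomial (μ a) (3 ^ e a)) 0 a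
      ∈ nice θ τ (univ.sup fun a => univ.sup (μ a)) := by
  have hE : ∀ j : ℕ, Real.exp (∑ i ∈ range j, (e (ε i) * Real.log 3 + ∑ t, θ t * μ (ε i) t + τ))
      = 3 ^ (∑ i ∈ range j, e (ε i)) * mw θ τ j (∑ i ∈ range j, μ (ε i)) := fun j => by
    have : (3 : ℝ) ^ (∑ i ∈ range j, e (ε i))
        = Real.exp ((∑ i ∈ range j, e (ε i) : ℕ) * Real.log 3) := by
      rw [Real.exp_nat_mul, Real.exp_log (by norm_num)]
    rw [this, mw, ← Real.exp_add]
    congr 1
    simp only [sum_add_distrib, sum_const, card_range, nsmul_eq_mul, Nat.cast_sum, sum_mul,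
      Finsupp.finsetSum_apply, mul_sum]
    rw [sum_comm]; ring
  refine ⟨⟨0, fun j t => ?_⟩, fun ζ hζ z hz => ?_, fun τ' hτ => ?_⟩
  · simp only [tailF, coeff_mk, zero_add, prod_monomial]
    split_ifs
    · rw [MvPolynomial.degreeOf_monomial_eq _ _ (by positivity), Finsupp.finsetSum_apply]
      refine (sum_le_card_nsmul _ _ _ fun i _ => (le_sup (f := μ (ε i)) (mem_univ t)).trans
        (le_sup (f := fun a => univ.sup (μ a)) (mem_univ _))).trans ?_
      simp [mul_comm]
    · simp
  · obtain ⟨τ'', h1, h2⟩ := ((Real.continuous_exp.tendsto τ).eventually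
      (lt_mem_nhds hz)).exists_lt
    obtain ⟨M, hM⟩ := lin_bound h (η := (τ - τ'') / 2) (by linarith)
    refine Summable.of_nonneg_of_le (fun _ => norm_nonneg _) (fun j => ?_)
      ((summable_geometric_of_lt_one (Real.exp_pos (-((τ - τ'') / 2))).le
        (Real.exp_lt_one_iff.mpr (by linarith))).mul_left (Real.exp M))
    simp only [tailF, coeff_mk, zero_add, prod_monomial]
    split_ifs
    · have a1 : ‖psi θ ζ (MvPolynomial.monomial (∑ i ∈ range j, μ (ε i))
          (3 ^ ∑ i ∈ range j, e (ε i)))‖ * Real.exp (τ * j)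
          = 3 ^ (∑ i ∈ range j, e (ε i)) * mw θ τ j (∑ i ∈ range j, μ (ε i)) := by
        rw [psi, MvPolynomial.eval₂Hom_monomial, Finsupp.prod_fintype _ _ (by simp), mw,
          Real.exp_add, Real.exp_sum]
        simp only [norm_mul, norm_prod, norm_pow, hζ, mul_one, Complex.norm_real, Real.norm_eq_abs,
          Real.abs_exp, map_pow, eq_intCast, Int.cast_ofNat, Complex.norm_ofNat, mul_comm (θ _),
          Real.exp_nat_mul]
        ring
      rw [← hE, ← eq_div_iff (Real.exp_pos _).ne', ← Real.exp_sub] at a1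
      rw [norm_mul, a1, norm_pow, ← Real.exp_nat_mul, ← Real.exp_add]
      refine (mul_le_mul_of_nonneg_left (pow_le_pow_left₀ (norm_nonneg _) h2.le j)
        (Real.exp_pos _).le).trans ?_
      rw [← Real.exp_nat_mul, ← Real.exp_add]
      refine Real.exp_le_exp.mpr ?_
      have := (abs_le.mp (hM j)).2
      linarith
    · simp only [map_zero, zero_mul, norm_zero]; positivity
  · obtain ⟨M, hM⟩ := lin_bound h (η := τ' - τ) (by linarith)
    refine ⟨Real.exp M, fun j ν => ?_⟩
    have h0 := mul_pos (Real.exp_pos M) (mw_pos (θ := θ) (τ := τ') j ν)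
    simp only [tailF, coeff_mk, zero_add, prod_monomial]
    split_ifs
    · rw [MvPolynomial.coeff_monomial]
      split_ifs with hν
      · subst hν
        have h2 : n3 3 = 3⁻¹ := by simpa [n3] using Padic.norm_p (p := 3)
        have h3 : mw θ τ' j (∑ i ∈ range j, μ (ε i))
            = Real.exp ((τ' - τ) * j) * mw θ τ j (∑ i ∈ range j, μ (ε i)) := by
          rw [mw, mw, ← Real.exp_add]; congr 1; ring
        rw [n3_pow, h2, inv_pow, inv_le_iff_one_le_mul₀ (by positivity), h3, mul_assoc, mul_assoc,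
          mul_comm (mw _ _ _ _), ← hE, ← Real.exp_add, ← Real.exp_add]
        refine Real.one_le_exp ?_
        have := (abs_le.mp (hM j)).1
        linarith
      · simpa [n3] using h0.le
    · simpa [n3] using h0.le

end Pool.Agent.Lib.MP_7f88e4_nt
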