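import Pool.Agent.Lib.MP_7f88e4_nt.Tensor

set_option autoImplicit false

namespace Pool.Agent.Lib.MP_7f88e4_nt

open Module Finset Filter

lemma clear_denoms {R K : Type*} [CommRing R] [IsDomain R] [Field K] [Algebra R K]
    [IsFractionRing R K] {ι : Type*} [Finite ι] (f : ι → K) :
    ∃ d : R, d ≠ 0 ∧ ∃ g : ι → R, ∀ i, algebraMap R K (g i) = algebraMap R K d * f i := by
  obtain ⟨b, hb⟩ := IsLocalization.exist_integer_multiples_of_finite (nonZeroDivisors R) f
  choose g hg using hb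
  exact ⟨b, nonZeroDivisors.coe_ne_zero b, g, fun i => by rw [hg i, Algebra.smul_def]⟩

lemma exists_doubling (φ : ℕ → ℕ) (s J : ℕ) (h0 : 0 < φ 0) (h : ∀ d, φ d ≤ (d + 1) ^ s) :
    ∃ d, φ (d + J) ≤ 2 * φ d := by
  by_contra hc
  push Not at hc
  have h1 : ∀ i, 2 ^ i ≤ φ (i * J) := by
    intro i
    induction i with
    | zero => rw [zero_mul]; exact h0
    | succ i ih => have := hc (i * J); rw [pow_succ, add_mul, one_mul]; omega
  have h2 := (tendsto_pow_const_div_const_pow_of_one_lt s (one_lt_two (α := ℝ))).eventually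
    (gt_mem_nhds (show (0 : ℝ) < 1 / (J + 1) ^ s by positivity))
  obtain ⟨i, hi1, hi2⟩ := (h2.and (eventually_ge_atTop 1)).exists
  rw [div_lt_div_iff₀ (by positivity) (by positivity), one_mul, ← mul_pow] at hi1
  have h3 : (i * J + 1) ^ s ≤ (i * (J + 1)) ^ s := Nat.pow_le_pow_left (by nlinarith) _
  have h4 : (i * (J + 1)) ^ s < 2 ^ i := by exact_mod_cast hi1
  have := h1 i
  have := h (i * J)
  omega

section box

variable (k : Type*) [Field k] {B : Type*} [CommRing B] [Algebra k B] {A : Type*} [Fintype A]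

/-- span of the monomials with all exponents at most `d` -/
def boxSpan (y : A → B) (d : ℕ) : Submodule k B :=
  Submodule.span k (Set.range fun m : A → Fin (d + 1) => ∏ a, y a ^ (m a : ℕ))

instance (y : A → B) (d : ℕ) : FiniteDimensional k (boxSpan k y d) :=
  FiniteDimensional.span_of_finite k (Set.finite_range _)

lemma finrank_boxSpan (y : A → B) (d : ℕ) :
    finrank k (boxSpan k y d) ≤ (d + 1) ^ Fintype.card A := by
  classical
  have := finrank_range_le_card (R := k) fun m : A → Fin (d + 1) => ∏ a, y a ^ (m a : ℕ)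
  rw [Fintype.card_fun, Fintype.card_fin] at this
  exact this

lemma mono_mem_boxSpan (y : A → B) (d : ℕ) (m : A → ℕ) (h : ∀ a, m a ≤ d) :
    ∏ a, y a ^ m a ∈ boxSpan k y d :=
  Submodule.subset_span ⟨fun a => ⟨m a, Nat.lt_succ_of_le (h a)⟩, rfl⟩

lemma one_mem_boxSpan (y : A → B) (d : ℕ) : (1 : B) ∈ boxSpan k y d := by
  simpa using mono_mem_boxSpan k y d (fun _ => 0) (by simp)

lemma boxSpan_mono (y : A → B) {d d' : ℕ} (h : d ≤ d') : boxSpan k y d ≤ boxSpan k y d' := by
  refine Submodule.span_le.mpr ?_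
  rintro _ ⟨m, rfl⟩
  exact mono_mem_boxSpan k y d' _ fun a => (Nat.le_of_lt_succ (m a).2).trans h

lemma mul_mem_boxSpan (y : A → B) (d : ℕ) (a : A) {x : B} (hx : x ∈ boxSpan k y d) :
    y a * x ∈ boxSpan k y (d + 1) := by
  classical
  induction hx using Submodule.span_induction with
  | mem x hx =>
    obtain ⟨m, rfl⟩ := hx
    have := mono_mem_boxSpan k y (d + 1) (fun b => (if b = a then 1 else 0) + (m b : ℕ))
      fun b => by have := (m b).2; split_ifs <;> omega
    simp only [pow_add, prod_mul_distrib, pow_ite, pow_one, pow_zero, prod_ite_eq', mem_univ,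
      if_true] at this
    exact this
  | zero => simp
  | add x z _ _ hx hz => rw [mul_add]; exact add_mem hx hz
  | smul c x _ hx => rw [mul_smul_comm]; exact Submodule.smul_mem _ _ hx

lemma finrank_boxSpan_pos [Nontrivial B] (y : A → B) (d : ℕ) : 0 < finrank k (boxSpan k y d) := by
  rw [Module.finrank_pos_iff_exists_ne_zero]
  exact ⟨⟨1, one_mem_boxSpan k y d⟩, fun e => one_ne_zero (congrArg Subtype.val e)⟩

end box

section pair

variable {S0 k S B P : Type*} [CommRing S0] [IsDomain S0] [Field k] [Algebra S0 k]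
  [IsFractionRing S0 k] [CommRing S] [Algebra S0 S] [CommRing B] [Algebra k B] [CommRing P]

/-- sums of products of images -/
def pairSpan (ρ : S →+* P) (β : B →+* P) (W : Submodule k B) : AddSubmonoid P :=
  AddSubmonoid.closure {ξ | ∃ f : S, ∃ x ∈ W, ξ = ρ f * β x}

lemma pair_coord (ρ : S →+* P) (β : B →+* P)
    (hc : ∀ s : S0, ρ (algebraMap S0 S s) = β (algebraMap k B (algebraMap S0 k s)))
    {W : Submodule k B} {D : ℕ} (e : Basis (Fin D) k W) {ξ : P} (hξ : ξ ∈ pairSpan ρ β W) :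
    ∃ Δ : S0, Δ ≠ 0 ∧ ∃ G : Fin D → S,
      ρ (algebraMap S0 S Δ) * ξ = ∑ m, ρ (G m) * β (e m) := by
  induction hξ using AddSubmonoid.closure_induction with
  | mem ξ h =>
    obtain ⟨f, x, hx, rfl⟩ := h
    obtain ⟨d, hd, g, hg⟩ := clear_denoms (R := S0) fun m => e.repr ⟨x, hx⟩ m
    refine ⟨d, hd, fun m => f * algebraMap S0 S (g m), ?_⟩
    have h1 : x = ∑ m, algebraMap k B (e.repr ⟨x, hx⟩ m) * e m := by
      have := congrArg Subtype.val (e.sum_repr ⟨x, hx⟩)
      simp only [AddSubmonoidClass.coe_finsetSum, SetLike.val_smul, Algebra.smul_def] at this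
      exact this.symm
    generalize (e.repr ⟨x, hx⟩ : Fin D →₀ k) = c at h1 hg
    rw [h1, map_sum, mul_sum, mul_sum]
    refine sum_congr rfl fun m _ => ?_
    rw [map_mul, map_mul, hc, hc, hg, map_mul, map_mul]
    ring
  | zero => exact ⟨1, one_ne_zero, 0, by simp⟩
  | add x z _ _ hx hz =>
    obtain ⟨d, hd, G, hG⟩ := hx
    obtain ⟨d', hd', G', hG'⟩ := hz
    refine ⟨d * d', mul_ne_zero hd hd',
      fun m => algebraMap S0 S d' * G m + algebraMap S0 S d * G' m, ?_⟩
    simp only [map_mul, map_add, add_mul, sum_add_distrib, mul_assoc, ← mul_sum, ← hG, ← hG']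
    ring

lemma pair_coord_fin (ρ : S →+* P) (β : B →+* P)
    (hc : ∀ s : S0, ρ (algebraMap S0 S s) = β (algebraMap k B (algebraMap S0 k s)))
    {W : Submodule k B} {D : ℕ} (e : Basis (Fin D) k W) {ι : Type*} [Fintype ι] (ξ : ι → P)
    (hξ : ∀ i, ξ i ∈ pairSpan ρ β W) :
    ∃ Δ : S0, Δ ≠ 0 ∧ ∃ G : ι → Fin D → S,
      ∀ i, ρ (algebraMap S0 S Δ) * ξ i = ∑ m, ρ (G i m) * β (e m) := by
  classical
  choose d hd G hG using fun i => pair_coord ρ β hc e (hξ i)
  refine ⟨∏ i, d i, prod_ne_zero_iff.mpr fun i _ => hd i,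
    fun i m => algebraMap S0 S (∏ j ∈ univ.erase i, d j) * G i m, fun i => ?_⟩
  rw [← prod_erase_mul _ _ (mem_univ i)]
  simp only [map_mul, mul_assoc, ← mul_sum, hG]

lemma pow_mul_mem_pairSpan (ρ : S →+* P) (β : B →+* P) {A : Type*} [Fintype A] (y : A → B)
    (F : A → S) (d j : ℕ) {x : B} (hx : x ∈ boxSpan k y d) :
    (∑ a, ρ (F a) * β (y a)) ^ j * β x ∈ pairSpan ρ β (boxSpan k y (d + j)) := by
  induction j with
  | zero => exact AddSubmonoid.subset_closure ⟨1, x, hx, by simp⟩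
  | succ j ih =>
    rw [pow_succ', mul_assoc]
    generalize (∑ a, ρ (F a) * β (y a)) ^ j * β x = ξ at ih
    induction ih using AddSubmonoid.closure_induction with
    | mem ξ h =>
      obtain ⟨f, z, hz, rfl⟩ := h
      rw [sum_mul]
      exact sum_mem fun a _ => AddSubmonoid.subset_closure
        ⟨F a * f, y a * z, mul_mem_boxSpan k y _ a hz, by rw [map_mul, map_mul]; ring⟩
    | zero => simp
    | add x z _ _ hx hz => rw [mul_add]; exact add_mem hx hz

lemma pairSpan_mono (ρ : S →+* P) (β : B →+* P) {W W' : Submodule k B} (h : W ≤ W') :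
    pairSpan ρ β W ≤ pairSpan ρ β W' :=
  AddSubmonoid.closure_mono fun _ ⟨f, x, hx, e⟩ => ⟨f, x, h hx, e⟩

end pair

end Pool.Agent.Lib.MP_7f88e4_nt
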