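import Pool.Agent.Lib.MP_7f88e4_nt.Lift1

set_option autoImplicit false

namespace Pool.Agent.Lib.MP_7f88e4_nt

open Module Finset TensorProduct

/-- division by a non zero divisor loses only a fixed denominator -/
lemma div_lemma {S M T : Type*} [CommRing S] [IsDomain S] [Field M] [Algebra S M]
    [IsFractionRing S M] [CommRing T] [Algebra M T] {D : ℕ} (v : Fin D → T)
    (hv : LinearIndependent M v) (l : T) (hl : ∀ t, l * t = 0 → t = 0) :
    ∃ β : S, β ≠ 0 ∧ ∃ Θ : Fin D → Fin D → S, ∀ G G' : Fin D → S,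
      l * ∑ m, algebraMap M T (algebraMap S M (G' m)) * v m
        = ∑ m, algebraMap M T (algebraMap S M (G m)) * v m →
      ∀ m, β * G' m = ∑ m', Θ m m' * G m' := by
  let φ : (Fin D → M) →ₗ[M] T := (LinearMap.mulLeft M l) ∘ₗ Fintype.linearCombination M v
  have hφ : LinearMap.ker φ = ⊥ := by
    rw [LinearMap.ker_eq_bot']
    intro c hc
    have h1 := hl _ hc
    rw [Fintype.linearCombination_apply] at h1
    exact funext (Fintype.linearIndependent_iff.mp hv c h1)
  obtain ⟨ρ, hρ⟩ := φ.exists_leftInverse_of_injective hφ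
  obtain ⟨β, hβ, Θ, hΘ⟩ := clear_denoms (R := S) fun mm : Fin D × Fin D => ρ (v mm.2) mm.1
  refine ⟨β, hβ, fun m m' => Θ (m, m'), fun G G' h m => IsFractionRing.injective S M ?_⟩
  have h1 : φ (fun m => algebraMap S M (G' m)) = ∑ m, algebraMap S M (G m) • v m := by
    simp only [φ, LinearMap.comp_apply, Fintype.linearCombination_apply, LinearMap.mulLeft_apply,
      Algebra.smul_def]
    exact h
  have h2 := congrFun (LinearMap.congr_fun hρ fun m => algebraMap S M (G' m)) m
  rw [LinearMap.comp_apply, h1, map_sum, Finset.sum_apply, LinearMap.id_apply] at h2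
  rw [map_mul, ← h2, map_sum, mul_sum]
  refine sum_congr rfl fun m' _ => ?_
  rw [map_mul, hΘ, map_smul, Pi.smul_apply, smul_eq_mul]
  ring

variable {S0 k S M Ω : Type*} [CommRing S0] [IsDomain S0] [Field k] [CharZero k] [Algebra S0 k]
  [IsFractionRing S0 k] [CommRing S] [IsDomain S] [Algebra S0 S] [Field M] [Algebra S M]
  [IsFractionRing S M] [Algebra S0 M] [Algebra k M] [IsScalarTower S0 S M] [IsScalarTower S0 k M]
  [Field Ω] [Algebra k Ω]

/-- The lifting theorem: a linear relation between values lifts to a formal relation. -/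
theorem lifting (ev : S →+* Ω)
    (hev : ∀ s : S0, ev (algebraMap S0 S s) = algebraMap k Ω (algebraMap S0 k s))
    (hreg : ∀ w : M, IsIntegral k w → ∃ c : k, algebraMap k M c = w)
    {A : Type*} [Fintype A] (y : A → Ω) (F : A → S) (hrel : ∑ a, ev (F a) * y a = 0)
    (Deg : ℕ → Set S0) (I : ℕ → Ideal S)
    (hdiv : ∀ β : S, β ≠ 0 → ∃ c : ℕ, ∀ N f, β * f ∈ I N → f ∈ I (N - c))
    (hsiegel : ∀ κ : ℕ, ∃ J : ℕ, ∀ D D' : ℕ, 0 < D → D' ≤ 2 * D →
      ∀ G : Fin (J + 1) → Fin D → Fin D' → S, ∃ N0 : ℕ, ∀ N, N0 ≤ N →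
        ∃ p : Fin (J + 1) → Fin D → S0, p ≠ 0 ∧ (∀ j i, p j i ∈ Deg N) ∧
          ∀ m, ∑ j, ∑ i, algebraMap S0 S (p j i) * G j i m ∈ I (κ * N))
    (hliou : ∃ κ : ℕ, ∀ (D D' : ℕ) (b : Fin D → Ω) (e : Fin D' → Ω),
      (∀ i, b i ∈ Algebra.adjoin k (Set.range y)) → (∀ m, e m ∈ Algebra.adjoin k (Set.range y)) →
      ∀ c : ℕ, ∃ N0 : ℕ, ∀ N, N0 ≤ N → ∀ (p : Fin D → S0) (E : Fin D' → S),
        (∀ i, p i ∈ Deg N) → (∀ m, E m ∈ I (κ * N - c)) →
        ∑ i, ev (algebraMap S0 S (p i)) * b i = ∑ m, ev (E m) * e m →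
        ∑ i, ev (algebraMap S0 S (p i)) * b i = 0) :
    ∃ (D : ℕ) (e : Fin D → Ω) (Δ : S0) (z : A → Fin D → S0), Δ ≠ 0 ∧
      (∀ a, ev (algebraMap S0 S Δ) * y a = ∑ m, ev (algebraMap S0 S (z a m)) * e m) ∧
      ∀ m, ∑ a, F a * algebraMap S0 S (z a m) = 0 := by
  classical
  let B := Algebra.adjoin k (Set.range y)
  have hB : Algebra.FiniteType k B := by
    rw [← Subalgebra.fg_iff_finiteType]
    exact ⟨(Set.finite_range y).toFinset, by simp [B]⟩
  let y' : A → B := fun a => ⟨y a, Algebra.subset_adjoin ⟨a, rfl⟩⟩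
  let μ : S →+* M ⊗[k] B := (algebraMap M (M ⊗[k] B)).comp (algebraMap S M)
  let ι : B →+* M ⊗[k] B := Algebra.TensorProduct.includeRight.toRingHom
  have hμ : ∀ s : S0, μ (algebraMap S0 S s) = ι (algebraMap k B (algebraMap S0 k s)) := by
    intro s
    simp only [μ, ι, RingHom.comp_apply, ← IsScalarTower.algebraMap_apply S0 S M,
      IsScalarTower.algebraMap_apply S0 k M, AlgHom.toRingHom_eq_coe, RingHom.coe_coe,
      AlgHom.commutes, ← IsScalarTower.algebraMap_apply k M (M ⊗[k] B)]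
  have hind : ∀ {W : Submodule k B} {D : ℕ} (e : Basis (Fin D) k W),
      LinearIndependent M fun m => ι (e m) := fun e =>
    Module.Flat.linearIndependent_one_tmul (S := M)
      (e.linearIndependent.map' (Submodule.subtype _) (Submodule.ker_subtype _))
  set l : M ⊗[k] B := ∑ a, μ (F a) * ι (y' a) with hl
  by_cases hl0 : l = 0
  · let e := Module.finBasis k (boxSpan k y' 1)
    have hy : ∀ a, y' a ∈ boxSpan k y' 1 := fun a => by
      simpa using mul_mem_boxSpan k y' 0 a (one_mem_boxSpan k y' 0)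
    obtain ⟨d, hd, g, hg⟩ := clear_denoms (R := S0)
      fun am : A × Fin (finrank k (boxSpan k y' 1)) => e.repr ⟨y' am.1, hy am.1⟩ am.2
    have h1 : ∀ a, algebraMap k B (algebraMap S0 k d) * y' a
        = ∑ m, algebraMap k B (algebraMap S0 k (g (a, m))) * e m := by
      intro a
      have := congrArg Subtype.val (e.sum_repr ⟨y' a, hy a⟩)
      simp only [AddSubmonoidClass.coe_finsetSum, SetLike.val_smul, Algebra.smul_def] at this
      rw [← this, mul_sum]
      refine sum_congr rfl fun m _ => ?_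
      rw [hg, map_mul, mul_assoc]
    refine ⟨_, fun m => ((e m : B) : Ω), d, fun a m => g (a, m), hd, fun a => ?_, fun m => ?_⟩
    · have := congrArg Subtype.val (h1 a)
      simpa [hev] using this
    · have h2 : ∑ m, algebraMap S M (∑ a, F a * algebraMap S0 S (g (a, m))) • ι (e m) = 0 := by
        have h3 : μ (algebraMap S0 S d) * l = 0 := by rw [hl0, mul_zero]
        rw [← h3, hl, mul_sum]
        have hsm : ∀ (f : S) (t : M ⊗[k] B), algebraMap S M f • t = μ f * t :=
          fun f t => Algebra.smul_def (R := M) (A := M ⊗[k] B) (algebraMap S M f) t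
        simp only [hsm]
        simp only [map_sum, sum_mul]
        rw [sum_comm]
        refine sum_congr rfl fun a _ => ?_
        rw [mul_left_comm, hμ, ← map_mul, h1, map_sum, mul_sum]
        refine sum_congr rfl fun m _ => ?_
        rw [map_mul ι, ← hμ, map_mul, mul_assoc]
      exact IsFractionRing.injective S M
        ((Fintype.linearIndependent_iff.mp (hind e) _ h2 m).trans (map_zero _).symm)
  exfalso
  obtain ⟨κ, hκ⟩ := hliou
  obtain ⟨J, hJ⟩ := hsiegel κ
  obtain ⟨d, hd⟩ := exists_doubling (fun d => finrank k (boxSpan k y' d)) (Fintype.card A) J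
    (finrank_boxSpan_pos k y' 0) (finrank_boxSpan k y')
  let b := Module.finBasis k (boxSpan k y' d)
  let e := Module.finBasis k (boxSpan k y' (d + J))
  let ρ : S →+* (M ⊗[k] B) × Ω := μ.prod ev
  let β : B →+* (M ⊗[k] B) × Ω := ι.prod B.val.toRingHom
  have hc : ∀ s : S0, ρ (algebraMap S0 S s) = β (algebraMap k B (algebraMap S0 k s)) :=
    fun s => Prod.ext (hμ s) (hev s)
  obtain ⟨Δ, hΔ, G, hG⟩ := pair_coord_fin ρ β hc e
    (fun ji : Fin (J + 1) × Fin (finrank k (boxSpan k y' d)) =>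
      (∑ a, ρ (F a) * β (y' a)) ^ (ji.1 : ℕ) * β (b ji.2))
    fun ji => pairSpan_mono ρ β (boxSpan_mono k y' (by have := ji.1.2; omega))
      (pow_mul_mem_pairSpan ρ β y' F d ji.1 (b ji.2).2)
  have hlp : (∑ a, ρ (F a) * β (y' a)) = (l, 0) := by
    refine Prod.ext ?_ ?_
    · rw [Prod.fst_sum]; rfl
    · rw [Prod.snd_sum, ← hrel]; rfl
  have hG1 : ∀ (j : Fin (J + 1)) i, μ (algebraMap S0 S Δ) * (l ^ (j : ℕ) * ι (b i))
      = ∑ m, μ (G (j, i) m) * ι (e m) := fun j i => by
    have := congrArg Prod.fst (hG (j, i))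
    rw [hlp, Prod.fst_sum] at this
    exact this
  have hG2 : ∀ (j : Fin (J + 1)) i, ev (algebraMap S0 S Δ) * (0 ^ (j : ℕ) * ((b i : B) : Ω))
      = ∑ m, ev (G (j, i) m) * ((e m : B) : Ω) := fun j i => by
    have := congrArg Prod.snd (hG (j, i))
    rw [hlp, Prod.snd_sum] at this
    exact this
  have hnz : ∀ (j : ℕ) t, l ^ j * t = 0 → t = 0 := by
    intro j
    induction j with
    | zero => intro t h; simpa using h
    | succ j ih =>
      intro t h
      by_contra ht
      rw [pow_succ, mul_assoc] at h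
      exact tensor_mul_ne_zero hreg B hl0 ht (ih _ h)
  choose γ hγ Θ hΘ using fun j : Fin (J + 1) =>
    div_lemma (S := S) (fun m => ι (e m)) (hind e) (l ^ (j : ℕ)) (hnz j)
  choose c hc' using fun j => hdiv (γ j) (hγ j)
  choose N1 hN1 using fun j => hκ _ _ (fun i => ev (algebraMap S0 S Δ) * ((b i : B) : Ω))
    (fun m => ((e m : B) : Ω))
    (fun i => mul_mem (by rw [hev]; exact Subalgebra.algebraMap_mem _ _) (b i : B).2)
    (fun m => (e m : B).2) (c j)
  obtain ⟨N0, hN0⟩ := hJ _ _ (finrank_boxSpan_pos k y' d) hd fun j i m => G (j, i) m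
  obtain ⟨p, hp0, hp1, hp2⟩ := hN0 (N0 + univ.sup N1) (Nat.le_add_right _ _)
  obtain ⟨j0, hj0, hmin⟩ := exists_min_image (univ.filter fun j => p j ≠ 0) (fun j => j)
    (by
      obtain ⟨j, hj⟩ := Function.ne_iff.mp hp0
      exact ⟨j, mem_filter.mpr ⟨mem_univ _, hj⟩⟩)
  have hj1 : p j0 ≠ 0 := (mem_filter.mp hj0).2
  have hlow : ∀ j, j < j0 → ∀ i, p j i = 0 := fun j hj i => by
    by_contra h
    exact absurd (hmin j (mem_filter.mpr ⟨mem_univ _, fun e => h (congrFun e i)⟩)) (not_le.mpr hj)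
  let sh : Fin (J + 1) → Fin (J + 1) := fun j => ⟨j - j0, by have := j.2; omega⟩
  let E' : Fin (finrank k (boxSpan k y' (d + J))) → S :=
    fun m => ∑ j, ∑ i, algebraMap S0 S (p j i) * G (sh j, i) m
  have hE1 : l ^ (j0 : ℕ) * ∑ m, μ (E' m) * ι (e m)
      = ∑ m, μ (∑ j, ∑ i, algebraMap S0 S (p j i) * G (j, i) m) * ι (e m) := by
    simp only [E', map_sum, sum_mul, map_mul, mul_assoc]
    rw [sum_comm, sum_comm (s := univ) (t := (univ : Finset (Fin (J + 1)))), mul_sum]
    refine sum_congr rfl fun j _ => ?_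
    rw [sum_comm, sum_comm (s := univ) (t := (univ : Finset (Fin (finrank k (boxSpan k y' d))))),
      mul_sum]
    refine sum_congr rfl fun i _ => ?_
    rw [← mul_sum, ← mul_sum, ← hG1, ← hG1]
    rcases lt_or_ge j j0 with h | h
    · simp [hlow j h i]
    · have : (j : ℕ) = j0 + (sh j : ℕ) := by simp only [sh]; have := Fin.le_def.mp h; omega
      conv_rhs => rw [this, pow_add]
      ring
  have hE2 : ∑ i, ev (algebraMap S0 S (p j0 i)) * (ev (algebraMap S0 S Δ) * ((b i : B) : Ω))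
      = ∑ m, ev (E' m) * ((e m : B) : Ω) := by
    simp only [E', map_sum, sum_mul, map_mul, mul_assoc]
    rw [sum_comm, sum_eq_single j0]
    · rw [sum_comm]
      refine sum_congr rfl fun i _ => ?_
      rw [← mul_sum, ← hG2]
      simp [sh]
    · intro j _ hj
      rw [sum_comm]
      refine sum_eq_zero fun i _ => ?_
      rw [← mul_sum, ← hG2]
      rcases lt_or_gt_of_ne hj with h | h
      · simp [hlow j h i]
      · have : (sh j : ℕ) ≠ 0 := by simp only [sh]; have := Fin.lt_def.mp h; omega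
        simp [this]
    · simp
  have hE3 : ∀ m, E' m ∈ I (κ * (N0 + univ.sup N1) - c j0) := fun m => by
    refine hc' j0 _ _ ?_
    rw [hΘ j0 _ E' hE1 m]
    exact sum_mem fun m' _ => Ideal.mul_mem_left _ _ (hp2 m')
  have h0 := hN1 j0 _ ((le_sup (f := N1) (mem_univ j0)).trans (Nat.le_add_left _ _)) (p j0) E'
    (hp1 j0) hE3 hE2
  have h1 : ∑ i, algebraMap S0 k (p j0 i * Δ) • b i = 0 := by
    apply Subtype.ext
    apply Subtype.ext
    simp only [hev] at h0
    simp only [AddSubmonoidClass.coe_finsetSum, SetLike.val_smul, Algebra.smul_def, map_mul,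
      mul_assoc]
    exact h0
  refine hj1 (funext fun i => ?_)
  have h2 := Fintype.linearIndependent_iff.mp b.linearIndependent _ h1 i
  exact (mul_eq_zero.mp (IsFractionRing.injective S0 k (h2.trans (map_zero _).symm))).resolve_right
    hΔ

end Pool.Agent.Lib.MP_7f88e4_nt
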