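import Pool.Agent.Lib.MP_7f88e4_nt.Eval2
import Pool.Agent.Lib.MP_7f88e4_nt.Lift2

set_option autoImplicit false

namespace Pool.Agent.Lib.MP_7f88e4_nt

open PowerSeries Finset Filter Topology

namespace Lev

variable {r : ℕ} (L : Lev r)

/-- integers of controlled size -/
def ints : Subring L.Om where
  carrier := {ξ | ∃ C, L.IntBd ξ C}
  mul_mem' := fun ⟨_, a⟩ ⟨_, b⟩ => ⟨_, a.mul b⟩
  one_mem' := ⟨1, by simpa using intBd_int (L := L) 1⟩
  add_mem' := fun ⟨_, a⟩ ⟨_, b⟩ => ⟨_, (a.mono (le_max_left _ _)).add (b.mono (le_max_right _ _))⟩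
  zero_mem' := ⟨1, by simpa using intBd_int (L := L) 0⟩
  neg_mem' := fun ⟨_, a⟩ => ⟨_, by simpa using (intBd_int (L := L) (-1)).mul a⟩

/-- rational numbers of controlled height -/
def hts : Subfield L.Om where
  carrier := {ξ | ∃ η, η ≠ 0 ∧ η ∈ L.ints ∧ η * ξ ∈ L.ints}
  mul_mem' := fun ⟨η, a, b, c⟩ ⟨η', a', b', c'⟩ => ⟨η * η', mul_ne_zero a a', mul_mem b b',
    by rw [mul_mul_mul_comm]; exact mul_mem c c'⟩
  one_mem' := ⟨1, one_ne_zero, one_mem _, by simp⟩
  add_mem' := fun {x y} ⟨η, a, b, c⟩ ⟨η', a', b', c'⟩ => ⟨η * η', mul_ne_zero a a', mul_mem b b',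
    by
      rw [show η * η' * (x + y) = η' * (η * x) + η * (η' * y) by ring]
      exact add_mem (mul_mem b' c) (mul_mem b c')⟩
  zero_mem' := ⟨1, one_ne_zero, one_mem _, by simp⟩
  neg_mem' := fun ⟨η, a, b, c⟩ => ⟨η, a, b, by rw [mul_neg]; exact neg_mem c⟩
  inv_mem' := fun x ⟨η, a, b, c⟩ => by
    by_cases hx : x = 0
    · exact ⟨1, one_ne_zero, one_mem _, by simp [hx]⟩
    · exact ⟨η * x, mul_ne_zero a hx, c, by rwa [mul_inv_cancel_right₀ hx]⟩

variable {L}

lemma ints_le_hts {ξ : L.Om} (h : ξ ∈ L.ints) : ξ ∈ L.hts :=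
  ⟨1, one_ne_zero, one_mem _, by rwa [one_mul]⟩

lemma hts_common {ι : Type*} [Fintype ι] (f : ι → L.Om) (h : ∀ i, f i ∈ L.hts) :
    ∃ η, η ≠ 0 ∧ ∃ C, ∀ i, L.IntBd (η * f i) C := by
  classical
  choose η h1 h2 h3 using h
  have : ∀ i, (∏ j, η j) * f i ∈ L.ints := fun i => by
    rw [← prod_erase_mul _ _ (mem_univ i), mul_assoc]
    exact mul_mem (prod_mem fun j _ => h2 j) (h3 i)
  choose C hC using this
  exact ⟨_, prod_ne_zero_iff.mpr fun i _ => h1 i, univ.sup C,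
    fun i => (hC i).mono (le_sup (mem_univ i))⟩

lemma ev_coe_mem (p : Polynomial (Rr r)) : L.ev (p : (Rr r)⟦X⟧) ∈ L.hts := by
  induction p using Polynomial.induction_on' with
  | add p q hp hq => rw [Polynomial.coe_add, map_add]; exact add_mem hp hq
  | monomial n a =>
    induction a using MvPolynomial.induction_on' with
    | add p q hp hq => rw [map_add, Polynomial.coe_add, map_add]; exact add_mem hp hq
    | monomial ν c =>
      let b : Box2 r (n + univ.sup ν + 1) := (⟨n, by omega⟩,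
        fun i => ⟨ν i, by have := le_sup (f := ν) (mem_univ i); omega⟩)
      have e : Polynomial.monomial n (MvPolynomial.monomial ν c) = c • mon b := by
        have : expo b.2 = ν := by ext; rfl
        simp [mon, this, Polynomial.smul_monomial, MvPolynomial.smul_monomial, b]
      rw [e, ← alg_coe, map_zsmul, map_zsmul, alg_coe]
      have : L.ev (mon b : (Rr r)⟦X⟧) ∈ L.hts := ⟨_, den_ne_zero _, ⟨_, intBd_den _⟩, _, intBd_mon b⟩
      exact zsmul_mem this c

lemma liouville {θ : Fin r → ℝ} {τ : ℝ} {c0 : ℕ} : ∃ κ : ℕ, ∀ (D D' : ℕ) (b : Fin D → L.Om)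
    (e : Fin D' → L.Om), (∀ i, b i ∈ L.hts) → (∀ m, e m ∈ L.hts) →
    ∀ c : ℕ, ∃ N0 : ℕ, ∀ N, N0 ≤ N → ∀ (p : Fin D → Polynomial (Rr r))
      (E : Fin D' → nice θ τ c0), (∀ i, p i ∈ Deg r N) → (∀ m, E m ∈ ordI θ τ c0 (κ * N - c)) →
      ∑ i, L.ev (p i : (Rr r)⟦X⟧) * b i = ∑ m, L.ev (E m) * e m →
      ∑ i, L.ev (p i : (Rr r)⟦X⟧) * b i = 0 := by
  set K := 4 * (L.C0 * (r + 1)) + 1 with hK
  refine ⟨K + 1, fun D D' b e hb he c => ?_⟩
  obtain ⟨η, hη, C, hC⟩ := hts_common (Sum.elim b e) (by rintro (i | m); exacts [hb i, he m])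
  refine ⟨C + c + 6, fun N hN p E hp hE h => ?_⟩
  have h1 : L.IntBd (∑ i, (L.den N * L.ev (p i : (Rr r)⟦X⟧)) * (η * b i)) (K * N + 2 + C + 1) :=
    intBd_sum _ fun i _ => (intBd_deg (hp i)).mul (hC (Sum.inl i))
  have h2 : ∑ i, (L.den N * L.ev (p i : (Rr r)⟦X⟧)) * (η * b i)
      = L.den N * η * ∑ i, L.ev (p i : (Rr r)⟦X⟧) * b i := by
    rw [mul_sum]; exact sum_congr rfl fun _ _ => by ring
  choose a ha _ using fun m => hC (Sum.inr m)
  rw [h2] at h1
  have h3 := eq_zero_of_small h1 (f := fun κ => (3 : ℚ_[2]) ^ (L.C0 * (r + 1) * N * L.l κ) *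
      ∑ m, L.evk κ (E m) * a m κ) (by
      rw [h, mul_assoc, mul_sum]
      have : ∑ m, η * (L.ev (E m) * e m) = Germ.coeRingHom _
          (∑ m, fun κ => L.evk κ (E m) * a m κ) := by
        rw [map_sum]
        refine sum_congr rfl fun m _ => ?_
        rw [mul_left_comm]
        exact congrArg (_ * ·) (ha m)
      rw [this]
      refine congrArg Germ.ofFun (funext fun κ => ?_)
      simp)
    (Eventually.of_forall fun κ => by
      have a1 : ‖(3 : ℚ_[2])‖ = 1 := by simpa [nv] using nv_three_zpow 1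
      rw [norm_mul, norm_pow, a1, one_pow, one_mul]
      refine lt_of_le_of_lt (IsUltrametricDist.norm_sum_le_of_forall_le_of_nonneg
        (C := 2 * (1 / 2) ^ (((K + 1) * N - c) * L.l κ)) (by positivity) fun m _ => ?_) ?_
      · rw [norm_mul]
        exact (mul_le_of_le_one_right (norm_nonneg _) (Padic.norm_int_le_one _)).trans
          (L.norm_evk_of_dvd κ (mem_ordI.mp (hE m)))
      · have a2 : (K * N + 2 + C + 1) * L.l κ + 2 ≤ ((K + 1) * N - c) * L.l κ := by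
          have a3 : K * N + 2 + C + 1 + 2 ≤ (K + 1) * N - c := by rw [add_mul K 1 N]; omega
          have := L.l_pos κ
          nlinarith
        have a4 := pow_le_pow_of_le_one (show (0 : ℝ) ≤ 1 / 2 by norm_num) (by norm_num) a2
        have a5 : (0 : ℝ) < (1 / 2) ^ ((K * N + 2 + C + 1) * L.l κ) := by positivity
        rw [pow_add] at a4
        linarith)
  exact (mul_eq_zero.mp h3).resolve_left (mul_ne_zero (den_ne_zero N) hη)

variable (L) in
/-- logarithmic size of a monomial at a level -/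
noncomputable def sz (κ : ℕ) (n : ℤ) (ν : Fin r → ℤ) : ℝ :=
  n * (L.l κ * Real.log 2 + L.t0 κ * Real.log 3) + (∑ i, ν i * L.lam i κ : ℤ) * Real.log 3

lemma ev_injective (hind : ∀ n ν, (n, ν) ≠ 0 → Tendsto (fun κ => |L.sz κ n ν|) L.U atTop)
    (p : Polynomial (Rr r)) (hp : L.ev (p : (Rr r)⟦X⟧) = 0) : p = 0 := by
  classical
  by_contra hp0
  let T : Finset (Σ _ : ℕ, Fin r →₀ ℕ) := p.support.sigma fun n => (p.coeff n).support
  let s : ℕ → (Σ _ : ℕ, Fin r →₀ ℕ) → ℝ := fun κ t => L.sz κ t.1 fun i => t.2 i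
  let c : (Σ _ : ℕ, Fin r →₀ ℕ) → ℤ := fun t => (p.coeff t.1).coeff t.2
  have hT : T.Nonempty := by
    obtain ⟨n, hn⟩ := Polynomial.support_nonempty.mpr hp0
    obtain ⟨ν, hν⟩ := MvPolynomial.support_nonempty.mpr (Polynomial.mem_support_iff.mp hn)
    exact ⟨⟨n, ν⟩, mem_sigma.mpr ⟨hn, hν⟩⟩
  have h1 : ∀ κ, ((p.eval₂ (L.psiQ κ) (L.zQ κ) : ℚ) : ℝ) = ∑ t ∈ T, c t * Real.exp (s κ t) := by
    intro κ
    rw [Polynomial.eval₂_eq_sum, Polynomial.sum_def, sum_sigma, Rat.cast_sum]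
    refine sum_congr rfl fun n _ => ?_
    conv_lhs => rw [(p.coeff n).as_sum, map_sum, sum_mul, Rat.cast_sum]
    refine sum_congr rfl fun ν _ => ?_
    have e3 : ∀ a : ℤ, Real.exp (a * Real.log 3) = 3 ^ a := fun a => by
      rw [mul_comm, ← Real.rpow_def_of_pos (by norm_num), Real.rpow_intCast]
    have e2 : ∀ a : ℕ, Real.exp (a * Real.log 2) = 2 ^ a := fun a => by
      rw [Real.exp_nat_mul, Real.exp_log (by norm_num)]
    rw [psiQ_monomial]
    simp only [s, c, sz, zQ, Real.exp_add, Int.cast_natCast, Real.exp_nat_mul, e3, e2]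
    push_cast
    ring
  obtain ⟨t, ht, h2⟩ := (Ultrafilter.eventually_exists_mem_iff (f := L.U) T.finite_toSet
    (P := fun t κ => ∀ u ∈ T, s κ u ≤ s κ t)).mp (Eventually.of_forall fun κ => by
      obtain ⟨t, ht, h⟩ := exists_max_image T (s κ) hT
      exact ⟨t, ht, h⟩)
  set A : ℝ := ∑ u ∈ T.erase t, |(c u : ℝ)| with hA
  have h3 : ∀ u ∈ T.erase t, ∀ᶠ κ in L.U, A ≤ |s κ t - s κ u| := fun u hu => by
    have := hind ((t.1 : ℤ) - u.1) (fun i => (t.2 i : ℤ) - u.2 i) fun e => by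
      obtain ⟨e1, e2⟩ := Prod.mk.inj e
      refine (mem_erase.mp hu).1 (Sigma.ext (by omega) (heq_of_eq (Finsupp.ext fun i => ?_)))
      have := congrFun e2 i
      simp only [Pi.zero_apply] at this
      omega
    refine (this.eventually (eventually_ge_atTop A)).mono fun κ h => h.trans (le_of_eq ?_)
    congr 1
    simp only [s, sz, sub_mul, sum_sub_distrib]
    push_cast
    ring
  obtain ⟨κ, k1, k2, k3⟩ := (h2.and (((eventually_all_finset _).mpr h3).and
    (Germ.coe_eq.mp hp))).exists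
  have h4 : ∑ t ∈ T, c t * Real.exp (s κ t) = 0 := by
    rw [← h1]
    change L.evk κ _ = 0 at k3
    rw [evk_coe] at k3
    exact_mod_cast k3
  rw [← add_sum_erase _ _ ht, add_eq_zero_iff_eq_neg] at h4
  have h5 : (1 : ℝ) ≤ |(c t : ℝ)| := by
    exact_mod_cast Int.one_le_abs (MvPolynomial.mem_support_iff.mp (mem_sigma.mp ht).2)
  have h6 : |c t * Real.exp (s κ t)| ≤ A * Real.exp (s κ t - A) := by
    rw [h4, abs_neg, hA, sum_mul]
    refine (abs_sum_le_sum_abs _ _).trans (sum_le_sum fun u hu => ?_)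
    rw [abs_mul, abs_of_pos (Real.exp_pos _)]
    have := k2 u hu
    rw [abs_of_nonneg (sub_nonneg.mpr (k1 u (mem_of_mem_erase hu)))] at this
    gcongr
    linarith
  rw [abs_mul, abs_of_pos (Real.exp_pos _), Real.exp_sub, ← mul_div_assoc,
    le_div_iff₀ (Real.exp_pos _)] at h6
  have h7 := Real.add_one_le_exp A
  have h8 := Real.exp_pos (s κ t)
  have h9 := Real.exp_pos A
  nlinarith [mul_le_mul_of_nonneg_right h5 (mul_pos h8 h9).le]

end Lev

end Pool.Agent.Lib.MP_7f88e4_nt
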