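import Mathlib

set_option autoImplicit false

namespace Pool.Agent.Lib.MP_7f88e4_nt

open PowerSeries Finset

variable {R : Type*} [CommRing R] [IsDomain R]

omit [IsDomain R] in
lemma exists_X_pow_mul {f : R⟦X⟧} (hf : f ≠ 0) :
    ∃ (e : ℕ) (g : R⟦X⟧), f = X ^ e * g ∧ constantCoeff g ≠ 0 :=
  ⟨_, divXPowOrder f, X_pow_order_mul_divXPowOrder.symm,
    fun h => hf (constantCoeff_divXPowOrder_eq_zero_iff.mp h)⟩

lemma dvd_of_dvd_X_pow_mul {b u : R⟦X⟧} (hb : constantCoeff b ≠ 0) (n : ℕ) (h : b ∣ X ^ n * u) :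
    b ∣ u := by
  induction n with
  | zero => simpa using h
  | succ n ih =>
    rw [pow_succ', mul_assoc] at h
    exact ih ((X_prime.left_dvd_or_dvd_right_of_dvd_mul h).resolve_left
      fun e => hb (X_dvd_iff.mp e))

lemma le_of_X_pow_dvd {u : R⟦X⟧} (hu : constantCoeff u ≠ 0) {a b : ℕ}
    (h : (X : R⟦X⟧) ^ a ∣ X ^ b * u) : a ≤ b := by
  by_contra hc
  have h1 := (pow_dvd_pow X (show b + 1 ≤ a by omega)).trans h
  rw [pow_succ, mul_dvd_mul_iff_left (pow_ne_zero _ X_ne_zero)] at h1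
  exact hu (X_dvd_iff.mp h1)

lemma ai_sub {S : Type*} [CommRing S] {d b a : S} (h : ∀ j, b ^ j ∣ d * a ^ j) (c : S) (j : ℕ) :
    b ^ j ∣ d * (a + b * c) ^ j := by
  rw [add_pow, mul_sum]
  refine dvd_sum fun i hi => ?_
  have hi' : i ≤ j := Nat.lt_succ_iff.mp (mem_range.mp hi)
  obtain ⟨q, hq⟩ := h i
  refine ⟨q * c ^ (j - i) * (j.choose i : S), ?_⟩
  conv_rhs => rw [← Nat.add_sub_cancel' hi', pow_add]
  rw [Nat.add_sub_cancel' hi', ← mul_assoc, ← mul_assoc, hq]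
  ring

variable [IsNoetherianRing R] [IsIntegrallyClosed R]

lemma dvd_of_ai {d b a : R} (hd : d ≠ 0) (hb : b ≠ 0) (h : ∀ j, b ^ j ∣ d * a ^ j) : b ∣ a := by
  have hb' : algebraMap R (FractionRing R) b ≠ 0 := by simpa using hb
  have h1 : IsAlmostIntegral R (algebraMap R (FractionRing R) a / algebraMap R _ b) := by
    refine ⟨d, mem_nonZeroDivisors_of_ne_zero hd, fun n => ?_⟩
    obtain ⟨q, hq⟩ := h n
    refine ⟨q, ?_⟩
    rw [Algebra.smul_def, div_pow, ← mul_div_assoc, ← map_pow, ← map_mul, hq, map_mul, map_pow,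
      mul_div_cancel_left₀ _ (pow_ne_zero _ hb')]
  obtain ⟨q, hq⟩ := IsIntegrallyClosed.isIntegral_iff.mp h1.isIntegral
  refine ⟨q, IsFractionRing.injective R (FractionRing R) ?_⟩
  rw [map_mul, hq, mul_div_cancel₀ _ hb']

lemma series_dvd_aux {d b a : R⟦X⟧} (hd : constantCoeff d ≠ 0) (hb : constantCoeff b ≠ 0)
    (h : ∀ j, b ^ j ∣ d * a ^ j) : b ∣ a := by
  have step : ∀ a : {a : R⟦X⟧ // ∀ j, b ^ j ∣ d * a ^ j}, ∃ c : R,
      ∃ a' : {a : R⟦X⟧ // ∀ j, b ^ j ∣ d * a ^ j}, a.1 = b * C c + X * a'.1 := by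
    rintro ⟨a, h⟩
    obtain ⟨c, hc⟩ := dvd_of_ai hd hb (a := constantCoeff a) fun j => by
      simpa using map_dvd constantCoeff (h j)
    obtain ⟨a', ha'⟩ : X ∣ a + b * (-C c) := X_dvd_iff.mpr (by simp [hc])
    refine ⟨c, ⟨a', fun j => dvd_of_dvd_X_pow_mul (by simpa using fun e => absurd e hb) j ?_⟩,
      by linear_combination ha'⟩
    have := ai_sub h (-C c) j
    rwa [ha', mul_pow, mul_left_comm] at this
  choose c nx hnx using step
  let s : ℕ → {a : R⟦X⟧ // ∀ j, b ^ j ∣ d * a ^ j} := fun n => nx^[n] ⟨a, h⟩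
  have h1 : ∀ n, a = b * ∑ i ∈ range n, C (c (s i)) * X ^ i + X ^ n * (s n).1 := by
    intro n
    induction n with
    | zero => simp [s]
    | succ n ih =>
      have e : s (n + 1) = nx (s n) := Function.iterate_succ_apply' _ _ _
      rw [sum_range_succ, e]
      linear_combination ih + X ^ n * hnx (s n)
  refine ⟨PowerSeries.mk fun n => c (s n), ?_⟩
  ext n
  have h2 : X ^ (n + 1) ∣ (PowerSeries.mk fun n => c (s n)) - ∑ i ∈ range (n + 1), C (c (s i)) * X ^ i := by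
    rw [X_pow_dvd_iff]
    intro m hm
    simp [coeff_X_pow, hm]
  have h3 : X ^ (n + 1) ∣ a - b * PowerSeries.mk fun n => c (s n) := by
    obtain ⟨q, hq⟩ := h2
    exact ⟨(s (n + 1)).1 - b * q, by linear_combination h1 (n + 1) - b * hq⟩
  have := X_pow_dvd_iff.mp h3 n (by omega)
  rwa [map_sub, sub_eq_zero] at this

/-- almost integral quotients of power series over a normal ring are power series -/
lemma series_dvd {d b a : R⟦X⟧} (hd : d ≠ 0) (hb : b ≠ 0) (h : ∀ j, b ^ j ∣ d * a ^ j) :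
    b ∣ a := by
  obtain ⟨e, b1, rfl, hb1⟩ := exists_X_pow_mul hb
  obtain ⟨e', d1, rfl, hd1⟩ := exists_X_pow_mul hd
  obtain ⟨w, rfl⟩ := series_dvd_aux hd1 hb1 (a := a) fun j =>
    dvd_of_dvd_X_pow_mul (by simpa using fun e => absurd e hb1) e'
      ((pow_dvd_pow_of_dvd (dvd_mul_left _ _) j).trans (by rw [← mul_assoc]; exact h j))
  rw [mul_comm b1]
  refine mul_dvd_mul_right ?_ _
  by_cases hw : w = 0
  · simp [hw]
  obtain ⟨e'', w1, rfl, hw1⟩ := exists_X_pow_mul hw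
  refine (pow_dvd_pow X ?_).mul_right _
  have h1 := (pow_dvd_pow_of_dvd (dvd_mul_right _ _) (e' + 1)).trans (h (e' + 1))
  have h2 : X ^ e' * d1 * (b1 * (X ^ e'' * w1)) ^ (e' + 1)
      = X ^ (e' + e'' * (e' + 1)) * (d1 * (b1 * w1) ^ (e' + 1)) := by ring
  rw [h2, ← pow_mul] at h1
  have := le_of_X_pow_dvd (by simp [hd1, hb1, hw1]) h1
  by_contra hc
  nlinarith

end Pool.Agent.Lib.MP_7f88e4_nt
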