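import Pool.Agent.Lib.MP_7f88e4_nt.ExFinal

set_option autoImplicit false

open Pool.Agent.Lib.MP_7f88e4_nt

/-- The exceptional set of the `3x+k` map has counting exponent at most `0.9404`. -/
theorem Pool.Agent.Lib.MP_7f88e4_nt.exceptional_set :
    ∃ C : ℝ, ∀ k : ℤ, Odd k → ∀ X : ℝ, 1 ≤ X →
      (Set.ncard {n : ℤ | |(n : ℝ)| ≤ X ∧ ∀ j : ℕ, (j : ℝ) ≤ 4 / 3 * Real.logb 2 |(n : ℝ)| + 4 →
        |(n : ℝ)| ^ (0.999999 : ℝ) ≤ |(((T k)^[j] n : ℤ) : ℝ)|} : ℝ) ≤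
        C * |(k : ℝ)| * X ^ (0.9404 : ℝ) := by
  obtain ⟨C, -, h⟩ := descent_count
  exact ⟨C, h⟩
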