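import Pool.Agent.Lib.MP_7f88e4_nt.Norm

set_option autoImplicit false

namespace Pool.Agent.Lib.MP_7f88e4_nt

open Finset

/-- real weight of a lattice vector -/
def wt (θ : ℝ) (ν : ℤ × ℤ) : ℝ := ν.1 * θ + ν.2

/-- integer linear form -/
def lin (a b : ℕ) (ν : ℤ × ℤ) : ℤ := ν.1 * a + ν.2 * b

/-- the character attached to two blocks -/
def chi (l0 l1 h0 h1 : ℕ) (ν : ℤ × ℤ) : ℚ := 2 ^ lin l0 l1 ν * 3 ^ (-lin h0 h1 ν)

/-- the lattice path of a binary sequence -/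
def pth (ε : ℕ → Bool) : ℕ → ℤ × ℤ
  | 0 => 0
  | j + 1 => pth ε j + if ε j then (0, 1) else (1, 0)

lemma wt_add (θ : ℝ) (a b : ℤ × ℤ) : wt θ (a + b) = wt θ a + wt θ b := by
  simp only [wt, Prod.fst_add, Prod.snd_add]; push_cast; ring

lemma wt_sub (θ : ℝ) (a b : ℤ × ℤ) : wt θ (a - b) = wt θ a - wt θ b := by
  simp only [wt, Prod.fst_sub, Prod.snd_sub]; push_cast; ring

lemma lin_add (x y : ℕ) (a b : ℤ × ℤ) : lin x y (a + b) = lin x y a + lin x y b := by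
  simp only [lin, Prod.fst_add, Prod.snd_add]; ring

lemma chi_add (l0 l1 h0 h1 : ℕ) (a b : ℤ × ℤ) :
    chi l0 l1 h0 h1 (a + b) = chi l0 l1 h0 h1 a * chi l0 l1 h0 h1 b := by
  simp only [chi, lin_add, neg_add]
  rw [zpow_add₀ (by norm_num), zpow_add₀ (by norm_num)]; ring

lemma chi_ne_zero (l0 l1 h0 h1 : ℕ) (a : ℤ × ℤ) : chi l0 l1 h0 h1 a ≠ 0 := by
  unfold chi; positivity

lemma chi_zero (l0 l1 h0 h1 : ℕ) : chi l0 l1 h0 h1 0 = 1 := by simp [chi, lin]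

lemma chi_sub (l0 l1 h0 h1 : ℕ) (a b : ℤ × ℤ) :
    chi l0 l1 h0 h1 (a - b) = chi l0 l1 h0 h1 a * chi l0 l1 h0 h1 (-b) := by
  rw [← chi_add, sub_eq_add_neg]

lemma nv_chi (l0 l1 h0 h1 : ℕ) (a : ℤ × ℤ) :
    nv (chi l0 l1 h0 h1 a) = (2 : ℝ) ^ (-(lin l0 l1 a : ℝ)) := by
  rw [chi, nv_mul, nv_two_zpow, nv_three_zpow, mul_one]

lemma chi_int (l0 l1 h0 h1 : ℕ) (ν : ℤ × ℤ) (e f : ℕ) (he : 0 ≤ lin l0 l1 ν + e)
    (hf : lin h0 h1 ν ≤ f) {x : ℝ}
    (hx : (lin l0 l1 ν : ℝ) + e + f - lin h0 h1 ν ≤ x) :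
    ∃ a : ℤ, chi l0 l1 h0 h1 ν * (2 ^ e * 3 ^ f) = a ∧ |(a : ℝ)| ≤ 2 ^ (8 / 5 * x) := by
  obtain ⟨u, hu⟩ := Int.eq_ofNat_of_zero_le he
  obtain ⟨v, hv⟩ := Int.eq_ofNat_of_zero_le (sub_nonneg.mpr hf)
  refine ⟨2 ^ u * 3 ^ v, ?_, ?_⟩
  · unfold chi
    have e1 : (2 : ℚ) ^ lin l0 l1 ν * 2 ^ e = 2 ^ u := by
      rw [← zpow_natCast, ← zpow_add₀ (by norm_num), hu, zpow_natCast]
    have e2 : (3 : ℚ) ^ (-lin h0 h1 ν) * 3 ^ f = 3 ^ v := by
      rw [← zpow_natCast, ← zpow_add₀ (by norm_num), neg_add_eq_sub, hv, zpow_natCast]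
    push_cast
    rw [← e1, ← e2]; ring
  · have h3 : (3 : ℝ) ≤ 2 ^ (8 / 5 : ℝ) := by
      have : (3 : ℝ) ^ (5 : ℕ) ≤ (2 ^ (8 / 5 : ℝ)) ^ (5 : ℕ) := by
        rw [← Real.rpow_natCast (2 ^ (8 / 5 : ℝ)), ← Real.rpow_mul (by norm_num)]
        norm_num
      exact le_of_pow_le_pow_left₀ (by norm_num) (by positivity) this
    have h4 : ((u + v : ℕ) : ℝ) ≤ x := by
      have a1 : (lin l0 l1 ν : ℝ) + e = u := by exact_mod_cast hu
      have a2 : (f : ℝ) - lin h0 h1 ν = v := by exact_mod_cast hv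
      push_cast; linarith
    push_cast
    rw [abs_of_pos (by positivity)]
    calc (2 : ℝ) ^ u * 3 ^ v ≤ 3 ^ u * 3 ^ v := by gcongr; norm_num
      _ = 3 ^ (u + v) := (pow_add _ _ _).symm
      _ ≤ (2 ^ (8 / 5 : ℝ)) ^ (u + v) := by gcongr
      _ = 2 ^ (8 / 5 * ((u + v : ℕ) : ℝ)) := by
        rw [Real.rpow_mul (by norm_num), Real.rpow_natCast]
      _ ≤ _ := Real.rpow_le_rpow_of_exponent_le (by norm_num) (by linarith)

lemma sum_int {α : Type*} (s : Finset α) (x : α → ℚ) (c : ℚ) {B : ℝ}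
    (h : ∀ i ∈ s, ∃ a : ℤ, x i * c = a ∧ |(a : ℝ)| ≤ B) :
    ∃ a : ℤ, (∑ i ∈ s, x i) * c = a ∧ |(a : ℝ)| ≤ s.card * B := by
  choose! a h1 h2 using h
  refine ⟨∑ i ∈ s, a i, ?_, ?_⟩
  · rw [sum_mul]; push_cast; exact sum_congr rfl h1
  · push_cast
    refine (abs_sum_le_sum_abs _ _).trans ?_
    simpa using sum_le_card_nsmul s (fun i => |(a i : ℝ)|) B h2

lemma pth_diff (ε : ℕ → Bool) {i j : ℕ} (h : i ≤ j) :
    ∃ s t : ℕ, pth ε j = pth ε i + ((s : ℤ), (t : ℤ)) ∧ i + s + t = j := by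
  induction j, h using Nat.le_induction with
  | base => exact ⟨0, 0, by simp, by simp⟩
  | succ j _ ih =>
    obtain ⟨s, t, h1, h2⟩ := ih
    rw [pth, h1]
    cases ε j
    · exact ⟨s + 1, t, by simp [add_assoc], by omega⟩
    · exact ⟨s, t + 1, by simp [add_assoc], by omega⟩

lemma wt_pth_ge {θ : ℝ} (ε : ℕ → Bool) {i j : ℕ} (h : i ≤ j) :
    wt θ (pth ε i) + min θ 1 * ((j : ℝ) - i) ≤ wt θ (pth ε j) := by
  obtain ⟨s, t, h1, h2⟩ := pth_diff ε h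
  rw [h1, wt_add, ← h2]
  simp only [wt]
  push_cast
  have := min_le_left θ 1
  have := min_le_right θ 1
  have : (0 : ℝ) ≤ s := by positivity
  have : (0 : ℝ) ≤ t := by positivity
  nlinarith

lemma wt_pth_succ_le {θ : ℝ} (hθ : 0 < θ) (ε : ℕ → Bool) (i : ℕ) :
    wt θ (pth ε (i + 1)) ≤ wt θ (pth ε i) + (θ + 1) := by
  rw [pth, wt_add]
  cases ε i <;> simp [wt] <;> linarith

lemma wt_pth_zero (θ : ℝ) (ε : ℕ → Bool) : wt θ (pth ε 0) = 0 := by simp [pth, wt]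

lemma wt_pth_strictMono {θ : ℝ} (hθ : 0 < θ) (ε : ℕ → Bool) :
    StrictMono fun i => wt θ (pth ε i) := by
  intro i j h
  have h1 := wt_pth_ge (θ := θ) ε h.le
  have h2 : (0 : ℝ) < (j : ℝ) - i := by rw [sub_pos]; exact_mod_cast h
  have h3 : 0 < min θ 1 := lt_min hθ one_pos
  have := mul_pos h3 h2
  simp only
  linarith

lemma pth_fst_abs {θ : ℝ} (hθ : 0 < θ) (ε : ℕ → Bool) (i j : ℕ) :
    |(((pth ε j).1 - (pth ε i).1 : ℤ) : ℝ)| * θ ≤ |wt θ (pth ε j) - wt θ (pth ε i)| := by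
  wlog h : i ≤ j generalizing i j
  · have := this j i (not_le.mp h).le
    rw [abs_sub_comm (wt θ (pth ε j))]
    push_cast at this ⊢
    rwa [abs_sub_comm]
  obtain ⟨s, t, h1, _⟩ := pth_diff ε h
  rw [h1, wt_add]
  simp only [wt, Prod.fst_add, add_sub_cancel_left]
  push_cast
  have : (0 : ℝ) ≤ s := by positivity
  have : (0 : ℝ) ≤ t := by positivity
  rw [abs_of_nonneg (by positivity), abs_of_nonneg (by positivity)]
  linarith

lemma pth_fst_nonneg (ε : ℕ → Bool) (i : ℕ) : 0 ≤ (pth ε i).1 := by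
  obtain ⟨s, t, h1, _⟩ := pth_diff ε (Nat.zero_le i)
  rw [h1]; simp [pth]

lemma pth_window (ε : ℕ → Bool) {j j' K : ℕ} (h : ∀ e < K, ε (j + e) = ε (j' + e)) :
    ∀ e ≤ K, pth ε (j + e) - pth ε j = pth ε (j' + e) - pth ε j' := by
  intro e he
  induction e with
  | zero => simp
  | succ e ih =>
    rw [← add_assoc, ← add_assoc, pth, pth, h e (by omega), add_sub_right_comm,
      add_sub_right_comm, ih (by omega)]

lemma u_eq {l0 l h0 h1 : ℕ} {ε : ℕ → Bool} {z : ℕ → ℤ} {D : ℤ}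
    (hz0 : ∀ j, ε j = false → 2 ^ l0 * z (j + 1) = 3 ^ h0 * z j)
    (hz1 : ∀ j, ε j = true → 2 ^ l * z (j + 1) = 3 ^ h1 * z j + D) (j : ℕ) :
    chi l0 l h0 h1 (pth ε j) * z j = z 0 + (D : ℚ) / 3 ^ h1 *
      ∑ i ∈ range j, if ε i then chi l0 l h0 h1 (pth ε i) else 0 := by
  induction j with
  | zero => simp [pth, chi_zero]
  | succ j ih =>
    rw [sum_range_succ, mul_add, ← add_assoc, ← ih, pth, chi_add]
    cases hj : ε j
    · have h : (2 : ℚ) ^ l0 * z (j + 1) = 3 ^ h0 * z j := by exact_mod_cast hz0 j hj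
      have e : chi l0 l h0 h1 (1, 0) = 2 ^ l0 / 3 ^ h0 := by simp [chi, lin, div_eq_mul_inv]
      simp only [Bool.false_eq_true, if_false, e, mul_zero, add_zero]
      field_simp
      linear_combination chi l0 l h0 h1 (pth ε j) * h
    · have h : (2 : ℚ) ^ l * z (j + 1) = 3 ^ h1 * z j + D := by exact_mod_cast hz1 j hj
      have e : chi l0 l h0 h1 (0, 1) = 2 ^ l / 3 ^ h1 := by simp [chi, lin, div_eq_mul_inv]
      simp only [if_true, e]
      field_simp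
      linear_combination chi l0 l h0 h1 (pth ε j) * h

lemma periodic_of_window {ε : ℕ → Bool} {K j0 : ℕ}
    (h : ∀ j j', j0 ≤ j → j0 ≤ j' → (∀ e < K, ε (j + e) = ε (j' + e)) →
      ε (j + K) = ε (j' + K)) :
    ∃ i j, i < j ∧ ∀ t, ε (i + t) = ε (j + t) := by
  have key : ∀ j j', j0 ≤ j → j0 ≤ j' → (∀ e < K, ε (j + e) = ε (j' + e)) →
      ∀ t, ε (j + t) = ε (j' + t) := by
    intro j j' h1 h2 h3 t
    induction t using Nat.strong_induction_on with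
    | _ t ih =>
      rcases lt_or_ge t K with h4 | h4
      · exact h3 t h4
      · obtain ⟨d, rfl⟩ := Nat.exists_eq_add_of_le' h4
        rw [← add_assoc, ← add_assoc]
        refine h (j + d) (j' + d) (by omega) (by omega) fun e he => ?_
        rw [add_assoc, add_assoc]
        exact ih _ (by omega)
  obtain ⟨a, b, hab, he⟩ := Finite.exists_ne_map_eq_of_infinite
    (fun n : ℕ => fun e : Fin K => ε (j0 + n + e))
  have he' : ∀ e < K, ε (j0 + a + e) = ε (j0 + b + e) := fun e h => congrFun he ⟨e, h⟩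
  rcases lt_or_gt_of_ne hab with h1 | h1
  · exact ⟨j0 + a, j0 + b, by omega, key _ _ (by omega) (by omega) he'⟩
  · exact ⟨j0 + b, j0 + a, by omega, key _ _ (by omega) (by omega) fun e h => (he' e h).symm⟩

end Pool.Agent.Lib.MP_7f88e4_nt
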