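import Pool.Agent.Lib.MP_7f88e4_nt.Gauss
import Pool.Agent.Lib.MP_7f88e4_nt.Arch

set_option autoImplicit false

namespace Pool.Agent.Lib.MP_7f88e4_nt

open PowerSeries Finset Filter Topology

variable {r : ℕ}

/-- specialisation of the coefficient ring at a point of a torus -/
noncomputable def psi (θ : Fin r → ℝ) (ζ : Fin r → ℂ) : Rr r →+* ℂ :=
  MvPolynomial.eval₂Hom (Int.castRingHom ℂ) fun i => (Real.exp (θ i) : ℝ) * ζ i

lemma alg_coe {R : Type*} [CommRing R] (p : Polynomial R) :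
    algebraMap (Polynomial R) R⟦X⟧ p = (p : R⟦X⟧) := by
  rw [algebraMap_apply']; simp

/-- cone condition on the exponents -/
def Cone (c0 : ℕ) (f : (Rr r)⟦X⟧) (c1 : ℕ) : Prop :=
  ∀ n i, (coeff n f).degreeOf i ≤ c0 * n + c1

lemma Cone.add {c0 c1 c2 : ℕ} {f g : (Rr r)⟦X⟧} (hf : Cone c0 f c1) (hg : Cone c0 g c2) :
    Cone c0 (f + g) (c1 + c2) := fun n i => by
  rw [map_add]
  refine (MvPolynomial.degreeOf_add_le _ _ _).trans (max_le ?_ ?_)
  · have := hf n i; omega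
  · have := hg n i; omega

lemma Cone.mul {c0 c1 c2 : ℕ} {f g : (Rr r)⟦X⟧} (hf : Cone c0 f c1) (hg : Cone c0 g c2) :
    Cone c0 (f * g) (c1 + c2) := fun n i => by
  rw [coeff_mul]
  refine (MvPolynomial.degreeOf_sum_le _ _ _).trans (Finset.sup_le fun p hp => ?_)
  refine (MvPolynomial.degreeOf_mul_le _ _ _).trans ?_
  have := hf p.1 i
  have := hg p.2 i
  rw [← mem_antidiagonal.mp hp, mul_add]
  omega

lemma cone_coe (c0 : ℕ) (p : Polynomial (Rr r)) : ∃ c1, Cone c0 (p : (Rr r)⟦X⟧) c1 := by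
  refine ⟨p.support.sup fun n => (p.coeff n).totalDegree, fun n i => ?_⟩
  rw [Polynomial.coeff_coe]
  by_cases h : p.coeff n = 0
  · simp [h]
  · exact (MvPolynomial.degreeOf_le_totalDegree _ _).trans
      ((le_sup (f := fun n => (p.coeff n).totalDegree) (Polynomial.mem_support_iff.mpr h)).trans
        (Nat.le_add_left _ _))

/-- series with controlled exponents, archimedean and 3-adic growth -/
noncomputable def nice (θ : Fin r → ℝ) (τ : ℝ) (c0 : ℕ) :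
    Subalgebra (Polynomial (Rr r)) (Rr r)⟦X⟧ where
  carrier := {f | (∃ c1, Cone c0 f c1) ∧
    (∀ ζ : Fin r → ℂ, (∀ i, ‖ζ i‖ = 1) → ∀ z : ℂ, ‖z‖ < Real.exp τ → Conv (psi θ ζ) z f) ∧
    ∀ τ', τ < τ' → ∃ M, Bd θ τ' f M}
  mul_mem' := fun ⟨⟨_, a1⟩, a2, a3⟩ ⟨⟨_, b1⟩, b2, b3⟩ => ⟨⟨_, a1.mul b1⟩,
    fun ζ h z hz => (a2 ζ h z hz).mul (b2 ζ h z hz),
    fun τ' h => ⟨_, (a3 τ' h).choose_spec.mul (b3 τ' h).choose_spec⟩⟩
  add_mem' := fun ⟨⟨_, a1⟩, a2, a3⟩ ⟨⟨_, b1⟩, b2, b3⟩ => ⟨⟨_, a1.add b1⟩,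
    fun ζ h z hz => (a2 ζ h z hz).add (b2 ζ h z hz),
    fun τ' h => ⟨_, ((a3 τ' h).choose_spec.mono (le_max_left _ _)).add
      ((b3 τ' h).choose_spec.mono (le_max_right _ _))⟩⟩
  algebraMap_mem' p := by
    rw [alg_coe]
    exact ⟨cone_coe c0 p, fun _ _ _ _ => conv_coe p, fun _ _ => bd_coe p⟩

lemma root_bound {u : ℂ} {g : ℕ} {a : ℕ → ℂ} {L : ℝ} (hL : 0 ≤ L) (ha : ∀ i < g, ‖a i‖ ≤ L)
    (h : u ^ g = ∑ i ∈ range g, a i * u ^ i) : ‖u‖ ≤ 1 + g * L := by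
  by_contra hc
  have h0 : 0 ≤ g * L := by positivity
  have h1 : 1 ≤ ‖u‖ := by linarith
  have h2 : ‖u‖ ^ g * ‖u‖ ≤ g * L * ‖u‖ ^ g := by
    rw [← norm_pow, ← norm_mul]
    conv_lhs => rw [h, sum_mul]
    refine (norm_sum_le _ _).trans ((sum_le_card_nsmul _ _ (L * ‖u ^ g‖) fun i hi => ?_).trans
      (le_of_eq (by simp [mul_assoc])))
    have hi' := mem_range.mp hi
    rw [mul_assoc, ← pow_succ, norm_mul, norm_pow, norm_pow]
    exact mul_le_mul (ha i hi') (pow_le_pow_right₀ h1 hi') (by positivity) hL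
  have h3 : 0 < ‖u‖ ^ g := by positivity
  nlinarith

lemma psi_bound (θ : Fin r → ℝ) (q : Rr r) :
    ∃ L, ∀ ζ : Fin r → ℂ, (∀ i, ‖ζ i‖ = 1) → ‖psi θ ζ q‖ ≤ L := by
  induction q using MvPolynomial.induction_on with
  | C a => exact ⟨‖(a : ℂ)‖, fun ζ _ => by simp [psi]⟩
  | add p q hp hq =>
    obtain ⟨L, hL⟩ := hp
    obtain ⟨L', hL'⟩ := hq
    exact ⟨L + L', fun ζ h => by
      rw [map_add]; exact (norm_add_le _ _).trans (add_le_add (hL ζ h) (hL' ζ h))⟩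
  | mul_X p i hp =>
    obtain ⟨L, hL⟩ := hp
    refine ⟨L * Real.exp (θ i), fun ζ h => ?_⟩
    rw [map_mul, norm_mul]
    have : ‖psi θ ζ (MvPolynomial.X i)‖ = Real.exp (θ i) := by simp [psi, h, Complex.norm_exp]
    rw [this]
    exact mul_le_mul_of_nonneg_right (hL ζ h) (Real.exp_pos _).le

lemma eval_bound (θ : Fin r → ℝ) (ρ : ℝ) (p : Polynomial (Rr r)) :
    ∃ L, ∀ ζ : Fin r → ℂ, (∀ i, ‖ζ i‖ = 1) → ∀ z : ℂ, ‖z‖ < ρ → ‖p.eval₂ (psi θ ζ) z‖ ≤ L := by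
  induction p using Polynomial.induction_on' with
  | add p q hp hq =>
    obtain ⟨L, hL⟩ := hp
    obtain ⟨L', hL'⟩ := hq
    exact ⟨L + L', fun ζ h z hz => by
      rw [Polynomial.eval₂_add]
      exact (norm_add_le _ _).trans (add_le_add (hL ζ h z hz) (hL' ζ h z hz))⟩
  | monomial n a =>
    obtain ⟨L, hL⟩ := psi_bound θ a
    refine ⟨L * ρ ^ n, fun ζ h z hz => ?_⟩
    rw [Polynomial.eval₂_monomial, norm_mul, norm_pow]
    exact mul_le_mul (hL ζ h) (pow_le_pow_left₀ (norm_nonneg _) hz.le n) (by positivity)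
      ((norm_nonneg _).trans (hL ζ h))

lemma eq_of_monic {C K : Type*} [CommRing C] [CommRing K] (f : C →+* K) {P : Polynomial C}
    (hP : P.Monic) {u : K} (h : P.eval₂ f u = 0) :
    u ^ P.natDegree = ∑ i ∈ range P.natDegree, -f (P.coeff i) * u ^ i := by
  rw [hP.as_sum] at h
  simp only [Polynomial.eval₂_add, Polynomial.eval₂_X_pow, Polynomial.eval₂_finsetSum,
    Polynomial.eval₂_mul, Polynomial.eval₂_C] at h
  simp only [neg_mul, sum_neg_distrib]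
  exact eq_neg_of_add_eq_zero_left h

lemma torus_average (θ : Fin r → ℝ) {ι : Type*} (t : Finset ι) (w : ι → Rr r) (c : ι → ℝ)
    {b : Rr r} (hb : b ≠ 0) {M : ℝ}
    (h : ∀ ζ : Fin r → ℂ, (∀ i, ‖ζ i‖ = 1) → psi θ ζ b ≠ 0 →
      ∑ n ∈ t, (‖psi θ ζ (w n)‖ * c n) ^ 2 ≤ M) :
    ∑ n ∈ t, ∑ ν ∈ (w n).support,
      (|(((w n).coeff ν : ℤ) : ℝ)| * (Real.exp (∑ i, θ i * ν i) * c n)) ^ 2 ≤ M := by
  classical
  let s : Finset (Fin r →₀ ℕ) := b.support ∪ t.biUnion fun n => (w n).support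
  let L : ℕ := s.sup (fun ν => univ.sup ν) + 1
  let β : (Fin r →₀ ℕ) → ℕ := fun ν => ∑ i, ν i * L ^ (i : ℕ)
  have hβ : Set.InjOn β s := by
    intro ν hν ν' hν' e
    have hlt : ∀ μ ∈ s, ∀ i, μ i < L := fun μ hμ i => Nat.lt_succ_of_le
      ((le_sup (f := μ) (mem_univ i)).trans (le_sup (f := fun ν : Fin r →₀ ℕ => univ.sup ν) hμ))
    have : (fun i => (⟨ν i, hlt ν hν i⟩ : Fin L)) = fun i => ⟨ν' i, hlt ν' hν' i⟩ :=
      finFunctionFinEquiv.injective (Fin.ext e)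
    ext i
    exact congrArg Fin.val (congrFun this i)
  have hpsi : ∀ (x : ℂ) (q : Rr r), psi θ (fun i => x ^ L ^ (i : ℕ)) q =
      ∑ ν ∈ q.support, (q.coeff ν * (Real.exp (∑ i, θ i * ν i) : ℝ)) * x ^ β ν := by
    intro x q
    rw [psi, MvPolynomial.coe_eval₂Hom, MvPolynomial.eval₂_eq']
    refine sum_congr rfl fun ν _ => ?_
    simp only [β, mul_pow, prod_mul_distrib, ← pow_mul, prod_pow_eq_pow_sum, Real.exp_sum,
      eq_intCast, Complex.ofReal_prod, mul_assoc, mul_comm (θ _), Real.exp_nat_mul,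
      Complex.ofReal_pow, mul_comm (L ^ _)]
  obtain ⟨m, hm, ξ, hξ, hpar⟩ := parseval s β hβ
  let Q : Polynomial ℂ := ∑ ν ∈ b.support,
    Polynomial.monomial (β ν) (b.coeff ν * (Real.exp (∑ i, θ i * ν i) : ℝ))
  have hQ : Q ≠ 0 := by
    obtain ⟨ν, hν⟩ := MvPolynomial.support_nonempty.mpr hb
    intro e
    have := congrArg (fun q => Polynomial.coeff q (β ν)) e
    simp only [Q, Polynomial.finsetSum_coeff, Polynomial.coeff_monomial,
      Polynomial.coeff_zero] at this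
    rw [sum_eq_single ν] at this
    · simpa using And.intro this (MvPolynomial.mem_support_iff.mp hν)
    · intro μ hμ hne
      exact if_neg fun e => hne (hβ (mem_union_left _ hμ) (mem_union_left _ hν) e)
    · exact fun h => absurd hν h
  have hinf : (Metric.sphere (0 : ℂ) 1).Infinite :=
    (isPreconnected_sphere (by simp) 0 1).infinite_of_nontrivial
      ⟨1, by simp, -1, by simp, by norm_num⟩
  obtain ⟨x, hx1, hx2⟩ := hinf.exists_notMem_finset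
    ((range m ×ˢ Q.roots.toFinset).image fun p => p.2 / ξ ^ p.1)
  have hx : ‖x‖ = 1 := by simpa using hx1
  have hξ0 : ξ ≠ 0 := by intro e; simp [e] at hξ
  have h1 : ∀ j ∈ range m, ∑ n ∈ t, (‖psi θ (fun i => (x * ξ ^ j) ^ L ^ (i : ℕ)) (w n)‖ * c n) ^ 2
      ≤ M := fun j hj => by
    refine h _ (fun i => by simp [hx, hξ]) fun e => hx2 (mem_image.mpr ⟨(j, x * ξ ^ j),
      mem_product.mpr ⟨hj, ?_⟩, mul_div_cancel_right₀ _ (pow_ne_zero _ hξ0)⟩)
    rw [Multiset.mem_toFinset, Polynomial.mem_roots hQ, Polynomial.IsRoot.def, ← e, hpsi]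
    simp [Q, Polynomial.eval_finsetSum]
  have h2 := sum_le_card_nsmul _ _ _ h1
  rw [sum_comm, card_range, nsmul_eq_mul] at h2
  refine le_of_mul_le_mul_left (le_trans (le_of_eq ?_) h2) (by exact_mod_cast hm : (0 : ℝ) < m)
  rw [mul_sum]
  refine sum_congr rfl fun n hn => ?_
  have h3 := hpar (w n).support (fun ν hν => mem_union_right _ (mem_biUnion.mpr ⟨n, hn, hν⟩))
    fun ν => ((w n).coeff ν * (Real.exp (∑ i, θ i * ν i) : ℝ)) * x ^ β ν
  simp only [hpsi]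
  simp only [mul_pow, ← sum_mul, ← mul_assoc] at h3 ⊢
  rw [h3]
  congr 2
  refine sum_congr rfl fun ν _ => ?_
  simp [hx, mul_pow, Complex.norm_exp, -Complex.ofReal_sum]

end Pool.Agent.Lib.MP_7f88e4_nt
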