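import Pool.Agent.Lib.MP_7f88e4_nt.Regular

set_option autoImplicit false

namespace Pool.Agent.Lib.MP_7f88e4_nt

open PowerSeries Finset Filter Topology

variable {r : ℕ} {θ : Fin r → ℝ} {τ : ℝ} {c0 : ℕ}

lemma conv_map {R : Type*} [CommRing R] (ψ : R →+* ℂ) (z : ℂ) (f : R⟦X⟧) :
    Conv (RingHom.id ℂ) z (map ψ f) ↔ Conv ψ z f := by simp [Conv]

lemma evS_map {R : Type*} [CommRing R] (ψ : R →+* ℂ) (z : ℂ) (f : R⟦X⟧) :
    evS (RingHom.id ℂ) z (map ψ f) = evS ψ z f := by simp [evS]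

lemma poly_of_nice {A B d : nice θ τ c0} (hB : B ≠ 0) (hd : d ≠ 0)
    (hai : ∀ j, ∃ q : nice θ τ c0, d * A ^ j = B ^ j * q) (P : Polynomial (Polynomial (Rr r)))
    (hP : P.Monic)
    (hroot : ((P.map (algebraMap _ (nice θ τ c0))).scaleRoots B).eval A = 0) :
    ∃ p : Polynomial (Rr r), (A : (Rr r)⟦X⟧) = B * p := by
  classical
  have hB' : (B : (Rr r)⟦X⟧) ≠ 0 := fun e => hB (Subtype.ext e)
  have hd' : (d : (Rr r)⟦X⟧) ≠ 0 := fun e => hd (Subtype.ext e)
  obtain ⟨w, hw⟩ := series_dvd hd' hB' (a := A) fun j => by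
    obtain ⟨q, hq⟩ := hai j
    exact ⟨q, by exact_mod_cast congrArg Subtype.val hq⟩
  have hdw : ∀ j, (d : (Rr r)⟦X⟧) * w ^ j ∈ nice θ τ c0 := fun j => by
    obtain ⟨q, hq⟩ := hai j
    have h1 : (d : (Rr r)⟦X⟧) * A ^ j = B ^ j * q := by exact_mod_cast congrArg Subtype.val hq
    rw [hw, mul_pow, mul_left_comm] at h1
    rw [mul_left_cancel₀ (pow_ne_zero _ hB') h1]
    exact q.2
  set P' := P.map (algebraMap _ (nice θ τ c0)) with hP'
  have hP'm : P'.Monic := hP.map _
  let i : nice θ τ c0 →+* (Rr r)⟦X⟧ := (nice θ τ c0).val.toRingHom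
  have hcoef : ∀ n, i (P'.coeff n) = (P.coeff n : (Rr r)⟦X⟧) := fun n => by
    rw [hP', Polynomial.coeff_map, ← alg_coe]; rfl
  have hroot' : P'.eval₂ i w = 0 := by
    have h1 := Polynomial.scaleRoots_eval₂_mul (p := P') i w B
    have h2 : i B * w = i A := hw.symm
    rw [h2, Polynomial.eval₂_at_apply, hroot, map_zero] at h1
    exact (mul_eq_zero.mp h1.symm).resolve_left (pow_ne_zero _ hB')
  set g := P'.natDegree
  choose M1 hM1 using fun n => bd_coe (θ := θ) (τ := τ) (P.coeff n)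
  have hM1' : 0 ≤ ∑ n ∈ range g, M1 n := sum_nonneg fun n _ => (hM1 n).nonneg
  set M3 := 1 + ∑ n ∈ range g, M1 n with hM3
  have h3 : ∀ τ', τ < τ' → Bd θ τ' w M3 := fun τ' h => by
    have e1 := eq_of_monic (C := nice θ τ c0) (K := (Rr r)⟦X⟧) i hP'm hroot'
    simp only [hcoef] at e1
    refine bd_of_integral (g := g) hd' (by linarith) (fun n => -(P.coeff n : (Rr r)⟦X⟧))
      (fun n hn => ?_) e1 fun n _ => (hdw n).2.2 τ' h
    refine (((hM1 n).mono_tau h.le).neg).mono ?_
    have := single_le_sum (f := M1) (fun n _ => (hM1 n).nonneg) (mem_range.mpr hn)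
    linarith
  have h4 : Bd θ τ w M3 := fun n ν => by
    have hc : Continuous fun τ' => M3 * mw θ τ' n ν := by unfold mw; fun_prop
    exact ge_of_tendsto ((hc.tendsto τ).mono_left (nhdsWithin_le_nhds (s := Set.Ioi τ)))
      (mem_of_superset self_mem_nhdsWithin fun τ' h => h3 τ' h n ν)
  choose L1 hL1 using fun n => eval_bound θ (Real.exp τ) (P.coeff n)
  set L := ∑ n ∈ range g, |L1 n| with hL
  obtain ⟨e, he⟩ : ∃ e, coeff e (B : (Rr r)⟦X⟧) ≠ 0 := by
    by_contra hc
    push Not at hc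
    exact hB' (PowerSeries.ext fun n => by simp [hc n])
  have h5 : ∀ n0, ∑ n ∈ range n0, ∑ ν ∈ (coeff n w).support,
      (|(((coeff n w).coeff ν : ℤ) : ℝ)| * (Real.exp (∑ i, θ i * ν i) * Real.exp τ ^ n)) ^ 2
        ≤ (1 + g * L + 1) ^ 2 := fun n0 => by
    refine torus_average θ _ (fun n => coeff n w) _ he fun ζ hζ hb => ?_
    have := arch (a := map (psi θ ζ) A) (b := map (psi θ ζ) B) (w := map (psi θ ζ) w)
      (M := 1 + g * L) (Real.exp_pos τ) (by rw [hw, map_mul])
      (fun e' => hb (by simpa using congrArg (coeff e) e'))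
      (fun z hz => (conv_map _ _ _).mpr (A.2.2.1 ζ hζ z hz))
      (fun z hz => (conv_map _ _ _).mpr (B.2.2.1 ζ hζ z hz))
      (fun z hz hb' => by
        rw [evS_map] at hb' ⊢
        rw [evS_map]
        let ev := evHom (S := nice θ τ c0) (psi θ ζ) z i fun s => s.2.2.1 ζ hζ z hz
        have h6 := root_transfer (C := nice θ τ c0) (S := (Rr r)⟦X⟧) i Subtype.val_injective ev P' (a := A) (b := B) hw hroot' hb'
        refine root_bound (sum_nonneg fun _ _ => abs_nonneg _) (fun n hn => ?_)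
          (eq_of_monic (C := nice θ τ c0) ev hP'm h6)
        change ‖-evS (psi θ ζ) z (i _)‖ ≤ _
        rw [hcoef, evS_coe, norm_neg]
        exact (hL1 n ζ hζ z hz).trans ((le_abs_self _).trans
          (single_le_sum (f := fun n => |L1 n|) (fun _ _ => abs_nonneg _) (mem_range.mpr hn)))) n0
    simpa using this
  have h6 : ∀ n, coeff n w ≠ 0 → 1 ≤ M3 ^ 2 * ∑ ν ∈ (coeff n w).support,
      (|(((coeff n w).coeff ν : ℤ) : ℝ)| * (Real.exp (∑ i, θ i * ν i) * Real.exp τ ^ n)) ^ 2 := by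
    intro n hn
    obtain ⟨ν, hν⟩ := MvPolynomial.support_nonempty.mpr hn
    refine le_trans ?_ (mul_le_mul_of_nonneg_left (single_le_sum (fun _ _ => by positivity) hν)
      (by positivity))
    rw [← mul_pow]
    refine one_le_pow₀ ((one_le_abs_mul_n3 (MvPolynomial.mem_support_iff.mp hν)).trans ?_)
    rw [mul_left_comm]
    refine mul_le_mul_of_nonneg_left ((h4 n ν).trans (le_of_eq ?_)) (abs_nonneg _)
    rw [mw, Real.exp_add, mul_comm τ, Real.exp_nat_mul, mul_comm (_ ^ n)]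
  have h7 : {n | coeff n w ≠ 0}.Finite := by
    by_contra hinf
    obtain ⟨t, ht1, ht2⟩ := Set.Infinite.exists_subset_card_eq hinf
      (⌊M3 ^ 2 * (1 + g * L + 1) ^ 2⌋₊ + 1)
    have a1 := card_nsmul_le_sum t _ 1 fun n hn => h6 n (ht1 hn)
    rw [← mul_sum, ht2, nsmul_eq_mul, mul_one] at a1
    have a2 := (sum_le_sum_of_subset_of_nonneg (s := t) (fun n hn => mem_range.mpr
      (Nat.lt_succ_of_le (le_sup (f := id) hn))) fun _ _ _ => by positivity).trans (h5 _)
    have a3 := Nat.lt_floor_add_one (M3 ^ 2 * (1 + g * L + 1) ^ 2)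
    have a4 := a1.trans (mul_le_mul_of_nonneg_left a2 (by positivity))
    push_cast at a4
    linarith
  obtain ⟨N, hN⟩ := h7.bddAbove
  refine ⟨trunc (N + 1) w, ?_⟩
  rw [hw]
  congr 1
  ext1 n
  rw [Polynomial.coeff_coe, coeff_trunc]
  split_ifs with h
  · rfl
  · by_contra hn
    have := hN hn
    omega

/-- The fraction field of the ring of nice series is a regular extension. -/
theorem nice_regular {k M : Type*} [Field k] [Algebra (Polynomial (Rr r)) k]
    [IsFractionRing (Polynomial (Rr r)) k] [Field M] [Algebra (nice θ τ c0) M]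
    [IsFractionRing (nice θ τ c0) M] [Algebra (Polynomial (Rr r)) M] [Algebra k M]
    [IsScalarTower (Polynomial (Rr r)) (nice θ τ c0) M] [IsScalarTower (Polynomial (Rr r)) k M]
    (w : M) (hw : IsIntegral k w) : ∃ c : k, algebraMap k M c = w := by
  have h1 : IsAlgebraic (Polynomial (Rr r)) w :=
    (IsFractionRing.isAlgebraic_iff (Polynomial (Rr r)) k M).mpr hw.isAlgebraic
  obtain ⟨a, ha, h2⟩ := h1.exists_integral_multiple
  obtain ⟨A, B, hB, hAB⟩ := IsFractionRing.div_surjective (nice θ τ c0) (a • w)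
  have hB0 : B ≠ 0 := nonZeroDivisors.ne_zero hB
  have hB1 : algebraMap (nice θ τ c0) M B ≠ 0 :=
    (map_ne_zero_iff _ (IsFractionRing.injective _ M)).mpr hB0
  have hA : algebraMap (nice θ τ c0) M A = algebraMap _ M B * (a • w) := by
    rw [← hAB, mul_div_cancel₀ _ hB1]
  obtain ⟨d, hd, hd'⟩ := (h2.tower_top (A := nice θ τ c0)).isAlmostIntegral
  obtain ⟨P, hP, hP'⟩ := h2
  obtain ⟨p, hp⟩ := poly_of_nice (A := A) hB0 (nonZeroDivisors.ne_zero hd) (fun j => by
      obtain ⟨q, hq⟩ := hd' j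
      refine ⟨q, IsFractionRing.injective _ M ?_⟩
      rw [map_mul, map_mul, map_pow, map_pow, hq, hA, Algebra.smul_def d]
      ring) P hP (by
      apply IsFractionRing.injective _ M
      rw [← Polynomial.eval₂_at_apply, hA, Polynomial.scaleRoots_eval₂_eq_zero, map_zero]
      rw [Polynomial.eval₂_map, ← IsScalarTower.algebraMap_eq, hP'])
  have h3 : A = B * algebraMap _ _ p := Subtype.ext (by rw [hp, ← alg_coe]; rfl)
  rw [h3, map_mul, ← IsScalarTower.algebraMap_apply] at hA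
  have h4 := mul_left_cancel₀ hB1 hA
  have ha' : algebraMap (Polynomial (Rr r)) k a ≠ 0 := by simpa using ha
  refine ⟨algebraMap _ k p / algebraMap _ k a, ?_⟩
  rw [map_div₀, ← IsScalarTower.algebraMap_apply, h4, Algebra.smul_def,
    IsScalarTower.algebraMap_apply _ k M a, mul_div_cancel_left₀ _ (by simpa using ha')]

end Pool.Agent.Lib.MP_7f88e4_nt
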