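import Pool.Agent.Lib.MP_7f88e4_nt.Steps

set_option autoImplicit false

namespace Pool.Agent.Lib.MP_7f88e4_nt

open Finset

/-- index set of the weights in a strip -/
abbrev Idx (θ : ℝ) (S len : ℕ) : Type := {φ // φ ∈ Gam θ S} × Fin len

/-- a representative of a fractional part -/
noncomputable def rep {θ : ℝ} {S : ℕ} (φ : {φ // φ ∈ Gam θ S}) : ℕ := (mem_Gam.mp φ.2).choose

lemma rep_le {θ : ℝ} {S : ℕ} (φ : {φ // φ ∈ Gam θ S}) : rep φ ≤ S := (mem_Gam.mp φ.2).choose_spec.1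

lemma rep_fract {θ : ℝ} {S : ℕ} (φ : {φ // φ ∈ Gam θ S}) : Int.fract (rep φ * θ) = φ :=
  (mem_Gam.mp φ.2).choose_spec.2

/-- a lattice vector of prescribed weight -/
noncomputable def ivec {θ : ℝ} {S len : ℕ} (lo : ℕ) (k : Idx θ S len) : ℤ × ℤ :=
  (rep k.1, lo + (k.2 : ℕ) - ⌊rep k.1 * θ⌋)

lemma wt_ivec {θ : ℝ} {S len : ℕ} (lo : ℕ) (k : Idx θ S len) :
    wt θ (ivec lo k) = k.1 + lo + (k.2 : ℕ) := by
  have h1 := rep_fract k.1
  have h2 := Int.fract_add_floor (rep k.1 * θ)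
  simp only [wt, ivec]
  push_cast
  linarith

lemma Gam_bounds {θ : ℝ} {S : ℕ} (φ : {φ // φ ∈ Gam θ S}) : 0 ≤ (φ : ℝ) ∧ (φ : ℝ) < 1 := by
  rw [← rep_fract φ]
  exact ⟨Int.fract_nonneg _, Int.fract_lt_one _⟩

/-- The pointwise rigidity statement, with an explicit error parameter. -/
lemma core (θ δ : ℝ) (hθ : 0 < θ) (hδ0 : 0 ≤ δ) (hδ1 : δ ≤ 1) (C : ℕ) :
    ∃ K1 K2 B : ℝ, 0 ≤ K1 ∧ 0 ≤ K2 ∧ 0 < B ∧ ∀ (l0 l h0 h1 T : ℕ),
      (∀ ν : ℤ × ℤ, |(ν.1 : ℝ)| ≤ K1 → |wt θ ν| ≤ K2 →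
        |(lin l0 l ν : ℝ) - wt θ ν * l| ≤ T ∧ |(lin h0 h1 ν : ℝ) - δ * wt θ ν * l| ≤ T) →
      B * (T + 1) ≤ l → ∀ (ε : ℕ → Bool) (z : ℕ → ℤ) (D : ℤ),
      (∀ j, ε j = false → 2 ^ l0 * z (j + 1) = 3 ^ h0 * z j) →
      (∀ j, ε j = true → 2 ^ l * z (j + 1) = 3 ^ h1 * z j + D) →
      |(z 0 : ℝ)| ≤ 2 ^ (C * l : ℝ) → |(D : ℝ)| ≤ 2 ^ (C * l : ℝ) → D ≠ 0 →
      ∃ i j, i < j ∧ ∀ t, ε (i + t) = ε (j + t) := by
  classical
  set N : ℕ := 10 * (C + 2) with hN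
  set R : ℕ := 8 * (C + 2) with hR
  set M : ℕ := 18 * (C + 2) with hM
  set S0 : ℕ := ⌈(M : ℝ) / θ⌉₊ with hS0
  obtain ⟨S, hS⟩ := exists_slow_growth θ S0
  set I0 : ℕ := ⌈(M : ℝ) / min θ 1⌉₊ + 1 with hI0
  set K1 : ℕ := ⌈2 * S + S0 + (2 * M + (θ + 1)) / θ⌉₊ with hK1
  have hK1' : 2 * S + S0 + (2 * M + (θ + 1)) / θ ≤ K1 := Nat.le_ceil _
  obtain ⟨γ, hγ0, hγ1, hγ⟩ := exists_gap θ K1
  set c1 := Fintype.card (Idx θ S N) with hc1
  set c2 := Fintype.card (Idx θ (S + S0) R) with hc2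
  have hc12 : c2 < c1 := by
    simp only [hc1, hc2, Fintype.card_prod, Fintype.card_coe, Fintype.card_fin, hN, hR]
    nlinarith
  have hc2pos : 0 < c2 := by
    simp only [hc2, Fintype.card_prod, Fintype.card_coe, Fintype.card_fin, hR]
    have := card_Gam_pos θ (S + S0)
    positivity
  have hCM : (C : ℝ) + 1 + N ≤ 2 * M := by
    rw [hN, hM]; push_cast
    have : (0 : ℝ) ≤ C := by positivity
    linarith
  have hNM : (N : ℝ) ≤ M := by
    rw [hN, hM]; push_cast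
    have : (0 : ℝ) ≤ C := by positivity
    linarith
  refine ⟨K1, M + (θ + 1), (c2 + 1) * (c1 + I0 + 10) / γ, by positivity, by positivity,
    by positivity, ?_⟩
  intro l0 l h0 h1 T hbox hnum ε z D hz0 hz1 hz hD hD0
  have hT : (0 : ℝ) ≤ T := by positivity
  let c0 : Ctx (Idx θ S N) := ⟨θ, l0, l, h0, h1, ε, z, D, ivec 0, 0⟩
  have hμ0 : ∀ m : Idx θ S N, 0 ≤ wt θ (ivec 0 m) ∧ wt θ (ivec 0 m) < N := by
    intro m
    rw [wt_ivec]
    have h1 := Gam_bounds m.1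
    have h2 : ((m.2 : ℕ) : ℝ) + 1 ≤ N := by exact_mod_cast m.2.2
    have h3 : (0 : ℝ) ≤ (m.2 : ℕ) := by positivity
    push_cast
    constructor <;> linarith [h1.1, h1.2]
  have hμ1 : ∀ m : Idx θ S N, 0 ≤ (ivec 0 m).1 ∧ (ivec 0 m).1 ≤ S := fun m =>
    ⟨by simp [ivec], by simpa [ivec] using rep_le m.1⟩
  have ok0 : c0.Ok := ⟨hθ, fun m => (hμ0 m).1, hz0, hz1⟩
  have hB0 : c0.Box δ K1 (M + (θ + 1)) T := hbox
  have hwk : ∀ k : Idx θ (S + S0) R, (N : ℝ) ≤ wt θ (ivec N k) ∧ wt θ (ivec N k) < M := by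
    intro k
    rw [wt_ivec]
    have h1 := Gam_bounds k.1
    have h2 : ((k.2 : ℕ) : ℝ) + 1 ≤ R := by exact_mod_cast k.2.2
    have h3 : (0 : ℝ) ≤ (k.2 : ℕ) := by positivity
    have h4 : (M : ℝ) = N + R := by rw [hM, hN, hR]; push_cast; ring
    constructor <;> linarith [h1.1, h1.2]
  have hent : ∀ (k : Idx θ (S + S0) R) (m : Idx θ S N), ∃ a : ℤ,
      (∑ i ∈ range I0, if c0.ww (m, i) = wt θ (ivec N k) ∧ ε i = true then
        c0.X (c0.vec (m, i) - ivec N k) else 0) * (2 ^ T * 3 ^ T) = a ∧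
      |(a : ℝ)| ≤ (range I0).card * 2 ^ (7 * T : ℝ) := by
    intro k m
    refine sum_int _ _ _ fun i _ => ?_
    split_ifs with hh
    · refine Ctx.chi_int_zero hB0 (by positivity) ?_ ?_
      · have h1 := Ctx.vec_fst_le ok0 hμ1 (p := (m, i)) (A := M) (hh.1 ▸ (hwk k).2.le)
        have h2 : |((ivec N k).1 : ℝ)| ≤ S + S0 := by
          simp only [ivec, Int.cast_natCast, Nat.abs_cast]
          exact_mod_cast rep_le k.1
        have h3 : (M : ℝ) / θ ≤ (2 * M + (θ + 1)) / θ := by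
          gcongr
          have : (0 : ℝ) ≤ M := by positivity
          linarith
        rw [Prod.fst_sub]
        push_cast
        refine (abs_sub _ _).trans ?_
        change |((c0.vec (m, i)).1 : ℝ)| ≤ S + M / θ at h1
        linarith
      · rw [wt_sub]
        exact sub_eq_zero.mpr hh.1
    · exact ⟨0, by simp, by simp only [Int.cast_zero, abs_zero]; positivity⟩
  choose A hA1 hA2 using hent
  have hI1 : (1 : ℝ) ≤ I0 := by exact_mod_cast (by omega : 1 ≤ I0)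
  obtain ⟨q, hq0, hq1, hq2⟩ := siegel A hc12 hc2pos (H := I0 * 2 ^ (7 * T : ℝ))
    (one_le_mul_of_one_le_of_one_le hI1 (Real.one_le_rpow (by norm_num) (by positivity)))
    (fun k m => by simpa using hA2 k m)
  set x : ℝ := c2 * (c1 + I0 + 7 * T) with hx
  have hq3 : ∀ m, |(q m : ℝ)| ≤ 2 ^ x := by
    intro m
    refine (hq2 m).trans ?_
    have e : (2 : ℝ) ^ x = (2 ^ (c1 : ℝ) * (2 ^ (I0 : ℝ) * 2 ^ (7 * T : ℝ))) ^ c2 := by
      rw [hx, mul_comm (c2 : ℝ), Real.rpow_mul (by norm_num), Real.rpow_natCast, two_rpow_add,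
        two_rpow_add, mul_assoc]
    rw [e]
    gcongr
    · exact natCast_le_two_rpow _
    · exact natCast_le_two_rpow _
  let c : Ctx (Idx θ S N) := ⟨θ, l0, l, h0, h1, ε, z, D, ivec 0, q⟩
  have ok : c.Ok := ⟨hθ, fun m => (hμ0 m).1, hz0, hz1⟩
  have hB : c.Box δ K1 (M + (θ + 1)) T := hbox
  have hRk : ∀ k : Idx θ (S + S0) R, c.R (wt θ (ivec N k)) = 0 := by
    intro k
    have h1 : (∑ m, (A k m : ℚ) * q m) = 0 := by exact_mod_cast hq1 k
    have h2 : c.R (wt θ (ivec N k)) * (c.X (-ivec N k) * (2 ^ T * 3 ^ T))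
        = ∑ m, (A k m : ℚ) * q m := by
      have h3 : c.Fib (wt θ (ivec N k)) =
          (univ ×ˢ range I0).filter fun p => c.ww p = wt θ (ivec N k) := by
        ext p
        rw [Ctx.mem_Fib ok, mem_filter]
        exact ⟨fun hh => ⟨mem_product.mpr ⟨mem_univ _, mem_range.mpr
          (Ctx.lt_of_ww_lt ok (hh ▸ (hwk k).2))⟩, hh⟩, fun hh => hh.2⟩
      unfold Ctx.R
      rw [h3, sum_filter, sum_product, sum_mul]
      refine sum_congr rfl fun m _ => ?_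
      rw [← hA1 k m, sum_mul, sum_mul, sum_mul]
      refine sum_congr rfl fun i _ => ?_
      change (if c0.ww (m, i) = wt θ (ivec N k) then
        (if ε i = true then (q m : ℚ) * c0.X (c0.vec (m, i)) else 0) else 0) *
          (c0.X (-ivec N k) * (2 ^ T * 3 ^ T)) = _
      by_cases e1 : c0.ww (m, i) = wt θ (ivec N k) <;> by_cases e2 : ε i = true <;>
        simp only [e1, e2, if_true, if_false, and_self, false_and, and_false, zero_mul,
          Bool.false_eq_true]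
      unfold Ctx.X
      rw [chi_sub]; ring
    rw [h1] at h2
    exact (mul_eq_zero.mp h2).resolve_right
      (mul_ne_zero (chi_ne_zero _ _ _ _ _) (by positivity))
  have hR1 : ∀ p : Idx θ S N × ℕ, (N : ℝ) ≤ c.ww p → c.ww p < M → c.R (c.ww p) = 0 := by
    intro p hp1 hp2
    have h1 := Ctx.vec_fst_le ok hμ1 hp2.le
    have h2 : 0 ≤ (c.vec p).1 := add_nonneg (hμ1 p.1).1 (pth_fst_nonneg _ _)
    obtain ⟨s, hs⟩ := Int.eq_ofNat_of_zero_le h2
    have h3 : s ≤ S + S0 := by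
      rw [hs] at h1
      simp only [Int.cast_natCast, Nat.abs_cast] at h1
      have : (M : ℝ) / θ ≤ S0 := Nat.le_ceil _
      have : (s : ℝ) ≤ S + S0 := by
        change (s : ℝ) ≤ S + M / θ at h1
        linarith
      exact_mod_cast this
    have h4 : c.ww p = Int.fract (s * θ) + ((⌊s * θ⌋ + (c.vec p).2 : ℤ) : ℝ) := by
      have := Int.fract_add_floor (s * θ)
      change ((c.vec p).1 : ℝ) * θ + (c.vec p).2 = _
      rw [hs]; push_cast; linarith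
    have f0 := Int.fract_nonneg (s * θ)
    have f1 := Int.fract_lt_one (s * θ)
    have h5 : (N : ℤ) ≤ ⌊s * θ⌋ + (c.vec p).2 := by
      have : (N : ℝ) - 1 < ((⌊s * θ⌋ + (c.vec p).2 : ℤ) : ℝ) := by linarith
      have : (N : ℤ) - 1 < ⌊s * θ⌋ + (c.vec p).2 := by exact_mod_cast this
      omega
    have h6 : ⌊s * θ⌋ + (c.vec p).2 < M := by
      have : ((⌊s * θ⌋ + (c.vec p).2 : ℤ) : ℝ) < M := by linarith
      exact_mod_cast this
    obtain ⟨i, hi⟩ := Int.eq_ofNat_of_zero_le (sub_nonneg.mpr h5)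
    have h7 : i < R := by omega
    have := hRk (⟨Int.fract (s * θ), mem_Gam.mpr ⟨s, h3, rfl⟩⟩, ⟨i, h7⟩)
    rw [wt_ivec] at this
    rw [h4, show ⌊s * θ⌋ + (c.vec p).2 = N + i by omega]
    push_cast
    rw [← add_assoc]
    exact this
  have hnum' : (c1 : ℝ) + I0 + x + 10 * T + 10 ≤ γ * l := by
    rw [div_mul_eq_mul_div, div_le_iff₀ hγ0] at hnum
    have a1 : (0 : ℝ) ≤ c1 := by positivity
    have a2 : (0 : ℝ) ≤ c2 := by positivity
    rw [hx]
    nlinarith [mul_nonneg a1 hT, mul_nonneg a2 hT, mul_nonneg (mul_nonneg a1 a2) hT,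
      mul_nonneg (zero_le_one.trans hI1) hT, mul_nonneg (mul_nonneg a2 (zero_le_one.trans hI1)) hT]
  have hl : (0 : ℝ) ≤ l := by positivity
  have hSθ : (0 : ℝ) ≤ S + S0 := by positivity
  have hW : c.W N = 0 := by
    refine Ctx.W_eq_zero ok hB hδ0 hδ1 (C := C) (I0 := I0) hμ1 (M := M)
      (by rw [hN]; push_cast; ring) (by rw [hM]; push_cast; ring) (fun m => (hμ0 m).2) hq3 hz hD
      hR1 ?_ ?_ le_rfl ?_
    · have : ⌈(N : ℝ) / min θ 1⌉₊ ≤ ⌈(M : ℝ) / min θ 1⌉₊ := by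
        have := lt_min hθ one_pos
        gcongr
      exact Nat.succ_le_succ this
    · have h3 : (M + (θ + 1)) / θ ≤ (2 * M + (θ + 1)) / θ := by
        gcongr
        have : (0 : ℝ) ≤ M := by positivity
        linarith
      change (S : ℝ) + (M + (θ + 1)) / θ ≤ K1
      linarith
    · change (c1 : ℝ) + I0 + x + 10 * T + 10 ≤ l
      nlinarith
  have hR2 := Ctx.R_eq_zero ok hB (C := C) hμ1 (fun m => (hμ0 m).2) hq3 hD hD0 hW
    (by
      have h3 : (C + 1 + (θ + 1) + N) / θ ≤ (2 * M + (θ + 1)) / θ := by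
        gcongr ?_ / _
        linarith
      change (S : ℝ) + (C + 1 + (θ + 1) + N) / θ ≤ K1
      linarith)
    (by
      change (C : ℝ) + 1 + (θ + 1) ≤ M + (θ + 1)
      have hCM' : (C : ℝ) + 1 ≤ M := by
        rw [hM]; push_cast
        have : (0 : ℝ) ≤ C := by positivity
        linarith
      linarith) hγ1
    (fun ν h1 h2 => hγ ν.1 ν.2 (by exact_mod_cast h1) h2)
    (by
      change (c1 : ℝ) + x + 10 * T + 10 ≤ γ * l
      linarith)
  refine Ctx.periodic_of_R ok (fun m => (hμ0 m).2) ?_ hq0 hR2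
  intro m m' he
  change wt θ (ivec 0 m) = wt θ (ivec 0 m') at he
  rw [wt_ivec, wt_ivec] at he
  have a1 := Gam_bounds m.1
  have a2 := Gam_bounds m'.1
  have a3 : (m.2 : ℕ) = (m'.2 : ℕ) := by
    have b1 : ((m.2 : ℕ) : ℝ) < (m'.2 : ℕ) + 1 := by linarith [a1.1, a2.2]
    have b2 : ((m'.2 : ℕ) : ℝ) < (m.2 : ℕ) + 1 := by linarith [a1.2, a2.1]
    have b3 : (m.2 : ℕ) < (m'.2 : ℕ) + 1 := by exact_mod_cast b1
    have b4 : (m'.2 : ℕ) < (m.2 : ℕ) + 1 := by exact_mod_cast b2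
    omega
  rw [a3] at he
  exact Prod.ext (Subtype.ext (by linarith)) (Fin.ext a3)

end Pool.Agent.Lib.MP_7f88e4_nt
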