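import Mathlib
import Pool.Agent.Lib.MP_7f88e4_nt.CycleMin

set_option autoImplicit false

namespace Pool.Agent.Lib.MP_7f88e4_nt

/-- the reflected height walk of a parity word -/
noncomputable def rise (v : ℕ → Bool) : ℕ → ℝ
  | 0 => 0
  | i + 1 => max 0 (rise v i + if v i = true then Real.logb 2 3 - 1 else -1)

theorem logb_lb : (3 : ℝ) / 2 ≤ Real.logb 2 3 := by
  rw [Real.le_logb_iff_rpow_le (by norm_num) (by norm_num)]
  have : ((2 : ℝ) ^ ((3 : ℝ) / 2)) ^ 2 ≤ 3 ^ 2 := by
    rw [← Real.rpow_natCast, ← Real.rpow_mul (by norm_num)]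
    norm_num
  exact (pow_le_pow_iff_left₀ (by positivity) (by norm_num) two_ne_zero).1 this

theorem rise_nonneg (v : ℕ → Bool) (i : ℕ) : 0 ≤ rise v i := by
  cases i
  · exact le_rfl
  · exact le_max_left _ _

theorem rise_add_le (v : ℕ → Bool) (s t : ℕ) :
    rise v (s + t) ≤ rise v s + t * (Real.logb 2 3 - 1) := by
  have h := logb_lb
  induction t with
  | zero => simp
  | succ t ih =>
    have h0 := rise_nonneg v s
    have ht : (0 : ℝ) ≤ t := Nat.cast_nonneg t
    rw [← add_assoc, rise]
    push_cast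
    refine max_le (by nlinarith) ?_
    split_ifs <;> linarith

theorem rise_le_drift (v : ℕ → Bool) (s t : ℕ) : ∃ a b, a + b = t ∧
    rise v (s + t) ≤ rise v s + (ones v (s + a) b * Real.logb 2 3 - b) := by
  induction t with
  | zero => exact ⟨0, 0, rfl, by simp [ones]⟩
  | succ t ih =>
    obtain ⟨a, b, hab, h⟩ := ih
    rw [← add_assoc, rise]
    rcases max_cases 0 (rise v (s + t) + if v (s + t) = true then Real.logb 2 3 - 1 else -1) with
      ⟨h1, -⟩ | ⟨h1, -⟩ <;> rw [h1]
    · exact ⟨t + 1, 0, rfl, by simpa [ones] using rise_nonneg v s⟩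
    · refine ⟨a, b + 1, by omega, ?_⟩
      simp only [ones, show s + a + b = s + t by omega]
      split_ifs <;> push_cast <;> linarith

theorem Rec.abs_le_rise {k : ℤ} {x : ℕ → ℤ} {v : ℕ → Bool} (h : Rec k x v) {L : ℕ} {Y : ℝ}
    (hL : 1 ≤ L) (h0 : |(x 0 : ℝ)| ≤ Y) (hk : |(k : ℝ)| * L ≤ Y) (i : ℕ) :
    |(x i : ℝ)| ≤ Y * (1 + 1 / L) ^ i * 2 ^ rise v i := by
  have hL' : (1 : ℝ) ≤ L := by exact_mod_cast hL
  have hY : 0 ≤ Y := (abs_nonneg _).trans h0
  have hc : (1 : ℝ) ≤ 1 + 1 / L := by have : (0 : ℝ) ≤ 1 / L := by positivity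
                                      linarith
  induction i with
  | zero => simpa [rise] using h0
  | succ i ih =>
    have a1 := h i
    have a2 : (1 : ℝ) ≤ 2 ^ rise v i := Real.one_le_rpow (by norm_num) (rise_nonneg v i)
    have a3 : (1 : ℝ) ≤ (1 + 1 / L) ^ i := one_le_pow₀ hc
    have a4 : (2 : ℝ) ^ (rise v i + if v i = true then Real.logb 2 3 - 1 else -1) ≤
        2 ^ rise v (i + 1) :=
      Real.rpow_le_rpow_of_exponent_le (by norm_num) (le_max_right _ _)
    refine le_trans ?_ (mul_le_mul_of_nonneg_left a4 (by positivity))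
    rw [Real.rpow_add (by norm_num), pow_succ]
    set Z := Y * (1 + 1 / L) ^ i * 2 ^ rise v i with hZ
    have hYZ : Y ≤ Z := by
      rw [hZ, mul_assoc]
      exact le_mul_of_one_le_right hY (one_le_mul_of_one_le_of_one_le a3 a2)
    have e : ∀ c : ℝ, Y * ((1 + 1 / L) ^ i * (1 + 1 / L)) * (2 ^ rise v i * c) =
      c * (Z + Z / L) := fun c => by rw [hZ]; ring
    rw [e]
    have a5 : |(k : ℝ)| ≤ Z / L := by rw [le_div_iff₀ (by linarith)]; linarith
    have a6 := abs_nonneg (k : ℝ)
    split_ifs at a1 ⊢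
    · rw [Real.rpow_sub (by norm_num), Real.rpow_logb (by norm_num) (by norm_num) (by norm_num),
        Real.rpow_one]
      have b1 : (2 : ℝ) * x (i + 1) = 3 * x i + k := by exact_mod_cast a1
      have b2 : |(2 : ℝ) * x (i + 1)| ≤ 3 * |(x i : ℝ)| + |(k : ℝ)| := by
        rw [b1]
        refine (abs_add_le _ _).trans ?_
        rw [abs_mul]; norm_num
      rw [abs_mul, abs_two] at b2
      linarith
    · rw [Real.rpow_neg_one]
      have b1 : (2 : ℝ) * x (i + 1) = x i := by exact_mod_cast a1
      have b2 : |(2 : ℝ) * x (i + 1)| = |(x i : ℝ)| := by rw [b1]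
      rw [abs_mul, abs_two] at b2
      linarith

theorem Rec.rep_le_rise {k : ℤ} {x : ℕ → ℤ} {v : ℕ → Bool} (h : Rec k x v) {L : ℕ} {Y : ℝ}
    (hL : 1 ≤ L) (hY : 0 < Y) (h0 : |(x 0 : ℝ)| ≤ Y) (hk : |(k : ℝ)| * L ≤ Y) {i j r : ℕ}
    (hi : i ≤ L) (hj : j ≤ L) (hne : x i ≠ x j) (hs : Same v r i j) {M : ℝ}
    (hiM : rise v i ≤ M) (hjM : rise v j ≤ M) : r ≤ Real.logb 2 (6 * Y) + M := by
  have hL' : (1 : ℝ) ≤ L := by exact_mod_cast hL
  have hc : (1 : ℝ) ≤ 1 + 1 / L := by have : (0 : ℝ) ≤ 1 / L := by positivity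
                                      linarith
  have a0 : (1 + 1 / L : ℝ) ^ L ≤ 3 := by
    have b1 : (1 + 1 / L : ℝ) ≤ Real.exp (1 / L) := by
      rw [add_comm]; exact Real.add_one_le_exp _
    have b2 := pow_le_pow_left₀ (by linarith) b1 L
    rw [← Real.exp_nat_mul, mul_one_div_cancel (by linarith)] at b2
    linarith [Real.exp_one_lt_d9]
  have a1 : ∀ i ≤ L, rise v i ≤ M → |(x i : ℝ)| ≤ Y * 3 * 2 ^ M := by
    intro i hi hiM
    refine (h.abs_le_rise hL h0 hk i).trans ?_
    have := (pow_le_pow_right₀ hc hi).trans a0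
    gcongr
    norm_num
  have a2 := Int.le_of_dvd (abs_pos.mpr (sub_ne_zero.mpr hne.symm))
    ((dvd_abs _ _).mpr (h.dvd hs))
  have a3 : (2 : ℝ) ^ r ≤ |(x j : ℝ) - x i| := by exact_mod_cast a2
  have a4 : (2 : ℝ) ^ (r : ℝ) ≤ 2 ^ (Real.logb 2 (6 * Y) + M) := by
    rw [Real.rpow_add (by norm_num), Real.rpow_logb (by norm_num) (by norm_num) (by positivity),
      Real.rpow_natCast]
    linarith [abs_sub (x j : ℝ) (x i), a1 i hi hiM, a1 j hj hjM]
  exact (Real.rpow_le_rpow_left_iff (by norm_num)).1 a4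

/-- The parsing inequality. -/
theorem parse_bound {v : ℕ → Bool} {L n D : ℕ} {H : ℝ} (hH : 0 ≤ H)
    (hrep : ∀ i j r, i < j → j < L → Same v r i j → ∀ M, rise v i ≤ M → rise v j ≤ M → r ≤ H + M)
    {p : ℕ → ℕ} {R : Finset ℕ} (h0 : p 0 = 0) (hn : p n = L) (hm : Monotone p)
    (h1 : ∀ j < n, p (j + 1) - p j ≤ D ∨ ∃ q < p j, Same v (p (j + 1) - p j) q (p j))
    (h2 : ∀ s b, s + b ≤ L → (∀ j ∈ R, p (j + 1) ≤ s ∨ s + b ≤ p j) →
      ones v s b * Real.logb 2 3 - b ≤ D) :
    (L : ℝ) ≤ n * Real.logb 2 3 ^ R.card * (3 * D + H) := by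
  have hδ := logb_lb
  set δ := Real.logb 2 3 with hδ'
  have hD : (0 : ℝ) ≤ D := Nat.cast_nonneg D
  have key : ∀ j ≤ n, ∃ s₀ ≤ p j, (∀ i ∈ R, i < j → p (i + 1) ≤ s₀) ∧
      rise v s₀ + H + 3 * D ≤ δ ^ (R.filter (· < j)).card * (3 * D + H) ∧
      (∀ t ≤ p j, rise v t + H + 2 * D ≤ δ ^ (R.filter (· < j)).card * (3 * D + H)) ∧
      (p j : ℝ) ≤ j * (δ ^ (R.filter (· < j)).card * (3 * D + H)) := by
    intro j
    induction j with
    | zero =>
      intro _
      refine ⟨0, Nat.zero_le _, by simp, by simp [rise]; linarith, ?_, by simp [h0]⟩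
      intro t ht
      obtain rfl : t = 0 := by omega
      simp [rise]; linarith
    | succ j ih =>
      intro hj
      obtain ⟨s₀, g1, g2, g3, g4, g5⟩ := ih (by omega)
      set W := δ ^ (R.filter (· < j)).card * (3 * D + H) with hW
      have hpj := hm (Nat.le_succ j)
      have hpL : p (j + 1) ≤ L := hn ▸ hm hj
      obtain ⟨b, hb⟩ := Nat.exists_eq_add_of_le hpj
      rw [Nat.succ_eq_add_one] at hb
      have hr0 := rise_nonneg v s₀
      have hbW : (b : ℝ) ≤ W - 2 * D := by
        rcases Nat.eq_zero_or_pos b with rfl | hb0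
        · push_cast; linarith
        rcases h1 j (by omega) with h | ⟨q, hq, h⟩
        · have : (b : ℝ) ≤ D := by exact_mod_cast (by omega : b ≤ D)
          linarith
        · rw [show p (j + 1) - p j = b by omega] at h
          have := hrep q (p j) b hq (by omega) h (W - H - 2 * D)
            (by linarith [g4 q hq.le]) (by linarith [g4 _ le_rfl])
          linarith
      have hW0 : 0 ≤ W := by linarith
      have hb0 : (0 : ℝ) ≤ b := Nat.cast_nonneg b
      have hj0 : (0 : ℝ) ≤ j := Nat.cast_nonneg j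
      by_cases hjR : j ∈ R
      · have e : (R.filter (· < j + 1)).card = (R.filter (· < j)).card + 1 := by
          rw [← Finset.card_insert_of_notMem (a := j) (by simp)]
          congr 1
          ext i
          simp only [Finset.mem_filter, Finset.mem_insert]
          constructor
          · rintro ⟨a, c⟩
            rcases Nat.lt_succ_iff_lt_or_eq.1 c with d | d
            · exact Or.inr ⟨a, d⟩
            · exact Or.inl d
          · rintro (rfl | ⟨a, c⟩)
            · exact ⟨hjR, by omega⟩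
            · exact ⟨a, by omega⟩
        have e' : δ ^ (R.filter (· < j + 1)).card * (3 * D + H) = δ * W := by
          rw [e, hW]; ring
        rw [e']
        have g6 : ∀ c ≤ b, rise v (p j + c) + H + 3 * D ≤ δ * W := by
          intro c hc
          have a1 := rise_add_le v (p j) c
          have a2 := g4 _ le_rfl
          have a3 : (c : ℝ) ≤ b := by exact_mod_cast hc
          have a4 : (c : ℝ) * (δ - 1) ≤ (W - 2 * D) * (δ - 1) := by
            gcongr <;> linarith
          nlinarith
        refine ⟨p (j + 1), le_rfl, fun i _ hi => hm (by omega), hb ▸ g6 b le_rfl, ?_, ?_⟩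
        · intro t ht
          by_cases htj : t ≤ p j
          · have := g4 t htj
            nlinarith
          · obtain ⟨c, rfl⟩ := Nat.exists_eq_add_of_le (not_le.1 htj).le
            have := g6 c (by omega)
            linarith
        · rw [hb]
          push_cast
          have : W ≤ δ * W := by nlinarith
          nlinarith
      · have e : R.filter (· < j + 1) = R.filter (· < j) := by
          ext i
          simp only [Finset.mem_filter]
          constructor
          · rintro ⟨a, c⟩
            exact ⟨a, lt_of_le_of_ne (by omega) (fun d => hjR (d ▸ a))⟩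
          · rintro ⟨a, c⟩
            exact ⟨a, by omega⟩
        rw [e, ← hW]
        refine ⟨s₀, by omega, fun i hi hij => g2 i hi
          (lt_of_le_of_ne (by omega) (fun d => hjR (d ▸ hi))), g3, ?_, ?_⟩
        · intro t ht
          by_cases hts : t ≤ s₀
          · exact g4 t (by omega)
          · obtain ⟨c, rfl⟩ := Nat.exists_eq_add_of_le (not_le.1 hts).le
            obtain ⟨a, a', haa, a1⟩ := rise_le_drift v s₀ c
            have a2 := h2 (s₀ + a) a' (by omega) (fun i hi => by
              rcases lt_trichotomy i j with d | d | d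
              · left; have := g2 i hi d; omega
              · exact absurd (d ▸ hi) hjR
              · right; have := hm (show j + 1 ≤ i from d); omega)
            linarith
        · rw [hb]
          push_cast
          nlinarith
  obtain ⟨-, -, -, -, -, g⟩ := key n le_rfl
  rw [hn] at g
  refine g.trans ?_
  rw [mul_assoc]
  gcongr
  · linarith
  · exact Finset.filter_subset _ _

theorem ones_eq_card (v : ℕ → Bool) (s b : ℕ) :
    ones v s b = ((Finset.Ico s (s + b)).filter fun i => v i = true).card := by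
  induction b with
  | zero => simp [ones]
  | succ b ih =>
    rw [← add_assoc, Nat.Ico_succ_right_eq_insert_Ico (by omega), Finset.filter_insert, ones]
    split_ifs
    · rw [Finset.card_insert_of_notMem (by simp), ih]
    · exact ih

end Pool.Agent.Lib.MP_7f88e4_nt
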