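import Pool.Agent.Shared.SubspaceRigid
import Pool.Agent.Shared.SubspaceGraded
import Pool.Agent.Lib.MP_7f88e4_nt.Orbit

set_option autoImplicit false

namespace Pool.Agent.Lib.MP_7f88e4_nt

open Finset Filter Topology Pool.Agent.Shared.Subspace

noncomputable section

/-- the primes two and three -/
def F23 : PrimeFam Bool where
  pr := fun b => cond b 3 2
  prime := fun b => by cases b <;> simp [Nat.prime_two, Nat.prime_three]
  inj := fun a b => by cases a <;> cases b <;> simp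

variable {ι : Type} {U : Ultrafilter ι} {l : ι → ℝ}

/-- sequences of order `O(l)` -/
def Bd (U : Ultrafilter ι) (l : ι → ℝ) (a : ι → ℕ) : Prop :=
  ∃ B : ℝ, ∀ᶠ j in (U : Filter ι), (a j : ℝ) ≤ B * l j

lemma Bd.of_le {a b : ι → ℕ} (h : Bd U l b) (hab : ∀ᶠ j in (U : Filter ι), a j ≤ b j) :
    Bd U l a := by
  obtain ⟨B, hB⟩ := h
  exact ⟨B, (hB.and hab).mono (fun j h => le_trans (by exact_mod_cast h.2) h.1)⟩

/-- normalised limit -/
def nl (U : Ultrafilter ι) (l : ι → ℝ) (a : ι → ℕ) : ℝ :=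
  limUnder (U : Filter ι) (fun j => (a j : ℝ) / l j)

variable (hl : Tendsto l U atTop)
include hl

lemma Bd.abs_le {a : ι → ℕ} (h : Bd U l a) :
    ∃ A : ℝ, ∀ᶠ j in (U : Filter ι), |(a j : ℝ) / l j| ≤ A := by
  obtain ⟨B, hB⟩ := h
  refine ⟨B, ?_⟩
  filter_upwards [hB, hl.eventually_gt_atTop 0] with j h1 h2
  rw [abs_of_nonneg (by positivity), div_le_iff₀ h2]; exact h1

lemma Bd.tendsto {a : ι → ℕ} (h : Bd U l a) :
    Tendsto (fun j => (a j : ℝ) / l j) U (𝓝 (nl U l a)) := by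
  have := tendsto_st (P := Unit) (U := U) (l := l) ⟨fun j _ => a j, fun _ => by
    simpa using h.abs_le hl⟩ ()
  simp only [Int.cast_natCast] at this
  exact tendsto_nhds_limUnder ⟨_, this⟩

lemma nl_le {a b : ι → ℕ} (ha : Bd U l a) (hb : Bd U l b) {W : ℝ}
    (h : ∀ᶠ j in (U : Filter ι), a j + W * l j ≤ b j) : nl U l a + W ≤ nl U l b := by
  refine le_of_tendsto_of_tendsto ((ha.tendsto hl).add_const W) (hb.tendsto hl) ?_
  filter_upwards [h, hl.eventually_gt_atTop 0] with j h1 h2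
  rw [div_add' _ _ _ h2.ne']
  exact div_le_div_of_nonneg_right h1 h2.le

lemma nl_nonneg {a : ι → ℕ} (ha : Bd U l a) : 0 ≤ nl U l a := by
  refine ge_of_tendsto (ha.tendsto hl) ?_
  filter_upwards [hl.eventually_gt_atTop 0] with j h2
  positivity

lemma le_nl {a : ι → ℕ} (ha : Bd U l a) {W : ℝ} (h : ∀ᶠ j in (U : Filter ι), W * l j ≤ a j) :
    W ≤ nl U l a := by
  refine ge_of_tendsto (ha.tendsto hl) ?_
  filter_upwards [h, hl.eventually_gt_atTop 0] with j h1 h2
  rwa [le_div_iff₀ h2]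

lemma nl_sub {a b : ι → ℕ} (hb : Bd U l b) (h : ∀ᶠ j in (U : Filter ι), a j ≤ b j) :
    nl U l (fun j => b j - a j) = nl U l b - nl U l a := by
  refine tendsto_nhds_unique ((hb.of_le (Eventually.of_forall (fun j => Nat.sub_le _ _))).tendsto hl)
    ((((hb.tendsto hl).sub ((hb.of_le h).tendsto hl))).congr' ?_)
  filter_upwards [h] with j h1
  rw [Nat.cast_sub h1, sub_div]

/-- the exponents of `3 ^ a / 2 ^ n` -/
def ex (n a : ι → ℕ) (hn : Bd U l n) (ha : ∀ j, a j ≤ n j) : EE Bool U l :=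
  ⟨fun j b => cond b (a j) (-n j), fun b => by
    cases b
    · simpa [neg_div] using hn.abs_le hl
    · simpa using (hn.of_le (Eventually.of_forall ha)).abs_le hl⟩

variable {n a : ι → ℕ} (hn : Bd U l n) (ha : ∀ j, a j ≤ n j)

lemma mon_ex : mon F23 U (ex hl n a hn ha).1 = gm U (fun j => 3 ^ a j / 2 ^ n j) := by
  rw [mon]
  congr 1
  funext j
  simp [PrimeFam.unit, ex, F23, div_eq_mul_inv]

lemma st_ex_false : st (ex hl n a hn ha) false = -nl U l n :=
  st_eq (by simpa [ex, neg_div] using (hn.tendsto hl).neg)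

lemma st_ex_true : st (ex hl n a hn ha) true = nl U l a :=
  st_eq (by simpa [ex] using (hn.of_le (Eventually.of_forall ha)).tendsto hl)

lemma lam_two : lam0 F23 (some false) (ex hl n a hn ha) = nl U l n * Real.log 2 := by
  rw [lam0_some, st_ex_false]; simp [F23]

lemma lam_inf : lam0 F23 none (ex hl n a hn ha) ≤ nl U l n * Real.log 2 := by
  rw [lam0_apply, Fintype.sum_bool, st_ex_false, st_ex_true, PrimeFam.lg_none, PrimeFam.lg_none]
  have h1 : nl U l a + 0 ≤ nl U l n := nl_le hl (hn.of_le (Eventually.of_forall ha)) hn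
    (Eventually.of_forall (fun j => by simpa using ha j))
  have h2 := nl_nonneg hl (hn.of_le (Eventually.of_forall ha))
  have h3 : Real.log 3 ≤ 2 * Real.log 2 := by
    rw [show 2 * Real.log 2 = Real.log 4 by
      rw [show (4 : ℝ) = 2 ^ 2 by norm_num, Real.log_pow]; norm_num]
    exact Real.log_le_log (by norm_num) (by norm_num)
  have h4 := Real.log_pos (show (1 : ℝ) < 2 by norm_num)
  simp only [F23, cond_true, cond_false, Nat.cast_ofNat]
  nlinarith

omit hl in
/-- integer sequences -/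
def zi (U : Ultrafilter ι) (z : ι → ℤ) : KK U := gm U (fun j => (z j : ℚ))

omit hl in
lemma zi_mem (z : ι → ℤ) : zi U z ∈ GO F23 U :=
  ⟨_, rfl, Eventually.of_forall (fun _ => F23.mem_OS_of_Zr (intCast_mem_Zr _))⟩

lemma GLe_zi_some (z : ι → ℤ) (b : Bool) : GLe l (F23.av (some b)) (zi U z) 0 :=
  GLe_gm.2 ((SB_const hl 1).of_le
    (Eventually.of_forall (fun _ => F23.av_le_one b (intCast_mem_Zr _))))

omit hl in
lemma GLe_zi_none {z : ι → ℤ} {c : ℝ} :
    GLe l (F23.av none) (zi U z) c ↔ SB U l (fun j => |(z j : ℝ)|) c := by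
  rw [zi, GLe_gm]; simp [PrimeFam.av_none, vinf_apply]

/-- size bounds of an integer sequence -/
lemma GLe_zi {z : ι → ℤ} {c : ℝ} (h : SB U l (fun j => |(z j : ℝ)|) c) (v : Option Bool) :
    GLe l (F23.av v) (zi U z) (Option.elim v c (fun _ => 0)) := by
  cases v with
  | none => exact GLe_zi_none.2 h
  | some b => exact GLe_zi_some hl z b

lemma zi_mem_WW {z : ι → ℤ} (h : SB U l (fun j => |(z j : ℝ)|) 0) : zi U z ∈ WW F23 hl 0 :=
  ⟨mem_GQ_of_GO _ (zi_mem z), fun v => by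
    have := GLe_zi hl h v
    cases v <;> exact this⟩

lemma SB_two_pow {q : ι → ℕ} {c : ℝ} (h : ∀ᶠ j in (U : Filter ι), (q j : ℝ) ≤ c * l j) :
    SB U l (fun j => 2 ^ q j) (c * Real.log 2) := by
  refine (SB_exp hl _).of_le (h.mono (fun j hj => ?_))
  rw [← Real.exp_log (show (0 : ℝ) < 2 ^ q j by positivity), Real.log_pow, Real.exp_le_exp]
  have h4 := Real.log_pos (show (1 : ℝ) < 2 by norm_num)
  nlinarith

end

lemma cst_add (k : ℤ) (v : ℕ → Bool) (i L M : ℕ) :
    cst k v i (L + M) = 3 ^ ones v (i + L) M * cst k v i L + 2 ^ L * cst k v (i + L) M := by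
  induction M with
  | zero => simp [ones, cst]
  | succ M ih =>
    rw [← add_assoc]
    simp only [ones, cst, add_assoc i L M, ih]
    split_ifs <;> ring

lemma two_pow_sub_ne {q a : ℕ} (hq : 1 ≤ q) : (2 : ℤ) ^ q - 3 ^ a ≠ 0 := by
  intro h
  have h1 : Even ((2 : ℤ) ^ q) := (even_two.pow_of_ne_zero (by omega))
  have h2 : Odd ((3 : ℤ) ^ a) := Odd.pow (by decide)
  rw [sub_eq_zero.1 h] at h1
  exact Int.not_even_iff_odd.2 h2 h1

lemma Rec.shift {k : ℤ} {x : ℕ → ℤ} {v : ℕ → Bool} (h : Rec k x v) (m : ℕ) :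
    Rec k (fun i => x (m + i)) (fun i => v (m + i)) := fun n => h (m + n)

lemma Rec.growth' {k : ℤ} {x : ℕ → ℤ} {v : ℕ → Bool} (h : Rec k x v) (m n : ℕ) :
    |x (m + n)| + |k| ≤ 2 ^ n * (|x m| + |k|) := by
  have h1 := (h.shift m).growth n
  have h2 : (3 : ℤ) ^ n ≤ 2 ^ n * 2 ^ n := by
    rw [← mul_pow]; exact pow_le_pow_left₀ (by norm_num) (by norm_num) n
  have h3 : (0 : ℤ) ≤ |x m| + |k| := by positivity
  refine le_of_mul_le_mul_left (h1.trans ?_) (show (0 : ℤ) < 2 ^ n by positivity)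
  simp only [add_zero]
  nlinarith

lemma Rec.eq_of_small {k : ℤ} {x : ℕ → ℤ} {v : ℕ → Bool} (h : Rec k x v) {r i j : ℕ}
    (hs : Same v r i j) (hlt : |x i| + |x j| < 2 ^ r) : x j = x i := by
  refine sub_eq_zero.1 (Int.eq_zero_of_abs_lt_dvd (h.dvd hs) ?_)
  have := abs_sub (x j) (x i)
  linarith

end Pool.Agent.Lib.MP_7f88e4_nt
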