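import Pool.Agent.Lib.MP_7f88e4_nt.STBase

set_option autoImplicit false

namespace Pool.Agent.Lib.MP_7f88e4_nt

open Finset Filter Topology Pool.Agent.Shared.Subspace

lemma same_of_per {v : ℕ → Bool} {a q e : ℕ} (hper : ∀ t, a ≤ t → t + q < e → v (t + q) = v t)
    (m : ℕ) (hm : a + (m + 1) * q ≤ e) : Same v q (a + m * q) a := by
  induction m with
  | zero => simpa using Same.refl v q a
  | succ m ih =>
    refine Same.trans (fun t ht => ?_) (ih (by nlinarith))
    rw [← hper (a + m * q + t) (by omega) (by nlinarith)]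
    congr 1; ring

lemma Rec.power {k : ℤ} {x : ℕ → ℤ} {v : ℕ → Bool} (h : Rec k x v) {a q e : ℕ}
    (hper : ∀ t, a ≤ t → t + q < e → v (t + q) = v t) (m : ℕ) (hm : a + m * q ≤ e) :
    2 ^ (m * q) * ((2 ^ q - 3 ^ ones v a q) * x (a + m * q) - cst k v a q) =
      3 ^ ones v a (m * q) * ((2 ^ q - 3 ^ ones v a q) * x a - cst k v a q) := by
  induction m with
  | zero => simp [ones]
  | succ m ih =>
    have h1 := same_of_per hper m hm
    have h2 := h.block (a + m * q) q
    rw [h1.ones_eq, h1.cst_eq k] at h2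
    rw [add_mul, one_mul, ones_add, h1.ones_eq, ← add_assoc, pow_add, pow_add]
    linear_combination (3 : ℤ) ^ ones v a q * ih (by nlinarith) +
      2 ^ (m * q) * (2 ^ q - 3 ^ ones v a q) * h2

lemma Rec.piece {k : ℤ} {x : ℕ → ℤ} {v : ℕ → Bool} (h : Rec k x v) {a b q : ℕ} (hq : 1 ≤ q)
    (hab : a ≤ b) (hper : ∀ t, a ≤ t → t + q < b → v (t + q) = v t) {E : ℤ}
    (hE : (2 ^ q - 3 ^ ones v a q) ∣ E) :
    ∃ (c c' : ℤ) (r : ℕ), r ≤ q ∧ |c| ≤ 2 * (|E| * (2 ^ (4 * q) * |k|)) ∧
      |c'| ≤ 2 * (|E| * (2 ^ (4 * q) * |k|)) ∧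
      ((E * x b : ℤ) : ℚ) = 3 ^ ones v a (b - a) / 2 ^ (b - a) * ((E * x a : ℤ) - c) +
        3 ^ 0 / 2 ^ r * c' := by
  obtain ⟨f, rfl⟩ := hE
  set D : ℤ := 2 ^ q - 3 ^ ones v a q with hD
  have hf : |f| ≤ |D * f| := by
    rw [abs_mul]; exact le_mul_of_one_le_left (abs_nonneg _) (Int.one_le_abs (two_pow_sub_ne hq))
  obtain ⟨m, r, hr, rfl⟩ : ∃ m r, r < q ∧ b = a + m * q + r :=
    ⟨(b - a) / q, (b - a) % q, Nat.mod_lt _ hq, by
      have := Nat.div_add_mod' (b - a) q; omega⟩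
  have h1 := h.power hper m (by omega)
  rw [← hD] at h1
  have h2 := h.block (a + m * q) r
  have h4 : (4 : ℤ) ^ q * 4 ^ q = 2 ^ (4 * q) := by
    rw [← mul_pow, pow_mul]; norm_num
  have h5 : (1 : ℤ) ≤ 4 ^ q := one_le_pow₀ (by norm_num)
  have h6 : |f * cst k v a q| ≤ |D * f| * (4 ^ q * |k|) := by
    rw [abs_mul]; exact mul_le_mul hf (cst_abs _ _ _ _) (abs_nonneg _) (abs_nonneg _)
  have h7 : 0 ≤ |D * f| * (4 ^ q * |k|) := by positivity
  have h8 : |D * f| * (2 ^ (4 * q) * |k|) = 4 ^ q * (|D * f| * (4 ^ q * |k|)) := by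
    rw [← h4]; ring
  refine ⟨f * cst k v a q, 3 ^ ones v (a + m * q) r * (f * cst k v a q) +
    D * f * cst k v (a + m * q) r, r, hr.le, by nlinarith, ?_, ?_⟩
  · have b1 : |(3 : ℤ) ^ ones v (a + m * q) r| ≤ 4 ^ q := by
      rw [abs_of_nonneg (by positivity)]
      exact (pow_le_pow_left₀ (by norm_num) (by norm_num) _).trans
        (pow_le_pow_right₀ (by norm_num) ((ones_le _ _ _).trans hr.le))
    have b2 : |cst k v (a + m * q) r| ≤ 4 ^ q * |k| := (cst_abs _ _ _ _).trans (by gcongr; norm_num)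
    have b3 := mul_le_mul b1 h6 (abs_nonneg _) (by positivity)
    have b4 := mul_le_mul_of_nonneg_left b2 (abs_nonneg (D * f))
    refine (abs_add_le _ _).trans ?_
    rw [abs_mul, abs_mul (D * f)]
    nlinarith
  · have e1 : a + m * q + r - a = m * q + r := by omega
    rw [e1, ones_add, pow_add, pow_add]
    have h1' : (2 : ℚ) ^ (m * q) * (D * x (a + m * q) - cst k v a q) =
      3 ^ ones v a (m * q) * (D * x a - cst k v a q) := by exact_mod_cast h1
    have h2' : (2 : ℚ) ^ r * x (a + m * q + r) =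
      3 ^ ones v (a + m * q) r * x (a + m * q) + cst k v (a + m * q) r := by exact_mod_cast h2
    push_cast
    field_simp
    linear_combination (2 : ℚ) ^ (m * q) * D * f * h2' + 3 ^ ones v (a + m * q) r * f * h1'

noncomputable section

variable {ι : Type} {U : Ultrafilter ι} {l : ι → ℝ}

/-- sequences of order `o(l)` -/
def Sm (U : Ultrafilter ι) (l : ι → ℝ) (a : ι → ℕ) : Prop :=
  ∀ ε : ℝ, 0 < ε → ∀ᶠ j in (U : Filter ι), (a j : ℝ) ≤ ε * l j

lemma Sm.bd {a : ι → ℕ} (h : Sm U l a) : Bd U l a := ⟨1, h 1 one_pos⟩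

lemma Sm.of_le {a b : ι → ℕ} (h : Sm U l b) (hab : ∀ j, a j ≤ b j) : Sm U l a :=
  fun ε hε => (h ε hε).mono (fun j h => le_trans (by exact_mod_cast hab j) h)

lemma Sm.mul {a : ι → ℕ} (h : Sm U l a) (c : ℕ) : Sm U l (fun j => c * a j) := by
  intro ε hε
  filter_upwards [h (ε / (c + 1)) (by positivity)] with j hj
  rw [div_mul_eq_mul_div, le_div_iff₀ (by positivity)] at hj
  have : (0 : ℝ) ≤ a j := Nat.cast_nonneg _
  push_cast
  nlinarith

variable (hl : Tendsto l U atTop)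
include hl

lemma Sm.nl_eq {a : ι → ℕ} (h : Sm U l a) : nl U l a = 0 := by
  refine le_antisymm (le_of_forall_pos_le_add (fun ε hε => le_of_tendsto (h.bd.tendsto hl) ?_))
    (nl_nonneg hl h.bd)
  filter_upwards [h ε hε, hl.eventually_gt_atTop 0] with j h1 h2
  rw [zero_add, div_le_iff₀ h2]; exact h1

lemma Sm.two_pow {a : ι → ℕ} (h : Sm U l a) : SB U l (fun j => 2 ^ a j) 0 := by
  refine SB.of_forall (fun ε hε => (SB_two_pow hl (h ε hε)).mono hl ?_)
  have := Real.log_two_lt_d9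
  nlinarith

lemma lamv_small {r : ι → ℕ} (h : Sm U l r) :
    lamv F23 (ex hl r (fun _ => 0) h.bd (fun _ => Nat.zero_le _)) = 0 := by
  refine Subtype.ext (funext (fun w => ?_))
  have h0 : Sm U l (fun _ => 0) := h.of_le (fun _ => Nat.zero_le _)
  simp only [lamv, lam0_apply, Fintype.sum_bool, st_ex_false, st_ex_true, h.nl_eq hl, h0.nl_eq hl]
  simp

variable {k : ι → ℤ} {x : ι → ℕ → ℤ} {v : ι → ℕ → Bool} {E : ι → ℤ}

lemma piece_germ (hrec : ∀ j, Rec (k j) (x j) (v j)) (hk : SB U l (fun j => |(k j : ℝ)|) 0)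
    (hE : SB U l (fun j => |(E j : ℝ)|) 0) {a b q : ι → ℕ} (hq1 : ∀ j, 1 ≤ q j) (hq : Sm U l q)
    (hab : ∀ j, a j ≤ b j) (hb : Bd U l b)
    (hper : ∀ j t, a j ≤ t → t + q j < b j → v j (t + q j) = v j t)
    (hdvd : ∀ j, (2 ^ q j - 3 ^ ones (v j) (a j) (q j)) ∣ E j) :
    ∃ (e : EE Bool U l) (γ γ' : KK U), γ ∈ WW F23 hl 0 ∧ γ' ∈ WW F23 hl 0 ∧
      lam0 F23 (some false) e = (nl U l b - nl U l a) * Real.log 2 ∧
      0 ≤ lam0 F23 (some false) e ∧ lam0 F23 none e ≤ lam0 F23 (some false) e ∧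
      zi U (fun j => E j * x j (b j)) =
        mon F23 U e.1 * (zi U (fun j => E j * x j (a j)) - γ) + γ' := by
  choose c c' r hr hc hc' heq using fun j => (hrec j).piece (hq1 j) (hab j) (hper j) (hdvd j)
  have hbd : Bd U l (fun j => b j - a j) := hb.of_le (Eventually.of_forall (fun j => Nat.sub_le _ _))
  have hs : SB U l (fun j => 2 * (|(E j : ℝ)| * (2 ^ (4 * q j) * |(k j : ℝ)|))) 0 := by
    have := (hE.mul (((hq.mul 4).two_pow hl).mul hk (Eventually.of_forall (fun _ => abs_nonneg _)))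
      (Eventually.of_forall (fun _ => by positivity))).const_mul hl
      (Eventually.of_forall (fun _ => by positivity)) 2
    simpa using this
  have hr' : Sm U l r := hq.of_le hr
  refine ⟨ex hl _ (fun j => ones (v j) (a j) (b j - a j)) hbd (fun j => ones_le _ _ _), zi U c,
    mon F23 U (ex hl r (fun _ => 0) hr'.bd (fun _ => Nat.zero_le _)).1 * zi U c',
    zi_mem_WW hl (hs.of_le (Eventually.of_forall (fun j => by exact_mod_cast hc j))), ?_, ?_, ?_,
    ?_, ?_⟩
  · have := mul_mem_WW F23 hl (mon_mem_WW F23 hl (ex hl r (fun _ => 0) hr'.bd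
      (fun _ => Nat.zero_le _)))
      (zi_mem_WW hl (hs.of_le (Eventually.of_forall (fun j => by exact_mod_cast hc' j))))
    rwa [lamv_small hl hr', add_zero] at this
  · rw [lam_two, nl_sub hl hb (Eventually.of_forall hab)]
  · rw [lam_two]; exact mul_nonneg (nl_nonneg hl hbd) (Real.log_nonneg one_le_two)
  · rw [lam_two]; exact lam_inf hl _ _
  · rw [mon_ex, mon_ex]
    simp only [zi, ← map_sub, ← map_mul, ← map_add]
    congr 1
    funext j
    exact heq j

/-- admissible size vectors at normalised time `P` -/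
def Lam (P : ℝ) : Set (ZS Bool) :=
  {μ | (P - 1) * Real.log 2 ≤ μ.1 (some false) ∨
    (0 ≤ μ.1 (some false) ∧ μ.1 none ≤ μ.1 (some false))}

lemma step_Lam {A B : ℝ} {e : EE Bool U l} {γ γ' Y : KK U} (hγ : γ ∈ WW F23 hl 0)
    (hγ' : γ' ∈ WW F23 hl 0) (h1 : lam0 F23 (some false) e = (B - A) * Real.log 2)
    (h2 : 0 ≤ lam0 F23 (some false) e) (h3 : lam0 F23 none e ≤ lam0 F23 (some false) e)
    (hY : Y ∈ MM F23 hl (Lam A)) : mon F23 U e.1 * (Y - γ) + γ' ∈ MM F23 hl (Lam B) := by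
  refine add_mem (mul_mem_MM F23 hl (fun ν hν => ?_) (mon_mem_WW F23 hl e)
    (sub_mem hY (mem_MM F23 hl (Or.inr ⟨le_rfl, le_rfl⟩) hγ)))
    (mem_MM F23 hl (Or.inr ⟨le_rfl, le_rfl⟩) hγ')
  simp only [Lam, Set.mem_ofPred_eq, AddSubgroup.coe_add, Pi.add_apply, lamv] at hν ⊢
  rcases hν with h | h
  · left; linarith
  · right; constructor <;> linarith [h.1, h.2]

theorem blocks_ultra {s : ℕ} {ε : ℝ} (hε : 0 < ε) {p q : ι → ℕ → ℕ}
    (hrec : ∀ j, Rec (k j) (x j) (v j)) (hk : SB U l (fun j => |(k j : ℝ)|) 0)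
    (hx : SB U l (fun j => |(x j 0 : ℝ)|) (Real.log 2)) (hp0 : ∀ j, p j 0 = 0)
    (hp : ∀ j, Monotone (p j)) (hbd : Bd U l (fun j => p j s))
    (hlow : ∀ᶠ j in (U : Filter ι), (1 + ε) * l j ≤ p j s) (hq1 : ∀ j, ∀ i < s, 1 ≤ q j i)
    (hq : ∀ i < s, Sm U l (fun j => q j i))
    (hper : ∀ j, ∀ i < s, ∀ t, p j i ≤ t → t + q j i < p j (i + 1) → v j (t + q j i) = v j t) :
    ∀ᶠ j in (U : Filter ι), ∃ i < s, ∃ m, m + q j i ≤ p j s ∧ x j (m + q j i) = x j m := by
  have hL := Real.log_pos (show (1 : ℝ) < 2 by norm_num)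
  set E : ι → ℤ := fun j => ∏ i ∈ range s, (2 ^ q j i - 3 ^ ones (v j) (p j i) (q j i)) with hEdef
  have hE1 : ∀ j, 1 ≤ |E j| := fun j => Int.one_le_abs
    (prod_ne_zero_iff.2 (fun i hi => two_pow_sub_ne (hq1 j i (mem_range.1 hi))))
  have hE : SB U l (fun j => |(E j : ℝ)|) 0 := by
    have := SB.prod hl (range s) (F := fun i j => 2 ^ (2 * q j i)) (e := fun _ => 0)
      (fun i hi => ((hq i (mem_range.1 hi)).mul 2).two_pow hl)
      (fun _ _ => Eventually.of_forall (fun _ => by positivity))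
    rw [sum_const_zero] at this
    refine this.of_le (Eventually.of_forall (fun j => ?_))
    have h1 : |E j| ≤ ∏ i ∈ range s, 2 ^ (2 * q j i) := by
      rw [hEdef, abs_prod]
      refine prod_le_prod (fun _ _ => abs_nonneg _) (fun i _ => ?_)
      rw [pow_mul]; exact abs_pow_sub_le (ones_le _ _ _)
    exact_mod_cast h1
  have hbi : ∀ i ≤ s, Bd U l (fun j => p j i) := fun i hi =>
    hbd.of_le (Eventually.of_forall (fun j => hp j hi))
  have hstep := fun (i : ℕ) (hi : i < s) (b : ι → ℕ) (h1 : ∀ j, p j i ≤ b j)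
      (h2 : ∀ j, b j ≤ p j (i + 1)) =>
    piece_germ hl hrec hk hE (fun j => hq1 j i hi) (hq i hi) h1
      ((hbi (i + 1) hi).of_le (Eventually.of_forall h2))
      (fun j t a1 a2 => hper j i hi t a1 (a2.trans_le (h2 j)))
      (fun j => dvd_prod_of_mem _ (mem_range.2 hi))
  set Y : (ι → ℕ) → KK U := fun b => zi U (fun j => E j * x j (b j)) with hY
  have hnl0 : nl U l (fun j => p j 0) = 0 :=
    Sm.nl_eq hl (fun ε hε => by
      filter_upwards [hl.eventually_ge_atTop 0] with j hj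
      rw [hp0, Nat.cast_zero]; positivity)
  have hA : ∀ i ≤ s, ∃ (e : EE Bool U l) (ξ : KK U), ξ ∈ MM F23 hl Set.univ ∧
      lam0 F23 (some false) e = nl U l (fun j => p j i) * Real.log 2 ∧
      Y (fun j => p j i) = mon F23 U e.1 * Y (fun j => p j 0) + ξ := by
    intro i
    induction i with
    | zero => exact fun _ => ⟨0, 0, zero_mem _, by simp [hnl0], by simp [mon_zero]⟩
    | succ i ih =>
      intro hi
      obtain ⟨e, ξ, h1, h2, h3⟩ := ih (by omega)
      obtain ⟨e', γ, γ', g1, g2, g3, -, -, g4⟩ :=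
        hstep i hi _ (fun j => hp j (Nat.le_succ i)) (fun _ => le_rfl)
      refine ⟨e' + e, mon F23 U e'.1 * (ξ - γ) + γ', add_mem (mul_mem_MM F23 hl
        (fun _ _ => Set.mem_univ _) (mon_mem_WW F23 hl e')
        (sub_mem h1 (mem_MM F23 hl (Set.mem_univ _) g1))) (mem_MM F23 hl (Set.mem_univ _) g2),
        by rw [map_add, g3, h2]; ring, ?_⟩
      change Y _ = mon F23 U e'.1 * (Y _ - γ) + γ' at g4
      rw [g4, h3, AddSubgroup.coe_add, mon_add]; ring
  have hY0 : ∀ w, GLe l (F23.av w) (Y (fun j => p j 0)) (Option.elim w (Real.log 2) (fun _ => 0)) := by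
    refine GLe_zi hl ?_
    simpa [hp0, abs_mul] using hE.mul hx (Eventually.of_forall (fun _ => abs_nonneg _))
  have hB : Y (fun j => p j 0) ∈ MM F23 hl Set.univ := by
    obtain ⟨e, ξ, h1, h2, h3⟩ := hA s le_rfl
    refine mem_MM_of_approx F23 hl (mem_GQ_of_GO _ (zi_mem _)) _ hY0
      (mul_mem_MM F23 hl (fun _ _ => Set.mem_univ _) (mon_mem_WW F23 hl (-e)) h1) (some false)
      (τ := lam0 F23 (some false) (-e) + 0) ?_ ?_
    · have : Y (fun j => p j 0) + mon F23 U (-e).1 * ξ = mon F23 U (-e).1 * Y (fun j => p j s) := by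
        rw [h3, mul_add, ← mul_assoc, ← mon_add]
        simp [mon_zero]
      rw [this]
      exact (GLe_mon F23 hl _ _).mul (GLe_zi_some hl _ _)
    · have := le_nl hl hbd hlow
      simp only [map_neg, h2, Fintype.sum_option, Option.elim, sum_const_zero]
      nlinarith
  have hC : ∀ i ≤ s, Y (fun j => p j i) ∈ MM F23 hl (Lam (nl U l (fun j => p j i))) := by
    intro i
    induction i with
    | zero =>
      intro _
      refine MM_mono F23 hl (fun μ hμ => Or.inl ?_)
        (MM_restrict F23 hl (MM_restrict F23 hl hB none (hY0 none)) (some true) (hY0 (some true)))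
      have h1 : ∑ w, μ.1 w = 0 := μ.2
      have h2 : μ.1 none ≤ Real.log 2 := hμ.1.2
      have h3 : μ.1 (some true) ≤ 0 := hμ.2
      rw [Fintype.sum_option, Fintype.sum_bool] at h1
      rw [hnl0]; linarith
    | succ i ih =>
      intro hi
      obtain ⟨e', γ, γ', g1, g2, g3, g5, g6, g4⟩ :=
        hstep i hi _ (fun j => hp j (Nat.le_succ i)) (fun _ => le_rfl)
      rw [hY]
      simp only
      rw [g4]
      exact step_Lam hl g1 g2 g3 g5 g6 (ih (by omega))
  let N : ι → ℕ := fun j => ⌈(1 + ε / 2) * l j⌉₊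
  obtain ⟨⟨i, hi⟩, hlong⟩ := ultra_exists U (α := Fin s)
    (p := fun j i => ε / (4 * (s + 1)) * l j + max (p j i) (N j) ≤ p j (i + 1)) (by
      filter_upwards [hlow, hl.eventually_gt_atTop (4 / ε)] with j h1 h2
      by_contra hcon
      push Not at hcon
      have h0 : 0 < l j := lt_trans (by positivity) h2
      have h3 : ∀ i ≤ s, (max (p j i) (N j) : ℝ) ≤ N j + i * (ε / (4 * (s + 1)) * l j) := by
        intro i
        induction i with
        | zero => simp [hp0]
        | succ i ih =>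
          intro hi
          have a1 := hcon ⟨i, hi⟩
          have a2 := ih (by omega)
          have a3 : 0 ≤ ε / (4 * (s + 1)) * l j := by positivity
          have a4 : 0 ≤ i * (ε / (4 * (s + 1)) * l j) := by positivity
          push_cast at a1 ⊢
          refine max_le ?_ ?_ <;> linarith
      have h4 := (le_max_left _ _).trans (h3 s le_rfl)
      have h5 : (N j : ℝ) < (1 + ε / 2) * l j + 1 := Nat.ceil_lt_add_one (by positivity)
      have h6 : s * (ε / (4 * (s + 1)) * l j) ≤ ε / 4 * l j := by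
        rw [← mul_assoc]
        refine mul_le_mul_of_nonneg_right ?_ h0.le
        rw [mul_div_assoc', div_le_div_iff₀ (by positivity) (by positivity)]
        nlinarith
      rw [div_lt_iff₀ hε] at h2
      nlinarith)
  simp only at hlong
  set δ := ε / (4 * (s + 1)) with hδ
  have hδ0 : 0 < δ := by positivity
  let m : ι → ℕ := fun j => min (max (p j i) (N j)) (p j (i + 1))
  have hm1 : ∀ j, p j i ≤ m j := fun j => le_min (le_max_left _ _) (hp j (Nat.le_succ i))
  have hm2 : ∀ j, m j ≤ p j (i + 1) := fun j => min_le_right _ _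
  have hm3 : ∀ᶠ j in (U : Filter ι), m j = max (p j i) (N j) := by
    filter_upwards [hlong, hl.eventually_ge_atTop 0] with j h1 h2
    refine min_eq_left ?_
    have : 0 ≤ δ * l j := by positivity
    exact_mod_cast (show ((max (p j i) (N j) : ℕ) : ℝ) ≤ p j (i + 1) by linarith)
  have hm4 : 1 + ε / 2 ≤ nl U l m := le_nl hl ((hbi (i + 1) hi).of_le (Eventually.of_forall hm2)) (by
    filter_upwards [hm3] with j h1
    rw [h1]
    exact (Nat.le_ceil _).trans (by exact_mod_cast le_max_right _ _))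
  have hD : SB U l (fun j => |(x j (m j) : ℝ)|) 0 := by
    obtain ⟨e', γ, γ', g1, g2, g3, g5, g6, g4⟩ := hstep i hi m hm1 hm2
    have h1 := step_Lam hl g1 g2 g3 g5 g6 (hC i hi.le)
    rw [← g4] at h1
    have h2 := GLe_of_mem_MM F23 hl none (τ := 0) (fun μ hμ => by
      have a1 : μ.1 (some false) ≤ 0 := hμ.2
      rcases hμ.1 with a2 | a2
      · nlinarith
      · linarith [a2.2]) (MM_restrict F23 hl h1 (some false) (GLe_zi_some hl _ _))
    refine (GLe_zi_none.1 h2).of_le (Eventually.of_forall (fun j => ?_))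
    have : |x j (m j)| ≤ |E j * x j (m j)| := by
      rw [abs_mul]; exact le_mul_of_one_le_left (abs_nonneg _) (hE1 j)
    exact_mod_cast this
  have hF : SB U l (fun j => |(x j (m j) : ℝ)| + 2 ^ q j i * (|(x j (m j) : ℝ)| + |(k j : ℝ)|)) 0 := by
    refine hD.add hl ?_
    simpa using ((hq i hi).two_pow hl).mul (hD.add hl hk)
      (Eventually.of_forall (fun _ => by positivity))
  filter_upwards [hF (δ / 4) (by positivity), hlong, hm3, hq i hi (δ / 2) (by positivity),
    hl.eventually_gt_atTop 0] with j h1 h2 h3 h4 h5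
  rw [← h3] at h2
  have h6 : m j + q j i ≤ p j (i + 1) := by
    have : 0 ≤ δ * l j := by positivity
    exact_mod_cast (show (m j : ℝ) + q j i ≤ p j (i + 1) by linarith)
  refine ⟨i, hi, m j, h6.trans (hp j hi), (hrec j).eq_of_small (r := p j (i + 1) - (m j + q j i))
    (fun t ht => ?_) ?_⟩
  · rw [← hper j i hi (m j + t) (by linarith [hm1 j]) (by omega)]
    congr 1; ring
  · have a1 := (hrec j).growth' (m j) (q j i)
    have a2 : |(x j (m j + q j i) : ℝ)| + |(k j : ℝ)| ≤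
        2 ^ q j i * (|(x j (m j) : ℝ)| + |(k j : ℝ)|) := by exact_mod_cast a1
    have a3 : Real.exp ((0 + δ / 4) * l j) < 2 ^ (p j (i + 1) - (m j + q j i)) := by
      rw [← Real.exp_log (show (0 : ℝ) < 2 ^ (p j (i + 1) - (m j + q j i)) by positivity),
        Real.log_pow, Real.exp_lt_exp, Nat.cast_sub h6]
      have := Real.log_two_gt_d9
      have : 0 < δ * l j := by positivity
      push_cast
      nlinarith
    have a4 := abs_nonneg (k j : ℝ)
    exact_mod_cast (show |(x j (m j) : ℝ)| + |(x j (m j + q j i) : ℝ)| <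
      2 ^ (p j (i + 1) - (m j + q j i)) by linarith)

end

end Pool.Agent.Lib.MP_7f88e4_nt
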