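import Pool.Agent.Lib.MP_7f88e4_nt.STBlocks

set_option autoImplicit false

namespace Pool.Agent.Lib.MP_7f88e4_nt

open Finset Filter Topology Pool.Agent.Shared.Subspace

lemma tendsto_scale {n : ℕ → ℕ} (h : ∀ j, j ≤ n j) :
    Tendsto (fun j => (n j : ℝ)) (hyperfilter ℕ) atTop :=
  tendsto_natCast_atTop_atTop.comp ((tendsto_atTop_mono h tendsto_id).mono_left
    Nat.hyperfilter_le_atTop)

lemma eventually_ge_hyper (c : ℝ) : ∀ᶠ j : ℕ in (hyperfilter ℕ : Filter ℕ), c ≤ j :=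
  (tendsto_scale (n := id) (fun _ => le_rfl)).eventually_ge_atTop c

lemma sm_of_mul_le {n q : ℕ → ℕ} (h : ∀ j, j * q j ≤ n j) :
    Sm (hyperfilter ℕ) (fun j => (n j : ℝ)) q := by
  intro ε hε
  filter_upwards [eventually_ge_hyper (1 / ε)] with j hj
  have h1 : (j : ℝ) * q j ≤ n j := by exact_mod_cast h j
  have h2 : (0 : ℝ) ≤ q j := Nat.cast_nonneg _
  rw [div_le_iff₀ hε] at hj
  nlinarith

lemma sb_of_pow_le {n : ℕ → ℕ} {k : ℕ → ℤ} (h : ∀ j, |k j| ^ j ≤ 2 ^ n j) :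
    SB (hyperfilter ℕ) (fun j => (n j : ℝ)) (fun j => |(k j : ℝ)|) 0 := by
  intro ε hε
  filter_upwards [eventually_ge_hyper (1 / ε), eventually_ge_hyper 1] with j hj hj1
  have h1 : |(k j : ℝ)| ^ j ≤ 2 ^ n j := by exact_mod_cast h j
  have hj0 : j ≠ 0 := by rintro rfl; norm_num at hj1
  refine le_of_pow_le_pow_left₀ hj0 (Real.exp_pos _).le (h1.trans ?_)
  rw [← Real.exp_nat_mul, ← Real.exp_log (show (0 : ℝ) < 2 ^ n j by positivity), Real.log_pow,
    Real.exp_le_exp]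
  have := Real.log_two_lt_d9
  have h2 : (0 : ℝ) ≤ n j := Nat.cast_nonneg _
  rw [div_le_iff₀ hε] at hj
  nlinarith

theorem blocks_core (s : ℕ) {ε : ℝ} (hε : 0 < ε) : ∃ m : ℕ, ∀ (k : ℤ) (x : ℕ → ℤ) (v : ℕ → Bool)
    (n : ℕ) (p q : ℕ → ℕ), Rec k x v → m ≤ n → |x 0| ≤ 2 ^ n → |k| ^ m ≤ 2 ^ n → p 0 = 0 →
    Monotone p → (1 + ε) * n ≤ p s →
    (∀ i < s, 1 ≤ q i ∧ m * q i ≤ n ∧ ∀ t, p i ≤ t → t + q i < p (i + 1) → v (t + q i) = v t) →
    ∃ i < s, ∃ t, t + q i ≤ p s ∧ x (t + q i) = x t := by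
  by_contra hcon
  push Not at hcon
  choose k x v n p q hrec hn hx hk hp0 hp hlow hq hne using hcon
  have hl := tendsto_scale hn
  let N : ℕ → ℕ := fun j => ⌈(1 + ε) * n j⌉₊
  have := blocks_ultra hl hε (s := s) (p := fun j i => min (p j i) (N j)) (q := q) hrec
    (sb_of_pow_le hk) (by
      simpa using (SB_two_pow hl (q := n) (c := 1) (by simp)).of_le
        (Eventually.of_forall (fun j => by exact_mod_cast hx j)))
    (fun j => by simp [hp0]) (fun j a b h => min_le_min_right _ (hp j h))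
    ⟨2 + ε, by
      filter_upwards [hl.eventually_ge_atTop 1] with j hj
      have h1 : (N j : ℝ) < (1 + ε) * n j + 1 := Nat.ceil_lt_add_one (by positivity)
      have h2 : ((min (p j s) (N j) : ℕ) : ℝ) ≤ N j := by exact_mod_cast min_le_right _ _
      linarith⟩
    (Eventually.of_forall (fun j => by
      rw [Nat.cast_min]; exact le_min (hlow j) (Nat.le_ceil _)))
    (fun j i hi => (hq j i hi).1) (fun i hi => sm_of_mul_le (fun j => (hq j i hi).2.1))
    (fun j i hi t h1 h2 => (hq j i hi).2.2 t (by omega) (by omega))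
  obtain ⟨j, i, hi, t, h1, h2⟩ := this.exists
  exact hne j i hi t (h1.trans (min_le_left _ _)) h2

/-- along an orbit without short returns, windows of geometrically growing length contain many
block boundaries -/
theorem blocks_iter (s : ℕ) : ∃ m : ℕ, ∀ (k : ℤ) (x : ℕ → ℤ) (v : ℕ → Bool)
    (n i0 : ℕ) (p q : ℕ → ℕ), Rec k x v → m ≤ n → |x i0| + |k| ≤ 2 ^ n → |k| ^ m ≤ 2 ^ n →
    p 0 ≤ i0 → Monotone p →
    (∀ i, 1 ≤ q i ∧ m * q i ≤ n ∧ ∀ t, p i ≤ t → t + q i < p (i + 1) → v (t + q i) = v t) →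
    (∀ i t, x (t + q i) ≠ x t) → ∀ a, p (a * s) ≤ i0 + (3 ^ a - 1) * n := by
  obtain ⟨m, H⟩ := blocks_core s one_pos
  refine ⟨m, fun k x v n i0 p q hrec hn hx hk hp0 hp hq hne a => ?_⟩
  induction a with
  | zero => simpa using hp0
  | succ a ih =>
    by_contra hcon
    push Not at hcon
    obtain ⟨b, hb⟩ : ∃ b, 3 ^ a = b + 1 := ⟨3 ^ a - 1, by
      have : 1 ≤ 3 ^ a := Nat.one_le_pow _ _ (by norm_num)
      omega⟩
    rw [pow_succ, hb, show (b + 1) * 3 - 1 = b + 2 * (b + 1) by omega, add_mul, add_mul] at hcon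
    rw [hb, Nat.add_sub_cancel] at ih
    set M := i0 + b * n with hM
    have hnn : n ≤ (b + 1) * n := Nat.le_mul_of_pos_left _ (by omega)
    obtain ⟨i, -, t, -, h⟩ := H k _ _ ((b + 1) * n) (fun i => p (a * s + i) - M)
      (fun i => q (a * s + i)) (hrec.shift M) (hn.trans hnn) (by
        have h1 := hrec.growth' i0 (b * n)
        have h2 : (2 : ℤ) ^ ((b + 1) * n) = 2 ^ (b * n) * 2 ^ n := by rw [← pow_add]; ring_nf
        have h3 := mul_le_mul_of_nonneg_left hx (show (0 : ℤ) ≤ 2 ^ (b * n) by positivity)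
        have := abs_nonneg k
        simp only [add_zero]
        linarith)
      (hk.trans (pow_le_pow_right₀ (by norm_num) hnn)) (Nat.sub_eq_zero_of_le ih)
      (fun i j h => Nat.sub_le_sub_right (hp (by omega)) _) (by
        have : 2 * ((b + 1) * n) ≤ p (a * s + s) - M := by
          rw [one_mul, mul_assoc] at hcon; omega
        have h2 : ((2 * ((b + 1) * n) : ℕ) : ℝ) ≤ (p (a * s + s) - M : ℕ) := by exact_mod_cast this
        rw [Nat.cast_mul] at h2
        norm_num at h2 ⊢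
        exact h2)
      (fun i _ => ⟨(hq _).1, (hq _).2.1.trans hnn, fun t h1 h2 => by
        simp only [← add_assoc] at h2 ⊢
        exact (hq _).2.2 (M + t) (by omega) (by omega)⟩)
    exact hne (a * s + i) (M + t) (by rw [add_assoc]; exact h)

end Pool.Agent.Lib.MP_7f88e4_nt
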