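import Pool.Agent.Lib.MP_7f88e4_nt.STBlocks2
import Pool.Agent.Lib.MP_7f88e4_nt.CycleMin
import Pool.Agent.Lib.MP_7f88e4_nt.Final

set_option autoImplicit false

namespace Pool.Agent.Lib.MP_7f88e4_nt

open Finset Filter Topology

lemma tendsto_log_nat : Tendsto (fun L : ℕ => Real.log L) atTop atTop :=
  Real.tendsto_log_atTop.comp tendsto_natCast_atTop_atTop

lemma cycle_small (k : ℤ) : ∀ᶠ L : ℕ in atTop, ∀ (x : ℕ → ℤ) (v : ℕ → Bool), Rec k x v →
    x L = x 0 → ∀ n : ℕ, Real.log L ^ 6 ≤ n → ∃ i < L, |x i| + |k| ≤ 2 ^ n := by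
  obtain ⟨κ, hκ⟩ : ∃ κ : ℕ, |k| ≤ 2 ^ κ := ⟨k.natAbs, by
    rw [Int.abs_eq_natAbs]; exact_mod_cast Nat.lt_two_pow_self.le⟩
  filter_upwards [tendsto_log_nat.eventually_ge_atTop (2 ^ 86 + 4 + κ), eventually_ge_atTop 1]
    with L hu hL x v hrec hp n hn
  set u := Real.log L with hudef
  have hκ0 : (0 : ℝ) ≤ κ := Nat.cast_nonneg _
  have hu1 : 1 ≤ u := by linarith
  have hl2 := Real.log_two_gt_d9
  have a3 : Real.logb 2 L ≤ 2 * u := by
    rw [Real.logb, div_le_iff₀ (by linarith)]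
    nlinarith
  set N := Nat.log 2 L + 1 with hN
  have a4 : (N : ℝ) ≤ 3 * u := by
    have := Real.natLog_le_logb L 2
    rw [hN]
    push_cast at this ⊢
    linarith
  have hLN : L ≤ 2 ^ N := (Nat.lt_pow_succ_log_self (by norm_num) L).le
  obtain ⟨i, hi, h⟩ := hrec.cycle_min (n := N) hL (by omega) hLN hp
  refine ⟨i, hi, ?_⟩
  have b1 : 2 ^ 78 * N ^ 5 + N + κ + 1 ≤ n := by
    have c1 : (N : ℝ) ^ 5 ≤ (3 * u) ^ 5 := by gcongr
    have c2 : u ≤ u ^ 5 := le_self_pow₀ hu1 (by norm_num)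
    have c3 : (2 ^ 86 + 4 + κ) * u ^ 5 ≤ u ^ 6 := by
      rw [pow_succ' u 5]; gcongr
    have c4 : (κ : ℝ) * 1 ≤ κ * u ^ 5 := by gcongr; linarith
    have : ((2 ^ 78 * N ^ 5 + N + κ + 1 : ℕ) : ℝ) ≤ n := by
      push_cast
      nlinarith
    exact_mod_cast this
  have b2 : (2 : ℤ) ^ (2 ^ 78 * N ^ 5) * L * |k| ≤ 2 ^ (2 ^ 78 * N ^ 5 + N + κ) := by
    rw [pow_add, pow_add]
    have : (L : ℤ) ≤ 2 ^ N := by exact_mod_cast hLN
    gcongr
  have b3 : (2 : ℤ) ^ κ ≤ 2 ^ (2 ^ 78 * N ^ 5 + N + κ) := pow_le_pow_right₀ (by norm_num) (by omega)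
  have b4 : (2 : ℤ) ^ (2 ^ 78 * N ^ 5 + N + κ + 1) ≤ 2 ^ n := pow_le_pow_right₀ (by norm_num) b1
  rw [pow_succ] at b4
  linarith

lemma finite_of_eventually {k : ℤ} (hk : Odd k) {Q : ℤ → Prop}
    (h : ∀ᶠ L : ℕ in atTop, ∀ x, Function.minimalPeriod (T k) x = L → ¬ Q x) :
    Set.Finite {x : ℤ | 0 < Function.minimalPeriod (T k) x ∧ Q x} := by
  obtain ⟨L0, hL0⟩ := eventually_atTop.1 h
  set B : ℤ := 2 ^ L0 * (2 ^ (2 ^ 78 * L0 ^ 5) * L0 * |k| + |k|) with hB
  refine (Set.finite_Icc (-B) B).subset ?_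
  rintro x ⟨hL, hQ⟩
  set L := Function.minimalPeriod (T k) x with hLdef
  have hLL : L ≤ L0 := by
    by_contra hc
    exact hL0 L (not_le.1 hc).le x rfl hQ
  have hrec := rec_orbit hk x
  have hp : (T k)^[L] x = (T k)^[0] x := Function.iterate_minimalPeriod
  obtain ⟨i, hi, h1⟩ := hrec.cycle_min (n := L0) hL (by omega)
    (hLL.trans Nat.lt_two_pow_self.le) hp
  have h2 := hrec.growth' i (L - i)
  simp only [Nat.add_sub_cancel' hi.le, hp, Function.iterate_zero, id] at h2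
  refine abs_le.1 (le_trans (le_add_of_nonneg_right (abs_nonneg k)) (h2.trans ?_))
  have : L - i ≤ L0 := by omega
  rw [hB]
  gcongr
  · norm_num
  · refine h1.trans ?_
    gcongr

lemma no_short_return {k x : ℤ} {d : ℕ} (hd : 0 < d) (hdL : d < Function.minimalPeriod (T k) x)
    (t : ℕ) : (T k)^[t + d] x ≠ (T k)^[t] x := by
  intro h
  have h1 : Function.IsPeriodicPt (T k) d ((T k)^[t] x) := by
    rw [Function.IsPeriodicPt, Function.IsFixedPt, ← Function.iterate_add_apply, add_comm, h]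
  have h2 := h1.minimalPeriod_le hd
  rw [Function.minimalPeriod_apply_iterate
    (Function.minimalPeriod_pos_iff_mem_periodicPts.1 (by omega))] at h2
  omega

lemma parity_add_period (k x : ℤ) (t : ℕ) :
    parity k x (Function.minimalPeriod (T k) x + t) = parity k x t := by
  rw [parity, parity, add_comm, Function.iterate_add_apply, Function.iterate_minimalPeriod]

theorem few_blocks {k : ℤ} (hk : Odd k) (C : ℝ) {δ : ℝ} (hδ : 0 < δ) (hδ1 : δ ≤ 1) :
    ∀ᶠ L : ℕ in atTop, ∀ x, Function.minimalPeriod (T k) x = L → ∀ (r : ℕ) (p q : ℕ → ℕ),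
      p 0 = 0 → p r = L → Monotone p → (∀ i < r, 1 ≤ q i ∧ (q i : ℝ) ≤ L ^ (1 - δ) ∧
        ∀ t, p i ≤ t → t + q i < p (i + 1) → parity k x (t + q i) = parity k x t) →
      C * Real.log L < r := by
  obtain ⟨s, hs⟩ := exists_nat_ge (16 * C / δ)
  obtain ⟨m, H⟩ := blocks_iter s
  obtain ⟨κ, hκ⟩ : ∃ κ : ℕ, |k| ^ m ≤ 2 ^ κ := ⟨(|k| ^ m).natAbs, by
    rw [← abs_of_nonneg (show 0 ≤ |k| ^ m by positivity), Int.abs_eq_natAbs]
    exact_mod_cast Nat.lt_two_pow_self.le⟩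
  have e1 := (isLittleO_log_rpow_rpow_atTop (s := 1 / 2) 6 (by norm_num)).eventuallyLE
  have e2 := (tendsto_rpow_atTop (half_pos hδ)).eventually_ge_atTop ((m : ℝ) + κ + 2)
  filter_upwards [cycle_small k, tendsto_natCast_atTop_atTop.eventually e1,
    tendsto_natCast_atTop_atTop.eventually e2, tendsto_log_nat.eventually_ge_atTop (16 / δ),
    eventually_ge_atTop 2] with L hsm h1 h2 h3 hL x hper r p q hp0 hpr hp hq
  have hL1 : (1 : ℝ) ≤ L := by exact_mod_cast (by omega : 1 ≤ L)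
  have hm0 : (0 : ℝ) ≤ m := Nat.cast_nonneg _
  have hκ0 : (0 : ℝ) ≤ κ := Nat.cast_nonneg _
  set w : ℝ := L ^ (δ / 2) with hw
  set n := ⌈(L : ℝ) ^ (1 - δ / 2)⌉₊ with hn
  have hn1 : (L : ℝ) ^ (1 - δ / 2) ≤ n := Nat.le_ceil _
  have hn2 : (L : ℝ) ^ (1 - δ) * w = L ^ (1 - δ / 2) := by
    rw [hw, ← Real.rpow_add (by linarith)]; congr 1; ring
  have hn3 : (L : ℝ) ^ (1 - δ / 2) * w = L := by
    rw [hw, ← Real.rpow_add (by linarith)]; simp
  have hn4 : (1 : ℝ) ≤ L ^ (1 - δ) := Real.one_le_rpow hL1 (by linarith)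
  have hn5 : w ≤ n := by nlinarith
  have hn6 : (n : ℝ) ≤ 2 * L ^ (1 - δ / 2) := by
    have := Nat.ceil_lt_add_one (show (0 : ℝ) ≤ L ^ (1 - δ / 2) by positivity)
    have := Real.one_le_rpow hL1 (show 0 ≤ 1 - δ / 2 by linarith)
    linarith
  have hlog : Real.log L ^ 6 ≤ n := by
    rw [Real.norm_eq_abs, Real.norm_eq_abs, abs_of_nonneg (show (0 : ℝ) ≤ L ^ (1 / 2 : ℝ) by positivity),
      show (6 : ℝ) = (6 : ℕ) by norm_num, Real.rpow_natCast] at h1
    exact ((le_abs_self _).trans h1).trans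
      ((Real.rpow_le_rpow_of_exponent_le hL1 (by linarith)).trans hn1)
  have hrec := rec_orbit hk x
  obtain ⟨i0, hi0, hx⟩ := hsm _ _ hrec (hper ▸ Function.iterate_minimalPeriod) n hlog
  have hq' : ∀ d : ℕ, (d : ℝ) ≤ L ^ (1 - δ) → m * d ≤ n ∧ d < L := by
    intro d hd
    have hd0 : (0 : ℝ) ≤ d := Nat.cast_nonneg _
    constructor
    · exact_mod_cast (show (m : ℝ) * d ≤ n by nlinarith)
    · have : (L : ℝ) ^ (1 - δ) * w * w = L := by rw [hn2, hn3]
      have : 2 * 2 ≤ w * w := mul_le_mul (by linarith) (by linarith) (by norm_num) (by linarith)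
      exact_mod_cast (show (d : ℝ) < L by nlinarith)
  let p' : ℕ → ℕ := fun i => p (min i r) + p (min (i - r) r)
  let q' : ℕ → ℕ := fun i => if i < r then q i else if i - r < r then q (i - r) else 1
  have hq1 : ∀ i, 1 ≤ q' i ∧ (q' i : ℝ) ≤ L ^ (1 - δ) := by
    intro i
    simp only [q']
    split_ifs with a b
    · exact ⟨(hq i a).1, (hq i a).2.1⟩
    · exact ⟨(hq _ b).1, (hq _ b).2.1⟩
    · exact ⟨le_rfl, by simpa using hn4⟩
  have hp' : Monotone p' := fun i j h => add_le_add (hp (by omega)) (hp (by omega))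
  have key := H k _ _ n i0 p' q' hrec (by exact_mod_cast (show (m : ℝ) ≤ n by linarith)) hx
    (hκ.trans (pow_le_pow_right₀ (by norm_num) (by exact_mod_cast (show (κ : ℝ) ≤ n by linarith))))
    (by simp [p', hp0]) hp' (fun i => ⟨(hq1 i).1, (hq' _ (hq1 i).2).1, fun t a1 a2 => by
      simp only [p', q'] at a1 a2 ⊢
      split_ifs at a2 ⊢ with a b
      · rw [min_eq_left a.le] at a1
        rw [min_eq_left (show i + 1 ≤ r from a), show i + 1 - r = 0 by omega, Nat.zero_min, hp0] at a2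
        exact (hq i a).2.2 t (by omega) a2
      · rw [min_eq_right (not_lt.1 a), hpr, min_eq_left b.le] at a1
        rw [min_eq_right (by omega), hpr, show i + 1 - r = i - r + 1 by omega,
          min_eq_left (show i - r + 1 ≤ r from b)] at a2
        obtain ⟨t, rfl⟩ : ∃ t', t = L + t' := ⟨t - L, by omega⟩
        rw [add_assoc, ← hper, parity_add_period, parity_add_period]
        exact (hq _ b).2.2 t (by omega) (by omega)
      · rw [min_eq_right (by omega), min_eq_right (by omega)] at a1 a2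
        omega⟩)
    (fun i t => no_short_return (hq1 i).1 (hper ▸ (hq' _ (hq1 i).2).2) t)
  obtain ⟨a, ha1, ha2⟩ := exists_nat_pow_near (x := w / 2) (y := 3) (by linarith) (by norm_num)
  have b1 : 3 ^ a * n ≤ L := by
    have : (0 : ℝ) ≤ n := Nat.cast_nonneg _
    have : (0 : ℝ) ≤ L ^ (1 - δ / 2) := by positivity
    exact_mod_cast (show (3 : ℝ) ^ a * n ≤ L by nlinarith)
  have b2 : a * s < 2 * r := by
    by_contra hc
    have c1 := (hp' (not_lt.1 hc)).trans (key a)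
    simp only [p'] at c1
    rw [min_eq_right (by omega), min_eq_right (by omega), hpr] at c1
    have : (3 ^ a - 1) * n ≤ 3 ^ a * n := Nat.mul_le_mul_right _ (Nat.sub_le _ _)
    omega
  have b3 : δ / 2 * Real.log L ≤ 2 * (a + 2) := by
    have c1 : w ≤ Real.exp 2 ^ (a + 2) := by
      have : (3 : ℝ) ≤ Real.exp 2 := by linarith [Real.add_one_le_exp 2]
      refine le_trans ?_ (pow_le_pow_left₀ (by norm_num) this _)
      rw [pow_succ]
      have : (0 : ℝ) < 3 ^ (a + 1) := by positivity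
      linarith
    have c2 := Real.log_le_log (by linarith) c1
    rw [hw, Real.log_rpow (by linarith), Real.log_pow, Real.log_exp] at c2
    push_cast at c2
    linarith
  have b4 : (a : ℝ) * s < 2 * r := by exact_mod_cast b2
  rw [div_le_iff₀ hδ] at hs h3
  have b5 : δ / 8 * Real.log L ≤ a := by linarith
  have b6 : (0 : ℝ) ≤ s := Nat.cast_nonneg _
  have b7 := mul_le_mul_of_nonneg_right b5 b6
  have b8 := mul_le_mul_of_nonneg_right hs (Real.log_nonneg hL1)
  nlinarith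

end Pool.Agent.Lib.MP_7f88e4_nt
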