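import Pool.Agent.Lib.MP_7f88e4_nt.STStage
import Pool.Agent.Lib.MP_7f88e4_nt.STBlocks2

set_option autoImplicit false

namespace Pool.Agent.Lib.MP_7f88e4_nt

open Finset Filter Topology Pool.Agent.Shared.Subspace

section

variable {ι : Type} {U : Ultrafilter ι} {l : ι → ℝ} (hl : Tendsto l U atTop)
include hl

lemma Bd.sb {d : ι → ℕ} (h : Bd U l d) : SB U l (fun j => (d j : ℝ)) 0 := by
  obtain ⟨B, hB⟩ := h
  intro ε hε
  filter_upwards [hB, hl.eventually_ge_atTop (4 * B / ε ^ 2), hl.eventually_ge_atTop 0]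
    with j h1 h2 h3
  have a1 : ε * l j / 2 ≤ Real.exp (ε * l j / 2) := by linarith [Real.add_one_le_exp (ε * l j / 2)]
  have a2 := mul_le_mul a1 a1 (by positivity) (Real.exp_pos _).le
  rw [← Real.exp_add, add_halves] at a2
  rw [div_le_iff₀ (by positivity)] at h2
  rw [zero_add]
  nlinarith

variable {k : ι → ℤ} {x : ι → ℕ → ℤ} {v : ι → ℕ → Bool} {E : ι → ℤ}

lemma exists_low (hrec : ∀ j, Rec (k j) (x j) (v j)) (hE : ∀ j, E j ≠ 0) {r : ℕ}
    (τ : Fin r → ι → ℕ) (τ0 τ1 : ι → ℕ) (h0 : ∀ i j, τ0 j ≤ τ i j) (h1 : ∀ i j, τ i j ≤ τ1 j)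
    (h01 : ∀ j, τ0 j ≤ τ1 j) (hbd : Bd U l τ1) {C W c : ℝ} (hC : 2 * C < W * Real.log 2)
    (hsep : ∀ i i', i < i' → ∀ᶠ j in (U : Filter ι), τ i j + W * l j ≤ τ i' j)
    (κ : Fin r → KK U) (hκ : ∀ i, κ i ∈ RI F23 hl (some false) C) (hκ0 : κ ≠ 0)
    (hrel : ∑ i, κ i * zi U (fun j => E j * x j (τ i j)) = 0) (hc : 0 < c) {δ : ι → ℝ}
    (hδ0 : ∀ j, 0 ≤ δ j) (hδ : SB U l δ (-c)) :
    ∀ᶠ j in (U : Filter ι), ∃ m, τ0 j ≤ m ∧ m ≤ τ1 j ∧
      (x j m = 0 ∨ δ j * |(x j m : ℝ)| < |(k j : ℝ)|) := by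
  by_contra hcon
  rw [← Ultrafilter.eventually_not] at hcon
  have hL := Real.log_pos (show (1 : ℝ) < 2 by norm_num)
  have hbi : ∀ i, Bd U l (τ i) := fun i => hbd.of_le (Eventually.of_forall (h1 i))
  have hbd' : ∀ i, Bd U l (fun j => τ i j - τ0 j) := fun i =>
    (hbi i).of_le (Eventually.of_forall (fun j => Nat.sub_le _ _))
  let a : Fin r → ι → ℕ := fun i j => ones (v j) (τ0 j) (τ i j - τ0 j)
  let ε : Fin r → ι → ℚ := fun i j =>
    2 ^ (τ i j - τ0 j) * x j (τ i j) / (3 ^ a i j * x j (τ0 j)) - 1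
  have hx0 : ∀ᶠ j in (U : Filter ι), x j (τ0 j) ≠ 0 :=
    hcon.mono (fun j hj h => hj ⟨_, le_rfl, h01 j, Or.inl h⟩)
  refine separated_sum F23 hl (some false) none hc κ hκ hκ0
    (fun i => ex hl _ (a i) (hbd' i) (fun j => ones_le _ _ _)) (fun i i' hne => ?_)
    (fun i => gm U (ε i)) (fun i => ?_) ?_
  · rw [lam_two, lam_two, nl_sub hl (hbi i) (Eventually.of_forall (h0 i)),
      nl_sub hl (hbi i') (Eventually.of_forall (h0 i'))]
    rcases lt_or_gt_of_ne hne with h | h
    · have := nl_le hl (hbi i) (hbi i') (hsep i i' h)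
      refine lt_abs.2 (Or.inr ?_); nlinarith
    · have := nl_le hl (hbi i') (hbi i) (hsep i' i h)
      refine lt_abs.2 (Or.inl ?_); nlinarith
  · have b1 := ((hbd' i).sb hl).mul hδ (Eventually.of_forall hδ0)
    rw [zero_add] at b1
    rw [GLe_gm]
    refine (b1.const_mul hl (Eventually.of_forall (fun j => mul_nonneg (Nat.cast_nonneg _) (hδ0 j)))
      2).of_le ?_
    filter_upwards [b1.lt_one hl (by linarith), hcon, hx0] with j b2 b3 b4
    have b5 := (hrec j).drift (m := τ0 j) (d := τ i j - τ0 j) (hδ0 j) b4 (fun e he => by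
      by_contra hc
      exact b3 ⟨τ0 j + e, by omega, by have := h1 i j; omega, Or.inr (not_le.1 hc)⟩)
    rw [Nat.add_sub_cancel' (h0 i j)] at b5
    have b6 : (1 + δ j) ^ (τ i j - τ0 j) ≤ Real.exp (((τ i j - τ0 j : ℕ) : ℝ) * δ j) := by
      rw [Real.exp_nat_mul]
      exact pow_le_pow_left₀ (by linarith [hδ0 j]) (by linarith [Real.add_one_le_exp (δ j)]) _
    have b7 : 0 ≤ ((τ i j - τ0 j : ℕ) : ℝ) * δ j := mul_nonneg (Nat.cast_nonneg _) (hδ0 j)
    have b8 := Real.abs_exp_sub_one_le (x := ((τ i j - τ0 j : ℕ) : ℝ) * δ j)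
      (by rw [abs_of_nonneg b7]; exact b2.le)
    rw [abs_of_nonneg b7] at b8
    rw [PrimeFam.av_none, vinf_apply]
    simp only [ε, a]
    push_cast
    linarith [le_abs_self (Real.exp (((τ i j - τ0 j : ℕ) : ℝ) * δ j) - 1)]
  · have b1 : zi U (fun j => E j * x j (τ0 j)) ≠ 0 :=
      gm_ne_zero (hx0.mono (fun j hj => by exact_mod_cast mul_ne_zero (hE j) hj))
    refine mul_left_cancel₀ b1 ?_
    rw [mul_zero, ← hrel, mul_sum]
    refine sum_congr rfl (fun i _ => ?_)
    rw [mul_assoc, mul_left_comm, mon_ex]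
    congr 1
    simp only [zi, ← map_one (gm U), ← map_add, ← map_mul]
    rw [gm_eq]
    filter_upwards [hx0] with j hj
    have : (x j (τ0 j) : ℚ) ≠ 0 := by exact_mod_cast hj
    simp only [Pi.mul_apply, Pi.add_apply, Pi.one_apply, ε]
    push_cast
    field_simp
    ring

end

theorem linear_core (C : ℕ) : ∃ A : ℕ, ∀ (k : ℤ) (x : ℕ → ℤ) (v : ℕ → Bool) (n : ℕ),
    Rec k x v → A ≤ n → |x 0| ≤ 2 ^ (C * n) → k ^ 2 ≤ 2 ^ n → cxL v n (A * n) ≤ C * n →
    ∃ i j, i < j ∧ j ≤ A * n ∧ x i = x j := by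
  by_contra hcon
  push Not at hcon
  choose k x v n hrec hn hx hk hcx hne using fun j => hcon (3 * (j + C + 11))
  have hL := Real.log_pos (show (1 : ℝ) < 2 by norm_num)
  have hl := tendsto_scale (n := n) (fun j => by have := hn j; omega)
  set U := hyperfilter ℕ with hU
  set l : ℕ → ℝ := fun j => (n j : ℝ) with hldef
  have hn1 : ∀ j, 32 ≤ n j := fun j => by have := hn j; omega
  have hx1 : ∀ j, |x j 0| + |k j| ≤ 2 ^ ((C + 2) * n j) := by
    intro j
    have a1 : |k j| ≤ 2 ^ n j := by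
      refine le_of_pow_le_pow_left₀ two_ne_zero (by positivity) ?_
      rw [sq_abs, ← pow_mul]
      exact (hk j).trans (pow_le_pow_right₀ (by norm_num) (by omega))
    have a2 : (2 : ℤ) ^ n j ≤ 2 ^ ((C + 1) * n j) := pow_le_pow_right₀ (by norm_num) (by nlinarith)
    have a3 : (2 : ℤ) ^ (C * n j) ≤ 2 ^ ((C + 1) * n j) :=
      pow_le_pow_right₀ (by norm_num) (by nlinarith)
    have a4 : (2 : ℤ) ^ ((C + 1) * n j + 1) ≤ 2 ^ ((C + 2) * n j) :=
      pow_le_pow_right₀ (by norm_num) (by nlinarith [hn1 j])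
    rw [pow_succ] at a4
    linarith [hx j]
  obtain ⟨c, hfew⟩ : ∃ c : ℕ, ∀ j, ∃ l, n j ≤ 2 * l + 1 ∧ l < n j ∧ ∃ cl : ℕ → Fin c, ∀ i i',
      Sp (v j) l (3 * (j + C + 11) * n j) i → Sp (v j) l (3 * (j + C + 11) * n j) i' →
      cl i = cl i' → Same (v j) l i i' :=
    ⟨_, fun j => exists_few_special (by have := hn1 j; omega) (hcx j)⟩
  choose ℓ hℓ1 hℓ2 cl hcl using hfew
  let M : ℕ → ℕ := fun j => (j + C + 11) * n j
  have hMN : ∀ j, 3 * (j + C + 11) * n j = 3 * M j := fun j => mul_assoc _ _ _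
  choose E g s hE hmono hg hg0 hsW hprog hstep using fun j =>
    stage (hrec j) (M := M j) ((cxL_mono _ _ (hℓ2 j).le).trans (hcx j)) (by rw [hMN]; omega)
      (fun i i' h1 h2 h3 => hne j i i' h1 (by rw [hMN]; omega) ((hrec j).eq_of_small h3 (by
        have a0 : ∀ i ≤ M j, |x j i| ≤ 2 ^ (M j + (C + 2) * n j) := by
          intro i hi
          have a1 := (hrec j).growth' 0 i
          have a2 : (2 : ℤ) ^ i ≤ 2 ^ M j := pow_le_pow_right₀ (by norm_num) hi
          have a3 := mul_le_mul a2 (hx1 j) (by positivity) (by positivity)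
          rw [zero_add] at a1
          rw [pow_add]
          linarith [abs_nonneg (k j)]
        have a4 : (2 : ℤ) ^ (M j + (C + 2) * n j + 1) < 2 ^ (3 * (j + C + 11) * n j - M j) := by
          refine pow_lt_pow_right₀ (by norm_num) ?_
          have : (C + 2) * n j + 1 < M j := by
            simp only [M]; nlinarith [hn1 j]
          rw [hMN]; omega
        rw [pow_succ] at a4
        linarith [a0 i (by omega), a0 i' h2])).symm)
      (hcl j) ((C + 1) * n j) (by have := hℓ2 j; rw [add_mul]; omega)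
  simp only [Fintype.card_fin] at hg hprog
  have hev : ∀ t, ∀ᶠ j in (U : Filter ℕ), t * ((C + 1) * n j) ≤ M j := by
    intro t
    filter_upwards [eventually_ge_hyper (t * (C + 1) : ℕ)] with j hj
    have : t * (C + 1) ≤ j := by exact_mod_cast hj
    rw [← mul_assoc]
    exact Nat.mul_le_mul_right _ (by omega)
  have hbW : ∀ (t : ℕ) (a : ℕ → ℕ), (∀ j, a j ≤ t * ((C + 1) * n j)) → Bd U l a := fun t a h =>
    ⟨t * (C + 1), Eventually.of_forall (fun j => by
      simp only [l]; rw [mul_assoc]; exact_mod_cast h j)⟩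
  let Y : ℕ → KK U := fun t => zi U (fun j => E j * x j (s j t))
  let gg : Option (Fin c ⊕ Fin c × Bool) → KK U := fun b => zi U (fun j => g j b)
  have hgg : ∀ b, gg b ∈ Submodule.span (RP F23 hl (some false)) (Set.range gg) := fun b =>
    Submodule.subset_span ⟨b, rfl⟩
  have hmon : ∀ (a b : ℕ → ℕ) (ha : Bd U l a) (hb : ∀ j, b j ≤ a j) (y : KK U),
      y ∈ Submodule.span (RP F23 hl (some false)) (Set.range gg) →
      gm U (fun j => 3 ^ b j / 2 ^ a j) * y ∈
        Submodule.span (RP F23 hl (some false)) (Set.range gg) := by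
    intro a b ha hb y hy
    rw [← mon_ex hl ha hb]
    exact Submodule.smul_mem _ (⟨_, mon_mem_RP F23 hl _ (by
      rw [lam_two]; exact mul_nonneg (nl_nonneg hl ha) hL.le)⟩ : RP F23 hl (some false)) hy
  have hY : ∀ t, Y t ∈ Submodule.span (RP F23 hl (some false)) (Set.range gg) := by
    intro t
    induction t with
    | zero =>
      have : Y 0 = gg none := by simp only [Y, gg, hg0]
      rw [this]; exact hgg _
    | succ t ih =>
      choose n1 a1 n2 a2 h1 h2 h3 h4 h5 using fun j => hstep j t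
      obtain ⟨⟨b, b'⟩, hb⟩ := ultra_exists U
        (α := Option (Fin c ⊕ Fin c × Bool) × Option (Fin c ⊕ Fin c × Bool))
        (p := fun j b => ((E j * x j (s j (t + 1)) : ℤ) : ℚ) = 3 ^ a2 j / 2 ^ n2 j *
          (3 ^ a1 j / 2 ^ n1 j * ((E j * x j (s j t) : ℤ) - g j b.1) + g j b.1) +
            3 ^ 0 / 2 ^ n2 j * g j b.2)
        ((hev (t + 2)).mono (fun j hj => by
          obtain ⟨b, b', h⟩ := h5 j hj
          exact ⟨(b, b'), h⟩))
      have : Y (t + 1) = gm U (fun j => 3 ^ a2 j / 2 ^ n2 j) *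
          (gm U (fun j => 3 ^ a1 j / 2 ^ n1 j) * (Y t - gg b) + gg b) +
            gm U (fun j => 3 ^ (fun _ => 0) j / 2 ^ n2 j) * gg b' := by
        simp only [Y, gg, zi, ← map_sub, ← map_mul, ← map_add]
        exact gm_eq.2 hb
      have b1 := hbW 1 n1 (fun j => by simpa using h2 j)
      have b2 := hbW 1 n2 (fun j => by simpa using h4 j)
      rw [this]
      exact add_mem (hmon _ _ b2 h3 _ (add_mem (hmon _ _ b1 h1 _ (sub_mem ih (hgg b))) (hgg b)))
        (hmon _ _ b2 (fun _ => Nat.zero_le _) _ (hgg b'))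
  obtain ⟨r, C', hC', hrig⟩ := rigid F23 hl (some false) gg (fun b => zi_mem _)
    (fun w => Option.elim w ((2 * c + 2 * (C + 1) + (C + 2) : ℕ) * Real.log 2) (fun _ => 0))
    (fun w b => GLe_zi hl ((SB_two_pow hl (q := fun j => (2 * c + 2 * (C + 1) + (C + 2)) * n j)
      (Eventually.of_forall (fun j => by simp [l]))).of_le (Eventually.of_forall (fun j => by
        have a1 : |g j b| ≤ 2 ^ ((2 * c + 2 * (C + 1) + (C + 2)) * n j) := by
          refine (hg j b).trans ?_
          have e : (2 : ℤ) ^ ((2 * c + 2 * (C + 1) + (C + 2)) * n j) =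
              4 ^ (n j * c) * (4 ^ ((C + 1) * n j) * 2 ^ ((C + 2) * n j)) := by
            rw [show (4 : ℤ) = 2 ^ 2 by norm_num, ← pow_mul, ← pow_mul, ← pow_add, ← pow_add]
            congr 1; ring
          rw [e]
          have := hℓ2 j
          have := hx1 j
          gcongr
          norm_num
        exact_mod_cast a1))) w)
    (by simp only [Fintype.sum_option, Option.elim, sum_const_zero]; positivity)
  obtain ⟨u, hu⟩ := exists_nat_gt (8 * C' / Real.log 2)
  rw [div_lt_iff₀ hL] at hu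
  have hadv : ∀ t w : ℕ, ∀ᶠ j in (U : Filter ℕ), 4 * s j t + w * n j ≤ 4 * s j (t + w * c) := by
    intro t w
    induction w with
    | zero => simp
    | succ w ih =>
      filter_upwards [ih, hev (t + w * c + c + 1)] with j h1 h2
      have := hprog j _ h2
      have := hℓ1 j
      rw [add_mul, add_mul, one_mul, one_mul, ← add_assoc, ← add_assoc]
      omega
  have hlow : ∀ t, ∀ᶠ j in (U : Filter ℕ), ∃ m, s j t ≤ m ∧ m ≤ s j (t + r * u * c) ∧
      |x j m| ≤ 2 ^ (5 * (n j / 8)) := by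
    intro t
    obtain ⟨κ, h1, h2, h3⟩ := hrig (fun i => Y (t + i * u * c)) (fun i => hY _)
      (fun i => GLe_zi_some hl _ _)
    have h4 := exists_low hl hrec hE (fun (i : Fin (r + 1)) j => s j (t + i * u * c))
      (fun j => s j t) (fun j => s j (t + r * u * c)) (fun i j => hmono j (by omega))
      (fun i j => hmono j (by have := Nat.lt_succ_iff.1 i.2; gcongr))
      (fun j => hmono j (by omega)) (hbW _ _ (fun j => hsW j _)) (C := C') (W := u / 4)
      (c := Real.log 2 / 8) (by linarith) (fun i i' h => by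
        filter_upwards [hadv (t + i * u * c) u] with j hj
        have a1 : s j (t + i * u * c + u * c) ≤ s j (t + i' * u * c) := hmono j (by
          have : (i : ℕ) + 1 ≤ i' := h
          have := Nat.mul_le_mul_right (u * c) this
          nlinarith)
        have a2 : 4 * (s j (t + i * u * c) : ℝ) + u * n j ≤ 4 * s j (t + i' * u * c) := by
          exact_mod_cast hj.trans (by omega)
        simp only [l]
        linarith) κ h1 h2 h3 (by positivity) (δ := fun j => 16 / 2 ^ (n j / 8))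
      (fun j => by positivity) (((SB_exp hl (-(Real.log 2 / 8))).const_mul hl
        (Eventually.of_forall (fun j => (Real.exp_pos _).le)) 32).of_le
        (Eventually.of_forall (fun j => by
          have a1 : (n j : ℝ) ≤ 8 * ((n j / 8 + 1 : ℕ) : ℝ) := by
            exact_mod_cast (by omega : n j ≤ 8 * (n j / 8 + 1))
          have a2 : Real.exp (Real.log 2 / 8 * n j) ≤ 2 ^ (n j / 8 + 1) := by
            rw [← Real.exp_log (show (0 : ℝ) < 2 ^ (n j / 8 + 1) by positivity), Real.log_pow,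
              Real.exp_le_exp]
            nlinarith
          rw [neg_mul, Real.exp_neg, ← div_eq_mul_inv, div_le_div_iff₀ (by positivity) (by positivity)]
          rw [pow_succ] at a2
          simp only [l]
          linarith)))
    refine h4.mono (fun j ⟨m, a1, a2, a3⟩ => ⟨m, a1, a2, ?_⟩)
    rcases a3 with a3 | a3
    · rw [a3]; positivity
    · have b1 : |k j| ≤ 2 ^ (4 * (n j / 8) + 4) := by
        refine le_of_pow_le_pow_left₀ two_ne_zero (by positivity) ?_
        rw [sq_abs, ← pow_mul]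
        exact (hk j).trans (pow_le_pow_right₀ (by norm_num) (by omega))
      have b2 : |(k j : ℝ)| ≤ 2 ^ (4 * (n j / 8) + 4) := by exact_mod_cast b1
      have b3 := a3.le.trans b2
      rw [div_mul_eq_mul_div, div_le_iff₀ (by positivity)] at b3
      have b4 : (2 : ℝ) ^ (4 * (n j / 8) + 4) * 2 ^ (n j / 8) = 16 * 2 ^ (5 * (n j / 8)) := by ring
      exact_mod_cast (show |(x j m : ℝ)| ≤ 2 ^ (5 * (n j / 8)) by linarith)
  set Z := r * u * c + c with hZ
  have h1 := (eventually_all_finset (range (8 * C + 1))).2 (fun a _ =>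
    (hlow (a * Z)).and (hadv (a * Z + r * u * c) 1))
  obtain ⟨j, h2, h3⟩ := (h1.and (hev ((8 * C + 1) * Z + 2))).exists
  choose! m hm1 hm2 hm3 using fun a ha => (h2 a ha).1
  have hr : ∀ a ≤ 8 * C, a ∈ range (8 * C + 1) := fun a ha => mem_range.2 (by omega)
  obtain ⟨i, i', a1, a2, a3⟩ := exists_eq_of_low (hrec j) (hn1 j) (hk j) (hcx j) m
    (fun a ha => hm3 a (hr a ha)) (fun a b hab hb => by
      have b1 := hm2 a (hr a (by omega))
      have b2 := (h2 a (hr a (by omega))).2
      have b3 := hm1 b (hr b hb)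
      have b4 : s j (a * Z + r * u * c + 1 * c) ≤ s j (b * Z) := hmono j (by
        have := Nat.mul_le_mul_right Z (show a + 1 ≤ b from hab)
        rw [add_mul] at this
        omega)
      have := hn1 j
      omega) (fun a ha => by
      have b1 := (hm2 a (hr a ha)).trans (hsW j _)
      have b2 : (a * Z + r * u * c + 1) * ((C + 1) * n j) ≤ M j := le_trans
        (Nat.mul_le_mul_right _ (by
          have := Nat.mul_le_mul_right Z ha
          rw [add_mul]
          omega)) h3
      have b3 : n j ≤ M j := Nat.le_mul_of_pos_left _ (by omega)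
      rw [hMN]; omega)
  exact hne j i i' a1 a2 a3

end Pool.Agent.Lib.MP_7f88e4_nt
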