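import Pool.Agent.Lib.MP_7f88e4_nt.STWords

set_option autoImplicit false

namespace Pool.Agent.Lib.MP_7f88e4_nt

open Finset

variable {k : ℤ} {x : ℕ → ℤ} {v : ℕ → Bool} {n N M B : ℕ} {β : Type} [Fintype β] {cl : ℕ → β}

omit [Fintype β] in
lemma exists_power (hrec : Rec k x v)
    (hcl : ∀ i i', Sp v n N i → Sp v n N i' → cl i = cl i' → Same v n i i') (b : β) :
    ∃ D c : ℤ, D ≠ 0 ∧ |D| ≤ 4 ^ n ∧ |c| ≤ 4 ^ n * |k| ∧ ∀ s q, Sp v n N s → cl s = b →
      2 * q ≤ n → Same v n s (s + q) →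
      2 ^ q * (D * x (s + q) - c) = 3 ^ ones v s q * (D * x s - c) := by
  by_cases h : ∃ r q0, Sp v n N r ∧ cl r = b ∧ 1 ≤ q0 ∧ 2 * q0 ≤ n ∧ Same v n r (r + q0)
  · obtain ⟨r, q0, h1, h2, h3, h4, h5⟩ := h
    refine ⟨2 ^ q0 - 3 ^ ones v r q0, cst k v r q0, two_pow_sub_ne h3,
      (abs_pow_sub_le (ones_le _ _ _)).trans (pow_le_pow_right₀ (by norm_num) (by omega)),
      (cst_abs _ _ _ _).trans (by gcongr; norm_num; omega), fun s q a1 a2 a3 a4 => ?_⟩
    have b1 := cst_comm k (by omega) (hcl s r a1 h1 (a2.trans h2.symm)) a4 h5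
    linear_combination (2 ^ q0 - 3 ^ ones v r q0) * hrec.block s q + b1
  · refine ⟨1, 0, one_ne_zero, by simpa using one_le_pow₀ (by norm_num), by positivity,
      fun s q a1 a2 a3 a4 => ?_⟩
    obtain rfl : q = 0 := by
      by_contra hq
      exact h ⟨s, q, a1, a2, by omega, a3, a4⟩
    simp [ones]

omit [Fintype β] in
lemma exists_dict (k : ℤ) (hB : cxL v n N ≤ B) (hM : M ≤ N)
    (hrep : ∀ i i', i < i' → i' ≤ M → ¬ Same v (N - M) i i')
    (hcl : ∀ i i', Sp v n N i → Sp v n N i' → cl i = cl i' → Same v n i i') (b : β × Bool) :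
    ∃ G : ℤ, |G| ≤ 4 ^ (B + 1) * |k| ∧ ∀ m, Sp v n N m → m + B + 1 ≤ M → (cl m, v (m + n)) = b →
      cst k v m (nxd v n N m) = G := by
  by_cases h : ∃ r, Sp v n N r ∧ r + B + 1 ≤ M ∧ (cl r, v (r + n)) = b
  · obtain ⟨r, h1, h2, h3⟩ := h
    refine ⟨cst k v r (nxd v n N r), (cst_abs _ _ _ _).trans ?_, fun m a1 a2 a3 => ?_⟩
    · have := (nxd_spec hB hM hrep h2).1
      gcongr; norm_num
    · obtain ⟨a4, a5⟩ := Prod.mk.inj (a3.trans h3.symm)
      exact cst_nxd hB hM hrep k a2 h2 ((hcl m r a1 h1 a4).succ a5)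
  · exact ⟨0, by positivity, fun m a1 a2 a3 => absurd ⟨m, a1, a2, a3⟩ h⟩

/-- cut times and generators at one scale -/
theorem stage (hrec : Rec k x v) (hB : cxL v n N ≤ B) (hM : M ≤ N)
    (hrep : ∀ i i', i < i' → i' ≤ M → ¬ Same v (N - M) i i')
    (hcl : ∀ i i', Sp v n N i → Sp v n N i' → cl i = cl i' → Same v n i i') (W : ℕ)
    (hW : n + B + 1 ≤ W) :
    ∃ (E : ℤ) (g : Option (β ⊕ β × Bool) → ℤ) (s : ℕ → ℕ), E ≠ 0 ∧ Monotone s ∧
      (∀ b, |g b| ≤ 4 ^ (n * Fintype.card β) * (4 ^ W * (|x 0| + |k|))) ∧ g none = E * x (s 0) ∧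
      (∀ t, s t ≤ (t + 1) * W) ∧
      (∀ t, (t + Fintype.card β + 1) * W ≤ M → 2 * s t + n < 2 * s (t + Fintype.card β)) ∧
      ∀ t, ∃ n1 a1 n2 a2 : ℕ, a1 ≤ n1 ∧ n1 ≤ W ∧ a2 ≤ n2 ∧ n2 ≤ W ∧ ((t + 2) * W ≤ M → ∃ b b',
        ((E * x (s (t + 1)) : ℤ) : ℚ) = 3 ^ a2 / 2 ^ n2 *
          (3 ^ a1 / 2 ^ n1 * ((E * x (s t) : ℤ) - g b) + g b) + 3 ^ 0 / 2 ^ n2 * g b') := by
  classical
  choose D c hD0 hD hc hpow using exists_power hrec hcl
  choose G hG hdict using exists_dict k hB hM hrep hcl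
  set E := ∏ b, D b with hE
  have hE1 : ∀ S : Finset β, |∏ b ∈ S, D b| ≤ 4 ^ (n * Fintype.card β) := by
    intro S
    rw [abs_prod]
    refine (prod_le_prod (fun _ _ => abs_nonneg _) (fun b _ => hD b)).trans ?_
    rw [prod_const, ← pow_mul]
    exact pow_le_pow_right₀ (by norm_num) (Nat.mul_le_mul_left _ (card_le_univ _))
  let gr : ℕ → ℕ := fun s => Nat.findGreatest (fun q => Same v n s (s + q)) (n / 2)
  have hgr1 : ∀ s, gr s ≤ n / 2 := fun s => Nat.findGreatest_le _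
  have hgr2 : ∀ s, Same v n s (s + gr s) := fun s =>
    Nat.findGreatest_spec (P := fun q => Same v n s (s + q)) (Nat.zero_le _) (Same.refl _ _ _)
  have hgr3 : ∀ s q, gr s < q → q ≤ n / 2 → ¬ Same v n s (s + q) := fun s q =>
    Nat.findGreatest_is_greatest (P := fun q => Same v n s (s + q))
  let d : ℕ → ℕ := fun m => min (nxd v n N m) (B + 1)
  have hd : ∀ m, m + B + 1 ≤ M → d m = nxd v n N m := fun m hm =>
    min_eq_left (nxd_spec hB hM hrep hm).1
  have hd1 : ∀ m, d m ≤ B + 1 := fun m => min_le_right _ _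
  let s : ℕ → ℕ := fun t => (fun s => s + gr s + d (s + gr s))^[t] (d 0)
  have hs : ∀ t, s (t + 1) = s t + gr (s t) + d (s t + gr (s t)) := fun t =>
    Function.iterate_succ_apply' _ _ _
  have hmono : Monotone s := monotone_nat_of_le_succ (fun t => by rw [hs]; omega)
  have hsW : ∀ t, s t ≤ t * W + (B + 1) := by
    intro t
    induction t with
    | zero => exact (hd1 0).trans (by omega)
    | succ t ih =>
      have := hgr1 (s t)
      have := hd1 (s t + gr (s t))
      rw [hs, add_mul]; omega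
  have hin : ∀ t, (t + 2) * W ≤ M → s t + gr (s t) + B + 1 ≤ M := by
    intro t ht
    have := hgr1 (s t)
    have := hsW t
    rw [add_mul] at ht; omega
  have hsp : ∀ t, (t + 1) * W ≤ M → Sp v n N (s t) := by
    intro t ht
    cases t with
    | zero =>
      have h0 : 0 + B + 1 ≤ M := by omega
      have := (nxd_spec hB hM hrep h0).2.2
      rwa [← hd 0 h0, zero_add] at this
    | succ t =>
      rw [hs, hd _ (hin t ht)]
      exact (nxd_spec hB hM hrep (hin t ht)).2.2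
  have hx0 : (0 : ℤ) ≤ |x 0| := abs_nonneg _
  have hk0 : (0 : ℤ) ≤ |k| := abs_nonneg _
  refine ⟨E, fun o => o.elim (E * x (s 0))
    (Sum.elim (fun b => (∏ b' ∈ univ.erase b, D b') * c b) (fun b => E * G b)), s,
    prod_ne_zero_iff.2 (fun b _ => hD0 b), hmono, ?_, rfl,
    fun t => (hsW t).trans (by rw [add_mul]; omega), fun t ht => ?_, fun t => ?_⟩
  · rintro (_ | b | b)
    · simp only [Option.elim, abs_mul]
      refine mul_le_mul (hE1 _) ?_ (abs_nonneg _) (by positivity)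
      have h1 := hrec.growth' 0 (s 0)
      have h2 : (2 : ℤ) ^ s 0 ≤ 4 ^ W := (pow_le_pow_left₀ (by norm_num) (by norm_num) _).trans
        (pow_le_pow_right₀ (by norm_num) (by have := hsW 0; omega))
      rw [zero_add] at h1
      nlinarith
    · simp only [Option.elim, Sum.elim_inl, abs_mul]
      refine mul_le_mul (hE1 _) ((hc b).trans ?_) (abs_nonneg _) (by positivity)
      gcongr
      · norm_num
      · omega
      · linarith
    · simp only [Option.elim, Sum.elim_inr, abs_mul]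
      refine mul_le_mul (hE1 _) ((hG b).trans ?_) (abs_nonneg _) (by positivity)
      gcongr
      · norm_num
      · omega
      · linarith
  · have key : ∀ a b, a < b → b ≤ Fintype.card β → cl (s (t + a)) = cl (s (t + b)) →
        2 * s t + n < 2 * s (t + Fintype.card β) := by
      intro a b hab hb he
      have h1 : ∀ e ≤ Fintype.card β, (t + e + 1) * W ≤ M := fun e he =>
        le_trans (Nat.mul_le_mul_right _ (by omega)) ht
      have h2 := hcl _ _ (hsp _ (h1 a (by omega))) (hsp _ (h1 b hb)) he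
      have h3 := hin (t + a) (h1 (a + 1) (by omega))
      have h4 : s (t + a + 1) ≤ s (t + b) := hmono (by omega)
      have h5 := (nxd_spec hB hM hrep h3).2.1
      rw [hs, hd _ h3] at h4
      have h6 := hgr3 (s (t + a)) (s (t + b) - s (t + a)) (by omega)
      rw [Nat.add_sub_cancel' (by omega)] at h6
      have h7 : s t ≤ s (t + a) := hmono (by omega)
      have h8 : s (t + b) ≤ s (t + Fintype.card β) := hmono (by omega)
      by_contra hc
      exact h6 (by omega) h2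
    obtain ⟨a, b, hab, he⟩ := Fintype.exists_ne_map_eq_of_card_lt
      (fun a : Fin (Fintype.card β + 1) => cl (s (t + a))) (by simp)
    rcases lt_or_gt_of_ne hab with h | h
    · exact key a b h (Nat.lt_succ_iff.1 b.2) he
    · exact key b a h (Nat.lt_succ_iff.1 a.2) he.symm
  · set m := s t + gr (s t) with hm
    refine ⟨gr (s t), ones v (s t) (gr (s t)), d m, ones v m (d m), ones_le _ _ _,
      by have := hgr1 (s t); omega, ones_le _ _ _, by have := hd1 m; omega, fun ht =>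
        ⟨some (Sum.inl (cl (s t))), some (Sum.inr (cl m, v (m + n))), ?_⟩⟩
    have h1 := hsp t (le_trans (Nat.mul_le_mul_right _ (by omega)) ht)
    have h2 := hpow _ (s t) (gr (s t)) h1 rfl (by have := hgr1 (s t); omega) (hgr2 _)
    have h3 := hdict _ m (h1.of_same (hgr2 _)) (hin t ht) rfl
    have h4 := hrec.block m (d m)
    rw [← hd _ (hin t ht)] at h3
    rw [h3, ← hs] at h4
    have h5 : E = D (cl (s t)) * ∏ b' ∈ univ.erase (cl (s t)), D b' :=
      (mul_prod_erase _ _ (mem_univ _)).symm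
    simp only [Option.elim, Sum.elim_inl, Sum.elim_inr]
    set f := ∏ b' ∈ univ.erase (cl (s t)), D b'
    have h2' := congrArg (Int.cast : ℤ → ℚ) h2
    have h4' := congrArg (Int.cast : ℤ → ℚ) h4
    rw [h5]
    push_cast at h2' h4' ⊢
    field_simp
    linear_combination (2 : ℚ) ^ gr (s t) * D (cl (s t)) * f * h4' + 3 ^ ones v m (d m) * f * h2'

lemma Rec.drift (hrec : Rec k x v) {m d : ℕ} {δ : ℝ} (hδ : 0 ≤ δ) (h0 : x m ≠ 0)
    (h : ∀ e < d, |(k : ℝ)| ≤ δ * |(x (m + e) : ℝ)|) :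
    |(2 : ℝ) ^ d * x (m + d) / (3 ^ ones v m d * x m) - 1| ≤ (1 + δ) ^ d - 1 := by
  have h0' : (x m : ℝ) ≠ 0 := by exact_mod_cast h0
  induction d with
  | zero => simp [ones, h0']
  | succ d ih =>
    have h1 := ih (fun e he => h e (by omega))
    have h2 : (2 : ℝ) * x (m + d + 1) = if v (m + d) = true then 3 * (x (m + d) : ℝ) + k
        else x (m + d) := by exact_mod_cast hrec (m + d)
    have h3 : (1 : ℝ) ≤ (1 + δ) ^ d := one_le_pow₀ (by linarith)
    set ρ := (2 : ℝ) ^ d * x (m + d) / (3 ^ ones v m d * x m) with hρ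
    simp only [ones]
    split_ifs at h2 ⊢ with hv
    · have h4 : (2 : ℝ) ^ (d + 1) * x (m + (d + 1)) / (3 ^ (ones v m d + 1) * x m) - 1 =
          (ρ - 1) + 2 ^ d / (3 ^ ones v m d * x m) * k / 3 := by
        rw [pow_succ, mul_assoc, ← add_assoc, h2, hρ]; field_simp; ring
      have h5 : |(2 : ℝ) ^ d / (3 ^ ones v m d * x m) * k| ≤ δ * |ρ| := by
        rw [hρ, mul_div_right_comm, abs_mul, abs_mul (_ / _), mul_left_comm]
        exact mul_le_mul_of_nonneg_left (h d (by omega)) (abs_nonneg _)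
      have h6 : |ρ| ≤ (1 + δ) ^ d := by
        have := abs_sub_abs_le_abs_sub ρ 1
        rw [abs_one] at this; linarith
      rw [h4, pow_succ]
      refine (abs_add_le _ _).trans ?_
      rw [abs_div (_ * _), abs_of_pos (show (0 : ℝ) < 3 by norm_num)]
      have := abs_nonneg ((2 : ℝ) ^ d / (3 ^ ones v m d * x m) * k)
      nlinarith
    · have h4 : (2 : ℝ) ^ (d + 1) * x (m + (d + 1)) / (3 ^ ones v m d * x m) = ρ := by
        rw [pow_succ, mul_assoc, ← add_assoc, h2]
      rw [h4, pow_succ]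
      nlinarith

/-- many low times force a repetition -/
lemma exists_eq_of_low (hrec : Rec k x v) {C : ℕ} (hn : 32 ≤ n) (hk : k ^ 2 ≤ 2 ^ n)
    (hB : cxL v n N ≤ C * n) (m : ℕ → ℕ) (hlow : ∀ a ≤ 8 * C, |x (m a)| ≤ 2 ^ (5 * (n / 8)))
    (hsep : ∀ a b, a < b → b ≤ 8 * C → m a + n / 8 < m b) (hN : ∀ a ≤ 8 * C, m a + n ≤ N) :
    ∃ i j, i < j ∧ j ≤ N ∧ x i = x j := by
  set e := n / 8 with he
  have hk1 : |k| ≤ 2 ^ (5 * e) := by
    refine le_of_pow_le_pow_left₀ two_ne_zero (by positivity) ?_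
    rw [sq_abs, ← pow_mul]
    exact hk.trans (pow_le_pow_right₀ (by norm_num) (by omega))
  have hsm : ∀ p ∈ range (8 * C + 1) ×ˢ range (e + 1), |x (m p.1 + p.2)| ≤ 2 ^ (6 * e + 1) := by
    intro p hp
    obtain ⟨h1, h2⟩ := mem_product.1 hp
    have a1 := hrec.growth' (m p.1) p.2
    have a2 := hlow p.1 (Nat.lt_succ_iff.1 (mem_range.1 h1))
    have a3 : (2 : ℤ) ^ p.2 ≤ 2 ^ e :=
      pow_le_pow_right₀ (by norm_num) (Nat.lt_succ_iff.1 (mem_range.1 h2))
    have a4 : (2 : ℤ) ^ (6 * e + 1) = 2 ^ e * (2 ^ (5 * e) + 2 ^ (5 * e)) := by ring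
    have a5 := mul_le_mul a3 (add_le_add a2 hk1) (by positivity) (by positivity)
    linarith [abs_nonneg k]
  have hle : ∀ p ∈ range (8 * C + 1) ×ˢ range (e + 1), m p.1 + p.2 ≤ N := by
    intro p hp
    obtain ⟨h1, h2⟩ := mem_product.1 hp
    have := hN p.1 (Nat.lt_succ_iff.1 (mem_range.1 h1))
    have := mem_range.1 h2
    omega
  obtain ⟨p, hp, p', hp', hne, hs⟩ := exists_same_of_lt (v := v) (n := n) (N := N)
    (range (8 * C + 1) ×ˢ range (e + 1)) (fun p => m p.1 + p.2) hle (by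
      rw [card_product, card_range, card_range]
      have : n < 8 * (e + 1) := by omega
      nlinarith)
  have h1 := hrec.eq_of_small hs (by
    have a1 : (2 : ℤ) ^ (6 * e + 1 + 1) < 2 ^ n := pow_lt_pow_right₀ (by norm_num) (by omega)
    rw [pow_succ] at a1
    linarith [hsm p hp, hsm p' hp'])
  have h2 : m p.1 + p.2 ≠ m p'.1 + p'.2 := by
    intro h
    have b1 := mem_range.1 (mem_product.1 hp).1
    have b2 := mem_range.1 (mem_product.1 hp).2
    have b3 := mem_range.1 (mem_product.1 hp').1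
    have b4 := mem_range.1 (mem_product.1 hp').2
    rcases lt_trichotomy p.1 p'.1 with c | c | c
    · have := hsep _ _ c (by omega); omega
    · rw [c] at h; exact hne (Prod.ext c (by omega))
    · have := hsep _ _ c (by omega); omega
  rcases lt_or_gt_of_ne h2 with h | h
  · exact ⟨_, _, h, hle p' hp', h1.symm⟩
  · exact ⟨_, _, h, hle p hp, h1⟩

end Pool.Agent.Lib.MP_7f88e4_nt
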