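import Pool.Agent.Lib.MP_7f88e4_nt.Orbit

set_option autoImplicit false

namespace Pool.Agent.Lib.MP_7f88e4_nt

open Finset

/-- the factor of length `n` at position `i` -/
def fac (v : ℕ → Bool) (n i : ℕ) : Fin n → Bool := fun t => v (i + t)

/-- number of factors of length `n` occurring at positions `≥ a` -/
noncomputable def cxF (v : ℕ → Bool) (n a : ℕ) : ℕ := (fac v n '' Set.Ici a).ncard

/-- the word is not eventually periodic -/
def Aper (v : ℕ → Bool) : Prop := ∀ i j, i < j → ¬ ∀ t, v (i + t) = v (j + t)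

variable {v : ℕ → Bool}

lemma fac_eq_iff {n i j : ℕ} : fac v n i = fac v n j ↔ Same v n i j :=
  ⟨fun h t ht => congrFun h ⟨t, ht⟩, fun h => funext fun t => h t t.2⟩

lemma Same.succ {n i j : ℕ} (h : Same v n i j) (h' : v (i + n) = v (j + n)) :
    Same v (n + 1) i j := fun t ht => by
  rcases Nat.lt_succ_iff_lt_or_eq.mp ht with e | e
  · exact h t e
  · rw [e]; exact h'

lemma Same.shift' {n d i j : ℕ} (h : Same v (n + d) i j) (e : ℕ) (he : e ≤ d) :
    Same v n (i + e) (j + e) := (h.shift e).mono (by omega)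

lemma exists_special (hv : Aper v) (n a : ℕ) :
    ∃ i j, a ≤ i ∧ a ≤ j ∧ Same v n i j ∧ v (i + n) ≠ v (j + n) := by
  by_contra hcon
  push Not at hcon
  obtain ⟨i, j, hij, he⟩ := Finite.exists_ne_map_eq_of_infinite fun i => fac v n (a + i)
  have key : ∀ i j, a ≤ i → a ≤ j → Same v n i j → ∀ d, Same v (n + d) i j := by
    intro i j hi hj h d
    induction d with
    | zero => exact h
    | succ d ih =>
      refine ih.succ ?_
      have := hcon (i + d) (j + d) (by omega) (by omega) (ih.shift' d le_rfl)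
      rwa [add_assoc, add_assoc, add_comm d n] at this
  have h1 := key _ _ (Nat.le_add_right a i) (Nat.le_add_right a j) (fac_eq_iff.mp he)
  rcases lt_or_gt_of_ne hij with h | h
  · exact hv (a + i) (a + j) (by omega) fun t => h1 (t + 1) t (by omega)
  · exact hv (a + j) (a + i) (by omega) fun t => (h1 (t + 1) t (by omega)).symm

lemma cxF_le_of_remove (n a : ℕ) (F : Finset ℕ) (hF : ∀ i ∈ F, a ≤ i)
    (hinj : ∀ i ∈ F, ∀ j ∈ F, Same v n i j → i = j)
    (hsp : ∀ i ∈ F, ∃ j, a ≤ j ∧ Same v n i j ∧ v (i + n) ≠ v (j + n)) :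
    cxF v n a + F.card ≤ cxF v (n + 1) a := by
  classical
  set A := fac v (n + 1) '' Set.Ici a with hA
  set G : Set (Fin (n + 1) → Bool) := fac v (n + 1) '' F with hG
  have hGA : G ⊆ A := Set.image_mono fun i hi => hF i hi
  have hGc : G.ncard = F.card := by
    rw [hG, Set.InjOn.ncard_image, Set.ncard_coe_finset]
    intro i hi j hj e
    exact hinj i hi j hj ((fac_eq_iff.mp e).mono (by omega))
  have h1 : fac v n '' Set.Ici a ⊆ (fun (w : Fin (n + 1) → Bool) (t : Fin n) => w t.castSucc) ''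
      (A \ G) := by
    rintro _ ⟨i, hi, rfl⟩
    by_cases hiG : fac v (n + 1) i ∈ G
    · obtain ⟨i', hi', e⟩ := hiG
      obtain ⟨j, hj, s1, s2⟩ := hsp i' hi'
      refine ⟨fac v (n + 1) j, ⟨⟨j, hj, rfl⟩, ?_⟩, ?_⟩
      · rintro ⟨i'', hi'', e'⟩
        have e1 := fac_eq_iff.mp e'
        have : i' = i'' := hinj i' hi' i'' hi'' (s1.trans (e1.mono (by omega)).symm)
        subst this
        exact s2 (e1 n (by omega))
      · exact fac_eq_iff.mpr (s1.symm.trans ((fac_eq_iff.mp e).mono (by omega)))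
    · exact ⟨fac v (n + 1) i, ⟨⟨i, hi, rfl⟩, hiG⟩, rfl⟩
  have h2 := (Set.ncard_le_ncard h1 (Set.toFinite _)).trans (Set.ncard_image_le (Set.toFinite _))
  have h3 := Set.ncard_sdiff_add_ncard_of_subset hGA (Set.toFinite _)
  unfold cxF
  rw [← hA]
  omega

lemma cxF_lt_succ (hv : Aper v) (n a : ℕ) : cxF v n a + 1 ≤ cxF v (n + 1) a := by
  obtain ⟨i, j, hi, hj, s1, s2⟩ := exists_special hv n a
  simpa using cxF_le_of_remove n a {i} (by simpa using hi) (by simp)
    (by simpa using ⟨j, hj, s1, s2⟩)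

lemma le_cxF (hv : Aper v) (n a : ℕ) : n + 1 ≤ cxF v n a := by
  induction n with
  | zero =>
    exact (Set.ncard_pos (Set.toFinite _)).mpr ⟨_, a, Set.mem_Ici.mpr le_rfl, rfl⟩
  | succ n ih => have := cxF_lt_succ hv n a; omega

lemma card_le_cxF (n a : ℕ) (F : Finset ℕ) (hF : ∀ i ∈ F, a ≤ i)
    (hinj : ∀ i ∈ F, ∀ j ∈ F, Same v n i j → i = j) : F.card ≤ cxF v n a := by
  have hGc : (fac v n '' F).ncard = F.card := by
    rw [Set.InjOn.ncard_image, Set.ncard_coe_finset]
    intro i hi j hj e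
    exact hinj i hi j hj (fac_eq_iff.mp e)
  rw [← hGc]
  exact Set.ncard_le_ncard (Set.image_mono fun i hi => hF i hi) (Set.toFinite _)

lemma card_add_cxF_le (n a : ℕ) (F : Finset ℕ) (hF : ∀ i ∈ F, ∀ j, a ≤ j → ¬ Same v n i j)
    (hinj : ∀ i ∈ F, ∀ j ∈ F, Same v n i j → i = j) : F.card + cxF v n a ≤ cxF v n 0 := by
  have hGc : (fac v n '' F).ncard = F.card := by
    rw [Set.InjOn.ncard_image, Set.ncard_coe_finset]
    intro i hi j hj e
    exact hinj i hi j hj (fac_eq_iff.mp e)
  rw [← hGc]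
  unfold cxF
  rw [← Set.ncard_union_eq _ (Set.toFinite _) (Set.toFinite _)]
  · refine Set.ncard_le_ncard ?_ (Set.toFinite _)
    rintro _ (⟨i, -, rfl⟩ | ⟨i, -, rfl⟩) <;> exact ⟨i, Nat.zero_le _, rfl⟩
  · rw [Set.disjoint_left]
    rintro _ ⟨i, hi, rfl⟩ ⟨j, hj, e⟩
    exact hF i hi j hj (fac_eq_iff.mp e).symm

/-- block decomposition at scale `n` -/
def Blk (v : ℕ → Bool) (n : ℕ) (u h : Bool → ℕ) : Prop :=
  ∃ (σ : ℕ → ℕ) (ε : ℕ → Bool) (p : Bool → ℕ), σ 0 ≤ 2 * n ∧
    (∀ j, σ (j + 1) = σ j + u (ε j)) ∧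
    (∀ j j', ε j = ε j' → Same v (u (ε j)) (σ j) (σ j')) ∧
    (∀ j, ones v (σ j) (u (ε j)) = h (ε j)) ∧ (∀ b, ones v (p b) (u b) = h b) ∧
    Same v n (p false) (p true) ∧ ∀ b, n ≤ 100 * u b ∧ u b ≤ 2 * n

lemma exists_blk (hv : Aper v) {c : ℕ}
    (hrep : ∀ r i j, i < j → Same v r i j → 5 * r ≤ 3 * j + c) {n : ℕ} (hn : 30 * c ≤ n)
    (h1 : cxF v (n + 1) 0 ≤ cxF v n 0 + 1) (h2 : cxF v n 0 ≤ 2 * n) :
    ∃ u h, Blk v n u h := by
  classical
  obtain ⟨s, s', -, -, hs1, hs2⟩ := exists_special hv n 0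
  have huniq : ∀ i j, Same v n i j → v (i + n) ≠ v (j + n) → Same v n i s := by
    intro i j a1 a2
    by_contra a3
    have hne : i ≠ s := fun e => a3 (e ▸ Same.refl v n i)
    have := cxF_le_of_remove (v := v) n 0 {i, s} (by simp) (by
      intro x hx y hy e
      simp only [mem_insert, mem_singleton] at hx hy
      rcases hx with rfl | rfl <;> rcases hy with rfl | rfl
      · rfl
      · exact absurd e a3
      · exact absurd e.symm a3
      · rfl) (by
      intro x hx
      simp only [mem_insert, mem_singleton] at hx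
      rcases hx with rfl | rfl
      · exact ⟨j, Nat.zero_le _, a1, a2⟩
      · exact ⟨s', Nat.zero_le _, hs1, hs2⟩)
    rw [card_pair hne] at this
    omega
  have hex : ∀ i, ∃ d, Same v n (i + d) s := by
    intro i
    obtain ⟨i', j', a1, -, a2, a3⟩ := exists_special hv n i
    exact ⟨i' - i, by rw [Nat.add_sub_cancel' a1]; exact huniq _ _ a2 a3⟩
  set nxt : ℕ → ℕ := fun i => Nat.find (hex i) with hnxt
  have nx1 : ∀ i, Same v n (i + nxt i) s := fun i => Nat.find_spec (hex i)
  have nx2 : ∀ i e, e < nxt i → ¬ Same v n (i + e) s := fun i e he => Nat.find_min (hex i) he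
  have nx3 : ∀ i e, Same v n (i + e) s → nxt i ≤ e := fun i e he => Nat.find_min' (hex i) he
  have run : ∀ i j, Same v n i j → ∀ d, d ≤ nxt i → Same v (n + d) i j := by
    intro i j h d
    induction d with
    | zero => exact fun _ => h
    | succ d ih =>
      intro hd
      refine (ih (by omega)).succ ?_
      by_contra hne
      refine nx2 i d (by omega) (huniq _ (j + d) ((ih (by omega)).shift' d le_rfl) ?_)
      rwa [add_assoc, add_assoc, add_comm d n]
  have nxle : ∀ i j, Same v n i j → nxt j ≤ nxt i := fun i j h =>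
    nx3 j _ (((run i j h _ le_rfl).shift' _ le_rfl).symm.trans (nx1 i))
  have nxeq : ∀ i j, Same v n i j → nxt i = nxt j := fun i j h =>
    le_antisymm (nxle j i h.symm) (nxle i j h)
  have nxadd : ∀ i e, e ≤ nxt i → nxt (i + e) + e = nxt i := by
    intro i e he
    refine le_antisymm ?_ (nx3 i _ ?_)
    · have := nx3 (i + e) (nxt i - e) (by
        rw [add_assoc, Nat.add_sub_cancel' he]; exact nx1 i)
      omega
    · rw [add_comm _ e, ← add_assoc]; exact nx1 _
  have distinct : ∀ i, ∀ x ∈ Icc i (i + nxt i), ∀ y ∈ Icc i (i + nxt i),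
      Same v n x y → x = y := by
    intro i x hx y hy e
    rw [mem_Icc] at hx hy
    have a1 := nxadd i (x - i) (by omega)
    have a2 := nxadd i (y - i) (by omega)
    rw [Nat.add_sub_cancel' hx.1] at a1
    rw [Nat.add_sub_cancel' hy.1] at a2
    have := nxeq x y e
    omega
  have nxcx : ∀ a i, a ≤ i → nxt i + 1 ≤ cxF v n a := by
    intro a i hi
    have := card_le_cxF n a (Icc i (i + nxt i)) (fun x hx => hi.trans (mem_Icc.mp hx).1)
      (distinct i)
    rw [Nat.card_Icc] at this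
    omega
  obtain ⟨p, hp1, hp2⟩ : ∃ p : Bool → ℕ, (∀ b, Same v n (p b) s) ∧ ∀ b, v (p b + n) = b := by
    refine ⟨fun b => if v (s + n) = b then s else s', fun b => ?_, fun b => ?_⟩
    · dsimp only; split_ifs
      · exact Same.refl _ _ _
      · exact hs1.symm
    · dsimp only; split_ifs with hh
      · exact hh
      · revert hs2 hh; cases v (s + n) <;> cases v (s' + n) <;> cases b <;> simp
  have loop : ∀ i j, Same v n i s → Same v n j s → v (i + n) = v (j + n) →
      nxt (i + 1) = nxt (j + 1) ∧ Same v (1 + nxt (i + 1)) i j := by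
    intro i j a1 a2 a3
    have a4 := (a1.trans a2.symm).succ a3
    have a5 := a4.shift' 1 le_rfl
    refine ⟨nxeq _ _ a5, fun t ht => ?_⟩
    rcases Nat.eq_zero_or_pos t with rfl | ht0
    · exact a4 0 (by omega)
    · have := run _ _ a5 _ le_rfl (t - 1) (by omega)
      rwa [show i + 1 + (t - 1) = i + t by omega, show j + 1 + (t - 1) = j + t by omega] at this
  set u : Bool → ℕ := fun b => 1 + nxt (p b + 1) with hu
  let σ : ℕ → ℕ := fun j => Nat.rec (nxt 0) (fun _ q => q + (1 + nxt (q + 1))) j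
  have hσ0 : σ 0 = nxt 0 := rfl
  have hσs : ∀ j, σ (j + 1) = σ j + (1 + nxt (σ j + 1)) := fun j => rfl
  have hσsp : ∀ j, Same v n (σ j) s := by
    intro j
    cases j with
    | zero => simpa [hσ0] using nx1 0
    | succ j => rw [hσs, ← add_assoc]; exact nx1 _
  have hσp : ∀ j, nxt (σ j + 1) = nxt (p (v (σ j + n)) + 1) ∧
      Same v (1 + nxt (σ j + 1)) (σ j) (p (v (σ j + n))) :=
    fun j => loop _ _ (hσsp j) (hp1 _) (hp2 _).symm
  refine ⟨u, fun b => ones v (p b) (u b), σ, fun j => v (σ j + n), p, ?_, ?_, ?_, ?_,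
    fun _ => rfl, (hp1 _).trans (hp1 _).symm, fun b => ⟨?_, ?_⟩⟩
  · have := nxcx 0 0 le_rfl
    omega
  · intro j
    rw [hσs, (hσp j).1]
  · intro j j' e
    have := (loop _ _ (hσsp j) (hσsp j') e).2
    rwa [(hσp j).1] at this
  · intro j
    have := (hσp j).2
    rw [(hσp j).1] at this
    exact this.ones_eq
  · set w := u b with hw
    have hwpos : 0 < w := by simp only [hw, hu]; omega
    have w1 : Same v n (p b + w) s := by
      simp only [hw, hu]; rw [← add_assoc]; exact nx1 _
    have w2 : ∀ q, Same v n q s → Same v (n - w) q (q + w) := by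
      intro q hq t ht
      rw [hq t (by omega), add_assoc, hq (w + t) (by omega), ← hp1 b (w + t) (by omega),
        ← add_assoc, w1 t (by omega)]
    set a := nxt 0 with ha
    have ha1 : Same v n a s := by simpa using nx1 0
    have i1 := hrep _ _ _ (by omega) (w2 a ha1)
    have hb : ∃ i, ∃ j, a ≤ j ∧ Same v n i j := ⟨a, a, le_rfl, Same.refl _ _ _⟩
    set b0 := Nat.find hb with hb0
    have hb1 : b0 ≤ a := Nat.find_min' hb ⟨a, le_rfl, Same.refl _ _ _⟩
    have i2 : b0 + cxF v n a ≤ cxF v n 0 := by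
      have := card_add_cxF_le (v := v) n a (range b0)
        (fun i hi j hj e => Nat.find_min hb (mem_range.mp hi) ⟨j, hj, e⟩)
        (fun x hx y hy => distinct 0 x (by rw [mem_range] at hx; rw [mem_Icc]; omega) y
          (by rw [mem_range] at hy; rw [mem_Icc]; omega))
      rwa [card_range] at this
    have i3 := le_cxF hv n a
    have ht : ∃ t, ∃ q, a ≤ q ∧ Same v n q s ∧ Same v n b0 (q + t) := by
      obtain ⟨j, hj, e⟩ := Nat.find_spec hb
      exact ⟨j - a, a, le_rfl, ha1, by rwa [Nat.add_sub_cancel' hj]⟩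
    set t := Nat.find ht with htt
    obtain ⟨q, q1, q2, q3⟩ := Nat.find_spec ht
    rw [← htt] at q3
    have i4 : a + t ≤ 2 * n := by
      rcases Nat.eq_zero_or_pos t with e | e
      · have := nxcx 0 0 le_rfl
        omega
      · have k1 : t - 1 ≤ nxt (q + 1) := by
          by_contra k2
          refine Nat.find_min ht (m := t - 1 - nxt (q + 1)) (by omega)
            ⟨q + 1 + nxt (q + 1), by omega, nx1 _, ?_⟩
          rwa [show q + 1 + nxt (q + 1) + (t - 1 - nxt (q + 1)) = q + t by omega]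
        have k2 := nxadd (q + 1) (t - 1) k1
        rw [show q + 1 + (t - 1) = q + t by omega, ← nxeq _ _ q3] at k2
        have k3 := nxadd 0 b0 hb1
        rw [zero_add] at k3
        have k4 := nxcx a (q + 1) (by omega)
        omega
    have i5 : 5 * (n - w - t) ≤ 3 * (b0 + w) + c := by
      refine hrep _ b0 _ (by omega) fun r hr => ?_
      rw [q3 r (by omega), add_assoc b0, q3 (w + r) (by omega), add_assoc,
        w2 q q2 (t + r) (by omega)]
      congr 1; omega
    omega
  · have := nxcx 0 (p b + 1) (Nat.zero_le _)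
    simp only [hu]
    omega

end Pool.Agent.Lib.MP_7f88e4_nt
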