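import Pool.Agent.Lib.MP_7f88e4_nt.STBase
import Pool.Agent.Lib.MP_7f88e4_nt.Words

set_option autoImplicit false

namespace Pool.Agent.Lib.MP_7f88e4_nt

open Finset

/-- number of distinct factors of length `n` starting at positions `≤ N` -/
def cxL (v : ℕ → Bool) (n N : ℕ) : ℕ := ((range (N + 1)).image (fac v n)).card

/-- the factor of length `n` at `i` has two different continuations at positions `≤ N` -/
def Sp (v : ℕ → Bool) (n N i : ℕ) : Prop :=
  ∃ j j', j ≤ N ∧ j' ≤ N ∧ Same v n i j ∧ Same v n i j' ∧ v (j + n) ≠ v (j' + n)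

variable {v : ℕ → Bool} {n N : ℕ}

lemma Sp.of_same {i i' : ℕ} (h : Sp v n N i) (hs : Same v n i i') : Sp v n N i' := by
  obtain ⟨j, j', h1, h2, h3, h4, h5⟩ := h
  exact ⟨j, j', h1, h2, hs.symm.trans h3, hs.symm.trans h4, h5⟩

lemma next_eq {i i' : ℕ} (h : ¬ Sp v n N i) (hi : i ≤ N) (hi' : i' ≤ N) (hs : Same v n i i') :
    v (i + n) = v (i' + n) := by
  by_contra hne
  exact h ⟨i, i', hi, hi', Same.refl _ _ _, hs, hne⟩

lemma exists_same_of_lt {α : Type*} (F : Finset α) (f : α → ℕ) (hF : ∀ a ∈ F, f a ≤ N)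
    (h : cxL v n N < F.card) : ∃ a ∈ F, ∃ b ∈ F, a ≠ b ∧ Same v n (f a) (f b) := by
  obtain ⟨a, ha, b, hb, h1, h2⟩ := exists_ne_map_eq_of_card_lt_of_maps_to h
    (f := fun a => fac v n (f a))
    (fun a ha => mem_image_of_mem _ (mem_range.2 (Nat.lt_succ_of_le (hF a ha))))
  exact ⟨a, ha, b, hb, h1, fac_eq_iff.1 h2⟩

open Classical in
/-- the special factors -/
noncomputable def spF (v : ℕ → Bool) (n N : ℕ) : Finset (Fin n → Bool) :=
  ((range (N + 1)).image (fac v n)).filter (fun u => ∃ i, fac v n i = u ∧ Sp v n N i)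

lemma cxL_succ (v : ℕ → Bool) (n N : ℕ) : cxL v n N + (spF v n N).card ≤ cxL v (n + 1) N := by
  classical
  have hres : ∀ i, Fin.init (fac v (n + 1) i) = fac v n i := fun i => rfl
  rw [cxL, cxL, card_eq_sum_card_fiberwise (f := Fin.init) (s := (range (N + 1)).image (fac v (n + 1)))
    (t := (range (N + 1)).image (fac v n)) (fun w hw => by
      obtain ⟨i, hi, rfl⟩ := mem_image.1 hw
      exact mem_image_of_mem _ hi), spF, card_filter, card_eq_sum_ones, ← sum_add_distrib]
  refine sum_le_sum (fun u hu => ?_)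
  split_ifs with h
  · obtain ⟨i, rfl, j, j', h1, h2, h3, h4, h5⟩ := h
    refine one_lt_card.2 ⟨fac v (n + 1) j, ?_, fac v (n + 1) j', ?_, fun h => h5 ?_⟩
    · exact mem_filter.2 ⟨mem_image_of_mem _ (mem_range.2 (by omega)), fac_eq_iff.2 h3.symm⟩
    · exact mem_filter.2 ⟨mem_image_of_mem _ (mem_range.2 (by omega)), fac_eq_iff.2 h4.symm⟩
    · exact fac_eq_iff.1 h n (by omega)
  · obtain ⟨i, hi, rfl⟩ := mem_image.1 hu
    exact card_pos.2 ⟨_, mem_filter.2 ⟨mem_image_of_mem _ hi, rfl⟩⟩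

lemma cxL_mono (v : ℕ → Bool) (N : ℕ) : Monotone (fun n => cxL v n N) :=
  monotone_nat_of_le_succ (fun n => le_trans (Nat.le_add_right _ _) (cxL_succ v n N))

lemma exists_few_special {C : ℕ} (hn : 1 ≤ n) (h : cxL v n N ≤ C * n) :
    ∃ l, n ≤ 2 * l + 1 ∧ l < n ∧ ∃ cl : ℕ → Fin (2 * C + 1),
      ∀ i i', Sp v l N i → Sp v l N i' → cl i = cl i' → Same v l i i' := by
  classical
  obtain ⟨l, h1, h2, h3⟩ : ∃ l, n ≤ 2 * l + 1 ∧ l < n ∧ (spF v l N).card ≤ 2 * C + 1 := by
    by_contra hcon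
    push Not at hcon
    have : ∀ d, n / 2 + d ≤ n → d * (2 * C + 2) ≤ cxL v (n / 2 + d) N := by
      intro d
      induction d with
      | zero => simp
      | succ d ih =>
        intro hd
        have a1 := cxL_succ v (n / 2 + d) N
        have a2 := hcon (n / 2 + d) (by omega) (by omega)
        have a3 := ih (by omega)
        rw [← add_assoc, add_mul]
        omega
    have a1 := this (n - n / 2) (by omega)
    rw [show n / 2 + (n - n / 2) = n by omega] at a1
    have a2 : n ≤ 2 * (n - n / 2) := by omega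
    nlinarith
  obtain ⟨f⟩ := Function.Embedding.nonempty_of_card_le (α := spF v l N) (β := Fin (2 * C + 1))
    (by simpa using h3)
  have hmem : ∀ i, Sp v l N i → fac v l i ∈ spF v l N := by
    intro i hi
    obtain ⟨j, -, h4, -, h5, -⟩ := id hi
    refine mem_filter.2 ⟨?_, i, rfl, hi⟩
    rw [fac_eq_iff.2 h5]
    exact mem_image_of_mem _ (mem_range.2 (by omega))
  refine ⟨l, h1, h2, fun i => if h : fac v l i ∈ spF v l N then f ⟨_, h⟩ else 0,
    fun i i' hi hi' he => ?_⟩
  simp only [dif_pos (hmem i hi), dif_pos (hmem i' hi')] at he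
  exact fac_eq_iff.1 (congrArg Subtype.val (f.injective he))

lemma exists_next_special {M B m : ℕ} (hB : cxL v n N ≤ B) (hM : M ≤ N)
    (hrep : ∀ i i', i < i' → i' ≤ M → ¬ Same v (N - M) i i') (hm : m + B + 1 ≤ M) :
    ∃ d, d ≤ B + 1 ∧ 1 ≤ d ∧ Sp v n N (m + d) := by
  by_contra hcon
  push Not at hcon
  have key : ∀ a b, a < b → b < B + 1 → ¬ Same v n (m + 1 + a) (m + 1 + b) := by
    intro a b hab hb hs
    have : ∀ d, m + 1 + b + d ≤ N → Same v (n + d) (m + 1 + a) (m + 1 + b) ∧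
        ∀ e < d + (b - a), ¬ Sp v n N (m + 1 + a + e) := by
      intro d
      induction d with
      | zero =>
        refine fun _ => ⟨hs, fun e he => ?_⟩
        rw [show m + 1 + a + e = m + (1 + a + e) by ring]
        exact hcon _ (by omega) (by omega)
      | succ d ih =>
        intro hd
        obtain ⟨h1, h2⟩ := ih (by omega)
        have h3 := h1.shift' d le_rfl
        have h4 := h2 d (by omega)
        refine ⟨h1.succ ?_, fun e he => ?_⟩
        · have := next_eq h4 (by omega) (by omega) h3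
          rwa [add_assoc _ d n, add_assoc _ d n, add_comm d n] at this
        · rcases Nat.lt_succ_iff_lt_or_eq.1 (show e < d + (b - a) + 1 by omega) with h | h
          · exact h2 e h
          · intro h5
            rw [show m + 1 + a + e = m + 1 + b + d by omega] at h5
            exact h4 (h5.of_same h3.symm)
    exact hrep _ _ (by omega) (by omega) ((this (N - M) (by omega)).1.mono (by omega))
  obtain ⟨a, ha, b, hb, hab, hs⟩ := exists_same_of_lt (v := v) (n := n) (N := N) (range (B + 1))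
    (fun a => m + 1 + a) (fun a ha => by have := mem_range.1 ha; omega) (by simp; omega)
  rcases lt_or_gt_of_ne hab with h | h
  · exact key a b h (mem_range.1 hb) hs
  · exact key b a h (mem_range.1 ha) hs.symm

lemma same_of_det {m r : ℕ} (h : Same v (n + 1) m r) (d : ℕ) (hm : m + d ≤ N) (hr : r + d ≤ N)
    (hsp : ∀ e, 1 ≤ e → e ≤ d → ¬ Sp v n N (m + e)) : Same v (n + (d + 1)) m r := by
  induction d with
  | zero => exact h
  | succ d ih =>
    have h1 := ih (by omega) (by omega) (fun e a b => hsp e a (by omega))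
    refine h1.succ ?_
    have := next_eq (hsp (d + 1) (by omega) le_rfl) hm hr (h1.shift' (d + 1) le_rfl)
    rwa [add_assoc _ (d + 1) n, add_assoc _ (d + 1) n, add_comm (d + 1) n] at this

/-- distance to the next special position -/
noncomputable def nxd (v : ℕ → Bool) (n N m : ℕ) : ℕ := sInf {d | 1 ≤ d ∧ Sp v n N (m + d)}

section

variable {M B : ℕ} (hB : cxL v n N ≤ B) (hM : M ≤ N)
  (hrep : ∀ i i', i < i' → i' ≤ M → ¬ Same v (N - M) i i')
include hB hM hrep

lemma nxd_spec {m : ℕ} (hm : m + B + 1 ≤ M) :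
    nxd v n N m ≤ B + 1 ∧ 1 ≤ nxd v n N m ∧ Sp v n N (m + nxd v n N m) := by
  obtain ⟨d, h1, h2⟩ := exists_next_special hB hM hrep hm
  exact ⟨(Nat.sInf_le h2).trans h1, Nat.sInf_mem (s := {d | 1 ≤ d ∧ Sp v n N (m + d)}) ⟨d, h2⟩⟩

lemma nxd_same {m r : ℕ} (hm : m + B + 1 ≤ M) (hr : r + B + 1 ≤ M) (h : Same v (n + 1) m r) :
    Same v (n + nxd v n N m) m r := by
  obtain ⟨h1, h2, -⟩ := nxd_spec hB hM hrep hm
  have := same_of_det (N := N) h (nxd v n N m - 1) (by omega) (by omega) (fun e a b hs =>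
    Nat.notMem_of_lt_sInf (s := {d | 1 ≤ d ∧ Sp v n N (m + d)})
      (show e < nxd v n N m by omega) ⟨a, hs⟩)
  rwa [Nat.sub_add_cancel h2] at this

lemma nxd_le {m r : ℕ} (hm : m + B + 1 ≤ M) (hr : r + B + 1 ≤ M) (h : Same v (n + 1) m r) :
    nxd v n N r ≤ nxd v n N m := by
  obtain ⟨-, h2, h3⟩ := nxd_spec hB hM hrep hm
  exact Nat.sInf_le ⟨h2, h3.of_same ((nxd_same hB hM hrep hm hr h).shift' _ le_rfl)⟩

lemma cst_nxd (k : ℤ) {m r : ℕ} (hm : m + B + 1 ≤ M) (hr : r + B + 1 ≤ M)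
    (h : Same v (n + 1) m r) : cst k v m (nxd v n N m) = cst k v r (nxd v n N r) := by
  rw [le_antisymm (nxd_le hB hM hrep hm hr h) (nxd_le hB hM hrep hr hm h.symm)]
  exact ((nxd_same hB hM hrep hm hr h).mono (Nat.le_add_left _ _)).cst_eq k

end

lemma cst_comm (k : ℤ) {s r q q0 : ℕ} (hq : q + q0 ≤ n) (h : Same v n s r)
    (h1 : Same v n s (s + q)) (h2 : Same v n r (r + q0)) :
    cst k v s q * (2 ^ q0 - 3 ^ ones v r q0) = cst k v r q0 * (2 ^ q - 3 ^ ones v s q) := by
  have a1 : Same v q0 r s := h.symm.mono (by omega)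
  have a2 : Same v q0 (s + q) s := h1.symm.mono (by omega)
  have a3 : Same v q (s + q0) s :=
    ((h.shift q0).mono (by omega)).trans ((h2.symm.trans h.symm).mono (by omega))
  have b1 := cst_add k v s q q0
  have b2 := cst_add k v s q0 q
  rw [a2.ones_eq, a2.cst_eq k] at b1
  rw [a3.ones_eq, a3.cst_eq k, add_comm q0 q] at b2
  rw [a1.ones_eq, a1.cst_eq k]
  linear_combination b1 - b2

end Pool.Agent.Lib.MP_7f88e4_nt
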