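import Mathlib

set_option autoImplicit false

namespace Pool.Agent.Lib.MP_7f88e4_nt

open PowerSeries Finset Filter Topology

section eval

variable {R 𝕜 : Type*} [CommRing R] [NormedField 𝕜] (ψ : R →+* 𝕜) (z : 𝕜)

/-- absolute convergence of a specialised power series -/
def Conv (f : R⟦X⟧) : Prop := Summable fun n => ‖ψ (coeff n f) * z ^ n‖

/-- value of a specialised power series -/
noncomputable def evS (f : R⟦X⟧) : 𝕜 := ∑' n, ψ (coeff n f) * z ^ n

variable {ψ z}

lemma term_mul (f g : R⟦X⟧) (n : ℕ) : ψ (coeff n (f * g)) * z ^ n =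
    ∑ kl ∈ antidiagonal n, (ψ (coeff kl.1 f) * z ^ kl.1) * (ψ (coeff kl.2 g) * z ^ kl.2) := by
  rw [coeff_mul, map_sum, sum_mul]
  refine sum_congr rfl fun kl h => ?_
  rw [← mem_antidiagonal.mp h, map_mul, pow_add]; ring

lemma Conv.add {f g : R⟦X⟧} (hf : Conv ψ z f) (hg : Conv ψ z g) : Conv ψ z (f + g) := by
  refine Summable.of_nonneg_of_le (fun _ => norm_nonneg _) (fun n => ?_) (Summable.add hf hg)
  rw [map_add, map_add, add_mul]; exact norm_add_le _ _

lemma Conv.neg {f : R⟦X⟧} (hf : Conv ψ z f) : Conv ψ z (-f) := by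
  simpa [Conv] using hf

lemma Conv.mul {f g : R⟦X⟧} (hf : Conv ψ z f) (hg : Conv ψ z g) : Conv ψ z (f * g) := by
  have := summable_norm_sum_mul_antidiagonal_of_summable_norm
    (f := fun n => ψ (coeff n f) * z ^ n) (g := fun n => ψ (coeff n g) * z ^ n) hf hg
  exact this.congr fun n => by rw [term_mul]

lemma conv_coe (p : Polynomial R) : Conv ψ z (p : R⟦X⟧) := by
  refine summable_of_ne_finset_zero (s := range (p.natDegree + 1)) fun n hn => ?_
  rw [Polynomial.coeff_coe, Polynomial.coeff_eq_zero_of_natDegree_lt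
    (by rw [mem_range] at hn; omega)]
  simp

lemma evS_coe (p : Polynomial R) : evS ψ z (p : R⟦X⟧) = p.eval₂ ψ z := by
  rw [evS, tsum_eq_sum (s := range (p.natDegree + 1)), Polynomial.eval₂_eq_sum_range]
  · simp only [Polynomial.coeff_coe]
  · intro n hn
    rw [Polynomial.coeff_coe, Polynomial.coeff_eq_zero_of_natDegree_lt
      (by rw [mem_range] at hn; omega)]
    simp

variable (ψ z)

/-- the ring of absolutely convergent series -/
def convSub : Subring R⟦X⟧ where
  carrier := {f | Conv ψ z f}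
  mul_mem' := Conv.mul
  one_mem' := by simpa using conv_coe (ψ := ψ) (z := z) 1
  add_mem' := Conv.add
  zero_mem' := by simpa using conv_coe (ψ := ψ) (z := z) 0
  neg_mem' := Conv.neg

variable {ψ z} [CompleteSpace 𝕜]

lemma evS_add {f g : R⟦X⟧} (hf : Conv ψ z f) (hg : Conv ψ z g) :
    evS ψ z (f + g) = evS ψ z f + evS ψ z g := by
  simp only [evS, map_add, add_mul]
  exact Summable.tsum_add hf.of_norm hg.of_norm

lemma evS_mul {f g : R⟦X⟧} (hf : Conv ψ z f) (hg : Conv ψ z g) :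
    evS ψ z (f * g) = evS ψ z f * evS ψ z g := by
  simp only [evS, term_mul]
  exact (tsum_mul_tsum_eq_tsum_sum_antidiagonal_of_summable_norm hf hg).symm

variable (ψ z)

/-- evaluation as a ring homomorphism on any ring mapping into convergent series -/
noncomputable def evHom {S : Type*} [CommRing S] (i : S →+* R⟦X⟧) (h : ∀ s, Conv ψ z (i s)) :
    S →+* 𝕜 where
  toFun s := evS ψ z (i s)
  map_one' := by simpa using evS_coe (ψ := ψ) (z := z) 1
  map_mul' a b := by rw [map_mul, evS_mul (h a) (h b)]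
  map_zero' := by simpa using evS_coe (ψ := ψ) (z := z) 0
  map_add' a b := by rw [map_add, evS_add (h a) (h b)]

end eval

lemma root_transfer {C S K : Type*} [CommRing C] [CommRing S] [Field K] (i : C →+* S)
    (hi : Function.Injective i) (ev : C →+* K) (P : Polynomial C) {a b : C} {w : S}
    (h : i a = i b * w) (hw : P.eval₂ i w = 0) (hb : ev b ≠ 0) :
    P.eval₂ ev (ev a / ev b) = 0 := by
  have h1 : (P.scaleRoots b).eval a = 0 := by
    apply hi
    rw [← Polynomial.eval₂_at_apply, h, Polynomial.scaleRoots_eval₂_eq_zero i hw, map_zero]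
  have h2 := Polynomial.scaleRoots_eval₂_mul (p := P) ev (ev a / ev b) b
  rw [mul_div_cancel₀ _ hb, Polynomial.eval₂_at_apply, h1, map_zero] at h2
  exact (mul_eq_zero.mp h2.symm).resolve_left (pow_ne_zero _ hb)

/-- discrete Parseval inequality -/
lemma parseval {ι : Type*} (s : Finset ι) (β : ι → ℕ) (hβ : Set.InjOn β s) :
    ∃ m : ℕ, 0 < m ∧ ∃ ξ : ℂ, ‖ξ‖ = 1 ∧ ∀ t ⊆ s, ∀ a : ι → ℂ,
      ∑ j ∈ range m, ‖∑ i ∈ t, a i * (ξ ^ j) ^ β i‖ ^ 2 = m * ∑ i ∈ t, ‖a i‖ ^ 2 := by
  classical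
  set m := s.sup β + 1 with hm
  have hm0 : m ≠ 0 := by omega
  have hξ := Complex.isPrimitiveRoot_exp m hm0
  set ξ := Complex.exp (2 * Real.pi * Complex.I / m)
  have hn : ‖ξ‖ = 1 := hξ.norm'_eq_one hm0
  have hξ0 : ξ ≠ 0 := hξ.ne_zero hm0
  have hconj : (starRingEnd ℂ) ξ = ξ⁻¹ := (Complex.inv_eq_conj hn).symm
  refine ⟨m, by omega, ξ, hn, fun t ht a => ?_⟩
  have orth : ∀ i ∈ t, ∀ i' ∈ t, ∑ j ∈ range m, (ξ ^ β i * (ξ ^ β i')⁻¹) ^ j
      = if i = i' then (m : ℂ) else 0 := by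
    intro i hi i' hi'
    split_ifs with h
    · subst h; simp [hξ0]
    · have h1 : ξ ^ β i * (ξ ^ β i')⁻¹ ≠ 1 := by
        intro e
        rw [mul_inv_eq_one₀ (pow_ne_zero _ hξ0)] at e
        have a1 := le_sup (f := β) (ht hi)
        have a2 := le_sup (f := β) (ht hi')
        exact h (hβ (ht hi) (ht hi') (hξ.pow_inj (by omega) (by omega) e))
      rw [geom_sum_eq h1, mul_pow, inv_pow, ← pow_mul, ← pow_mul, mul_comm _ m, mul_comm _ m,
        pow_mul, pow_mul, hξ.pow_eq_one]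
      simp
  apply Complex.ofReal_injective
  push_cast
  simp only [← Complex.mul_conj', map_sum, map_mul, map_pow, hconj, sum_mul_sum]
  rw [sum_comm, mul_sum]
  refine sum_congr rfl fun i hi => ?_
  rw [sum_comm]
  have : ∀ i' ∈ t, ∑ j ∈ range m, a i * (ξ ^ j) ^ β i * ((starRingEnd ℂ) (a i') * (ξ⁻¹ ^ j) ^ β i')
      = a i * (starRingEnd ℂ) (a i') * if i = i' then (m : ℂ) else 0 := by
    intro i' hi'
    rw [← orth i hi i' hi', mul_sum]
    refine sum_congr rfl fun j _ => ?_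
    rw [mul_pow, ← pow_mul, ← pow_mul, ← pow_mul, ← inv_pow, ← pow_mul, mul_comm j, mul_comm j]
    ring
  rw [sum_congr rfl this]
  simp [hi, mul_comm]

end Pool.Agent.Lib.MP_7f88e4_nt
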