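import Pool.Agent.Lib.MP_7f88e4_nt.Regular2

set_option autoImplicit false

namespace Pool.Agent.Lib.MP_7f88e4_nt

open PowerSeries Finset Filter Topology

variable {r : ℕ} {θ : Fin r → ℝ} {τ : ℝ} {c0 : ℕ}

/-- exponents in a box -/
abbrev Box2 (r N : ℕ) : Type := Fin N × (Fin r → Fin N)

/-- the exponent vector attached to a point of a box -/
noncomputable def expo {N : ℕ} (ν : Fin r → Fin N) : Fin r →₀ ℕ :=
  Finsupp.equivFunOnFinite.symm fun i => ν i

@[simp] lemma expo_apply {N : ℕ} (ν : Fin r → Fin N) (i : Fin r) : expo ν i = ν i := rfl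

lemma expo_injective {N : ℕ} : Function.Injective (expo : (Fin r → Fin N) → _) :=
  fun _ _ h => funext fun i => Fin.ext (DFunLike.congr_fun h i)

/-- monomials in a box -/
noncomputable def mon {N : ℕ} (b : Box2 r N) : Polynomial (Rr r) :=
  Polynomial.monomial b.1 (MvPolynomial.monomial (expo b.2) 1)

/-- polynomials supported in a box -/
def Deg (r N : ℕ) : Set (Polynomial (Rr r)) := {p | ∃ c : Box2 r N → ℤ, p = ∑ b, c b • mon b}

lemma eq_zero_of_sum_mon {N : ℕ} {c : Box2 r N → ℤ} (h : ∑ b, c b • mon b = 0) : c = 0 := by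
  classical
  funext b
  have := congrArg (fun p => MvPolynomial.coeff (expo b.2) (Polynomial.coeff p b.1)) h
  simp only [Polynomial.finsetSum_coeff, MvPolynomial.coeff_sum, Polynomial.coeff_smul,
    MvPolynomial.coeff_smul, mon, Polynomial.coeff_monomial, Polynomial.coeff_zero,
    MvPolynomial.coeff_zero] at this
  rw [sum_eq_single b] at this
  · simpa using this
  · intro b' _ hb
    split_ifs with h1
    · rw [MvPolynomial.coeff_monomial, if_neg, smul_zero]
      exact fun h2 => hb (Prod.ext (Fin.ext h1) (expo_injective h2))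
    · simp
  · simp

lemma cone_mon {N : ℕ} (b : Box2 r N) : Cone c0 (mon b : (Rr r)⟦X⟧) N := fun n i => by
  rw [Polynomial.coeff_coe, mon, Polynomial.coeff_monomial]
  split_ifs
  · rw [MvPolynomial.degreeOf_monomial_eq _ _ one_ne_zero, expo_apply]
    have := (b.2 i).2
    omega
  · simp

variable (θ τ c0) in
/-- series divisible by a power of the variable -/
noncomputable def ordI (N : ℕ) : Ideal (nice θ τ c0) :=
  Ideal.comap (nice θ τ c0).val (Ideal.span {X ^ N})

lemma mem_ordI {N : ℕ} {f : nice θ τ c0} : f ∈ ordI θ τ c0 N ↔ X ^ N ∣ (f : (Rr r)⟦X⟧) :=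
  Ideal.mem_span_singleton

lemma ordI_div (β : nice θ τ c0) (hβ : β ≠ 0) :
    ∃ c : ℕ, ∀ N f, β * f ∈ ordI θ τ c0 N → f ∈ ordI θ τ c0 (N - c) := by
  obtain ⟨c, g, e, hg⟩ := exists_X_pow_mul (f := (β : (Rr r)⟦X⟧)) fun e => hβ (Subtype.ext e)
  refine ⟨c, fun N f h => ?_⟩
  rw [mem_ordI] at h ⊢
  rw [Subalgebra.coe_mul, e, mul_assoc] at h
  refine X_prime.pow_dvd_of_dvd_mul_left _ (fun h => hg (X_dvd_iff.mp h)) ?_
  have h1 := (pow_dvd_pow (X : (Rr r)⟦X⟧) (show c + (N - c) ≤ max N c by omega))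
  rcases le_total N c with h2 | h2
  · simp [Nat.sub_eq_zero_of_le h2]
  · rw [max_eq_left h2] at h1
    have := h1.trans h
    rwa [pow_add, mul_dvd_mul_iff_left (pow_ne_zero _ X_ne_zero)] at this

lemma exists_int_rel {U E : Type*} [Fintype U] [Fintype E] (v : U → E → ℤ)
    (h : Fintype.card E < Fintype.card U) : ∃ c : U → ℤ, c ≠ 0 ∧ ∀ e, ∑ u, c u * v u e = 0 := by
  have : ¬ LinearIndependent ℤ v := fun hv => by
    have := hv.fintype_card_le_finrank
    rw [Module.finrank_fintype_fun_eq_card] at this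
    omega
  obtain ⟨c, h1, u, h2⟩ := Fintype.not_linearIndependent_iff.mp this
  exact ⟨c, fun e => h2 (congrFun e u), fun e => by simpa using congrFun h1 e⟩

lemma ordI_siegel (κ : ℕ) : ∃ J : ℕ, ∀ D D' : ℕ, 0 < D → D' ≤ 2 * D →
    ∀ G : Fin (J + 1) → Fin D → Fin D' → nice θ τ c0, ∃ N0 : ℕ, ∀ N, N0 ≤ N →
      ∃ p : Fin (J + 1) → Fin D → Polynomial (Rr r), p ≠ 0 ∧ (∀ j i, p j i ∈ Deg r N) ∧
        ∀ m, ∑ j, ∑ i, algebraMap _ (nice θ τ c0) (p j i) * G j i m ∈ ordI θ τ c0 (κ * N) := by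
  classical
  obtain ⟨J, hJ⟩ : ∃ J, J = 2 * κ * (c0 * κ + 2) ^ r := ⟨_, rfl⟩
  refine ⟨J, fun D D' hD hD' G => ?_⟩
  choose c1 hc1 using fun t : Fin (J + 1) × Fin D × Fin D' => (G t.1 t.2.1 t.2.2).2.1
  refine ⟨univ.sup c1 + 1, fun N hN => ?_⟩
  obtain ⟨c, hc0, hc⟩ := exists_int_rel (U := Fin (J + 1) × Fin D × Box2 r N)
    (E := Fin D' × Fin (κ * N) × (Fin r → Fin ((c0 * κ + 2) * N)))
    (fun u e => MvPolynomial.coeff (expo e.2.2)
      (coeff e.2.1 ((mon u.2.2 : (Rr r)⟦X⟧) * G u.1 u.2.1 e.1))) (by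
      simp only [Fintype.card_prod, Fintype.card_fin, Fintype.card_fun, mul_pow]
      have h1 : 0 < D * (N * N ^ r) := by have : 0 < N := by omega
                                          positivity
      calc D' * (κ * N * ((c0 * κ + 2) ^ r * N ^ r))
          ≤ 2 * D * (κ * N * ((c0 * κ + 2) ^ r * N ^ r)) := by gcongr
        _ = J * (D * (N * N ^ r)) := by rw [hJ]; ring
        _ < _ := by nlinarith)
  refine ⟨fun j i => ∑ b, c (j, i, b) • mon b, fun e => hc0 ?_, fun j i => ⟨_, rfl⟩, fun m => ?_⟩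
  · funext ⟨j, i, b⟩
    exact congrFun (eq_zero_of_sum_mon (congrFun (congrFun e j) i)) b
  · rw [mem_ordI, X_pow_dvd_iff]
    intro n hn
    have e : ((∑ j, ∑ i, algebraMap _ (nice θ τ c0) (∑ b, c (j, i, b) • mon b) * G j i m :
        nice θ τ c0) : (Rr r)⟦X⟧) = ∑ u : Fin (J + 1) × Fin D × Box2 r N,
          c u • ((mon u.2.2 : (Rr r)⟦X⟧) * G u.1 u.2.1 m) := by
      simp only [AddSubmonoidClass.coe_finsetSum, Subalgebra.coe_mul, Subalgebra.coe_algebraMap,
        map_sum, map_zsmul, alg_coe, sum_mul, Fintype.sum_prod_type (α₁ := Fin (J + 1)),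
        Fintype.sum_prod_type (α₁ := Fin D), smul_mul_assoc, AddSubgroupClass.coe_zsmul]
    dsimp only
    rw [e]
    ext ν
    simp only [map_sum, map_zsmul, MvPolynomial.coeff_sum, MvPolynomial.coeff_smul, smul_eq_mul,
      MvPolynomial.coeff_zero]
    by_cases hν : ∀ i, ν i < (c0 * κ + 2) * N
    · have := hc (m, ⟨n, hn⟩, fun i => ⟨ν i, hν i⟩)
      have e2 : expo (fun i => (⟨ν i, hν i⟩ : Fin ((c0 * κ + 2) * N))) = ν := by ext; rfl
      simpa only [e2] using this
    · refine sum_eq_zero fun u _ => mul_eq_zero_of_right _ ?_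
      by_contra h
      refine hν fun i => ?_
      have a1 := ((cone_mon u.2.2).mul (hc1 (u.1, u.2.1, m))) n i
      have a2 := MvPolynomial.monomial_le_degreeOf i (MvPolynomial.mem_support_iff.mpr h)
      have a3 := le_sup (f := c1) (mem_univ (u.1, u.2.1, m))
      have a4 : c0 * n ≤ c0 * (κ * N) := Nat.mul_le_mul_left _ hn.le
      have a5 := a2.trans a1
      nlinarith

end Pool.Agent.Lib.MP_7f88e4_nt
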