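import Pool.Agent.Lib.MP_7f88e4_nt.Core

set_option autoImplicit false

namespace Pool.Agent.Lib.MP_7f88e4_nt

open Finset

lemma natCast_le_two_rpow (n : ℕ) : (n : ℝ) ≤ 2 ^ (n : ℝ) := by
  rw [Real.rpow_natCast]
  exact_mod_cast (Nat.lt_two_pow_self (n := n)).le

lemma two_rpow_mono {x y : ℝ} (h : x ≤ y) : (2 : ℝ) ^ x ≤ 2 ^ y :=
  Real.rpow_le_rpow_of_exponent_le (by norm_num) h

lemma two_rpow_add (x y : ℝ) : (2 : ℝ) ^ (x + y) = 2 ^ x * 2 ^ y := Real.rpow_add (by norm_num) _ _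

namespace Ctx

variable {ι : Type} [Fintype ι] {c : Ctx ι}

/-- lengths and weights are approximately proportional to the limit weight -/
def Box (c : Ctx ι) (δ K1 K2 : ℝ) (T : ℕ) : Prop :=
  ∀ ν : ℤ × ℤ, |(ν.1 : ℝ)| ≤ K1 → |wt c.θ ν| ≤ K2 →
    |(lin c.l0 c.l ν : ℝ) - wt c.θ ν * c.l| ≤ T ∧
      |(lin c.h0 c.h1 ν : ℝ) - δ * wt c.θ ν * c.l| ≤ T

omit [Fintype ι] in
lemma ww_nonneg (h : c.Ok) (p : ι × ℕ) : 0 ≤ c.ww p := by
  have h1 := (wt_pth_strictMono h.hθ c.ε).monotone (Nat.zero_le p.2)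
  simp only [wt_pth_zero] at h1
  have := h.hμ p.1
  rw [ww_eq]; linarith

omit [Fintype ι] in
lemma vec_fst_le (h : c.Ok) {S : ℕ} (hS : ∀ m, 0 ≤ (c.μ m).1 ∧ (c.μ m).1 ≤ S) {p : ι × ℕ} {A : ℝ}
    (hA : c.ww p ≤ A) : |((c.vec p).1 : ℝ)| ≤ S + A / c.θ := by
  have h1 := pth_fst_abs h.hθ c.ε 0 p.2
  have h2 := (wt_pth_strictMono h.hθ c.ε).monotone (Nat.zero_le p.2)
  simp only [wt_pth_zero] at h2
  rw [wt_pth_zero, sub_zero, abs_of_nonneg h2] at h1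
  simp only [pth, Prod.fst_zero, sub_zero] at h1
  have h3 := h.hμ p.1
  rw [ww_eq] at hA
  have h4 : |((pth c.ε p.2).1 : ℝ)| ≤ A / c.θ := by rw [le_div_iff₀ h.hθ]; linarith
  have h5 : |((c.μ p.1).1 : ℝ)| ≤ S := by
    rw [abs_of_nonneg (by exact_mod_cast (hS p.1).1)]; exact_mod_cast (hS p.1).2
  unfold vec
  rw [Prod.fst_add]
  push_cast
  exact (abs_add_le _ _).trans (add_le_add h5 h4)

omit [Fintype ι] in
lemma vec_sub_fst_le (h : c.Ok) {S : ℕ} (hS : ∀ m, 0 ≤ (c.μ m).1 ∧ (c.μ m).1 ≤ S) {N : ℝ}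
    (hN : ∀ m, wt c.θ (c.μ m) < N) {p p' : ι × ℕ} {A : ℝ}
    (hA : |c.ww p - c.ww p'| ≤ A) : |((c.vec p - c.vec p').1 : ℝ)| ≤ S + (A + N) / c.θ := by
  have h1 := pth_fst_abs h.hθ c.ε p'.2 p.2
  have h2 : |wt c.θ (pth c.ε p.2) - wt c.θ (pth c.ε p'.2)| ≤ A + N := by
    rw [ww_eq, ww_eq, abs_le] at hA
    have := h.hμ p.1
    have := h.hμ p'.1
    have := hN p.1
    have := hN p'.1
    rw [abs_le]; constructor <;> linarith [hA.1, hA.2]
  have h4 : |(((pth c.ε p.2).1 - (pth c.ε p'.2).1 : ℤ) : ℝ)| ≤ (A + N) / c.θ := by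
    rw [le_div_iff₀ h.hθ]; linarith
  have h5 : |((c.μ p.1).1 : ℝ) - (c.μ p'.1).1| ≤ S := by
    have a1 : (0 : ℝ) ≤ (c.μ p.1).1 := by exact_mod_cast (hS p.1).1
    have a2 : ((c.μ p.1).1 : ℝ) ≤ S := by exact_mod_cast (hS p.1).2
    have a3 : (0 : ℝ) ≤ (c.μ p'.1).1 := by exact_mod_cast (hS p'.1).1
    have a4 : ((c.μ p'.1).1 : ℝ) ≤ S := by exact_mod_cast (hS p'.1).2
    rw [abs_le]; constructor <;> linarith
  have e : ((c.vec p - c.vec p').1 : ℝ) = (((c.μ p.1).1 : ℝ) - (c.μ p'.1).1) +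
      (((pth c.ε p.2).1 - (pth c.ε p'.2).1 : ℤ) : ℝ) := by
    unfold vec
    simp only [Prod.fst_sub, Prod.fst_add]
    push_cast; ring
  rw [e]
  exact (abs_add_le _ _).trans (add_le_add h5 h4)

omit [Fintype ι] in
lemma ww_first_le (h : c.Ok) {N τ : ℝ} (hN : ∀ m, wt c.θ (c.μ m) < N) (hτ : N ≤ τ) {m : ι} {i : ℕ}
    (hi : ∀ i', i' < i → c.ww (m, i') < τ) : c.ww (m, i) ≤ τ + (c.θ + 1) := by
  have := h.hθ
  cases i with
  | zero =>
    rw [ww_eq, wt_pth_zero]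
    have := hN m
    simp only
    linarith
  | succ i =>
    have h1 := hi i (Nat.lt_succ_self i)
    have h2 := wt_pth_succ_le h.hθ c.ε i
    rw [ww_eq] at h1 ⊢
    simp only at h1 ⊢
    linarith

omit [Fintype ι] in
lemma chi_int_zero {δ K1 K2 : ℝ} {T : ℕ} (hB : c.Box δ K1 K2 T) (hK2 : 0 ≤ K2) {ν : ℤ × ℤ}
    (h1 : |(ν.1 : ℝ)| ≤ K1) (h2 : wt c.θ ν = 0) :
    ∃ a : ℤ, c.X ν * (2 ^ T * 3 ^ T) = a ∧ |(a : ℝ)| ≤ 2 ^ (7 * T : ℝ) := by
  obtain ⟨b1, b2⟩ := hB ν h1 (by rw [h2]; simpa using hK2)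
  rw [h2] at b1 b2
  simp only [zero_mul, mul_zero, sub_zero] at b1 b2
  rw [abs_le] at b1 b2
  obtain ⟨a, a1, a2⟩ := chi_int c.l0 c.l c.h0 c.h1 ν T T
    (by exact_mod_cast (by linarith [b1.1] : (0 : ℝ) ≤ lin c.l0 c.l ν + T))
    (by exact_mod_cast b2.2) (x := 4 * T) (by linarith [b1.2, b2.1])
  refine ⟨a, a1, a2.trans (two_rpow_mono ?_)⟩
  have : (0 : ℝ) ≤ T := by positivity
  linarith

/-- Step A: the auxiliary number vanishes. -/
lemma W_eq_zero (h : c.Ok) {δ K1 K2 : ℝ} {T : ℕ} (hB : c.Box δ K1 K2 T) (hδ0 : 0 ≤ δ) (hδ1 : δ ≤ 1)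
    {C S I0 : ℕ} (hS : ∀ m, 0 ≤ (c.μ m).1 ∧ (c.μ m).1 ≤ S) {N M : ℝ} (hNe : N = 10 * (C + 2))
    (hMe : M = 18 * (C + 2)) (hN : ∀ m, wt c.θ (c.μ m) < N) {x : ℝ} (hq : ∀ m, |(c.q m : ℝ)| ≤ 2 ^ x)
    (hz : |(c.z 0 : ℝ)| ≤ 2 ^ (C * c.l : ℝ)) (hD : |(c.D : ℝ)| ≤ 2 ^ (C * c.l : ℝ))
    (hR : ∀ p : ι × ℕ, N ≤ c.ww p → c.ww p < M → c.R (c.ww p) = 0)
    (hI0 : ⌈N / min c.θ 1⌉₊ + 1 ≤ I0)
    (hK1 : S + (M + (c.θ + 1)) / c.θ ≤ K1) (hK2 : M + (c.θ + 1) ≤ K2)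
    (hnum : Fintype.card ι + I0 + x + 10 * T + 10 ≤ c.l) : c.W N = 0 := by
  classical
  have hθ := h.hθ
  have hC : (0 : ℝ) ≤ C := by positivity
  have hl : (0 : ℝ) ≤ c.l := by positivity
  have hT : (0 : ℝ) ≤ T := by positivity
  have hNM : N ≤ M := by rw [hNe, hMe]; linarith
  have hN0 : 0 ≤ N := by rw [hNe]; linarith
  have hM0 : 0 ≤ M := hN0.trans hNM
  obtain ⟨Sb, hSb⟩ := exists_band h N M
  have e1 : c.W M = c.W N := by
    rw [W_sub h hNM Sb hSb, sum_eq_zero_of_R h Sb hSb hR]; ring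
  have hbox : ∀ p : ι × ℕ, c.ww p ≤ M + (c.θ + 1) →
      |(lin c.l0 c.l (c.vec p) : ℝ) - c.ww p * c.l| ≤ T ∧
      |(lin c.h0 c.h1 (c.vec p) : ℝ) - δ * c.ww p * c.l| ≤ T := by
    intro p hp
    refine hB _ ((vec_fst_le h hS hp).trans hK1) ?_
    have := ww_nonneg h p
    unfold ww at this hp
    rw [abs_of_nonneg this]; linarith
  have e2 : nv (c.W M) ≤ 2 ^ (-(M * c.l - T)) := by
    have := nv_W h M 0 (x := M * c.l - T) (fun m i h1 h2 => by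
      have h3 := (hbox _ (ww_first_le h hN hNM h2)).1
      rw [abs_le] at h3
      rw [sub_zero]
      nlinarith [h3.1])
    rwa [neg_zero, X, chi_zero, mul_one] at this
  by_contra hne
  have hh1 : (c.h1 : ℝ) ≤ c.l + T := by
    have := (hB (0, 1) (by
      simp only [Int.cast_zero, abs_zero]
      refine le_trans ?_ hK1; positivity) (by simp [wt]; linarith)).2
    simp only [lin, wt] at this
    push_cast at this
    rw [abs_le] at this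
    nlinarith [this.2]
  set f := ⌈δ * N * c.l⌉₊ + T with hf
  have hf1 : δ * N * c.l + T ≤ f := by
    rw [hf]; push_cast; linarith [Nat.le_ceil (δ * N * c.l)]
  have hf2 : (f : ℝ) ≤ δ * N * c.l + 1 + T := by
    rw [hf]; push_cast
    linarith [Nat.ceil_lt_add_one (show 0 ≤ δ * N * c.l by positivity)]
  have hchi : ∀ p : ι × ℕ, c.ww p < N → ∃ a : ℤ, c.X (c.vec p) * (2 ^ T * 3 ^ f) = a ∧
      |(a : ℝ)| ≤ 2 ^ (8 / 5 * (N * c.l + 4 * T + 1)) := by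
    intro p hp
    obtain ⟨b1, b2⟩ := hbox p (by linarith)
    have h0 := ww_nonneg h p
    rw [abs_le] at b1 b2
    have g1 : 0 ≤ c.ww p * c.l := by positivity
    have g2 : δ * c.ww p * c.l ≤ δ * N * c.l := by gcongr
    have g3 : (1 - δ) * (c.ww p * c.l) ≤ (1 - δ) * (N * c.l) := by
      have : 0 ≤ 1 - δ := by linarith
      gcongr
    refine chi_int _ _ _ _ _ T f
      (by exact_mod_cast (by linarith [b1.1] : (0 : ℝ) ≤ lin c.l0 c.l (c.vec p) + T))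
      (by exact_mod_cast (by linarith [b2.2] : (lin c.h0 c.h1 (c.vec p) : ℝ) ≤ f)) ?_
    nlinarith [b1.2, b2.1]
  set B : ℝ := 2 ^ (x + C * c.l + 8 / 5 * (c.l + T) + 8 / 5 * (N * c.l + 4 * T + 1)) with hBe
  have h3h : |((3 ^ c.h1 : ℤ) : ℝ)| ≤ 2 ^ (8 / 5 * ((c.l : ℝ) + T)) := by
    obtain ⟨a, a1, a2⟩ := chi_int c.l0 c.l c.h0 c.h1 0 0 c.h1 (by simp [lin]) (by simp [lin])
      (x := c.l + T) (by simp [lin]; linarith)
    rw [chi_zero] at a1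
    have : a = 3 ^ c.h1 := by exact_mod_cast (by rw [← a1]; ring : (a : ℚ) = 3 ^ c.h1)
    rwa [← this]
  obtain ⟨a1, a1e, a1b⟩ := sum_int univ (fun m => c.q m * c.X (c.μ m) * c.z 0)
    (2 ^ T * 3 ^ (f + c.h1)) (B := B) (fun m _ => by
      obtain ⟨a, ha1, ha2⟩ := hchi (m, 0) (by rw [ww_eq, wt_pth_zero]; simpa using hN m)
      have : c.vec (m, 0) = c.μ m := by simp [vec, pth]
      rw [this] at ha1
      refine ⟨c.q m * c.z 0 * 3 ^ c.h1 * a, ?_, ?_⟩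
      · push_cast; rw [← ha1]; ring
      · rw [Int.cast_mul, Int.cast_mul, Int.cast_mul, abs_mul, abs_mul, abs_mul, hBe,
          two_rpow_add, two_rpow_add, two_rpow_add]
        gcongr
        exact hq m)
  obtain ⟨a2, a2e, a2b⟩ := sum_int (c.Pf N) (fun p => (c.D : ℚ) / 3 ^ c.h1 * c.av p)
    (2 ^ T * 3 ^ (f + c.h1)) (B := B) (fun p hp => by
      obtain ⟨a, ha1, ha2⟩ := hchi p ((mem_Pf h).mp hp)
      unfold av
      split_ifs
      · refine ⟨c.q p.1 * c.D * 1 * a, ?_, ?_⟩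
        · push_cast; rw [← ha1]; field_simp; ring
        · rw [Int.cast_mul, Int.cast_mul, Int.cast_mul, abs_mul, abs_mul, abs_mul, hBe,
            two_rpow_add, two_rpow_add, two_rpow_add]
          have : |((1 : ℤ) : ℝ)| ≤ 2 ^ (8 / 5 * ((c.l : ℝ) + T)) := by
            simp only [Int.cast_one, abs_one]
            exact Real.one_le_rpow (by norm_num) (by positivity)
          gcongr
          exact hq p.1
      · exact ⟨0, by simp, by simp only [Int.cast_zero, abs_zero]; positivity⟩)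
  have e3 : c.W N * 2 ^ T * 3 ^ (f + c.h1) = ((a1 + a2 : ℤ) : ℚ) := by
    push_cast
    rw [← a1e, ← a2e, W, sum_mul, mul_sum]; ring
  have e4 : |((a1 + a2 : ℤ) : ℝ)| ≤ 2 ^ ((Fintype.card ι + I0 : ℝ) +
      (x + C * c.l + 8 / 5 * (c.l + T) + 8 / 5 * (N * c.l + 4 * T + 1))) := by
    rw [two_rpow_add, ← hBe, two_rpow_add]
    have g1 : ((c.Pf N).card : ℝ) ≤ Fintype.card ι * I0 := by
      exact_mod_cast (card_Pf N).trans (Nat.mul_le_mul_left _ hI0)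
    have g2 : (1 + I0 : ℝ) ≤ 2 ^ (I0 : ℝ) := by
      rw [Real.rpow_natCast]
      exact_mod_cast (by have := Nat.lt_two_pow_self (n := I0); omega : 1 + I0 ≤ 2 ^ I0)
    have g3 := natCast_le_two_rpow (Fintype.card ι)
    have hB0 : 0 ≤ B := by positivity
    rw [card_univ] at a1b
    push_cast
    calc |(a1 : ℝ) + a2| ≤ |(a1 : ℝ)| + |(a2 : ℝ)| := abs_add_le _ _
      _ ≤ Fintype.card ι * B + Fintype.card ι * I0 * B := by
        refine add_le_add a1b (a2b.trans ?_); gcongr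
      _ = Fintype.card ι * (1 + I0) * B := by ring
      _ ≤ _ := by gcongr
  have e5 := (nv_ge_of_int hne e3 e4).trans (e1 ▸ e2)
  rw [Real.rpow_le_rpow_left_iff (by norm_num)] at e5
  rw [hNe, hMe] at e5
  nlinarith [mul_nonneg hC hl]

/-- Step B: all class sums vanish. -/
lemma R_eq_zero (h : c.Ok) {δ K1 K2 : ℝ} {T : ℕ} (hB : c.Box δ K1 K2 T)
    {C S : ℕ} (hS : ∀ m, 0 ≤ (c.μ m).1 ∧ (c.μ m).1 ≤ S) {N : ℝ}
    (hN : ∀ m, wt c.θ (c.μ m) < N) {x : ℝ} (hq : ∀ m, |(c.q m : ℝ)| ≤ 2 ^ x)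
    (hD : |(c.D : ℝ)| ≤ 2 ^ (C * c.l : ℝ)) (hD0 : c.D ≠ 0) (hW : c.W N = 0)
    (hK1 : S + (C + 1 + (c.θ + 1) + N) / c.θ ≤ K1) (hK2 : C + 1 + (c.θ + 1) ≤ K2)
    {γ : ℝ} (hγ1 : γ ≤ 1)
    (hγ : ∀ ν : ℤ × ℤ, |(ν.1 : ℝ)| ≤ K1 → 0 < wt c.θ ν → γ ≤ wt c.θ ν)
    (hnum : Fintype.card ι + x + 10 * T + 10 ≤ γ * c.l) :
    ∀ p : ι × ℕ, N ≤ c.ww p → c.R (c.ww p) = 0 := by
  classical
  have hθ := h.hθ
  have hC : (0 : ℝ) ≤ C := by positivity
  have hl : (0 : ℝ) ≤ c.l := by positivity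
  have hT : (0 : ℝ) ≤ T := by positivity
  by_contra hc
  push Not at hc
  obtain ⟨p0, hp0, hp0'⟩ := hc
  obtain ⟨p1, hp1, hmin⟩ := exists_min_image
    ((c.Pf (c.ww p0 + 1)).filter fun p => N ≤ c.ww p ∧ c.R (c.ww p) ≠ 0) c.ww
    ⟨p0, mem_filter.mpr ⟨(mem_Pf h).mpr (by linarith), hp0, hp0'⟩⟩
  obtain ⟨hp1a, hp1b, hp1c⟩ := mem_filter.mp hp1
  rw [mem_Pf h] at hp1a
  set w := c.ww p1 with hw
  have e1 : c.W w = 0 := by
    obtain ⟨Sb, hSb⟩ := exists_band h N w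
    rw [W_sub h hp1b Sb hSb, sum_eq_zero_of_R h Sb hSb, hW]
    · ring
    · intro p h1 h2
      by_contra h3
      have := hmin p (mem_filter.mpr ⟨(mem_Pf h).mpr (by linarith), h1, h3⟩)
      linarith
  obtain ⟨Sb, hSb⟩ := exists_band h w (w + (C + 1))
  have e2 := W_sub h (by linarith : w ≤ w + (C + 1)) Sb hSb
  rw [e1, zero_add, ← sum_filter_add_sum_filter_not Sb (fun p => c.ww p = w)] at e2
  have e3 : Sb.filter (fun p => c.ww p = w) = c.Fib w := by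
    ext p
    rw [mem_filter, mem_Fib h, hSb]
    exact ⟨fun hh => hh.2, fun hh => ⟨⟨hh.ge, by linarith⟩, hh⟩⟩
  rw [e3] at e2
  have hbox : ∀ p : ι × ℕ, w ≤ c.ww p → c.ww p ≤ w + (C + 1) + (c.θ + 1) →
      |((c.vec p - c.vec p1).1 : ℝ)| ≤ K1 ∧ wt c.θ (c.vec p - c.vec p1) = c.ww p - w ∧
      (c.ww p - w) * c.l - T ≤ lin c.l0 c.l (c.vec p - c.vec p1) := by
    intro p h1 h2
    have h3 : |c.ww p - c.ww p1| ≤ C + 1 + (c.θ + 1) := by
      rw [abs_of_nonneg (by linarith)]; linarith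
    have h4 := (vec_sub_fst_le h hS hN h3).trans hK1
    have h5 : wt c.θ (c.vec p - c.vec p1) = c.ww p - w := wt_sub _ _ _
    have h6 := (hB _ h4 (by rw [h5]; exact h3.trans hK2)).1
    rw [h5, abs_le] at h6
    exact ⟨h4, h5, by linarith [h6.1]⟩
  have e4 : nv (c.W (w + (C + 1)) * c.X (-c.vec p1)) ≤ 2 ^ (-((C + 1) * c.l - T : ℝ)) := by
    refine nv_W h _ _ fun m i h1 h2 => ?_
    have h3 := (hbox (m, i) (by linarith) (ww_first_le h hN (by linarith) h2)).2.2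
    nlinarith
  have e5 : nv ((∑ p ∈ Sb.filter (fun p => ¬ c.ww p = w), c.av p) * c.X (-c.vec p1))
      ≤ 2 ^ (-(γ * c.l - T)) := by
    rw [sum_mul]
    refine nv_sum_le _ _ (by positivity) fun p hp => ?_
    obtain ⟨h1, h2⟩ := mem_filter.mp hp
    obtain ⟨h3, h4⟩ := (hSb p).mp h1
    obtain ⟨h5, h6, h7⟩ := hbox p h3 (by linarith)
    have h8 := hγ _ h5 (by rw [h6]; exact sub_pos.mpr (lt_of_le_of_ne h3 (Ne.symm h2)))
    rw [h6] at h8
    unfold av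
    split_ifs
    · have e : (c.q p.1 : ℚ) * c.X (c.vec p) * c.X (-c.vec p1)
          = c.q p.1 * c.X (c.vec p - c.vec p1) := by unfold X; rw [chi_sub]; ring
      rw [e, nv_mul]
      have h9 : nv (c.X (c.vec p - c.vec p1)) ≤ 2 ^ (-(γ * c.l - T)) := by
        unfold X
        rw [nv_chi]
        exact two_rpow_mono (by nlinarith)
      calc _ ≤ 1 * 2 ^ (-(γ * c.l - T)) := mul_le_mul (nv_int_le _) h9 (nv_nonneg _) zero_le_one
        _ = _ := one_mul _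
    · rw [zero_mul, nv_zero]; positivity
  have e6 : (2 : ℝ) ^ (-(C * c.l : ℝ)) ≤ nv ((c.D : ℚ) / 3 ^ c.h1) :=
    nv_ge_of_int (e := 0) (f := c.h1) (a := c.D)
      (div_ne_zero (by exact_mod_cast hD0) (by positivity)) (by field_simp) hD
  set ρ := c.R w * c.X (-c.vec p1) with hρ
  set rest := (∑ p ∈ Sb.filter (fun p => ¬ c.ww p = w), c.av p) * c.X (-c.vec p1) with hrest
  have e7 : c.W (w + (C + 1)) * c.X (-c.vec p1) = (c.D : ℚ) / 3 ^ c.h1 * (ρ + rest) := by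
    rw [e2, hρ, hrest, R]; ring
  have e8 : nv (ρ + rest) ≤ 2 ^ (-(γ * c.l - T)) := by
    rw [e7, nv_mul] at e4
    have h1 : (2 : ℝ) ^ (-(C * c.l : ℝ)) * nv (ρ + rest)
        ≤ 2 ^ (-(C * c.l : ℝ)) * 2 ^ (-(c.l - T : ℝ)) := by
      rw [← two_rpow_add]
      calc _ ≤ nv ((c.D : ℚ) / 3 ^ c.h1) * nv (ρ + rest) :=
            mul_le_mul_of_nonneg_right e6 (nv_nonneg _)
        _ ≤ _ := e4
        _ = _ := by congr 1; ring
    exact (le_of_mul_le_mul_left h1 (by positivity)).trans (two_rpow_mono (by nlinarith))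
  have e9 : nv ρ ≤ 2 ^ (-(γ * c.l - T)) := by
    have : ρ = (ρ + rest) + (-rest) := by ring
    rw [this]
    exact (nv_add_le _ _).trans (max_le e8 (by rw [nv_neg]; exact e5))
  obtain ⟨a, ae, ab⟩ := sum_int (c.Fib w) (fun p => c.av p * c.X (-c.vec p1))
    (2 ^ T * 3 ^ T) (B := 2 ^ (x + 7 * T)) (fun p hp => by
      have h1 := (mem_Fib h).mp hp
      obtain ⟨h5, h6, _⟩ := hbox p h1.ge (by linarith)
      obtain ⟨a, ha1, ha2⟩ := chi_int_zero hB (by linarith) h5 (by rw [h6, h1, sub_self])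
      unfold av
      split_ifs
      · refine ⟨c.q p.1 * a, ?_, ?_⟩
        · push_cast
          rw [← ha1]; unfold X; rw [chi_sub]; ring
        · rw [Int.cast_mul, abs_mul, two_rpow_add]
          gcongr
          exact hq p.1
      · exact ⟨0, by simp, by simp only [Int.cast_zero, abs_zero]; positivity⟩)
  have e10 : ρ * 2 ^ T * 3 ^ T = a := by rw [← ae, hρ, R, sum_mul]; ring
  have e11 : |(a : ℝ)| ≤ 2 ^ ((Fintype.card ι : ℝ) + (x + 7 * T)) := by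
    rw [two_rpow_add]
    refine ab.trans ?_
    have g1 : ((c.Fib w).card : ℝ) ≤ Fintype.card ι := by exact_mod_cast card_Fib h w
    have g3 := natCast_le_two_rpow (Fintype.card ι)
    gcongr
    exact g1.trans g3
  have e12 := (nv_ge_of_int (mul_ne_zero hp1c (chi_ne_zero _ _ _ _ _)) e10 e11).trans e9
  rw [Real.rpow_le_rpow_left_iff (by norm_num)] at e12
  linarith

end Ctx

end Pool.Agent.Lib.MP_7f88e4_nt
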