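import Mathlib

set_option autoImplicit false

namespace Pool.Agent.Lib.MP_7f88e4_nt

open TensorProduct Polynomial Module

variable {k M : Type*} [Field k] [Field M] [Algebra k M]

lemma natDegree_minpoly_le (h : ∀ w : M, IsIntegral k w → ∃ c : k, algebraMap k M c = w)
    {N : Type*} [Field N] [Algebra M N] [Algebra k N] [IsScalarTower k M N] {x : N}
    (hx : IsIntegral k x) : (minpoly k x).natDegree ≤ (minpoly M x).natDegree := by
  have hx' : IsIntegral M x := hx.tower_top
  have h1 := integralClosure.mem_lifts_of_monic_of_dvd_map M (minpoly.monic hx)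
    (minpoly.monic hx') (minpoly.dvd_map_of_isScalarTower k M x)
  have h2 : minpoly M x ∈ lifts (algebraMap k M) := by
    rw [lifts_iff_coeff_lifts] at h1 ⊢
    intro n
    obtain ⟨⟨y, hy⟩, e⟩ := h1 n
    obtain ⟨c, hc⟩ := h y hy
    exact ⟨c, hc.trans e⟩
  obtain ⟨g, g1, g2, g3⟩ := lifts_and_natDegree_eq_and_monic h2 (minpoly.monic hx')
  rw [← g2]
  refine natDegree_le_natDegree (minpoly.min k x g3 ?_)
  rw [← aeval_map_algebraMap M, g1, minpoly.aeval]

lemma tensor_mul_ne_zero_finite [CharZero k]
    (h : ∀ w : M, IsIntegral k w → ∃ c : k, algebraMap k M c = w)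
    (E : Type*) [Field E] [Algebra k E] [FiniteDimensional k E] {a b : M ⊗[k] E}
    (ha : a ≠ 0) (hb : b ≠ 0) : a * b ≠ 0 := by
  let N := AlgebraicClosure M
  let pb : PowerBasis k E := Field.powerBasisOfFiniteOfSeparable k E
  let σ : E →ₐ[k] N := IsAlgClosed.lift
  let Φ : M ⊗[k] E →ₐ[M] N := Algebra.TensorProduct.lift (Algebra.ofId M N) σ
    fun _ _ => Commute.all _ _
  have hint : IsIntegral k (σ pb.gen) := pb.isIntegral_gen.map σ
  have hdim : pb.dim ≤ (minpoly M (σ pb.gen)).natDegree := by
    refine le_trans (le_of_eq ?_) (natDegree_minpoly_le h hint)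
    rw [minpoly.algHom_eq σ σ.injective, pb.natDegree_minpoly]
  have hli : LinearIndependent M
      (Φ.toLinearMap ∘ Algebra.TensorProduct.basis M pb.basis) := by
    have := (linearIndependent_pow (K := M) (σ pb.gen)).comp (Fin.castLE hdim)
      (Fin.castLE_injective _)
    have e : (Φ.toLinearMap ∘ Algebra.TensorProduct.basis M pb.basis)
        = (fun i : Fin (minpoly M (σ pb.gen)).natDegree => σ pb.gen ^ (i : ℕ)) ∘
          Fin.castLE hdim := by
      funext i
      simp [Φ, Algebra.TensorProduct.basis_apply]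
    rw [e]; exact this
  have hinj : Function.Injective Φ :=
    LinearMap.injective_of_linearIndependent (Algebra.TensorProduct.basis M pb.basis).span_eq hli
  intro e
  have := congrArg Φ e
  rw [map_mul, map_zero, mul_eq_zero] at this
  rcases this with e' | e'
  · exact ha (hinj (e'.trans (map_zero Φ).symm))
  · exact hb (hinj (e'.trans (map_zero Φ).symm))

lemma exists_coord {B : Type*} [CommRing B] [Algebra k B] {a : M ⊗[k] B} (ha : a ≠ 0) :
    ∃ f : M →ₗ[k] k, TensorProduct.lid k B (f.rTensor B a) ≠ 0 := by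
  classical
  by_contra hc
  push Not at hc
  refine ha ((TensorProduct.equivFinsuppOfBasisLeft (Basis.ofVectorSpace k M)).injective ?_)
  ext i
  rw [TensorProduct.equivFinsuppOfBasisLeft_apply, hc]
  simp

lemma coord_map {B E : Type*} [CommRing B] [Algebra k B] [CommRing E] [Algebra k E]
    (π : B →ₐ[k] E) (f : M →ₗ[k] k) (a : M ⊗[k] B) :
    TensorProduct.lid k E (f.rTensor E (Algebra.TensorProduct.map (AlgHom.id k M) π a))
      = π (TensorProduct.lid k B (f.rTensor B a)) := by
  induction a with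
  | zero => simp
  | tmul m b => simp
  | add x y hx hy => simp only [map_add, hx, hy]

/-- The tensor product of a regular extension with a finitely generated domain is a domain. -/
lemma tensor_mul_ne_zero [CharZero k]
    (h : ∀ w : M, IsIntegral k w → ∃ c : k, algebraMap k M c = w)
    (B : Type*) [CommRing B] [IsDomain B] [Algebra k B] [Algebra.FiniteType k B]
    {a b : M ⊗[k] B} (ha : a ≠ 0) (hb : b ≠ 0) : a * b ≠ 0 := by
  obtain ⟨f, hf⟩ := exists_coord ha
  obtain ⟨g, hg⟩ := exists_coord hb
  have hJ : IsJacobsonRing B := isJacobsonRing_of_finiteType (A := k)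
  have h1 : (⊥ : Ideal B).jacobson = ⊥ := hJ.out Ideal.isPrime_bot.isRadical
  have h2 : TensorProduct.lid k B (f.rTensor B a) * TensorProduct.lid k B (g.rTensor B b)
      ∉ (⊥ : Ideal B).jacobson := by
    rw [h1, Ideal.mem_bot]; exact mul_ne_zero hf hg
  rw [Ideal.jacobson, Ideal.mem_sInf] at h2
  push Not at h2
  obtain ⟨I, ⟨-, hI⟩, h3⟩ := h2
  letI : Field (B ⧸ I) := Ideal.Quotient.field I
  have : Module.Finite k (B ⧸ I) := finite_of_finite_type_of_isJacobsonRing k (B ⧸ I)
  have key : ∀ (c : M ⊗[k] B) (φ : M →ₗ[k] k), TensorProduct.lid k B (φ.rTensor B c) ∉ I →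
      Algebra.TensorProduct.map (AlgHom.id k M) (Ideal.Quotient.mkₐ k I) c ≠ 0 := by
    intro c φ hc e
    have := coord_map (Ideal.Quotient.mkₐ k I) φ c
    rw [e, map_zero, map_zero] at this
    exact hc (Ideal.Quotient.eq_zero_iff_mem.mp this.symm)
  intro e
  refine tensor_mul_ne_zero_finite h (B ⧸ I) (key a f fun hh => h3 (I.mul_mem_right _ hh))
    (key b g fun hh => h3 (I.mul_mem_left _ hh)) ?_
  rw [← map_mul, e, map_zero]

end Pool.Agent.Lib.MP_7f88e4_nt
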