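import Pool.Agent.Lib.MP_7f88e4_nt.Rigid

set_option autoImplicit false

namespace Pool.Agent.Lib.MP_7f88e4_nt

open Finset

/-- rigidity of a tuple of block parameters -/
def Rig (C l0 l h0 h1 : ℕ) : Prop :=
  ∀ (ε : ℕ → Bool) (z : ℕ → ℤ) (D : ℤ),
    (∀ j, ε j = false → 2 ^ l0 * z (j + 1) = 3 ^ h0 * z j) →
    (∀ j, ε j = true → 2 ^ l * z (j + 1) = 3 ^ h1 * z j + D) →
    |(z 0 : ℝ)| ≤ 2 ^ (C * l : ℝ) → |(D : ℝ)| ≤ 2 ^ (C * l : ℝ) → D ≠ 0 →
    ∃ i j, i < j ∧ ∀ t, ε (i + t) = ε (j + t)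

lemma pointwise (θ δ : ℝ) (hθ : 0 < θ) (hδ0 : 0 ≤ δ) (hδ1 : δ ≤ 1) (C : ℕ) :
    ∃ η : ℝ, 0 < η ∧ ∃ L : ℕ, ∀ l0 l h0 h1 : ℕ, L ≤ l → |(l0 : ℝ) - θ * l| ≤ η * l →
      |(h1 : ℝ) - δ * l| ≤ η * l → |(h0 : ℝ) - δ * θ * l| ≤ η * l → Rig C l0 l h0 h1 := by
  obtain ⟨K1, K2, B, hK1, hK2, hB, h⟩ := core θ δ hθ hδ0 hδ1 C
  set K : ℝ := K1 + (K2 + θ * K1) + 1 with hK
  have hKpos : 0 < K := by positivity
  refine ⟨1 / (2 * B * K), by positivity, ⌈4 * B⌉₊, ?_⟩
  intro l0 l h0 h1 hL e1 e2 e3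
  set η : ℝ := 1 / (2 * B * K) with hη
  have hηpos : 0 < η := by positivity
  have hl : (0 : ℝ) ≤ l := by positivity
  have hL' : 4 * B ≤ l := (Nat.le_ceil _).trans (by exact_mod_cast hL)
  have hT1 : η * K * l ≤ (⌈η * K * l⌉₊ : ℕ) := Nat.le_ceil _
  have hT2 : ((⌈η * K * l⌉₊ : ℕ) : ℝ) < η * K * l + 1 := Nat.ceil_lt_add_one (by positivity)
  refine h l0 l h0 h1 ⌈η * K * l⌉₊ ?_ ?_
  · intro ν n1 n2
    have n3 : |(ν.2 : ℝ)| ≤ K2 + θ * K1 := by
      have : (ν.2 : ℝ) = wt θ ν - θ * ν.1 := by simp only [wt]; ring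
      rw [this]
      refine (abs_sub _ _).trans ?_
      rw [abs_mul, abs_of_pos hθ]
      gcongr
    have hp : 0 ≤ η * l := by positivity
    constructor
    · have : (lin l0 l ν : ℝ) - wt θ ν * l = ν.1 * (l0 - θ * l) := by
        simp only [lin, wt]; push_cast; ring
      rw [this, abs_mul]
      refine le_trans ?_ hT1
      calc _ ≤ K1 * (η * l) := by gcongr
        _ ≤ K * (η * l) := by
          gcongr
          have : 0 ≤ K2 + θ * K1 := by positivity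
          linarith
        _ = _ := by ring
    · have : (lin h0 h1 ν : ℝ) - δ * wt θ ν * l
          = ν.1 * (h0 - δ * θ * l) + ν.2 * (h1 - δ * l) := by
        simp only [lin, wt]; push_cast; ring
      rw [this]
      refine (abs_add_le _ _).trans (le_trans ?_ hT1)
      rw [abs_mul, abs_mul]
      calc _ ≤ K1 * (η * l) + (K2 + θ * K1) * (η * l) := by gcongr
        _ ≤ K * (η * l) := by rw [hK]; nlinarith
        _ = _ := by ring
  · have : B * (η * K * l) = l / 2 := by rw [hη]; field_simp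
    nlinarith

lemma uniform (C : ℕ) : ∃ η : ℝ, 0 < η ∧ ∃ L : ℕ, ∀ l0 l h0 h1 : ℕ, L ≤ l → l ≤ C * l0 →
    l0 ≤ C * l → h1 ≤ l → |(h0 : ℝ) * l - h1 * l0| ≤ η * (l0 * l) → Rig C l0 l h0 h1 := by
  have hC : (0 : ℝ) ≤ C := by positivity
  have hK : IsCompact (Set.Icc (1 / ((C : ℝ) + 1)) (C + 1) ×ˢ Set.Icc (0 : ℝ) 1) :=
    isCompact_Icc.prod isCompact_Icc
  have key := hK.induction_on (p := fun s => ∃ η : ℝ, 0 < η ∧ ∃ L : ℕ, ∀ l0 l h0 h1 : ℕ,
      L ≤ l → 0 < l → ((l0 : ℝ) / l, (h1 : ℝ) / l) ∈ s → l0 ≤ C * l → h1 ≤ l →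
      |(h0 : ℝ) * l - h1 * l0| ≤ η * (l0 * l) → Rig C l0 l h0 h1)
    ⟨1, one_pos, 0, fun _ _ _ _ _ _ h => absurd h (Set.notMem_empty _)⟩
    (fun s t hst ⟨η, hη, L, h⟩ => ⟨η, hη, L, fun l0 l h0 h1 a b c => h l0 l h0 h1 a b (hst c)⟩)
    (fun s t ⟨η, hη, L, h⟩ ⟨η', hη', L', h'⟩ => ⟨min η η', lt_min hη hη', max L L',
      fun l0 l h0 h1 a b c d e f => by
        have hp : (0 : ℝ) ≤ l0 * l := by positivity
        rcases c with c | c
        · exact h l0 l h0 h1 (le_of_max_le_left a) b c d e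
            (f.trans (mul_le_mul_of_nonneg_right (min_le_left _ _) hp))
        · exact h' l0 l h0 h1 (le_of_max_le_right a) b c d e
            (f.trans (mul_le_mul_of_nonneg_right (min_le_right _ _) hp))⟩)
    (by
      rintro ⟨θ, δ⟩ ⟨⟨a1, a2⟩, a3, a4⟩
      have hθ : 0 < θ := lt_of_lt_of_le (by positivity) a1
      obtain ⟨η, hη, L, h⟩ := pointwise θ δ hθ a3 a4 C
      set r : ℝ := η / (2 * C + 3) with hr
      have hrpos : 0 < r := by positivity
      have hrη : r * (2 * C + 3) = η := by rw [hr]; field_simp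
      refine ⟨Metric.ball (θ, δ) r, mem_nhdsWithin_of_mem_nhds (Metric.ball_mem_nhds _ hrpos),
        r, hrpos, L, ?_⟩
      intro l0 l h0 h1 b1 b2 b3 b4 b5 b6
      have hl : (0 : ℝ) < l := by exact_mod_cast b2
      rw [Metric.mem_ball, Prod.dist_eq, max_lt_iff, Real.dist_eq, Real.dist_eq] at b3
      obtain ⟨c1, c2⟩ := b3
      change |(l0 : ℝ) / l - θ| < r at c1
      change |(h1 : ℝ) / l - δ| < r at c2
      change θ ≤ C + 1 at a2
      have d1 : |(l0 : ℝ) - θ * l| ≤ r * l := by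
        have : (l0 : ℝ) - θ * l = (l0 / l - θ) * l := by field_simp
        rw [this, abs_mul, abs_of_pos hl]; gcongr
      have d2 : |(h1 : ℝ) - δ * l| ≤ r * l := by
        have : (h1 : ℝ) - δ * l = (h1 / l - δ) * l := by field_simp
        rw [this, abs_mul, abs_of_pos hl]; gcongr
      have hrl : r * l ≤ η * l := by
        gcongr
        nlinarith
      refine h l0 l h0 h1 b1 (d1.trans hrl) (d2.trans hrl) ?_
      have b4' : (l0 : ℝ) ≤ C * l := by exact_mod_cast b4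
      have b5' : (h1 : ℝ) ≤ l := by exact_mod_cast b5
      have d3 : ((h0 : ℝ) - δ * θ * l) * l
          = (h0 * l - h1 * l0) + h1 * (l0 - θ * l) + θ * l * (h1 - δ * l) := by ring
      have d4 : |((h0 : ℝ) - δ * θ * l) * l| ≤ (η * l) * l := by
        rw [d3]
        refine (abs_add_three _ _ _).trans ?_
        rw [abs_mul, abs_mul, abs_mul, abs_of_pos hθ, abs_of_pos hl, Nat.abs_cast]
        calc _ ≤ r * ((C * l) * l) + l * (r * l) + (C + 1) * l * (r * l) := by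
              refine add_le_add (add_le_add (b6.trans ?_) ?_) ?_ <;> gcongr
          _ = r * (2 * C + 2) * l * l := by ring
          _ ≤ _ := by
              gcongr
              nlinarith
      rw [abs_mul, abs_of_pos hl] at d4
      exact le_of_mul_le_mul_right d4 hl)
  obtain ⟨η, hη, L, h⟩ := key
  refine ⟨η, hη, L + 1, fun l0 l h0 h1 a b c d e => h l0 l h0 h1 (by omega) (by omega) ?_ c d e⟩
  have hl : (0 : ℝ) < l := by exact_mod_cast (by omega : 0 < l)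
  have b' : (l : ℝ) ≤ C * l0 := by exact_mod_cast b
  have c' : (l0 : ℝ) ≤ C * l := by exact_mod_cast c
  have d' : (h1 : ℝ) ≤ l := by exact_mod_cast d
  have l0' : (0 : ℝ) ≤ l0 := by positivity
  refine ⟨⟨?_, ?_⟩, by positivity, (div_le_one hl).mpr d'⟩
  · rw [div_le_div_iff₀ (by positivity) hl]; nlinarith
  · rw [div_le_iff₀ hl]; nlinarith

end Pool.Agent.Lib.MP_7f88e4_nt
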